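import Pool.Agent.Lib_helper4.CW.Flds

/-!
Real quadratic fields with small units: the fields of the list.
-/

namespace Pool.Agent.SU

open scoped NumberField
open Pool.Agent.LibH4

/-- the check of squarefreeness -/
def sqfB (d : ℕ) : Bool :=
  decide (0 < d) && decide (d < 14400) &&
    (List.range 120).all fun k => decide (k < 2) || decide (d % (k * k) ≠ 0)

lemma sqf_of_sqfB {d : ℕ} (h : sqfB d = true) : Squarefree d := by
  unfold sqfB at h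
  simp only [Bool.and_eq_true, decide_eq_true_eq, List.all_eq_true, Bool.or_eq_true,
    List.mem_range] at h
  obtain ⟨⟨h0, h1⟩, h2⟩ := h
  intro x hx
  have h3 : x * x ≤ d := Nat.le_of_dvd h0 hx
  have h4 : x < 120 := by nlinarith
  rcases h2 x h4 with h5 | h5
  · have : x = 1 := by
      rcases Nat.eq_zero_or_pos x with h6 | h6
      · rw [h6, zero_mul, zero_dvd_iff] at hx
        omega
      · omega
    rw [this]
    exact isUnit_one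
  · exact absurd (Nat.mod_eq_zero_of_dvd hx) h5

/-- the check of a field `(d, a, b, W)`: a unit and the witnesses `(p, r, i)` -/
def okF (X : ℕ) (e : ℕ × ℕ × ℕ × List (ℕ × ℤ × ℤ)) : Bool :=
  decide (1 < e.1) && sqfB e.1 && decide (1 ≤ e.2.2.1) && decide (e.2.2.1 ≤ X) &&
    (decide (e.2.1 * e.2.1 = e.1 * (e.2.2.1 * e.2.2.1) + 4) ||
      decide (e.2.1 * e.2.1 + 4 = e.1 * (e.2.2.1 * e.2.2.1))) &&
    (FU.chk e.1 e.2.2.2 || CW.chkE e.1 e.2.2.2)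

lemma okF_spec {X : ℕ} {e : ℕ × ℕ × ℕ × List (ℕ × ℤ × ℤ)} (h : okF X e = true) :
    1 < e.1 ∧ Squarefree e.1 ∧ 1 ≤ e.2.2.1 ∧ e.2.2.1 ≤ X ∧
      ((e.2.1 : ℤ) ^ 2 - e.1 * (e.2.2.1 : ℤ) ^ 2 = 4 ∨
        (e.2.1 : ℤ) ^ 2 - e.1 * (e.2.2.1 : ℤ) ^ 2 = -4) ∧
      UniqueFactorizationMonoid (𝓞 (KQ e.1)) := by
  unfold okF at h
  simp only [Bool.and_eq_true, decide_eq_true_eq, Bool.or_eq_true] at h
  obtain ⟨⟨⟨⟨⟨h1, h2⟩, h3⟩, h4⟩, h5⟩, h6⟩ := h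
  have hsq := sqf_of_sqfB h2
  refine ⟨h1, hsq, h3, h4, ?_, ?_⟩
  · rcases h5 with h5 | h5
    · left
      have : ((e.2.1 * e.2.1 : ℕ) : ℤ) = ((e.1 * (e.2.2.1 * e.2.2.1) + 4 : ℕ) : ℤ) := by rw [h5]
      push_cast at this
      linear_combination this
    · right
      have : ((e.2.1 * e.2.1 + 4 : ℕ) : ℤ) = ((e.1 * (e.2.2.1 * e.2.2.1) : ℕ) : ℤ) := by rw [h5]
      push_cast at this
      linear_combination this
  · rcases h6 with h6 | h6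
    · exact FU.ufd_of_chk h6 hsq h1
    · exact CW.ufd_of_chkE h6 hsq h1

/-- the fields -/
def FL : List (ℕ × ℕ × ℕ × List (ℕ × ℤ × ℤ)) :=
  [(2, 2, 2, []), (3, 4, 2, []), (5, 3, 1, []), (6, 10, 4, [(2, 2, 1)]), (7, 16, 6, [(2, 3, 1)]),
  (11, 20, 6, [(2, 3, 1)]), (13, 3, 1, []), (14, 30, 8, [(2, 4, 1)]), (17, 8, 2, [(2, 2, 1)]),
  (19, 340, 78, [(2, 13, 3), (3, 4, 1)]), (21, 5, 1, []), (22, 394, 84, [(2, 14, 3), (3, 5, 1)]),
  (23, 48, 10, [(2, 5, 1)]), (29, 5, 1, []), (31, 3040, 546, [(2, 39, 7), (3, 11, 2), (5, 6, 1)]),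
  (33, 46, 8, [(2, 2, 1)]), (37, 12, 2, [(3, 3, 1)]), (38, 74, 12, [(2, 6, 1)]),
  (41, 64, 10, [(2, 3, 1)]), (43, 6964, 1062, [(2, 59, 9), (3, 13, 2)]),
  (46, 48670, 7176, [(2, 156, 23), (3, 7, 1), (5, 61, 9)]), (47, 96, 14, [(2, 7, 1)]),
  (53, 7, 1, []), (57, 302, 40, [(2, 3, 1), (3, 13, 4)]),
  (59, 1060, 138, [(2, 23, 3), (5, 8, 1)]), (61, 39, 5, [(3, 3, 1)]), (62, 126, 16, [(2, 8, 1)]),
  (69, 25, 3, [(3, 4, 1)]), (71, 6960, 826, [(2, 59, 7), (5, 17, 2), (7, 8, 1)]),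
  (73, 2136, 250, [(2, 4, 1), (3, 15, 4)]), (77, 9, 1, []), (83, 164, 18, [(2, 9, 1)]),
  (86, 20810, 2244, [(2, 102, 11), (5, 9, 1), (7, 37, 4)]), (89, 1000, 106, [(2, 4, 1)]),
  (93, 29, 3, [(3, 4, 1)]), (97, 11208, 1138, [(2, 31, 7), (3, 9, 2)]), (101, 20, 2, [(5, 5, 1)]),
  (107, 1924, 186, [(2, 31, 3), (7, 10, 1)]), (109, 261, 25, [(3, 5, 1), (5, 14, 3)]),
  (113, 1552, 146, [(2, 5, 1)]), (129, 33710, 2968, [(2, 5, 1), (3, 145, 28), (5, 31, 6)]),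
  (131, 21220, 1854, [(2, 103, 9), (5, 23, 2)]), (133, 173, 15, [(3, 5, 1)]),
  (137, 3488, 298, [(2, 16, 3)]), (141, 190, 16, [(3, 11, 2), (5, 5, 1)]),
  (149, 61, 5, [(5, 6, 1)]), (157, 213, 17, [(3, 6, 1)]),
  (158, 15486, 1232, [(2, 88, 7), (7, 25, 2), (11, 13, 1)]),
  (161, 23550, 1856, [(2, 6, 1), (5, 35, 6)]), (167, 336, 26, [(2, 13, 1)]), (173, 13, 1, []),
  (177, 124846, 9384, [(2, 6, 1), (3, 283, 46)]), (181, 1305, 97, [(3, 6, 1), (5, 25, 4)]),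
  (197, 28, 2, [(7, 7, 1)]), (206, 119070, 8296, [(2, 244, 17), (5, 43, 3)]),
  (209, 93102, 6440, [(2, 74, 11), (5, 27, 4)]), (213, 73, 5, [(3, 7, 1)]),
  (227, 452, 30, [(2, 15, 1)]), (233, 46312, 3034, [(2, 7, 1), (7, 57, 8)]),
  (237, 77, 5, [(3, 7, 1)]), (253, 1861, 117, [(3, 15, 2), (7, 7, 1)]),
  (269, 164, 10, [(5, 8, 1)]), (277, 2613, 157, [(3, 8, 1), (7, 47, 6)]),
  (278, 5002, 300, [(2, 50, 3), (11, 17, 1)]), (293, 17, 1, []),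
  (301, 22745, 1311, [(3, 8, 1), (5, 49, 6), (7, 188, 23)]),
  (309, 5045, 287, [(3, 58, 7), (5, 8, 1), (7, 25, 3)]), (317, 89, 5, [(7, 8, 1)]),
  (341, 277, 15, [(5, 9, 1)]), (349, 18420, 986, [(3, 9, 1), (5, 53, 6)]),
  (353, 142528, 7586, [(2, 9, 1)]), (373, 10236, 530, [(3, 9, 1), (7, 55, 6)]),
  (381, 2030, 104, [(3, 37, 4), (5, 9, 1)]),
  (383, 37536, 1918, [(2, 137, 7), (11, 39, 2), (17, 20, 1)]),
  (389, 2564, 130, [(5, 28, 3), (7, 9, 1)]), (397, 3447, 173, [(3, 19, 2)]),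
  (398, 798, 40, [(2, 20, 1)]), (413, 61, 3, [(7, 10, 1)]), (437, 21, 1, []),
  (453, 149, 7, [(3, 10, 1)]), (461, 365, 17, [(5, 10, 1)]),
  (501, 28225, 1261, [(3, 139, 13), (5, 32, 3), (7, 11, 1)]),
  (503, 49296, 2198, [(2, 157, 7), (13, 45, 2), (19, 22, 1)]),
  (509, 925, 41, [(5, 11, 1), (11, 43, 4)]), (517, 10573, 465, [(3, 11, 1), (11, 163, 15)]),
  (557, 236, 10, [(7, 11, 1)]), (563, 136244, 5742, [(2, 261, 11), (13, 24, 1), (17, 95, 4)]),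
  (573, 766, 32, [(3, 23, 2), (11, 11, 1)]),
  (581, 6725, 279, [(5, 23, 2), (7, 104, 9), (11, 12, 1)]),
  (597, 9749, 399, [(3, 82, 7), (7, 12, 1), (11, 35, 3)]),
  (613, 98763, 3989, [(3, 12, 1), (7, 95, 8)]), (653, 1661, 65, [(7, 12, 1), (11, 49, 4)]),
  (677, 52, 2, [(13, 13, 1)]), (701, 23564, 890, [(5, 51, 4), (7, 13, 1), (13, 242, 19)]),
  (717, 241, 9, [(3, 13, 1)]), (749, 12945, 473, [(5, 13, 1), (7, 145, 11), (11, 66, 5)]),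
  (773, 139, 5, [(11, 13, 1)]), (789, 31825, 1133, [(3, 149, 11), (5, 27, 2), (13, 14, 1)]),
  (797, 367, 13, [(11, 14, 1), (13, 27, 2)]), (813, 4334, 152, [(3, 55, 4), (7, 14, 1)]),
  (821, 16189, 565, [(5, 14, 1), (7, 83, 6)]), (853, 27483, 941, [(3, 14, 1)]),
  (869, 49377, 1675, [(5, 57, 4), (7, 14, 1), (11, 356, 25)]),
  (893, 2301, 77, [(7, 29, 2), (13, 14, 1)]), (917, 1181, 39, [(7, 44, 3), (11, 15, 1)]),
  (933, 150526, 4928, [(3, 325, 22), (7, 15, 1), (11, 59, 4), (13, 133, 9)]),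
  (941, 1135, 37, [(5, 15, 1)]), (989, 103245, 3283, [(5, 137, 9), (7, 15, 1), (13, 61, 4)]),
  (997, 169812, 5378, [(3, 107, 7), (13, 46, 3)]), (1013, 923, 29, [(11, 31, 2), (13, 15, 1)]),
  (1061, 264395, 8117, [(5, 221, 14), (7, 16, 1), (11, 79, 5)]), (1077, 361, 11, [(3, 16, 1)]),
  (1109, 106865, 3209, [(5, 16, 1), (11, 323, 20), (13, 113, 7)]), (1133, 101, 3, [(11, 16, 1)]),
  (1181, 29039, 845, [(5, 50, 3), (11, 17, 1), (17, 317, 19)]), (1253, 177, 5, [(7, 17, 1)]),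
  (1277, 6611, 185, [(11, 52, 3), (13, 17, 1), (17, 139, 8)]),
  (1293, 1726, 48, [(3, 35, 2), (17, 17, 1)]), (1333, 87077, 2385, [(3, 71, 4)]),
  (1349, 15977, 435, [(5, 18, 1), (13, 125, 7)]), (1397, 3177, 85, [(7, 18, 1), (11, 91, 5)]),
  (1437, 57961, 1529, [(3, 203, 11), (7, 37, 2), (17, 18, 1)]),
  (1493, 2357, 61, [(7, 19, 1), (19, 94, 5)]),
  (1613, 2972, 74, [(13, 39, 2), (17, 20, 1), (19, 98, 5)]),
  (1637, 5543, 137, [(11, 20, 1), (13, 79, 4)]),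
  (1733, 172387, 4141, [(7, 61, 3), (13, 20, 1), (17, 386, 19), (19, 711, 35)]),
  (1757, 1006, 24, [(7, 41, 2), (19, 20, 1)]),
  (1797, 316873, 7475, [(3, 476, 23), (11, 62, 3), (13, 21, 1), (19, 207, 10)]),
  (1877, 1603, 37, [(7, 21, 1)]), (1893, 10094, 232, [(3, 85, 4), (11, 21, 1)]),
  (1949, 166436, 3770, [(5, 151, 7), (13, 43, 2), (19, 22, 1)]),
  (1973, 177052, 3986, [(11, 152, 7), (13, 22, 1), (17, 65, 3), (19, 673, 31)]),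
  (1997, 9161, 205, [(7, 22, 1), (17, 131, 6)]), (2309, 17539, 365, [(5, 47, 2), (23, 24, 1)]),
  (2333, 352067, 7289, [(7, 71, 3), (11, 473, 20), (17, 24, 1)]),
  (2357, 50588, 1042, [(11, 24, 1), (13, 214, 9), (19, 95, 4)]),
  (2453, 3566, 72, [(11, 97, 4), (13, 24, 1)]), (2477, 647, 13, [(19, 24, 1), (23, 49, 2)]),
  (2573, 40174, 792, [(7, 25, 1), (13, 174, 7)]),
  (2621, 219220, 4282, [(5, 25, 1), (11, 251, 10)]), (2693, 4411, 85, [(11, 51, 2), (23, 25, 1)]),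
  (2757, 14702, 280, [(3, 103, 4), (13, 26, 1)]),
  (2789, 437539, 8285, [(5, 26, 1), (17, 544, 21), (23, 285, 11)]),
  (2933, 151261, 2793, [(7, 505, 19), (17, 53, 2), (19, 186, 7), (23, 27, 1)]),
  (2957, 59653, 1097, [(11, 80, 3), (17, 27, 1), (23, 427, 16)]), (3053, 3481, 63, [(7, 27, 1)]),
  (3093, 174241, 3133, [(3, 355, 13), (13, 82, 3), (17, 27, 1)]),
  (3197, 320254, 5664, [(13, 28, 1), (17, 361, 13), (19, 111, 4), (23, 1333, 48)]),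
  (3317, 5241, 91, [(17, 28, 1), (19, 85, 3)]),
  (3437, 125694, 2144, [(7, 461, 16), (11, 29, 1), (19, 144, 5)]),
  (3533, 2437, 41, [(13, 29, 1), (29, 117, 4)]),
  (3677, 543137, 8957, [(7, 328, 11), (11, 30, 1), (29, 149, 5)]),
  (3797, 62236, 1010, [(13, 91, 3), (19, 30, 1), (23, 394, 13)]),
  (3989, 130675, 2069, [(5, 31, 1), (29, 777, 25)]),
  (4133, 353972, 5506, [(13, 95, 3), (17, 443, 14), (23, 32, 1), (31, 1424, 45)]),
  (4157, 24307, 377, [(13, 127, 4), (17, 32, 1)]), (4253, 56411, 865, [(7, 32, 1), (19, 289, 9)]),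
  (4373, 51911, 785, [(17, 65, 2), (23, 228, 7), (29, 33, 1), (31, 521, 16)]),
  (4413, 72077, 1085, [(3, 229, 7), (19, 33, 1), (29, 98, 3)]),
  (4517, 179111, 2665, [(7, 33, 1), (23, 629, 19), (29, 331, 10)]),
  (4973, 45203, 641, [(11, 139, 4), (17, 35, 1)]),
  (5309, 449564, 6170, [(5, 36, 1), (31, 539, 15)]),
  (6677, 118974, 1456, [(11, 565, 14), (17, 121, 3), (29, 40, 1)]),
  (6797, 314606, 3816, [(7, 733, 18), (23, 41, 1), (31, 285, 7), (37, 163, 4), (41, 122, 3)]),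
  (7013, 257428, 3074, [(17, 331, 8), (29, 124, 3), (31, 41, 1), (41, 1448, 35)]),
  (9173, 260989, 2725, [(29, 237, 5), (31, 853, 18), (37, 47, 1), (43, 95, 2), (47, 142, 3)]),
  (10853, 873947, 8389, [(19, 877, 17), (29, 258, 5), (37, 103, 2), (43, 52, 1)])]

set_option maxRecDepth 100000 in
lemma FL_ok : FL.all (okF 10000) = true := by
  decide +kernel

/-- the numbers of the list -/
def lU : List ℕ :=
  [2, 3, 5, 6, 7, 11, 13, 14, 17, 19, 21, 22, 23, 29, 31, 33, 37, 38, 41, 43, 46, 47, 53, 57, 59,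
  61, 62, 69, 71, 73, 77, 83, 86, 89, 93, 97, 101, 107, 109, 113, 129, 131, 133, 137, 141, 149,
  157, 158, 161, 167, 173, 177, 181, 197, 206, 209, 213, 227, 233, 237, 253, 269, 277, 278, 293,
  301, 309, 317, 341, 349, 353, 373, 381, 383, 389, 397, 398, 413, 437, 453, 461, 501, 503, 509,
  517, 557, 563, 573, 581, 597, 613, 653, 677, 701, 717, 749, 773, 789, 797, 813, 821, 853, 869,
  893, 917, 933, 941, 989, 997, 1013, 1061, 1077, 1109, 1133, 1181, 1253, 1277, 1293, 1333, 1349,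
  1397, 1437, 1493, 1613, 1637, 1733, 1757, 1797, 1877, 1893, 1949, 1973, 1997, 2309, 2333, 2357,
  2453, 2477, 2573, 2621, 2693, 2757, 2789, 2933, 2957, 3053, 3093, 3197, 3317, 3437, 3533, 3677,
  3797, 3989, 4133, 4157, 4253, 4373, 4413, 4517, 4973, 5309, 6677, 6797, 7013, 9173, 10853]

lemma lU_eq : lU = FL.map fun e => e.1 := by
  decide +kernel

/-- **the fields of the list** -/
theorem fieldsU {d : ℕ} (h : d ∈ lU) : 1 < d ∧ Squarefree d ∧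
    (∃ a b : ℕ, 1 ≤ b ∧ b ≤ 10000 ∧ ((a : ℤ) ^ 2 - d * (b : ℤ) ^ 2 = 4 ∨
      (a : ℤ) ^ 2 - d * (b : ℤ) ^ 2 = -4)) ∧ UniqueFactorizationMonoid (𝓞 (KQ d)) := by
  rw [lU_eq, List.mem_map] at h
  obtain ⟨e, he, rfl⟩ := h
  obtain ⟨h1, h2, h3, h4, h5, h6⟩ := okF_spec (List.all_eq_true.1 FL_ok e he)
  exact ⟨h1, h2, ⟨e.2.1, e.2.2.1, h3, h4, h5⟩, h6⟩

end Pool.Agent.SU
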