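import Pool.Agent.SU.Main
import Pool.Agent.SU.Flds

/-!
Real quadratic fields with small units: the primes and the discriminants of the checks.
-/

namespace Pool.Agent.SU

open scoped NumberField
open Pool.Agent.LibH4

/-- the primes, with the masks of the inert residues -/
def PLs : PLt :=
  .cons (nat_lit 2) (nat_lit 8)
    (nat_lit 32) (nat_lit 17) <|
  .cons (nat_lit 3) (nat_lit 3)
    (nat_lit 4) (nat_lit 37) <|
  .cons (nat_lit 5) (nat_lit 5)
    (nat_lit 12) (nat_lit 101) <|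
  .cons (nat_lit 7) (nat_lit 7)
    (nat_lit 104) (nat_lit 197) <|
  .cons (nat_lit 11) (nat_lit 11)
    (nat_lit 1476) (nat_lit 485) <|
  .cons (nat_lit 13) (nat_lit 13)
    (nat_lit 2532) (nat_lit 677) <|
  .cons (nat_lit 17) (nat_lit 17)
    (nat_lit 23784) (nat_lit 1157) <|
  .cons (nat_lit 19) (nat_lit 19)
    (nat_lit 324876) (nat_lit 1445) <|
  .cons (nat_lit 23) (nat_lit 23)
    (nat_lit 8047776) (nat_lit 2117) <|
  .cons (nat_lit 29) (nat_lit 29)
    (nat_lit 204397836) (nat_lit 3365) <|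
  .cons (nat_lit 31) (nat_lit 31)
    (nat_lit 1843574856) (nat_lit 3845) <|
  .cons (nat_lit 37) (nat_lit 37)
    (nat_lit 41370444132) (nat_lit 5477) <|
  .cons (nat_lit 41) (nat_lit 41)
    (nat_lit 328519579848) (nat_lit 6725) <|
  .cons (nat_lit 43) (nat_lit 43)
    (nat_lit 5117392458156) (nat_lit 7397) <|
  .cons (nat_lit 47) (nat_lit 47)
    (nat_lit 136111353015328) (nat_lit 8837) <|
  .cons (nat_lit 53) (nat_lit 53)
    (nat_lit 3697175711994156) (nat_lit 11237) <|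
  .cons (nat_lit 59) (nat_lit 59)
    (nat_lit 420134283961986372) (nat_lit 13925) <|
  .cons (nat_lit 61) (nat_lit 61)
    (nat_lit 642916798280633796) (nat_lit 14885) <|
  .cons (nat_lit 67) (nat_lit 67)
    (nat_lit 85765845717156641196) (nat_lit 17957) <|
  .cons (nat_lit 71) (nat_lit 71)
    (nat_lit 2341131200001827039360) (nat_lit 20165) <|
  .cons (nat_lit 73) (nat_lit 73)
    (nat_lit 384875580742593342624) (nat_lit 21317) <|
  .cons (nat_lit 79) (nat_lit 79)
    (nat_lit 514530376159922758013128) (nat_lit 24965) <|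
  .cons (nat_lit 83) (nat_lit 83)
    (nat_lit 6760295319107447612563812) (nat_lit 27557) <|
  .cons (nat_lit 89) (nat_lit 89)
    (nat_lit 92163013807473543562719432) (nat_lit 31685) <|
  .nil

/-- the discriminants -/
def DLs : List ℕ :=
  [nat_lit 5, nat_lit 8, nat_lit 12, nat_lit 13, nat_lit 17, nat_lit 21, nat_lit 24, nat_lit 28,
  nat_lit 29, nat_lit 33, nat_lit 37, nat_lit 41, nat_lit 44, nat_lit 53, nat_lit 56, nat_lit 57,
  nat_lit 61, nat_lit 69, nat_lit 73, nat_lit 76, nat_lit 77, nat_lit 88, nat_lit 89, nat_lit 92,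
  nat_lit 93, nat_lit 97, nat_lit 101, nat_lit 109, nat_lit 113, nat_lit 124, nat_lit 129,
  nat_lit 133, nat_lit 137, nat_lit 141, nat_lit 149, nat_lit 152, nat_lit 157, nat_lit 161,
  nat_lit 172, nat_lit 173, nat_lit 177, nat_lit 181, nat_lit 184, nat_lit 188, nat_lit 197,
  nat_lit 209, nat_lit 213, nat_lit 233, nat_lit 236, nat_lit 237, nat_lit 248, nat_lit 253,
  nat_lit 269, nat_lit 277, nat_lit 284, nat_lit 293, nat_lit 301, nat_lit 309, nat_lit 317,
  nat_lit 332, nat_lit 341, nat_lit 344, nat_lit 349, nat_lit 353, nat_lit 373, nat_lit 381,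
  nat_lit 389, nat_lit 397, nat_lit 413, nat_lit 428, nat_lit 437, nat_lit 453, nat_lit 461,
  nat_lit 501, nat_lit 509, nat_lit 517, nat_lit 524, nat_lit 557, nat_lit 573, nat_lit 581,
  nat_lit 597, nat_lit 613, nat_lit 632, nat_lit 653, nat_lit 668, nat_lit 677, nat_lit 701,
  nat_lit 717, nat_lit 749, nat_lit 773, nat_lit 789, nat_lit 797, nat_lit 813, nat_lit 821,
  nat_lit 824, nat_lit 853, nat_lit 869, nat_lit 893, nat_lit 908, nat_lit 917, nat_lit 933,
  nat_lit 941, nat_lit 989, nat_lit 997, nat_lit 1013, nat_lit 1061, nat_lit 1077, nat_lit 1109,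
  nat_lit 1112, nat_lit 1133, nat_lit 1181, nat_lit 1253, nat_lit 1277, nat_lit 1293,
  nat_lit 1333, nat_lit 1349, nat_lit 1397, nat_lit 1437, nat_lit 1493, nat_lit 1532,
  nat_lit 1592, nat_lit 1613, nat_lit 1637, nat_lit 1733, nat_lit 1757, nat_lit 1797,
  nat_lit 1877, nat_lit 1893, nat_lit 1949, nat_lit 1973, nat_lit 1997, nat_lit 2012,
  nat_lit 2252, nat_lit 2309, nat_lit 2333, nat_lit 2357, nat_lit 2453, nat_lit 2477,
  nat_lit 2573, nat_lit 2621, nat_lit 2693, nat_lit 2757, nat_lit 2789, nat_lit 2933,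
  nat_lit 2957, nat_lit 3053, nat_lit 3093, nat_lit 3197, nat_lit 3317, nat_lit 3437,
  nat_lit 3533, nat_lit 3677, nat_lit 3797, nat_lit 3989, nat_lit 4133, nat_lit 4157,
  nat_lit 4253, nat_lit 4373, nat_lit 4413, nat_lit 4517, nat_lit 4973, nat_lit 5309,
  nat_lit 6677, nat_lit 6797, nat_lit 7013, nat_lit 9173, nat_lit 10853]

lemma PLs_ok : ∀ x ∈ toL PLs, okb x = true := by
  have h : (toL PLs).all okb = true := by decide +kernel
  exact List.all_eq_true.1 h

lemma DLs_ok : DLs.all (fun D => decide (D % 4 = 1) && lU.any (Nat.beq D) ||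
    decide (D % 4 = 0) && lU.any (Nat.beq (D / 4))) = true := by
  decide +kernel

lemma lU_of {d D : ℕ} (hD : D ∈ DLs) (hd : (d % 4 = 1 ∧ d = D) ∨ (d % 4 ≠ 1 ∧ 4 * d = D)) :
    d ∈ lU := by
  have h := List.all_eq_true.1 DLs_ok D hD
  simp only [Bool.or_eq_true, Bool.and_eq_true, decide_eq_true_eq, List.any_eq_true] at h
  rcases h with ⟨h1, y, hy, h2⟩ | ⟨h1, y, hy, h2⟩
  · have h3 : D = y := Nat.eq_of_beq_eq_true h2
    rcases hd with ⟨h4, h5⟩ | ⟨h4, h5⟩
    · rw [h5, h3]; exact hy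
    · omega
  · have h3 : D / 4 = y := Nat.eq_of_beq_eq_true h2
    rcases hd with ⟨h4, h5⟩ | ⟨h4, h5⟩
    · omega
    · have : d = y := by omega
      rw [this]; exact hy

lemma sv_ok : svAll 14 (10000 + 1) 320 PLs = true := by
  decide +kernel

/-- **the theorem from the check of the families** -/
theorem small_units_of {el : Bool → ℕ → ℕ → ℕ → ℕ → ℕ → ℕ → Bool} (hel : Elim el)
    (hAB : AB (famF el PLs DLs 10000) 10000 []) :
    {d : ℕ | 1 < d ∧ Squarefree d ∧
      (∃ x y : ℤ, 0 < y ∧ y ≤ 10000 ∧ (x ^ 2 - d * y ^ 2 = 4 ∨ x ^ 2 - d * y ^ 2 = -4)) ∧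
      UniqueFactorizationMonoid (𝓞 (KQ d))} = {d | d ∈ lU} := by
  ext d
  rw [Set.mem_ofPred_eq, Set.mem_ofPred_eq]
  constructor
  · rintro ⟨h1, hsq, ⟨x, y, hy, hyX, hxy⟩, hU⟩
    lift y to ℕ using hy.le
    have hx : ((x.natAbs : ℕ) : ℤ) ^ 2 = x ^ 2 := by rw [Int.natCast_natAbs, sq_abs]
    rw [← hx] at hxy
    obtain ⟨D, hD, hd⟩ := fwdU PLs_ok hel (by norm_num) (jj := 14)
      (by norm_num) sv_ok hAB d h1 hsq (a := x.natAbs) (b := y)
      (by omega) (by omega) hxy hU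
    exact lU_of hD hd
  · intro h
    obtain ⟨h1, hsq, ⟨a, b, hb1, hb2, hab⟩, hU⟩ := fieldsU h
    exact ⟨h1, hsq, ⟨a, b, by omega, by omega, hab⟩, hU⟩

end Pool.Agent.SU
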