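import Pool.Agent.Lib_helper4.CW.Fin
import Pool.Agent.Lib_helper4.CW.RL

/-!
Real quadratic fields with small units: definitions.
-/

namespace Pool.Agent.SU

open Pool.Agent.Lib_helper5 Pool.Agent.Lib_helper5.LK Pool.Agent.LibH4 Pool.Agent.LibH4.CW
  Pool.Agent.LibH4.S7 Pool.Agent.Lib_helper5.TB Pool.Agent.LibH4.T6 Pool.Agent.LibH4.KF

/-! ### words -/

/-- the word of the quotients with index `k, ..., k + n - 1` -/
def wn (c : ℕ → ℕ) (k n : ℕ) : List ℕ := (List.range n).map fun i => c (k + i)

/-- multiplication of the matrix of a word by the matrix of a letter -/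
def stepM (M : ℕ × ℕ × ℕ × ℕ) (a : ℕ) : ℕ × ℕ × ℕ × ℕ :=
  (a * M.1 + M.2.1, M.1, a * M.2.2.1 + M.2.2.2, M.2.2.1)

/-- the matrix of a word: its continuant, the continuants of the word without its last letter,
without its first letter, and without both -/
def mat (w : List ℕ) : ℕ × ℕ × ℕ × ℕ := w.foldl stepM (1, 0, 0, 1)

/-- a word as a number in base `2 ^ 20`, the first letter is the lowest digit -/
def pk : List ℕ → ℕ
  | [] => 0
  | a :: w => a + 2 ^ 20 * pk w

/-! ### the folded relation of a half word -/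

/-- the forms after the first one; `par` is true for even periods, where the last letter of the
half word is the middle letter of the period -/
def JT (par : Bool) : ℤ × ℤ × ℤ → List ℕ → List Fm
  | f, [] => bif par then [] else [⟨f.1, f.2.1, -f.2.2, 3, 0⟩]
  | f, a :: w => ⟨f.1, f.2.1, -f.2.2, 6, -((bif par && w.isEmpty then 1 else 2) * (a : ℤ))⟩ ::
      JT par (LO.st a f) w

/-- the forms of the folded relation -/
def JH (par : Bool) (B m : ℤ) (w : List ℕ) : List Fm :=
  ⟨m, B, -1, 0, -B⟩ :: JT par (1, B, m) w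

/-- the small primes -/
def QB : ℕ := QQ * 29

/-- a list of forms of the discriminant `D` which satisfies all relations; the small primes are
inert -/
structure RelJ (D : ℤ) (J : List Fm) : Prop where
  dok : DOK D
  in29 : K5.In 29 D
  disc : ∀ j ∈ J, j.R ^ 2 - 4 * j.P * j.S = D
  rel : ∀ (n1 n2 n3 M T1 T2 T3 : ℕ) [NeZero n1] [NeZero n2] [NeZero n3] [NeZero (n1 * n2)]
    [NeZero (n1 * n2 * n3)], relOk n1 n2 n3 M T1 T2 T3 = true → tabCk n1 M T1 = true →
    tabCk n2 M T2 = true → tabCk n3 M T3 = true → M % 2 = 1 → (n1 * n2 * n3 * M) ∣ QB ^ 6 →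
    LK.Rel M (tri (tabc n1 M T1) (tabc n2 M T2) (tabc n3 M T3)) J

end Pool.Agent.SU
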