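import Pool.Agent.SU.ETabF
import Pool.Agent.SU.ETab0
import Pool.Agent.SU.ETab1
import Pool.Agent.SU.ETab2
import Pool.Agent.SU.ETab3
import Pool.Agent.SU.ETab4
import Pool.Agent.SU.ETab5
import Pool.Agent.SU.ETab6
import Pool.Agent.SU.ETab7
import Pool.Agent.SU.ETab8
import Pool.Agent.SU.ETab9

/-!
Real quadratic fields with small units: the chain (generated).
-/

namespace Pool.Agent.SU.EL

open Pool.Agent.LibH4.Ker Pool.Agent.LibH4.CW Pool.Agent.Lib_helper5.TB Pool.Agent.Lib_helper5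
  Pool.Agent.LibH4.S7 Pool.Agent.LibH4


theorem kk13 : CmpOK (cof 13) := rj_91F13.k1

theorem kk5 : CmpOK (cof 5) := rj_520F5.k2

theorem kk19 : CmpOK (cof 19) := rj_152F19a.k1

theorem kk17 : CmpOK (cof 17) := rj_119N13.k1

theorem kk3 : CmpOK (cof 3) := rj_51N5.k2

/-- chain -/
def ch46 : List Lv := []

theorem cn46 : Chn [cof 3, cof 17, cof 19, cof 5, cof 13, cof 7, cof 11, cof 8, cof 1] ch46 := Chn.nil _

/-- chain -/
def ch45 : List Lv := Lv.I (nat_lit 29) :: ch46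

theorem cn45 : Chn [cof 3, cof 17, cof 19, cof 5, cof 13, cof 7, cof 11, cof 8, cof 1] ch45 := Chn.I cn46

/-- chain -/
def ch44 : List Lv := Lv.R (nat_lit 29) (nat_lit 6) (nat_lit 4) (nat_lit 3)
  (nat_lit 8724171040) (nat_lit 671088880) (nat_lit 134217752) T_715N29 C_715N29 :: ch45

theorem cn44 : Chn [cof 3, cof 17, cof 19, cof 5, cof 13, cof 7, cof 11, cof 8, cof 1] ch44 :=
  Chn.R (r := r_715N29) rj_715N29 tj_715N29 rfl rfl rfl cn45

/-- chain -/
def ch43 : List Lv := Lv.R (nat_lit 13) (nat_lit 5) (nat_lit 3) (nat_lit 0)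
  (nat_lit 2013266640) (nat_lit 402653256) (nat_lit 134217752) T_105N13 C_105N13 :: ch44

theorem cn43 : Chn [cof 3, cof 17, cof 19, cof 5, cof 13, cof 7, cof 11, cof 8, cof 1] ch43 :=
  Chn.R (r := r_105N13) rj_105N13 tj_105N13 rfl rfl rfl cn44

/-- chain -/
def ch42 : List Lv := Lv.R (nat_lit 5) (nat_lit 1) (nat_lit 0) (nat_lit 8)
  (nat_lit 402653256) (nat_lit 134217752) (nat_lit 134217752) T_51N5 C_51N5 :: ch43

theorem cn42 : Chn [cof 3, cof 17, cof 19, cof 5, cof 13, cof 7, cof 11, cof 8, cof 1] ch42 :=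
  Chn.R (r := r_51N5) rj_51N5 tj_51N5 rfl rfl rfl cn43

/-- chain -/
def ch41 : List Lv := Lv.R (nat_lit 7) (nat_lit 2) (nat_lit 5) (nat_lit 0)
  (nat_lit 2818573800) (nat_lit 402653256) (nat_lit 134217752) T_399F7 C_399F7 :: ch42

theorem cn41 : Chn [cof 3, cof 17, cof 19, cof 5, cof 13, cof 7, cof 11, cof 8, cof 1] ch41 :=
  Chn.R (r := r_399F7) rj_399F7 tj_399F7 rfl rfl rfl cn42

/-- chain -/
def ch40 : List Lv := Lv.M (nat_lit 3) NP3 ST3 :: ch41

theorem cn40 : Chn [cof 17, cof 19, cof 5, cof 13, cof 7, cof 11, cof 8, cof 1] ch40 :=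
  Chn.M (c := cof 3) kk3 (by decide) ad3 np3 st3 cn41

/-- chain -/
def ch39 : List Lv := Lv.R (nat_lit 7) (nat_lit 0) (nat_lit 5) (nat_lit 2)
  (nat_lit 7381988240) (nat_lit 671088880) (nat_lit 134217752) T_935N7 C_935N7 :: ch40

theorem cn39 : Chn [cof 17, cof 19, cof 5, cof 13, cof 7, cof 11, cof 8, cof 1] ch39 :=
  Chn.R (r := r_935N7) rj_935N7 tj_935N7 rfl rfl rfl cn40

/-- chain -/
def ch38 : List Lv := Lv.R (nat_lit 13) (nat_lit 0) (nat_lit 2) (nat_lit 6)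
  (nat_lit 5368712960) (nat_lit 1073742208) (nat_lit 134217752) T_680N13 C_680N13 :: ch39

theorem cn38 : Chn [cof 17, cof 19, cof 5, cof 13, cof 7, cof 11, cof 8, cof 1] ch38 :=
  Chn.R (r := r_680N13) rj_680N13 tj_680N13 rfl rfl rfl cn39

/-- chain -/
def ch37 : List Lv := Lv.R (nat_lit 17) (nat_lit 0) (nat_lit 2) (nat_lit 6)
  (nat_lit 5368712960) (nat_lit 1073742208) (nat_lit 134217752) T_680F17b C_680F17b :: ch38

theorem cn37 : Chn [cof 17, cof 19, cof 5, cof 13, cof 7, cof 11, cof 8, cof 1] ch37 :=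
  Chn.R (r := r_680F17b) rj_680F17b tj_680F17b rfl rfl rfl cn38

/-- chain -/
def ch36 : List Lv := Lv.R (nat_lit 17) (nat_lit 0) (nat_lit 2) (nat_lit 6)
  (nat_lit 5368712960) (nat_lit 1073742208) (nat_lit 134217752) T_680F17a C_680F17a :: ch37

theorem cn36 : Chn [cof 17, cof 19, cof 5, cof 13, cof 7, cof 11, cof 8, cof 1] ch36 :=
  Chn.R (r := r_680F17a) rj_680F17a tj_680F17a rfl rfl rfl cn37

/-- chain -/
def ch35 : List Lv := Lv.R (nat_lit 13) (nat_lit 0) (nat_lit 4) (nat_lit 2)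
  (nat_lit 4697625520) (nat_lit 671088880) (nat_lit 134217752) T_595N13b C_595N13b :: ch36

theorem cn35 : Chn [cof 17, cof 19, cof 5, cof 13, cof 7, cof 11, cof 8, cof 1] ch35 :=
  Chn.R (r := r_595N13b) rj_595N13b tj_595N13b rfl rfl rfl cn36

/-- chain -/
def ch34 : List Lv := Lv.R (nat_lit 13) (nat_lit 0) (nat_lit 4) (nat_lit 2)
  (nat_lit 4697625520) (nat_lit 671088880) (nat_lit 134217752) T_595N13a C_595N13a :: ch35

theorem cn34 : Chn [cof 17, cof 19, cof 5, cof 13, cof 7, cof 11, cof 8, cof 1] ch34 :=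
  Chn.R (r := r_595N13a) rj_595N13a tj_595N13a rfl rfl rfl cn35

/-- chain -/
def ch33 : List Lv := Lv.R (nat_lit 5) (nat_lit 0) (nat_lit 3) (nat_lit 7)
  (nat_lit 1744832336) (nat_lit 134217752) (nat_lit 134217752) T_221N5 C_221N5 :: ch34

theorem cn33 : Chn [cof 17, cof 19, cof 5, cof 13, cof 7, cof 11, cof 8, cof 1] ch33 :=
  Chn.R (r := r_221N5) rj_221N5 tj_221N5 rfl rfl rfl cn34

/-- chain -/
def ch32 : List Lv := Lv.R (nat_lit 17) (nat_lit 3) (nat_lit 2) (nat_lit 6)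
  (nat_lit 5368712960) (nat_lit 1073742208) (nat_lit 134217752) T_520N17 C_520N17 :: ch33

theorem cn32 : Chn [cof 17, cof 19, cof 5, cof 13, cof 7, cof 11, cof 8, cof 1] ch32 :=
  Chn.R (r := r_520N17) rj_520N17 tj_520N17 rfl rfl rfl cn33

/-- chain -/
def ch31 : List Lv := Lv.R (nat_lit 17) (nat_lit 0) (nat_lit 5) (nat_lit 7)
  (nat_lit 1476396328) (nat_lit 134217752) (nat_lit 134217752) T_187F17b C_187F17b :: ch32

theorem cn31 : Chn [cof 17, cof 19, cof 5, cof 13, cof 7, cof 11, cof 8, cof 1] ch31 :=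
  Chn.R (r := r_187F17b) rj_187F17b tj_187F17b rfl rfl rfl cn32

/-- chain -/
def ch30 : List Lv := Lv.R (nat_lit 17) (nat_lit 0) (nat_lit 5) (nat_lit 7)
  (nat_lit 1476396328) (nat_lit 134217752) (nat_lit 134217752) T_187F17a C_187F17a :: ch31

theorem cn30 : Chn [cof 17, cof 19, cof 5, cof 13, cof 7, cof 11, cof 8, cof 1] ch30 :=
  Chn.R (r := r_187F17a) rj_187F17a tj_187F17a rfl rfl rfl cn31

/-- chain -/
def ch29 : List Lv := Lv.R (nat_lit 5) (nat_lit 0) (nat_lit 4) (nat_lit 7)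
  (nat_lit 939524600) (nat_lit 134217752) (nat_lit 134217752) T_119N5 C_119N5 :: ch30

theorem cn29 : Chn [cof 17, cof 19, cof 5, cof 13, cof 7, cof 11, cof 8, cof 1] ch29 :=
  Chn.R (r := r_119N5) rj_119N5 tj_119N5 rfl rfl rfl cn30

/-- chain -/
def ch28 : List Lv := Lv.R (nat_lit 13) (nat_lit 0) (nat_lit 4) (nat_lit 7)
  (nat_lit 939524600) (nat_lit 134217752) (nat_lit 134217752) T_119N13 C_119N13 :: ch29

theorem cn28 : Chn [cof 17, cof 19, cof 5, cof 13, cof 7, cof 11, cof 8, cof 1] ch28 :=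
  Chn.R (r := r_119N13) rj_119N13 tj_119N13 rfl rfl rfl cn29

/-- chain -/
def ch27 : List Lv := Lv.M (nat_lit 17) NP17 ST17 :: ch28

theorem cn27 : Chn [cof 19, cof 5, cof 13, cof 7, cof 11, cof 8, cof 1] ch27 :=
  Chn.M (c := cof 17) kk17 (by decide) ad17 np17 st17 cn28

/-- chain -/
def ch26 : List Lv := Lv.R (nat_lit 19) (nat_lit 0) (nat_lit 2) (nat_lit 6)
  (nat_lit 1744832336) (nat_lit 134217752) (nat_lit 134217752) T_247F19a C_247F19a :: ch27

theorem cn26 : Chn [cof 19, cof 5, cof 13, cof 7, cof 11, cof 8, cof 1] ch26 :=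
  Chn.R (r := r_247F19a) rj_247F19a tj_247F19a rfl rfl rfl cn27

/-- chain -/
def ch25 : List Lv := Lv.R (nat_lit 13) (nat_lit 0) (nat_lit 3) (nat_lit 6)
  (nat_lit 939524600) (nat_lit 134217752) (nat_lit 134217752) T_133N13 C_133N13 :: ch26

theorem cn25 : Chn [cof 19, cof 5, cof 13, cof 7, cof 11, cof 8, cof 1] ch25 :=
  Chn.R (r := r_133N13) rj_133N13 tj_133N13 rfl rfl rfl cn26

/-- chain -/
def ch24 : List Lv := Lv.R (nat_lit 13) (nat_lit 0) (nat_lit 1) (nat_lit 6)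
  (nat_lit 671088880) (nat_lit 134217752) (nat_lit 134217752) T_95N13 C_95N13 :: ch25

theorem cn24 : Chn [cof 19, cof 5, cof 13, cof 7, cof 11, cof 8, cof 1] ch24 :=
  Chn.R (r := r_95N13) rj_95N13 tj_95N13 rfl rfl rfl cn25

/-- chain -/
def ch23 : List Lv := Lv.R (nat_lit 19) (nat_lit 0) (nat_lit 1) (nat_lit 6)
  (nat_lit 671088880) (nat_lit 134217752) (nat_lit 134217752) T_95F19 C_95F19 :: ch24

theorem cn23 : Chn [cof 19, cof 5, cof 13, cof 7, cof 11, cof 8, cof 1] ch23 :=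
  Chn.R (r := r_95F19) rj_95F19 tj_95F19 rfl rfl rfl cn24

/-- chain -/
def ch22 : List Lv := Lv.R (nat_lit 19) (nat_lit 2) (nat_lit 3) (nat_lit 5)
  (nat_lit 7516200832) (nat_lit 1073742208) (nat_lit 134217752) T_728N19 C_728N19 :: ch23

theorem cn22 : Chn [cof 19, cof 5, cof 13, cof 7, cof 11, cof 8, cof 1] ch22 :=
  Chn.R (r := r_728N19) rj_728N19 tj_728N19 rfl rfl rfl cn23

/-- chain -/
def ch21 : List Lv := Lv.R (nat_lit 19) (nat_lit 0) (nat_lit 5) (nat_lit 6)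
  (nat_lit 1073742208) (nat_lit 134217752) (nat_lit 134217752) T_152F19b C_152F19b :: ch22

theorem cn21 : Chn [cof 19, cof 5, cof 13, cof 7, cof 11, cof 8, cof 1] ch21 :=
  Chn.R (r := r_152F19b) rj_152F19b tj_152F19b rfl rfl rfl cn22

/-- chain -/
def ch20 : List Lv := Lv.R (nat_lit 19) (nat_lit 0) (nat_lit 5) (nat_lit 6)
  (nat_lit 1073742208) (nat_lit 134217752) (nat_lit 134217752) T_152F19a C_152F19a :: ch21

theorem cn20 : Chn [cof 19, cof 5, cof 13, cof 7, cof 11, cof 8, cof 1] ch20 :=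
  Chn.R (r := r_152F19a) rj_152F19a tj_152F19a rfl rfl rfl cn21

/-- chain -/
def ch19 : List Lv := Lv.M (nat_lit 19) NP19 ST19 :: ch20

theorem cn19 : Chn [cof 5, cof 13, cof 7, cof 11, cof 8, cof 1] ch19 :=
  Chn.M (c := cof 19) kk19 (by decide) ad19 np19 st19 cn20

/-- chain -/
def ch18 : List Lv := Lv.R (nat_lit 7) (nat_lit 2) (nat_lit 0) (nat_lit 4)
  (nat_lit 5368712960) (nat_lit 1073742208) (nat_lit 134217752) T_280F7 C_280F7 :: ch19

theorem cn18 : Chn [cof 5, cof 13, cof 7, cof 11, cof 8, cof 1] ch18 :=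
  Chn.R (r := r_280F7) rj_280F7 tj_280F7 rfl rfl rfl cn19

/-- chain -/
def ch17 : List Lv := Lv.R (nat_lit 7) (nat_lit 3) (nat_lit 1) (nat_lit 0)
  (nat_lit 8724171040) (nat_lit 671088880) (nat_lit 134217752) T_715N7 C_715N7 :: ch18

theorem cn17 : Chn [cof 5, cof 13, cof 7, cof 11, cof 8, cof 1] ch17 :=
  Chn.R (r := r_715N7) rj_715N7 tj_715N7 rfl rfl rfl cn18

/-- chain -/
def ch16 : List Lv := Lv.R (nat_lit 7) (nat_lit 1) (nat_lit 0) (nat_lit 4)
  (nat_lit 5368712960) (nat_lit 1073742208) (nat_lit 134217752) T_520N7 C_520N7 :: ch17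

theorem cn16 : Chn [cof 5, cof 13, cof 7, cof 11, cof 8, cof 1] ch16 :=
  Chn.R (r := r_520N7) rj_520N7 tj_520N7 rfl rfl rfl cn17

/-- chain -/
def ch15 : List Lv := Lv.R (nat_lit 5) (nat_lit 1) (nat_lit 0) (nat_lit 4)
  (nat_lit 5368712960) (nat_lit 1073742208) (nat_lit 134217752) T_520F5 C_520F5 :: ch16

theorem cn15 : Chn [cof 5, cof 13, cof 7, cof 11, cof 8, cof 1] ch15 :=
  Chn.R (r := r_520F5) rj_520F5 tj_520F5 rfl rfl rfl cn16

/-- chain -/
def ch14 : List Lv := Lv.R (nat_lit 13) (nat_lit 1) (nat_lit 2) (nat_lit 0)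
  (nat_lit 4697625520) (nat_lit 671088880) (nat_lit 134217752) T_455F13e C_455F13e :: ch15

theorem cn14 : Chn [cof 5, cof 13, cof 7, cof 11, cof 8, cof 1] ch14 :=
  Chn.R (r := r_455F13e) rj_455F13e tj_455F13e rfl rfl rfl cn15

/-- chain -/
def ch13 : List Lv := Lv.R (nat_lit 13) (nat_lit 1) (nat_lit 2) (nat_lit 0)
  (nat_lit 4697625520) (nat_lit 671088880) (nat_lit 134217752) T_455F13d C_455F13d :: ch14

theorem cn13 : Chn [cof 5, cof 13, cof 7, cof 11, cof 8, cof 1] ch13 :=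
  Chn.R (r := r_455F13d) rj_455F13d tj_455F13d rfl rfl rfl cn14

/-- chain -/
def ch12 : List Lv := Lv.R (nat_lit 13) (nat_lit 1) (nat_lit 2) (nat_lit 0)
  (nat_lit 4697625520) (nat_lit 671088880) (nat_lit 134217752) T_455F13c C_455F13c :: ch13

theorem cn12 : Chn [cof 5, cof 13, cof 7, cof 11, cof 8, cof 1] ch12 :=
  Chn.R (r := r_455F13c) rj_455F13c tj_455F13c rfl rfl rfl cn13

/-- chain -/
def ch11 : List Lv := Lv.R (nat_lit 13) (nat_lit 1) (nat_lit 2) (nat_lit 0)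
  (nat_lit 4697625520) (nat_lit 671088880) (nat_lit 134217752) T_455F13b C_455F13b :: ch12

theorem cn11 : Chn [cof 5, cof 13, cof 7, cof 11, cof 8, cof 1] ch11 :=
  Chn.R (r := r_455F13b) rj_455F13b tj_455F13b rfl rfl rfl cn12

/-- chain -/
def ch10 : List Lv := Lv.R (nat_lit 13) (nat_lit 1) (nat_lit 2) (nat_lit 0)
  (nat_lit 4697625520) (nat_lit 671088880) (nat_lit 134217752) T_455F13a C_455F13a :: ch11

theorem cn10 : Chn [cof 5, cof 13, cof 7, cof 11, cof 8, cof 1] ch10 :=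
  Chn.R (r := r_455F13a) rj_455F13a tj_455F13a rfl rfl rfl cn11

/-- chain -/
def ch9 : List Lv := Lv.R (nat_lit 5) (nat_lit 1) (nat_lit 2) (nat_lit 0)
  (nat_lit 4697625520) (nat_lit 671088880) (nat_lit 134217752) T_455F5 C_455F5 :: ch10

theorem cn9 : Chn [cof 5, cof 13, cof 7, cof 11, cof 8, cof 1] ch9 :=
  Chn.R (r := r_455F5) rj_455F5 tj_455F5 rfl rfl rfl cn10

/-- chain -/
def ch8 : List Lv := Lv.M (nat_lit 5) NP5 ST5 :: ch9

theorem cn8 : Chn [cof 13, cof 7, cof 11, cof 8, cof 1] ch8 :=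
  Chn.M (c := cof 5) kk5 (by decide) ad5 np5 st5 cn9

/-- chain -/
def ch7 : List Lv := Lv.R (nat_lit 5) (nat_lit 0) (nat_lit 1) (nat_lit 3)
  (nat_lit 7516200832) (nat_lit 1073742208) (nat_lit 134217752) T_728N5 C_728N5 :: ch8

theorem cn7 : Chn [cof 13, cof 7, cof 11, cof 8, cof 1] ch7 :=
  Chn.R (r := r_728N5) rj_728N5 tj_728N5 rfl rfl rfl cn8

/-- chain -/
def ch6 : List Lv := Lv.R (nat_lit 13) (nat_lit 0) (nat_lit 1) (nat_lit 3)
  (nat_lit 7516200832) (nat_lit 1073742208) (nat_lit 134217752) T_728F13 C_728F13 :: ch7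

theorem cn6 : Chn [cof 13, cof 7, cof 11, cof 8, cof 1] ch6 :=
  Chn.R (r := r_728F13) rj_728F13 tj_728F13 rfl rfl rfl cn7

/-- chain -/
def ch5 : List Lv := Lv.R (nat_lit 7) (nat_lit 0) (nat_lit 1) (nat_lit 3)
  (nat_lit 7516200832) (nat_lit 1073742208) (nat_lit 134217752) T_728F7 C_728F7 :: ch6

theorem cn5 : Chn [cof 13, cof 7, cof 11, cof 8, cof 1] ch5 :=
  Chn.R (r := r_728F7) rj_728F7 tj_728F7 rfl rfl rfl cn6

/-- chain -/
def ch4 : List Lv := Lv.R (nat_lit 7) (nat_lit 2) (nat_lit 0) (nat_lit 4)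
  (nat_lit 1744832336) (nat_lit 134217752) (nat_lit 134217752) T_143N7 C_143N7 :: ch5

theorem cn4 : Chn [cof 13, cof 7, cof 11, cof 8, cof 1] ch4 :=
  Chn.R (r := r_143N7) rj_143N7 tj_143N7 rfl rfl rfl cn5

/-- chain -/
def ch3 : List Lv := Lv.R (nat_lit 5) (nat_lit 2) (nat_lit 0) (nat_lit 4)
  (nat_lit 1744832336) (nat_lit 134217752) (nat_lit 134217752) T_143N5 C_143N5 :: ch4

theorem cn3 : Chn [cof 13, cof 7, cof 11, cof 8, cof 1] ch3 :=
  Chn.R (r := r_143N5) rj_143N5 tj_143N5 rfl rfl rfl cn4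

/-- chain -/
def ch2 : List Lv := Lv.R (nat_lit 13) (nat_lit 0) (nat_lit 1) (nat_lit 4)
  (nat_lit 939524600) (nat_lit 134217752) (nat_lit 134217752) T_91F13 C_91F13 :: ch3

theorem cn2 : Chn [cof 13, cof 7, cof 11, cof 8, cof 1] ch2 :=
  Chn.R (r := r_91F13) rj_91F13 tj_91F13 rfl rfl rfl cn3

/-- chain -/
def ch1 : List Lv := Lv.M (nat_lit 13) NP13 ST13 :: ch2

theorem cn1 : Chn [cof 7, cof 11, cof 8, cof 1] ch1 :=
  Chn.M (c := cof 13) kk13 (by decide) ad13 np13 st13 cn2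

/-- chain -/
def ch0 : List Lv := Lv.R (nat_lit 13) (nat_lit 1) (nat_lit 0) (nat_lit 2)
  (nat_lit 7516200832) (nat_lit 1073742208) (nat_lit 134217752) T_616N13 C_616N13 :: ch1

theorem cn0 : Chn [cof 7, cof 11, cof 8, cof 1] ch0 :=
  Chn.R (r := r_616N13) rj_616N13 tj_616N13 rfl rfl rfl cn1

/-- **the elimination of a half word** -/
noncomputable def elim (par : Bool) (h W v u be m0 : ℕ) : Bool := elimG ft ch0 par h W v u be m0

/-- **soundness of the elimination** -/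
theorem elim_spec : Elim elim := elimG_sound ftok cn0

end Pool.Agent.SU.EL
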