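import Pool.Agent.SU.EKer

/-!
Real quadratic fields with small units: codes of the forms.
-/

namespace Pool.Agent.SU.EL

open Finset Pool.Agent.Lib_helper5 Pool.Agent.Lib_helper5.LK Pool.Agent.LibH4.Ker
  Pool.Agent.LibH4.KF Pool.Agent.LibH4.T6 Pool.Agent.Lib_helper5.TB Pool.Agent.LibH4.S7
  Pool.Agent.LibH4 Pool.Agent.LibH4.CW

/-- position of a state -/
def pz (c : Cmp) (e : ℤ × ℤ × ℤ) : ℕ :=
  pos c.n c.ex c.PT (rs c.n e.1) (rs c.n e.2.1) (rs c.n (-e.2.2))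

/-- first coefficient of a state -/
def wz (c : Cmp) (e : ℤ × ℤ × ℤ) : ℕ := rs c.n e.1

/-- position of a form -/
def pj (c : Cmp) (j : Fm) : ℕ := pos c.n c.ex c.PT (rs c.n j.P) (rs c.n j.R) (rs c.n j.S)

/-- first coefficient of a form -/
def wj (c : Cmp) (j : Fm) : ℕ := rs c.n j.P

lemma pz_lt (c : Cmp) (e : ℤ × ℤ × ℤ) : pz c e < 256 := pos_lt _ _ _

lemma pj_lt (c : Cmp) (j : Fm) : pj c j < 256 := pos_lt _ _ _

/-- positions do not depend on the scaling -/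
lemma pos_scale {c : Cmp} (hc : CmpOK c) {D : ℤ} (hD : DOK D) {e : ℤ × ℤ × ℤ} (he : LO.dis e = D)
    {P R S : ℕ} (hP : P < c.n) (hS : S ≤ c.n) {lam : ZMod c.n} (t1 : ((e.1 : ℤ) : ZMod c.n) = lam * P)
    (t2 : ((e.2.1 : ℤ) : ZMod c.n) = lam * R) (t3 : ((e.2.2 : ℤ) : ZMod c.n) = lam * S) :
    pos c.n c.ex c.PT P R ((c.n - S) % c.n) = pz c e := by
  have hn := hc.pos
  have : NeZero c.n := ⟨hn.ne'⟩
  obtain ⟨v1, v2⟩ := hc.cp D hD e.1 e.2.1 e.2.2 he
  have hu := isUnit_of v1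
  set j := iv c.n c.ex (rs c.n e.1) with hj
  have hPu : ((P : ℕ) : ZMod c.n) * (lam * (j : ℕ)) = 1 := by
    rw [← hu, t1]; ring
  have hcop : Nat.Coprime P c.n := by
    rw [← ZMod.isUnit_iff_coprime]
    exact IsUnit.of_mul_eq_one _ hPu
  have hinv := hc.inv P hP hcop
  have hinv' : ((P : ℕ) : ZMod c.n) * ((iv c.n c.ex P : ℕ) : ZMod c.n) = 1 := by
    have h1 := congrArg (fun x : ℕ => (x : ZMod c.n)) hinv
    simp only [ZMod.natCast_mod] at h1
    push_cast at h1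
    rw [h1]
  have hlj : ((iv c.n c.ex P : ℕ) : ZMod c.n) = lam * (j : ℕ) := by
    linear_combination ((iv c.n c.ex P : ℕ) : ZMod c.n) * (-hPu) + (lam * (j : ℕ)) * hinv'
  have q2 : R * iv c.n c.ex P % c.n = rs c.n e.2.1 * j % c.n := by
    have : ((R * iv c.n c.ex P : ℕ) : ZMod c.n) = ((rs c.n e.2.1 * j : ℕ) : ZMod c.n) := by
      push_cast
      rw [rs_cast, t2, hlj]
      ring
    exact (ZMod.natCast_eq_natCast_iff' _ _ _).1 this
  have q3 : (c.n - S) % c.n * iv c.n c.ex P % c.n = rs c.n (-e.2.2) * j % c.n := by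
    have : (((c.n - S) % c.n * iv c.n c.ex P : ℕ) : ZMod c.n) =
        ((rs c.n (-e.2.2) * j : ℕ) : ZMod c.n) := by
      rw [Nat.cast_mul, ZMod.natCast_mod, Nat.cast_sub hS, ZMod.natCast_self]
      push_cast
      rw [rs_cast]
      push_cast
      rw [t3, hlj]
      ring
    exact (ZMod.natCast_eq_natCast_iff' _ _ _).1 this
  unfold pz pos
  rw [strict_eq, strict_eq]
  have e1 : Nat.mod (Nat.mul R (iv c.n c.ex P)) c.n =
      Nat.mod (Nat.mul (rs c.n e.2.1) (iv c.n c.ex (rs c.n e.1))) c.n := q2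
  have e2 : Nat.mod (Nat.mul ((c.n - S) % c.n) (iv c.n c.ex P)) c.n =
      Nat.mod (Nat.mul (rs c.n (-e.2.2)) (iv c.n c.ex (rs c.n e.1))) c.n := q3
  rw [e1, e2]

/-! ### transitions -/

/-- the value of an entry of the transition table -/
def npS (n ex PT a r s : ℕ) : ℕ :=
  Nat.add (pos n ex PT s (nxR n a r s) (Nat.mod (Nat.sub n (nxS n a (Nat.mod (nat_lit 1) n) r s)) n))
    (Nat.mul (nat_lit 256) s)

/-- check of the transition table -/
def npCk (n ex PT : ℕ) (F : List (ℕ × ℕ)) (NP : ℕ) : Bool :=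
  allJ (fun x i => allR (fun a => Nat.beq (npe n NP i a)
    (npS n ex PT a x.1 (Nat.mod (Nat.sub n x.2) n))) n) F (nat_lit 0)

lemma npCk_spec {c : Cmp} {NP : ℕ} (h : npCk c.n c.ex c.PT c.F NP = true) {i : ℕ} {x : ℕ × ℕ}
    (hx : c.F[i]? = some x) {a : ℕ} (ha : a < c.n) :
    npe c.n NP i a = npS c.n c.ex c.PT a x.1 ((c.n - x.2) % c.n) :=
  Nat.eq_of_beq_eq_true (allR_spec (allJ_spec0 h i x hx) a ha)

lemma npe_mod (n NP i a : ℕ) : npe n NP i (a % n) = npe n NP i a := by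
  have e : ∀ b, npe n NP i b = (NP >>> (16 * (i * n + b % n))) % 65536 := fun _ => rfl
  rw [e, e, Nat.mod_mod]

/-- **transitions** -/
theorem npe_spec {c : Cmp} (hc : CmpOK c) {D : ℤ} (hD : DOK D) {e : ℤ × ℤ × ℤ} (he : LO.dis e = D)
    {NP : ℕ} (h : npCk c.n c.ex c.PT c.F NP = true) (a : ℕ) :
    npe c.n NP (pz c e) a % 256 = pz c (LO.st a e) ∧
      wz c e * (npe c.n NP (pz c e) a >>> 8) % c.n = wz c (LO.st a e) := by
  have hn := hc.pos
  have hn19 := hc.le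
  have : NeZero c.n := ⟨hn.ne'⟩
  obtain ⟨v1, v2⟩ := hc.cp D hD e.1 e.2.1 e.2.2 he
  have hu := isUnit_of v1
  set j := iv c.n c.ex (rs c.n e.1) with hj
  have h1 := npCk_spec h v2 (Nat.mod_lt a hn)
  rw [npe_mod] at h1
  have hpz : pz c e = pos c.n c.ex c.PT (rs c.n e.1) (rs c.n e.2.1) (rs c.n (-e.2.2)) := rfl
  rw [← hpz] at h1
  simp only at h1
  set r := rs c.n e.2.1 * j % c.n with hr
  set s0 := rs c.n (-e.2.2) * j % c.n with hs0
  set s := (c.n - s0) % c.n with hs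
  set a' := a % c.n with ha'
  have hs0lt : s0 < c.n := Nat.mod_lt _ hn
  have hrlt : r < c.n := Nat.mod_lt _ hn
  have hslt : s < c.n := Nat.mod_lt _ hn
  have cr : ((r : ℕ) : ZMod c.n) = (e.2.1 : ℤ) * (j : ℕ) := by
    rw [hr, ZMod.natCast_mod]; push_cast; rw [rs_cast]
  have cs : ((s : ℕ) : ZMod c.n) = (e.2.2 : ℤ) * (j : ℕ) := by
    rw [hs, ZMod.natCast_mod, Nat.cast_sub hs0lt.le, ZMod.natCast_self, hs0, ZMod.natCast_mod]
    push_cast
    rw [rs_cast]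
    push_cast
    ring
  have ca : ((a' : ℕ) : ZMod c.n) = (a : ZMod c.n) := by rw [ha', ZMod.natCast_mod]
  have hst : LO.st a e = (e.2.2, 2 * (a : ℤ) * e.2.2 - e.2.1, e.1 + e.2.1 * a - e.2.2 * (a : ℤ) ^ 2) :=
    rfl
  have hdis : LO.dis (LO.st a e) = D := by rw [LO.dis_st, he]
  have cR : ((nxR c.n a' r s : ℕ) : ZMod c.n) = 2 * a * s - r := by
    have e1 : nxR c.n a' r s = (2 * a' * s + (c.n - r)) % c.n := rfl
    rw [e1, ZMod.natCast_mod, Nat.cast_add, Nat.cast_sub hrlt.le, ZMod.natCast_self]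
    push_cast
    rw [ca]
    ring
  have cS : ((nxS c.n a' (1 % c.n) r s : ℕ) : ZMod c.n) = 1 + r * a - s * a ^ 2 := by
    have e1 : nxS c.n a' (1 % c.n) r s = (1 % c.n + r * a' + (c.n - s) * (a' * a')) % c.n := rfl
    rw [e1, ZMod.natCast_mod, Nat.cast_add, Nat.cast_add, Nat.cast_mul (c.n - s),
      Nat.cast_sub hslt.le, ZMod.natCast_self, ZMod.natCast_mod]
    push_cast
    rw [ca]
    ring
  have hSlt : nxS c.n a' (1 % c.n) r s < c.n := Nat.mod_lt _ hn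
  have key := pos_scale hc hD hdis (P := s) (R := nxR c.n a' r s) (S := nxS c.n a' (1 % c.n) r s)
    hslt hSlt.le (lam := ((e.1 : ℤ) : ZMod c.n)) (by
      rw [hst, cs]
      simp only
      linear_combination (-((e.2.2 : ℤ) : ZMod c.n)) * hu) (by
      rw [hst, cR, cs, cr]
      push_cast
      linear_combination (-(2 * (a : ZMod c.n) * ((e.2.2 : ℤ) : ZMod c.n)) +
        ((e.2.1 : ℤ) : ZMod c.n)) * hu) (by
      rw [hst, cS, cs, cr]
      push_cast
      linear_combination (-((e.2.1 : ℤ) : ZMod c.n) * (a : ZMod c.n) +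
        ((e.2.2 : ℤ) : ZMod c.n) * (a : ZMod c.n) ^ 2) * hu)
  have e1 : npS c.n c.ex c.PT a' r s = pos c.n c.ex c.PT s (nxR c.n a' r s)
    ((c.n - nxS c.n a' (1 % c.n) r s) % c.n) + 256 * s := rfl
  rw [h1, e1, key]
  have hlt := pz_lt c (LO.st a e)
  constructor
  · omega
  · have e2 : (pz c (LO.st a e) + 256 * s) >>> 8 = s := by
      rw [Nat.shiftRight_eq_div_pow]; omega
    rw [e2]
    apply rs_of
    push_cast
    unfold wz
    rw [rs_cast, cs, hst]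
    simp only
    linear_combination ((e.2.2 : ℤ) : ZMod c.n) * hu

/-! ### first states -/

/-- the value of an entry of the start table -/
def stS' (n ex PT B m : ℕ) : ℕ :=
  Nat.add (pos n ex PT m B (Nat.mod (Nat.sub n (nat_lit 1)) n))
    (Nat.add (Nat.mul (nat_lit 256) (pos n ex PT (Nat.mod (nat_lit 1) n) B
      (Nat.mod (Nat.sub n m) n))) (nat_lit 65536))

/-- check of the start table -/
def stCk (n ex PT : ℕ) (A : ℕ → ℕ → ℕ → Bool) (ST : ℕ) : Bool :=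
  allR (fun B => allR (fun m => impB (A m B (Nat.mod (Nat.sub n (nat_lit 1)) n))
    (Nat.beq (ste n ST B m) (stS' n ex PT B m))) n) n

/-- **first states** -/
theorem ste_spec {c : Cmp} (hc : CmpOK c) {A : ℕ → ℕ → ℕ → Bool} (hA : AD c.n A) {D : ℤ}
    (hD : DOK D) {B m : ℤ} (he : B ^ 2 + 4 * m = D) {ST : ℕ}
    (h : stCk c.n c.ex c.PT A ST = true) :
    ste c.n ST (rs c.n B) (rs c.n m) = pz c (m, B, 1) + (256 * pz c (1, B, m) + 65536) := by
  have hn := hc.pos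
  have : NeZero c.n := ⟨hn.ne'⟩
  have h1 := hA D hD m B 1 (by rw [← he]; ring)
  have e1 : rs c.n (-(1 : ℤ)) = (c.n - 1) % c.n := by
    symm
    apply rs_of
    rw [Nat.cast_sub hn, ZMod.natCast_self]
    push_cast
    ring
  rw [e1] at h1
  have h2 := Nat.eq_of_beq_eq_true
    (impB_spec (allR_spec (allR_spec h (rs c.n B) (rs_lt B)) (rs c.n m) (rs_lt m)) h1)
  rw [h2]
  have e2 : rs c.n (-m) = (c.n - rs c.n m) % c.n := by
    symm
    apply rs_of
    rw [Nat.cast_sub (rs_lt m).le, ZMod.natCast_self, rs_cast]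
    push_cast
    ring
  have e3 : rs c.n (1 : ℤ) = 1 % c.n := by
    symm
    apply rs_of
    push_cast
    rfl
  unfold pz
  rw [e1, e2, e3]
  rfl

end Pool.Agent.SU.EL
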