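import Pool.Agent.SU.EDot

/-!
Real quadratic fields with small units: the search.
-/

namespace Pool.Agent.SU.EL

open Finset Pool.Agent.Lib_helper5 Pool.Agent.Lib_helper5.LK Pool.Agent.LibH4.Ker
  Pool.Agent.LibH4.KF Pool.Agent.LibH4.T6 Pool.Agent.Lib_helper5.TB Pool.Agent.LibH4.S7
  Pool.Agent.LibH4 Pool.Agent.LibH4.CW

/-- a half word and its family -/
structure Sit (par : Bool) (w : List ℕ) (v u be m0 t : ℕ) (D : ℤ) : Prop where
  len : w.length ≤ 17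
  W : RelJ D (JH par ((v * t + be : ℕ) : ℤ) ((u * t + m0 : ℕ) : ℤ) w)

/-- the forms -/
abbrev JF (par : Bool) (w : List ℕ) (v u be m0 t : ℕ) : List Fm :=
  JH par ((v * t + be : ℕ) : ℤ) ((u * t + m0 : ℕ) : ℤ) w

section

variable {par : Bool} {w : List ℕ} {v u be m0 t : ℕ} {D : ℤ}

lemma Sit.disc (S : Sit par w v u be m0 t D) :
    ((v * t + be : ℕ) : ℤ) ^ 2 + 4 * ((u * t + m0 : ℕ) : ℤ) = D := by
  have h := S.W.disc _ (List.mem_cons_self)
  rw [← h]
  ring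

/-- classes -/
lemma lift_class {n K c : ℕ} (hc : 0 < c) (hn : (K : ℤ) ∣ (t : ℤ) - n) :
    ∃ s, s < Nat.div c (Nat.gcd K c) ∧
      ((Nat.mul K (Nat.div c (Nat.gcd K c)) : ℕ) : ℤ) ∣ (t : ℤ) - ((Nat.add n (Nat.mul K s) : ℕ) : ℤ) := by
  have hg : 0 < Nat.gcd K c := Nat.gcd_pos_of_pos_right _ hc
  have hq : 0 < c / Nat.gcd K c := Nat.div_pos (Nat.le_of_dvd hc (Nat.gcd_dvd_right _ _)) hg
  obtain ⟨x, hx⟩ := hn
  set q := c / Nat.gcd K c with hqd
  have e0 : Nat.div c (Nat.gcd K c) = q := rfl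
  rw [e0]
  have hq' : (0 : ℤ) < (q : ℤ) := by exact_mod_cast hq
  have h1 : 0 ≤ x % (q : ℤ) := Int.emod_nonneg _ hq'.ne'
  have h2 : x % (q : ℤ) < q := Int.emod_lt_of_pos _ hq'
  refine ⟨(x % (q : ℤ)).toNat, by omega, ?_⟩
  have e1 : ((Nat.add n (Nat.mul K (x % (q : ℤ)).toNat) : ℕ) : ℤ) = n + K * (x % (q : ℤ)) := by
    have : Nat.add n (Nat.mul K (x % (q : ℤ)).toNat) = n + K * (x % (q : ℤ)).toNat := rfl
    rw [this]
    push_cast
    rw [Int.toNat_of_nonneg h1]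
  have e2 : ((Nat.mul K q : ℕ) : ℤ) = (K : ℤ) * q := by
    have : Nat.mul K q = K * q := rfl
    rw [this]; push_cast; ring
  rw [e1, e2]
  refine ⟨x / q, ?_⟩
  have h3 := Int.emod_add_mul_ediv x q
  have h4 : (t : ℤ) - (n + K * (x % q)) = K * (x - x % q) := by linear_combination hx
  rw [h4]
  have h5 : x - x % (q : ℤ) = q * (x / q) := by linear_combination -h3
  rw [h5]
  ring

lemma dvd_lift {K c : ℕ} (hc : 0 < c) : c ∣ Nat.mul K (Nat.div c (Nat.gcd K c)) := by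
  have e : Nat.mul K (Nat.div c (Nat.gcd K c)) = K * (c / Nat.gcd K c) := rfl
  rw [e]
  have hg : 0 < Nat.gcd K c := Nat.gcd_pos_of_pos_right _ hc
  obtain ⟨a, ha⟩ := Nat.gcd_dvd_left K c
  obtain ⟨b, hb⟩ := Nat.gcd_dvd_right K c
  set g := Nat.gcd K c with hgd
  refine ⟨a, ?_⟩
  have h1 : c / g = b := by rw [hb, Nat.mul_div_cancel_left _ hg]
  rw [h1]
  calc K * b = g * a * b := by rw [← ha]
    _ = (g * b) * a := by ring
    _ = c * a := by rw [← hb]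

lemma lin_eq {c n' K' x y : ℕ} (h : (K' : ℤ) ∣ (t : ℤ) - n') (hd : c ∣ K') :
    lin c x y n' = rs c ((x * t + y : ℕ) : ℤ) := by
  have e : lin c x y n' = (x * n' + y) % c := rfl
  rw [e]
  apply rs_of
  have h1 : ((c : ℕ) : ℤ) ∣ (t : ℤ) - n' := dvd_trans (by exact_mod_cast hd) h
  have h2 : ((t : ℤ) : ZMod c) = ((n' : ℤ) : ZMod c) := by
    rw [← sub_eq_zero, ← Int.cast_sub]
    exact (ZMod.intCast_zmod_eq_zero_iff_dvd _ _).2 h1
  push_cast at h2 ⊢
  rw [h2]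

lemma mul_lift_pos {K c : ℕ} (hK : 0 < K) (hc : 0 < c) :
    0 < Nat.mul K (Nat.div c (Nat.gcd K c)) := by
  have hg : 0 < Nat.gcd K c := Nat.gcd_pos_of_pos_right _ hc
  have hq : 0 < c / Nat.gcd K c := Nat.div_pos (Nat.le_of_dvd hc (Nat.gcd_dvd_right _ _)) hg
  exact Nat.mul_pos hK hq

/-- **component level** -/
theorem lM_sound {c : Cmp} {NP ST : ℕ} {A : ℕ → ℕ → ℕ → Bool} (hc : CmpOK c) (h1 : 1 < c.n)
    (hA : AD c.n A) (np : npCk c.n c.ex c.PT c.F NP = true) (st : stCk c.n c.ex c.PT A ST = true)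
    (S : Sit par w v u be m0 t D) {n K : ℕ} (hn : (K : ℤ) ∣ (t : ℤ) - n)
    {ih : ℕ → ℕ → ℕ → Bool}
    (h : lM4 c.n NP ST par (LQ par w) v u be m0 n K (Nat.div c.n (Nat.gcd K c.n)) ih = true) :
    ∃ n' K' : ℕ, (K' : ℤ) ∣ (t : ℤ) - ((n' : ℕ) : ℤ) ∧ ih (VV c (JF par w v u be m0 t)) n' K' = true := by
  have hc0 := hc.pos
  obtain ⟨s, hs, hd⟩ := lift_class (t := t) hc0 hn
  have h2 := allR_spec h s hs
  have d := dvd_lift (K := K) hc0
  set n' := Nat.add n (Nat.mul K s) with hn'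
  set K' := Nat.mul K (Nat.div c.n (Nat.gcd K c.n)) with hK'
  refine ⟨n', K', hd, ?_⟩
  have e1 := lin_eq (t := t) (x := v) (y := be) hd d
  have e2 := lin_eq (t := t) (x := u) (y := m0) hd d
  have h3 : lM1 c.n NP par (LQ par w) K (Nat.div c.n (Nat.gcd K c.n)) n' (lin c.n u m0 n')
      (ste c.n ST (lin c.n v be n') (lin c.n u m0 n')) ih = true := h2
  rw [e1, e2] at h3
  rw [ste_spec hc hA S.W.dok S.disc st] at h3
  have e3 : ∀ e, lM1 c.n NP par (LQ par w) K (Nat.div c.n (Nat.gcd K c.n)) n'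
      (rs c.n ((u * t + m0 : ℕ) : ℤ)) (e + 1) ih =
      ih (orbV c.n NP par (LQ par w) (rs c.n ((u * t + m0 : ℕ) : ℤ)) (e + 1)) n' K' := fun _ => rfl
  have e4 : pz c (((u * t + m0 : ℕ) : ℤ), ((v * t + be : ℕ) : ℤ), 1) +
      (256 * pz c (1, ((v * t + be : ℕ) : ℤ), ((u * t + m0 : ℕ) : ℤ)) + 65536) =
      (pz c (((u * t + m0 : ℕ) : ℤ), ((v * t + be : ℕ) : ℤ), 1) +
      (256 * pz c (1, ((v * t + be : ℕ) : ℤ), ((u * t + m0 : ℕ) : ℤ)) + 65535)) + 1 := by omega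
  rw [e4, e3, ← e4, orbV_spec hc h1 S.W.dok np par w S.disc] at h3
  exact h3

/-- **relation level** -/
theorem lR_sound {r : RD} {T C : ℕ} (hr : RJOK r) (hT : TJOK r T C)
    (S : Sit par w v u be m0 t D) {n K : ℕ} (hn : (K : ℤ) ∣ (t : ℤ) - n)
    {V1 V2 V3 : ℕ} (h1 : V1 = VV (cof r.n1) (JF par w v u be m0 t))
    (h2 : V2 = VV (cof r.n2) (JF par w v u be m0 t))
    (h3 : V3 = VV (cof r.n3) (JF par w v u be m0 t)) {ih : ℕ → ℕ → Bool}
    (h : lR r.l (mul1 r) (mul2 r) mul3 T C V1 V2 V3 par (LQ par w) v be n K ih = true) :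
    ∃ n' K' : ℕ, (K' : ℤ) ∣ (t : ℤ) - ((n' : ℕ) : ℤ) ∧ ih n' K' = true := by
  have hc0 := hr.l0
  have : NeZero r.l := ⟨hc0.ne'⟩
  obtain ⟨s, hs, hd⟩ := lift_class (t := t) hc0 hn
  have h4 := allR_spec h s hs
  have d := dvd_lift (K := K) hc0
  set n' := Nat.add n (Nat.mul K s) with hn'
  set K' := Nat.mul K (Nat.div r.l (Nat.gcd K r.l)) with hK'
  refine ⟨n', K', hd, ?_⟩
  have e1 := lin_eq (t := t) (x := v) (y := be) hd d
  have h5 := rel_level hr hT S.len S.W (b := lin r.l v be n') (by rw [e1, rs_cast]) h1 h2 h3 rfl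
  have h6 : Nat.beq (Nat.mod (Nat.add (Nat.mod (Nat.shiftRight (fold r.l T C par (LQ par w)
      (Nat.shiftRight (Nat.add (Nat.mul (mul1 r) V1) (Nat.add (Nat.mul (mul2 r) V2)
        (Nat.mul mul3 V3))) 96)) 19) 524288) (Nat.mul (lin r.l v be n')
      (Nat.mul (Nat.shiftRight (zz T (Nat.add (Nat.mul (mul1 r) V1) (Nat.add (Nat.mul (mul2 r) V2)
        (Nat.mul mul3 V3)))) 19) (ww C (Nat.add (Nat.mul (mul1 r) V1) (Nat.add (Nat.mul (mul2 r) V2)
        (Nat.mul mul3 V3))))))) r.l) 0 = true := by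
    rw [Nat.beq_eq]
    exact h5
  have h7 : br (Nat.beq (Nat.mod (Nat.add (Nat.mod (Nat.shiftRight (fold r.l T C par (LQ par w)
      (Nat.shiftRight (Nat.add (Nat.mul (mul1 r) V1) (Nat.add (Nat.mul (mul2 r) V2)
        (Nat.mul mul3 V3))) 96)) 19) 524288) (Nat.mul (lin r.l v be n')
      (Nat.mul (Nat.shiftRight (zz T (Nat.add (Nat.mul (mul1 r) V1) (Nat.add (Nat.mul (mul2 r) V2)
        (Nat.mul mul3 V3)))) 19) (ww C (Nat.add (Nat.mul (mul1 r) V1) (Nat.add (Nat.mul (mul2 r) V2)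
        (Nat.mul mul3 V3))))))) r.l) 0) (ih n' K') = true := h4
  rw [h6] at h7
  exact h7

/-- **inert level** -/
theorem lI_sound (S : Sit par w v u be m0 t D) {n K : ℕ} (hn : (K : ℤ) ∣ (t : ℤ) - n)
    {ih : ℕ → ℕ → Bool}
    (h : lI 29 v u be m0 n K (Nat.div 29 (Nat.gcd K 29)) ih = true) :
    ∃ n' K' : ℕ, (K' : ℤ) ∣ (t : ℤ) - ((n' : ℕ) : ℤ) ∧ ih n' K' = true := by
  have hc0 : 0 < 29 := by norm_num
  have : NeZero 29 := ⟨by norm_num⟩
  obtain ⟨s, hs, hd⟩ := lift_class (t := t) hc0 hn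
  have h4 := allR_spec h s hs
  have d := dvd_lift (K := K) hc0
  set n' := Nat.add n (Nat.mul K s) with hn'
  set K' := Nat.mul K (Nat.div 29 (Nat.gcd K 29)) with hK'
  refine ⟨n', K', hd, ?_⟩
  have e1 := lin_eq (t := t) (x := v) (y := be) hd d
  have e2 := lin_eq (t := t) (x := u) (y := m0) hd d
  have h5 : br (inr 29 (lin 29 v be n' ^ 2 + 4 * lin 29 u m0 n')) (ih n' K') = true := h4
  rw [e1, e2] at h5
  have h6 : inr 29 (rs 29 ((v * t + be : ℕ) : ℤ) ^ 2 + 4 * rs 29 ((u * t + m0 : ℕ) : ℤ)) = true := by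
    have h7 := S.W.in29
    unfold K5.In at h7
    have h8 : (rs 29 ((v * t + be : ℕ) : ℤ) ^ 2 + 4 * rs 29 ((u * t + m0 : ℕ) : ℤ)) % 29 =
        rs 29 D := by
      apply rs_of
      rw [← S.disc, Nat.cast_add, Nat.cast_mul, Nat.cast_pow, rs_cast, rs_cast]
      push_cast
      ring
    have h9 : inr 29 (rs 29 ((v * t + be : ℕ) : ℤ) ^ 2 + 4 * rs 29 ((u * t + m0 : ℕ) : ℤ)) =
        inr 29 ((rs 29 ((v * t + be : ℕ) : ℤ) ^ 2 + 4 * rs 29 ((u * t + m0 : ℕ) : ℤ)) % 29) := by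
      generalize rs 29 ((v * t + be : ℕ) : ℤ) ^ 2 + 4 * rs 29 ((u * t + m0 : ℕ) : ℤ) = y
      have e3 : ∀ y, inr 29 y = Nat.beq (y ^ 14 % 29) 28 := fun _ => rfl
      rw [e3, e3, Nat.pow_mod y]
    rw [h9, h8]
    exact h7
  rw [h6] at h5
  exact h5

/-! ### the chain -/

lemma VV_one (J : List Fm) : VV (cof 1) J = 0 := by
  have h0 : ∀ j : Fm, cj (cof 1) j = 0 := by
    intro j
    have e1 : rs 1 j.P = 0 := by
      have := rs_lt (p := 1) j.P
      omega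
    have e2 : rs 1 j.R = 0 := by
      have := rs_lt (p := 1) j.R
      omega
    have e3 : rs 1 j.S = 0 := by
      have := rs_lt (p := 1) j.S
      omega
    have hp : pj (cof 1) j = pos 1 0 PT1 (rs 1 j.P) (rs 1 j.R) (rs 1 j.S) := rfl
    have hw : wj (cof 1) j = rs 1 j.P := rfl
    unfold cj
    rw [hp, hw, e1, e2, e3]
    decide +kernel
  unfold VV
  induction J with
  | nil => rfl
  | cons j J ih => rw [packL_cons, ih, h0, mul_zero, add_zero]

/-- correct levels -/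
inductive Chn : List Cmp → List Lv → Prop
  | nil (cs : List Cmp) : Chn cs []
  | M {cs : List Cmp} {ls : List Lv} {c : Cmp} {NP ST : ℕ} {A : ℕ → ℕ → ℕ → Bool}
      (hc : CmpOK c) (h1 : 1 < c.n) (hA : AD c.n A) (np : npCk c.n c.ex c.PT c.F NP = true)
      (st : stCk c.n c.ex c.PT A ST = true) (h : Chn (c :: cs) ls) :
      Chn cs (Lv.M c.n NP ST :: ls)
  | R {cs : List Cmp} {ls : List Lv} {r : RD} {T C j1 j2 j3 : ℕ} (hr : RJOK r)
      (hT : TJOK r T C) (h1 : cs[j1]? = some (cof r.n1)) (h2 : cs[j2]? = some (cof r.n2))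
      (h3 : cs[j3]? = some (cof r.n3)) (h : Chn cs ls) :
      Chn cs (Lv.R r.l j1 j2 j3 (mul1 r) (mul2 r) mul3 T C :: ls)
  | I {cs : List Cmp} {ls : List Lv} (h : Chn cs ls) : Chn cs (Lv.I 29 :: ls)

lemma nthV_eq (L : List ℕ) (i x : ℕ) (h : L[i]? = some x) : nthV L i = x := by
  induction L generalizing i with
  | nil => simp at h
  | cons y L ih =>
    cases i with
    | zero =>
      rw [List.getElem?_cons_zero, Option.some.injEq] at h
      exact h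
    | succ i =>
      rw [List.getElem?_cons_succ] at h
      exact ih i h

/-- **the search** -/
theorem dfs_sound {cs : List Cmp} {ls : List Lv} (hc : Chn cs ls)
    (S : Sit par w v u be m0 t D) {n K : ℕ} (hn : (K : ℤ) ∣ (t : ℤ) - n)
    (h : dfs par (LQ par w) v u be m0 ls (cs.map fun c => VV c (JF par w v u be m0 t)) n K = true) :
    False := by
  induction hc generalizing n K with
  | nil cs => exact absurd h (by simp [dfs])
  | @M cs ls c NP ST A hc h1 hA np st hch ih =>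
    obtain ⟨n', K', hd, h2⟩ := lM_sound hc h1 hA np st S hn (ih := fun V =>
      dfs par (LQ par w) v u be m0 ls (V :: cs.map fun c => VV c (JF par w v u be m0 t))) h
    exact ih hd h2
  | @R cs ls r T C j1 j2 j3 hr hT h1 h2 h3 hch ih =>
    have key : ∀ j c, cs[j]? = some c → nthV (cs.map fun c => VV c (JF par w v u be m0 t)) j =
        VV c (JF par w v u be m0 t) := by
      intro j c hj
      apply nthV_eq
      rw [List.getElem?_map, hj]
      rfl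
    obtain ⟨n', K', hd, h5⟩ := lR_sound hr hT S hn (key _ _ h1) (key _ _ h2) (key _ _ h3)
      (ih := dfs par (LQ par w) v u be m0 ls (cs.map fun c => VV c (JF par w v u be m0 t))) h
    exact ih hd h5
  | @I cs ls hch ih =>
    obtain ⟨n', K', hd, h5⟩ := lI_sound S hn
      (ih := dfs par (LQ par w) v u be m0 ls (cs.map fun c => VV c (JF par w v u be m0 t))) h
    exact ih hd h5

end

end Pool.Agent.SU.EL
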