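import Pool.Agent.SU.ERel

/-!
Real quadratic fields with small units: sums of values by one multiplication.
-/

namespace Pool.Agent.SU.EL

open Finset Pool.Agent.Lib_helper5 Pool.Agent.Lib_helper5.LK Pool.Agent.LibH4.Ker
  Pool.Agent.LibH4.KF Pool.Agent.LibH4.T6 Pool.Agent.Lib_helper5.TB Pool.Agent.LibH4.S7
  Pool.Agent.LibH4 Pool.Agent.LibH4.CW

lemma rp_range (V : ℕ) (f : ℕ → ℕ) (n : ℕ) :
    rp V f (List.range n) = ∑ k ∈ range n, f k * V ^ (n - 1 - k) := by
  induction n with
  | zero => rfl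
  | succ n ih =>
    rw [List.range_succ, rp_append, ih, Finset.sum_range_succ, List.length_singleton, pow_one,
      Finset.sum_mul]
    have e1 : rp V f [n] = f n := by simp [rp]
    rw [e1]
    congr 1
    · apply Finset.sum_congr rfl
      intro k hk
      rw [Finset.mem_range] at hk
      rw [mul_assoc, ← pow_succ]
      congr 2
      omega
    · rw [Nat.add_sub_cancel, Nat.sub_self, pow_zero, mul_one]

/-- the digits of a one hot vector -/
def hd2 (P p x y k : ℕ) : ℕ := if k = p then x else if k = P + p then y else 0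

lemma hot_rp {P p x y : ℕ} (hp : p < P) :
    (y + x * 2 ^ (24 * P)) <<< (24 * (P - 1 - p)) =
      rp (2 ^ 24) (hd2 P p x y) (List.range (2 * P)) := by
  rw [rp_range, Nat.shiftLeft_eq]
  have h1 : ∀ k ∈ range (2 * P), hd2 P p x y k * (2 ^ 24) ^ (2 * P - 1 - k) =
      (if k = p then x * (2 ^ 24) ^ (2 * P - 1 - k) else 0) +
        (if k = P + p then y * (2 ^ 24) ^ (2 * P - 1 - k) else 0) := by
    intro k _
    unfold hd2
    by_cases h : k = p
    · have h' : ¬ k = P + p := by omega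
      simp only [if_pos h, if_neg h', add_zero]
    · by_cases h' : k = P + p
      · simp only [if_neg h, if_pos h', zero_add]
      · simp only [if_neg h, if_neg h', zero_mul, add_zero]
  rw [Finset.sum_congr rfl h1, Finset.sum_add_distrib, Finset.sum_ite_eq', Finset.sum_ite_eq',
    if_pos (Finset.mem_range.2 (by omega)), if_pos (Finset.mem_range.2 (by omega)), ← pow_mul,
    ← pow_mul, add_mul, mul_assoc, ← pow_add]
  have e1 : 24 * P + 24 * (P - 1 - p) = 24 * (2 * P - 1 - p) := by omega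
  have e2 : 24 * (P - 1 - p) = 24 * (2 * P - 1 - (P + p)) := by omega
  rw [e1, e2]
  ring

lemma hd2_le {P p x y k M : ℕ} (hx : x ≤ M) (hy : y ≤ M) : hd2 P p x y k ≤ M := by
  unfold hd2
  split_ifs
  · exact hx
  · exact hy
  · exact Nat.zero_le _

/-- **inner products of blocks and one hot vectors** -/
theorem dot_eq {L : List Fm} {P : ℕ} {A W K E p : Fm → ℕ} {rd : Fm → ℕ → ℕ} (hL : L ≠ [])
    (hP : 0 < P) (hp : ∀ j ∈ L, p j < P) (hrd : ∀ j ∈ L, ∀ k, k < 2 * P → rd j k ≤ 10)
    (hA : ∀ j ∈ L, A j ≤ 10) (hW : ∀ j ∈ L, W j ≤ 10) (hK : ∀ j ∈ L, K j ≤ 10)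
    (hE : ∀ j ∈ L, E j ≤ 10) (hlen : L.length * (2 * P) * 10000 < 2 ^ 24) :
    ((packL (2 ^ (48 * P)) (fun j => A j * packL (2 ^ 24) (rd j) (List.range (2 * P))) L *
      rp (2 ^ (48 * P)) (fun j => (W j * (E j + K j * 2 ^ (24 * P))) <<< (24 * (P - 1 - p j))) L)
      >>> (48 * P * (L.length - 1) + 24 * (2 * P - 1))) % 2 ^ 24 =
      (L.map fun j => A j * W j * (K j * rd j (p j) + E j * rd j (P + p j))).sum := by
  have hlen0 : 0 < L.length := List.length_pos_iff.2 hL
  have e0 : (2 : ℕ) ^ (48 * P) = (2 ^ 24) ^ (List.range (2 * P)).length := by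
    rw [List.length_range, ← pow_mul]; congr 1; ring
  -- the blocks
  have e1 : packL (2 ^ (48 * P)) (fun j => A j * packL (2 ^ 24) (rd j) (List.range (2 * P))) L =
      packL (2 ^ 24) (fun y : Fm × ℕ => A y.1 * rd y.1 y.2) (L ×ˢ List.range (2 * P)) := by
    rw [e0]
    have := packL_flat (2 ^ 24) (fun (x : Fm) (k : ℕ) => A x * rd x k) L (List.range (2 * P))
    rw [← this]
    congr 1
    ext j
    generalize List.range (2 * P) = M
    induction M with
    | nil => rfl
    | cons k M ih => rw [packL_cons, packL_cons, ← ih]; ring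
  have e2 : rp (2 ^ (48 * P)) (fun j => (W j * (E j + K j * 2 ^ (24 * P))) <<<
      (24 * (P - 1 - p j))) L = rp (2 ^ 24) (fun y : Fm × ℕ => hd2 P (p y.1) (W y.1 * K y.1)
        (W y.1 * E y.1) y.2) (L ×ˢ List.range (2 * P)) := by
    rw [e0]
    have := rp_flat (2 ^ 24) (fun (x : Fm) (k : ℕ) => hd2 P (p x) (W x * K x) (W x * E x) k) L
      (List.range (2 * P))
    rw [← this]
    apply rp_congr
    intro j hj
    rw [← hot_rp (hp j hj)]
    congr 1
    ring
  rw [e1, e2, mul_comm, Nat.shiftRight_eq_div_pow]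
  have hne : L ×ˢ List.range (2 * P) ≠ [] := by
    intro h
    have := congrArg List.length h
    rw [List.length_product, List.length_range, List.length_nil] at this
    have : 0 < L.length * (2 * P) := by positivity
    omega
  have hmem : ∀ y ∈ L ×ˢ List.range (2 * P), y.1 ∈ L ∧ y.2 < 2 * P := by
    intro y hy
    obtain ⟨y1, y2⟩ := y
    have := List.mem_product.1 hy
    exact ⟨this.1, List.mem_range.1 this.2⟩
  have hip := ip_eq (V := 2 ^ 24) (A := 100) (B := 100)
    (a := fun y : Fm × ℕ => hd2 P (p y.1) (W y.1 * K y.1) (W y.1 * E y.1) y.2)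
    (b := fun y : Fm × ℕ => A y.1 * rd y.1 y.2) hne
    (by
      intro y hy
      obtain ⟨h1, h2⟩ := hmem y hy
      exact hd2_le (Nat.mul_le_mul (hW _ h1) (hK _ h1)) (Nat.mul_le_mul (hW _ h1) (hE _ h1)))
    (by
      intro y hy
      obtain ⟨h1, h2⟩ := hmem y hy
      exact Nat.mul_le_mul (hA _ h1) (hrd _ h1 _ h2))
    (by rw [List.length_product, List.length_range]; omega)
  have e3 : (2 : ℕ) ^ (48 * P * (L.length - 1) + 24 * (2 * P - 1)) =
      (2 ^ 24) ^ ((L ×ˢ List.range (2 * P)).length - 1) := by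
    rw [List.length_product, List.length_range, ← pow_mul]
    congr 1
    obtain ⟨n, hn⟩ : ∃ n, L.length = n + 1 := ⟨L.length - 1, by omega⟩
    obtain ⟨q, hq⟩ : ∃ q, 2 * P = q + 1 := ⟨2 * P - 1, by omega⟩
    rw [hn, hq, Nat.add_sub_cancel, Nat.add_sub_cancel, show 48 * P = 24 * (q + 1) by omega,
      show (n + 1) * (q + 1) - 1 = n * (q + 1) + q by
        rw [Nat.add_mul, one_mul, ← Nat.add_assoc, Nat.add_sub_cancel]]
    ring
  rw [e3, hip]
  have hsf := sum_flat (fun (x : Fm) (k : ℕ) => hd2 P (p x) (W x * K x) (W x * E x) k *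
    (A x * rd x k)) L (List.range (2 * P))
  rw [hsf]
  apply lsum_congr
  intro j hj
  rw [lrange_sum]
  have hpj := hp j hj
  have h1 : ∀ k ∈ range (2 * P), hd2 P (p j) (W j * K j) (W j * E j) k * (A j * rd j k) =
      (if k = p j then (W j * K j) * (A j * rd j k) else 0) +
        (if k = P + p j then (W j * E j) * (A j * rd j k) else 0) := by
    intro k _
    unfold hd2
    by_cases h : k = p j
    · have h' : ¬ k = P + p j := by omega
      simp only [if_pos h, if_neg h', add_zero]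
    · by_cases h' : k = P + p j
      · simp only [if_neg h, if_pos h', zero_add]
      · simp only [if_neg h, if_neg h', zero_mul, add_zero]
  rw [Finset.sum_congr rfl h1, Finset.sum_add_distrib, Finset.sum_ite_eq', Finset.sum_ite_eq',
    if_pos (Finset.mem_range.2 (by omega)), if_pos (Finset.mem_range.2 (by omega))]
  ring

/-- the digits of a number -/
lemma digits_eq (n X : ℕ) :
    X % (2 ^ 24) ^ n = packL (2 ^ 24) (fun k => (X >>> (24 * k)) % 2 ^ 24) (List.range n) := by
  induction n with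
  | zero => simp [packL, Nat.mod_one]
  | succ n ih =>
    rw [List.range_succ, packL_append, ← ih, List.length_range, packL_cons]
    change _ = _ + _ * ((X >>> (24 * n)) % 2 ^ 24 + 2 ^ 24 * 0)
    rw [mul_zero, add_zero, Nat.shiftRight_eq_div_pow, pow_mul, pow_succ (2 ^ 24) n,
      Nat.mod_mul]

lemma JT_kappa0 (par : Bool) (w : List ℕ) (f : ℤ × ℤ × ℤ) : ∀ j ∈ JT par f w, j.κ ≠ 0 := by
  induction w generalizing f with
  | nil =>
    cases par with
    | false => intro j hj; simp only [JT, cond_false, List.mem_singleton] at hj; subst hj; simp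
    | true => intro j hj; simp [JT] at hj
  | cons a w ih =>
    intro j hj
    rw [JT_cons] at hj
    rcases List.mem_cons.1 hj with rfl | hj
    · simp
    · exact ih _ _ hj

/-- the second coefficient of a one hot vector -/
def Ej (l : ℕ) (j : Fm) : ℕ := if j.κ = 0 then 1 else al j % l

/-- **products and relations** -/
theorem dot_level {r : RD} (hr : RJOK r) {D : ℤ} {par : Bool} {B m : ℤ} {w : List ℕ}
    (W : RelJ D (JH par B m w)) {b : ℕ} (hb : ((b : ℕ) : ZMod r.l) = B) (hl : r.l ≤ 11) {P : ℕ}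
    (hP : 0 < P) {A Wt p : Fm → ℕ} {rd : Fm → ℕ → ℕ} (hp : ∀ j ∈ JH par B m w, p j < P)
    (hrd : ∀ j ∈ JH par B m w, ∀ k, k < 2 * P → rd j k ≤ 10)
    (hA : ∀ j ∈ JH par B m w, A j ≤ 10) (hW : ∀ j ∈ JH par B m w, Wt j ≤ 10)
    (hlen : (JH par B m w).length * (2 * P) * 10000 < 2 ^ 24)
    (hrx : ∀ j ∈ JH par B m w, rd j (p j) = xv r j)
    (hry : ∀ j ∈ JH par B m w, rd j (P + p j) = (r.l - yv r j) % r.l)
    (hyl : ∀ j ∈ JH par B m w, yv r j ≤ r.l)
    (hw : ∀ j ∈ JH par B m w, ((A j * Wt j : ℕ) : ZMod r.l) =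
      (if j.κ = 0 then (b : ZMod r.l) else 1) * wv r j) {X Y sh : ℕ}
    (hX : X = packL (2 ^ (48 * P)) (fun j => A j * packL (2 ^ 24) (rd j) (List.range (2 * P)))
      (JH par B m w))
    (hY : Y = rp (2 ^ (48 * P)) (fun j => (Wt j * (Ej r.l j + j.κ * 2 ^ (24 * P))) <<<
      (24 * (P - 1 - p j))) (JH par B m w))
    (hsh : sh = 48 * P * ((JH par B m w).length - 1) + 24 * (2 * P - 1)) :
    ((X * Y) >>> sh) % 2 ^ 24 % r.l = 0 := by
  have hl0 := hr.l0
  have : NeZero r.l := ⟨hl0.ne'⟩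
  have hJ : JH par B m w = ⟨m, B, -1, 0, -B⟩ :: JT par (1, B, m) w := rfl
  rw [hX, hY, hsh, dot_eq (by rw [hJ]; simp) hP hp hrd hA hW (by
    intro j hj
    rw [hJ] at hj
    rcases List.mem_cons.1 hj with rfl | hj
    · simp
    · have := JT_kappa _ _ _ j hj; omega) (by
    intro j _
    unfold Ej
    split_ifs
    · omega
    · have := Nat.mod_lt (al j) hl0; omega) hlen]
  rw [← Nat.dvd_iff_mod_eq_zero, ← ZMod.natCast_eq_zero_iff, cast_lsum]
  have hrel := hr.rel W
  rw [← Nat.dvd_iff_mod_eq_zero, ← ZMod.natCast_eq_zero_iff, cast_lsum] at hrel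
  rw [← hrel]
  apply lsum_congr
  intro j hj
  rw [fval_cast hr, Nat.cast_mul, hw j hj, hrx j hj, hry j hj, Nat.cast_add, Nat.cast_mul,
    Nat.cast_mul, ZMod.natCast_mod, Nat.cast_sub (hyl j hj), ZMod.natCast_self]
  rw [hJ] at hj
  rcases List.mem_cons.1 hj with rfl | hj
  · simp only [if_true, Ej]
    push_cast
    rw [hb]
    ring
  · have h0 := JT_kappa0 _ _ _ j hj
    have h6 := congrArg (fun x : ℤ => (x : ZMod r.l)) (JT_al par w _ j hj)
    push_cast at h6
    rw [if_neg h0]
    have e : ((Ej r.l j : ℕ) : ZMod r.l) = -((j.α : ℤ) : ZMod r.l) := by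
      unfold Ej
      rw [if_neg h0, ZMod.natCast_mod, h6]
    rw [e]
    ring

end Pool.Agent.SU.EL
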