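import Pool.Agent.SU.RDFam
import Pool.Agent.SU.Bound

/-!
Real quadratic fields with small units: from the checks of the families to the list.
-/

namespace Pool.Agent.SU

open scoped NumberField
open Function Pool.Agent.Lib_helper5 Pool.Agent.LibH4 Pool.Agent.LibH4.CFO Pool.Agent.LibH4.LO
open Pool.Agent.LibH4.Ker Pool.Agent.LibH4.CW

/-- soundness of an elimination function -/
def Elim (el : Bool → ℕ → ℕ → ℕ → ℕ → ℕ → ℕ → Bool) : Prop :=
  ∀ (par : Bool) (w : List ℕ) (v u β m0 t : ℕ) (D : ℤ), SmW w →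
    el par w.length (pk w) v u β m0 = true →
    RelJ D (JH par ((v * t + β : ℕ) : ℤ) ((u * t + m0 : ℕ) : ℤ) w) → False

variable {m B : ℤ} {s : ℝ} {x : ℕ → ℝ} {c : ℕ → ℕ}

/-- the letters of a part of the period are small -/
lemma smW_of (h : Data m B s x c) {X L H : ℕ} (hX : X < 2 ^ 20) (hHL : H ≤ L)
    (hv : (mat (wn c 1 L)).1 ≤ X) : SmW (wn c 1 H) := by
  obtain ⟨n, rfl⟩ : ∃ n, L = H + n := ⟨L - H, by omega⟩
  intro a ha
  have h1 := letter_le (wn_pos h 1 H) a ha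
  have h2 := K_le (w := wn c 1 H) (wn c (1 + H) n) (wn_pos h _ _)
  rw [← wn_add] at h2
  omega

theorem main_data {pl : PLt} {dl : List ℕ} {X : ℕ}
    {el : Bool → ℕ → ℕ → ℕ → ℕ → ℕ → ℕ → Bool} (hpl : ∀ x ∈ toL pl, okb x = true) (hel : Elim el)
    (hX : X < 2 ^ 20) {jj : ℕ} (hXj : X < 2 ^ jj) (hsv : svAll jj (X + 1) 320 pl = true)
    (hAB : AB (famF el pl dl X) X []) (h : Data m B s x c) (hm : 0 < m) (hB : 1 ≤ B)
    [IsDomain (QuadraticAlgebra ℤ m B)] [UniqueFactorizationMonoid (QuadraticAlgebra ℤ m B)]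
    {L : ℕ} (hL0 : 0 < L) (hL : minimalPeriod gsh (x 1) = L)
    (hv : (mat (wn c 1 (L - 1))).1 ≤ X) :
    (∃ D ∈ dl, B ^ 2 + 4 * m = (D : ℤ)) ∨
      (2 ∣ B ^ 2 + 4 * m ∧ X < 2 * (mat (wn c 1 (L - 1))).1) := by
  obtain ⟨d, hd⟩ : ∃ d : ℕ, (d : ℤ) = B ^ 2 + 4 * m :=
    ⟨(B ^ 2 + 4 * m).toNat, Int.toNat_of_nonneg (by positivity)⟩
  rcases Nat.even_or_odd' L with ⟨J, hJ | hI⟩
  · obtain ⟨J, rfl⟩ : ∃ k, J = k + 1 := ⟨J - 1, by omega⟩
    obtain ⟨⟨k, k', r, r'⟩, hM⟩ : ∃ M, mat (wn c 1 J) = M := ⟨_, rfl⟩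
    have hM2 := mat_even h (by rw [hL, hJ]) hM
    rw [← hJ] at hM2
    have hsm : SmW (wn c 1 (J + 1)) := smW_of h hX (by omega) hv
    have hws : wn c 1 (J + 1) = wn c 1 J ++ [c (J + 1)] := by rw [wn_succ, add_comm 1 J]
    have hF := hAB.2 (wn c 1 J) (c (J + 1)) (wn_pos h 1 J) (inv_of h (J + 1)).cpos (by
      rw [List.nil_append]
      unfold ev
      rw [hM]
      rw [hM2] at hv
      exact hv)
    rw [List.nil_append, ← hws, hM] at hF
    unfold Fw eM at hF
    simp only at hF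
    rw [wn_length] at hF
    have hM3 := hM2
    rw [hJ] at hM3
    generalize hve : k * (c (J + 1) * k + 2 * k') = v at hF hM2 hM3
    generalize hue : c (J + 1) * k * r + k * r' + k' * r = u at hF hM2 hM3
    generalize hze : r * (c (J + 1) * r + 2 * r') = z at hF hM2 hM3
    rw [hM2] at hv ⊢
    exact fam_core hpl h hm hB hL0 hL (by omega) hM2
      (fun p hp j hj => by
        obtain ⟨i, h1, h2, h3⟩ := half_even h (Nat.succ_pos J) (by rw [hL, hJ]) (j := j) (by
          rw [hj]; exact_mod_cast hp.one_lt.ne')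
        exact ⟨i, h1, h2, by rw [h3, hj]⟩)
      hsm (par := true) (by rw [hJ, pow_mul]; norm_num) hF
      (skip_spec hpl hXj hsv h hm hB (by rw [hL, hJ]) hM3 hv hsm)
      (fun β m0 t hB' hm' he hin => by
        have R := relJ_even h hm (Nat.succ_pos J) (by rw [hL, hJ]) hd hin
        have hlen := wn_length (c := c) 1 (J + 1)
        refine hel true (wn c 1 (J + 1)) v u β m0 t (B ^ 2 + 4 * m) hsm
          (by rw [hlen]; exact he) ?_
        have e1 : ((v * t + β : ℕ) : ℤ) = B := by rw [hB']; push_cast; rfl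
        have e2 : ((u * t + m0 : ℕ) : ℤ) = m := by rw [hm']; push_cast; rfl
        rw [e1, e2]
        exact R)
  · obtain ⟨⟨k, k', r, r'⟩, hM⟩ : ∃ M, mat (wn c 1 J) = M := ⟨_, rfl⟩
    have hM2 := mat_odd h (by rw [hL, hI]) hM
    rw [← hI] at hM2
    have hsm : SmW (wn c 1 J) := smW_of h hX (by omega) hv
    have hF := hAB.1 (wn c 1 J) (wn_pos h 1 J) (by
      rw [List.nil_append]
      unfold nn
      rw [hM, sq, sq]
      rw [hM2] at hv
      exact hv)
    rw [List.nil_append, hM] at hF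
    unfold Fw oM at hF
    simp only at hF
    rw [wn_length] at hF
    generalize hve : k * k + k' * k' = v at hF hM2
    generalize hue : k * r + k' * r' = u at hF hM2
    generalize hze : r * r + r' * r' = z at hF hM2
    rw [hM2]
    exact fam_core hpl h hm hB hL0 hL (by omega) hM2
      (fun p hp j hj => by
        obtain ⟨i, h1, h2, h3⟩ := half_index h (by rw [hL, hI]) (j := j) (by
          rw [hj]; exact_mod_cast hp.one_lt.ne')
        exact ⟨i, h1, h2, by rw [h3, hj]⟩)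
      hsm (par := false) (by rw [hI, pow_succ, pow_mul]; norm_num) hF
      (fun hs => by
        obtain ⟨-, s2⟩ := andB_true hs
        obtain ⟨s3, -⟩ := andB_true s2
        exact absurd s3 (by decide))
      (fun β m0 t hB' hm' he hin => by
        have R := relJ_odd h hm (by rw [hL, hI]) hd hin
        have hlen := wn_length (c := c) 1 J
        refine hel false (wn c 1 J) v u β m0 t (B ^ 2 + 4 * m) hsm
          (by rw [hlen]; exact he) ?_
        have e1 : ((v * t + β : ℕ) : ℤ) = B := by rw [hB']; push_cast; rfl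
        have e2 : ((u * t + m0 : ℕ) : ℤ) = m := by rw [hm']; push_cast; rfl
        rw [e1, e2]
        exact R)

/-- **from the checks to the list** -/
theorem fwdU {pl : PLt} {dl : List ℕ} {X : ℕ}
    {el : Bool → ℕ → ℕ → ℕ → ℕ → ℕ → ℕ → Bool} (hpl : ∀ x ∈ toL pl, okb x = true) (hel : Elim el)
    (hX : X < 2 ^ 20) {jj : ℕ} (hXj : X < 2 ^ jj) (hsv : svAll jj (X + 1) 320 pl = true)
    (hAB : AB (famF el pl dl X) X []) (d : ℕ) (h1 : 1 < d)
    (hsq : Squarefree d) {a b : ℕ} (hb : 1 ≤ b) (hbX : b ≤ X)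
    (hab : (a : ℤ) ^ 2 - d * (b : ℤ) ^ 2 = 4 ∨ (a : ℤ) ^ 2 - d * (b : ℤ) ^ 2 = -4)
    (hU : UniqueFactorizationMonoid (𝓞 (KQ d))) :
    ∃ D ∈ dl, (d % 4 = 1 ∧ d = D) ∨ (d % 4 ≠ 1 ∧ 4 * d = D) := by
  obtain ⟨m, B, s, x, c, h, hx1, hm, hB, hd⟩ := exists_data d h1 hsq
  obtain ⟨e⟩ : Nonempty (QuadraticAlgebra ℤ m B ≃+* 𝓞 (KQ d)) := by
    rcases hd with ⟨h4, hd, hB2⟩ | ⟨h4, hd, hB2⟩
    · obtain ⟨e⟩ := exists_equiv_QI hd hB2
      exact ⟨e.symm.trans (eqvO hsq h1)⟩
    · obtain ⟨e⟩ := exists_equiv_QI_even hd h4 hB2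
      exact ⟨e.symm.trans (eqvO hsq h1)⟩
  have i1 : IsDomain (QuadraticAlgebra ℤ m B) := e.toMulEquiv.isDomain
  have i2 : UniqueFactorizationMonoid (QuadraticAlgebra ℤ m B) :=
    e.symm.toMulEquiv.uniqueFactorizationMonoid hU
  have hb0 : (1 : ℤ) ≤ b := by exact_mod_cast hb
  rcases hd with ⟨h4, hd, hB2⟩ | ⟨h4, hd, hB2⟩
  · obtain ⟨L, hL0, hL⟩ : ∃ L, 0 < L ∧ minimalPeriod gsh (x 1) = L :=
      ⟨_, unit_per h hm hB hb0 (by rw [← hd]; exact hab), rfl⟩
    have hv := unit_bound h hm hB hL0 hL hb0 (by rw [← hd]; exact hab)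
    rcases main_data hpl hel hX hXj hsv hAB h hm hB hL0 hL (by
      have : (mat (wn c 1 (L - 1))).1 ≤ b := by exact_mod_cast hv
      omega) with ⟨D, hD1, hD2⟩ | ⟨hev, -⟩
    · refine ⟨D, hD1, Or.inl ⟨h4, ?_⟩⟩
      rw [← hd] at hD2
      exact_mod_cast hD2
    · exfalso
      rw [← hd] at hev
      omega
  · have hd4 : ¬ (4 : ℕ) ∣ d := by
      intro h3
      have := hsq 2 (by rw [show 2 * 2 = 4 by rfl]; exact h3)
      norm_num at this
    -- the coefficient is even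
    obtain ⟨b', rfl⟩ : ∃ b', b = 2 * b' := by
      rcases Nat.even_or_odd' b with ⟨k, hk | hk⟩
      · exact ⟨k, hk⟩
      · exfalso
        subst hk
        obtain ⟨q, hq⟩ : ∃ q : ℤ, (a : ℤ) ^ 2 = d + 4 * q := by
          rcases hab with h3 | h3
          · exact ⟨d * (k ^ 2 + k) + 1, by push_cast at h3; linear_combination h3⟩
          · exact ⟨d * (k ^ 2 + k) - 1, by push_cast at h3; linear_combination h3⟩
        rcases Nat.even_or_odd' a with ⟨l, hl | hl⟩
        · subst hl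
          have : (4 : ℤ) ∣ d := ⟨l ^ 2 - q, by push_cast at hq; linear_combination -hq⟩
          exact hd4 (by exact_mod_cast this)
        · subst hl
          have : (4 : ℤ) ∣ d - 1 := ⟨l ^ 2 + l - q, by push_cast at hq; linear_combination -hq⟩
          omega
    have hb' : (1 : ℤ) ≤ b' := by
      have : 1 ≤ b' := by omega
      exact_mod_cast this
    have hab' : (a : ℤ) ^ 2 - (B ^ 2 + 4 * m) * (b' : ℤ) ^ 2 = 4 ∨
        (a : ℤ) ^ 2 - (B ^ 2 + 4 * m) * (b' : ℤ) ^ 2 = -4 := by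
      rw [← hd]
      push_cast at hab
      rcases hab with h3 | h3
      · left; linear_combination h3
      · right; linear_combination h3
    obtain ⟨L, hL0, hL⟩ : ∃ L, 0 < L ∧ minimalPeriod gsh (x 1) = L :=
      ⟨_, unit_per h hm hB hb' hab', rfl⟩
    have hv := unit_bound h hm hB hL0 hL hb' hab'
    have hv' : (mat (wn c 1 (L - 1))).1 ≤ b' := by exact_mod_cast hv
    rcases main_data hpl hel hX hXj hsv hAB h hm hB hL0 hL (by omega) with ⟨D, hD1, hD2⟩ | ⟨-, hev⟩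
    · refine ⟨D, hD1, Or.inr ⟨h4, ?_⟩⟩
      rw [← hd] at hD2
      exact_mod_cast hD2
    · exfalso
      omega

end Pool.Agent.SU
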