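import Pool.Agent.SU.EStages
import Pool.Agent.SU.Main

/-!
Real quadratic fields with small units: soundness of the elimination.
-/

namespace Pool.Agent.SU.EL

open Finset Pool.Agent.Lib_helper5 Pool.Agent.Lib_helper5.LK Pool.Agent.LibH4.Ker
  Pool.Agent.LibH4.KF Pool.Agent.LibH4.T6 Pool.Agent.Lib_helper5.TB Pool.Agent.LibH4.S7
  Pool.Agent.LibH4 Pool.Agent.LibH4.CW

/-- correct tables -/
structure FTOK (G : FT) (r1 r2 : RD) : Prop where
  F1 : FT1 G r1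
  F2 : FT2 G r2
  np7 : npCk (cof 7).n (cof 7).ex (cof 7).PT (cof 7).F G.NP7 = true
  np8 : npCk (cof 8).n (cof 8).ex (cof 8).PT (cof 8).F G.NP8 = true
  np11 : npCk (cof 11).n (cof 11).ex (cof 11).PT (cof 11).F G.NP11 = true
  st7 : stCk (cof 7).n (cof 7).ex (cof 7).PT (adP (cof 7).n) G.ST7 = true
  st8 : stCk (cof 8).n (cof 8).ex (cof 8).PT adO G.ST8 = true
  st11 : stCk (cof 11).n (cof 11).ex (cof 11).PT (adP (cof 11).n) G.ST11 = true
  a7 : AD (cof 7).n (adP (cof 7).n)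
  a8 : AD (cof 8).n adO
  a11 : AD (cof 11).n (adP (cof 11).n)

section

variable {par : Bool} {w : List ℕ} {v u be m0 t : ℕ} {D : ℤ} {G : FT} {r1 r2 : RD}

/-- the entry of the start table -/
def en (c : Cmp) (B m : ℤ) : ℕ := pz c (m, B, 1) + (256 * pz c (1, B, m) + 65536)

lemma en_succ (c : Cmp) (B m : ℤ) : ∃ e, en c B m = e + 1 :=
  ⟨pz c (m, B, 1) + (256 * pz c (1, B, m) + 65535), by unfold en; omega⟩

lemma br_of {p r : Bool} (hp : p = true) (h : br p r = true) : r = true := by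
  subst hp
  exact h

lemma dvd_self_mod (t c : ℕ) : ((c : ℕ) : ℤ) ∣ (t : ℤ) - ((t % c : ℕ) : ℤ) := by
  refine ⟨((t / c : ℕ) : ℤ), ?_⟩
  have h := Nat.mod_add_div t c
  have h' : ((t % c : ℕ) : ℤ) + c * ((t / c : ℕ) : ℤ) = t := by exact_mod_cast h
  linear_combination -h'

/-- the list of the classes modulo 8 -/
def cl8 (G : FT) (par : Bool) (L : List (ℕ × ℕ)) (v u be m0 V h6 h3 : ℕ) :
    ℕ → List (ℕ × ℕ × ℕ × ℕ)
  | 0 => []
  | s + 1 => if ste 8 G.ST8 (lin 8 v be s) (lin 8 u m0 s) = 0 then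
      cl8 G par L v u be m0 V h6 h3 s else
      (s, lin 8 u m0 s, ste 8 G.ST8 (lin 8 v be s) (lin 8 u m0 s), yS 8 G.NP8 V h6 h3 G.C8 15 par L
        (lin 8 u m0 s) (ste 8 G.ST8 (lin 8 v be s) (lin 8 u m0 s))) ::
        cl8 G par L v u be m0 V h6 h3 s

lemma cl8_mem (V h6 h3 : ℕ) (L : List (ℕ × ℕ)) {s q : ℕ} (hs : s < q) {e : ℕ}
    (he : ste 8 G.ST8 (lin 8 v be s) (lin 8 u m0 s) = e + 1) :
    (s, lin 8 u m0 s, e + 1, yS 8 G.NP8 V h6 h3 G.C8 15 par L (lin 8 u m0 s) (e + 1)) ∈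
      cl8 G par L v u be m0 V h6 h3 q := by
  induction q with
  | zero => omega
  | succ q ih =>
    unfold cl8
    rcases Nat.lt_succ_iff_lt_or_eq.1 hs with h | h
    · split_ifs
      · exact ih h
      · exact List.mem_cons_of_mem _ (ih h)
    · subst h
      rw [he, if_neg (by omega)]
      exact List.mem_cons_self

lemma cls8_eq (L : List (ℕ × ℕ)) (q : ℕ) (k : List (ℕ × ℕ × ℕ × ℕ) → Bool) :
    cls8 G par L v u be m0 q k = k (cl8 G par L v u be m0 V1 S1 T1 q) := by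
  induction q generalizing k with
  | zero => rfl
  | succ q ih =>
    have e1 : cls8 G par L v u be m0 (q + 1) k = c8a G par L q (lin 8 u m0 q)
      (ste 8 G.ST8 (lin 8 v be q) (lin 8 u m0 q)) (cls8 G par L v u be m0 q) k := rfl
    have e2 : cl8 G par L v u be m0 V1 S1 T1 (q + 1) =
      if ste 8 G.ST8 (lin 8 v be q) (lin 8 u m0 q) = 0 then
      cl8 G par L v u be m0 V1 S1 T1 q else
      (q, lin 8 u m0 q, ste 8 G.ST8 (lin 8 v be q) (lin 8 u m0 q), yS 8 G.NP8 V1 S1 T1 G.C8 15 par L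
        (lin 8 u m0 q) (ste 8 G.ST8 (lin 8 v be q) (lin 8 u m0 q))) ::
        cl8 G par L v u be m0 V1 S1 T1 q := rfl
    rw [e1, e2]
    cases ste 8 G.ST8 (lin 8 v be q) (lin 8 u m0 q) with
    | zero =>
      rw [if_pos rfl]
      exact ih k
    | succ e =>
      rw [if_neg (by omega)]
      exact ih _

lemma V1_eq : V1 = 2 ^ (48 * 16) := by decide +kernel
lemma V2_eq : V2 = 2 ^ (48 * 21) := by decide +kernel
lemma S1_eq : S1 = 6 * 2 ^ (24 * 16) := by decide +kernel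
lemma T1_eq : T1 = 3 * 2 ^ (24 * 16) := by decide +kernel
lemma S2_eq : S2 = 6 * 2 ^ (24 * 21) := by decide +kernel
lemma T2_eq : T2 = 3 * 2 ^ (24 * 21) := by decide +kernel

lemma ste_en {c : Cmp} (hc : CmpOK c) {A : ℕ → ℕ → ℕ → Bool} (hA : AD c.n A) {ST : ℕ}
    (h : stCk c.n c.ex c.PT A ST = true) (S : Sit par w v u be m0 t D) {n' K' : ℕ}
    (hd : (K' : ℤ) ∣ (t : ℤ) - ((n' : ℕ) : ℤ)) (d : c.n ∣ K') :
    lin c.n v be n' = rs c.n ((v * t + be : ℕ) : ℤ) ∧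
      lin c.n u m0 n' = rs c.n ((u * t + m0 : ℕ) : ℤ) ∧
      ste c.n ST (lin c.n v be n') (lin c.n u m0 n') =
        en c ((v * t + be : ℕ) : ℤ) ((u * t + m0 : ℕ) : ℤ) := by
  have e1 := lin_eq (t := t) (x := v) (y := be) hd d
  have e2 := lin_eq (t := t) (x := u) (y := m0) hd d
  refine ⟨e1, e2, ?_⟩
  rw [e1, e2]
  exact ste_spec hc hA S.W.dok S.disc h

/-- third stage -/
theorem s7_sound (F : FTOK G r1 r2) {ls : List Lv} (hc : Chn [cof 7, cof 11, cof 8, cof 1] ls)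
    (S : Sit par w v u be m0 t D) {n N V11 V8 : ℕ} (hn : ((88 : ℕ) : ℤ) ∣ (t : ℤ) - ((n : ℕ) : ℤ))
    (hN : N = nf par w.length) (h11 : V11 = VV (cof 11) (JF par w v u be m0 t))
    (h8 : V8 = VV (cof 8) (JF par w v u be m0 t))
    (h : s7f G par (LQ par w) v u be m0 N n (rs 11 ((v * t + be : ℕ) : ℤ)) V11 V8
      (dfs par (LQ par w) v u be m0 ls) = true) : False := by
  obtain ⟨s, hs, hd⟩ := lift_class (t := t) (c := 7) (by norm_num) hn
  have g1 : Nat.div 7 (Nat.gcd 88 7) = 7 := by decide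
  have g2 : Nat.mul 88 (Nat.div 7 (Nat.gcd 88 7)) = 616 := by decide
  rw [g1] at hs
  rw [g2] at hd
  have h0 : allR (fun s => s7c G par (LQ par w) v u be m0 (xT G.RX G.C88 V2
      (rs 11 ((v * t + be : ℕ) : ℤ)) N (Nat.add (Nat.mul 1073757952 V11) (Nat.mul 134218736 V8)))
      (Nat.add (Nat.mul 1008 N) 984) V11 V8 (Nat.add n (Nat.mul 88 s))
      (dfs par (LQ par w) v u be m0 ls)) 7 = true := h
  have h2 : s7c G par (LQ par w) v u be m0 (xT G.RX G.C88 V2 (rs 11 ((v * t + be : ℕ) : ℤ)) N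
      (Nat.add (Nat.mul 1073757952 V11) (Nat.mul 134218736 V8))) (Nat.add (Nat.mul 1008 N) 984)
      V11 V8 (Nat.add n (Nat.mul 88 s)) (dfs par (LQ par w) v u be m0 ls) = true :=
    allR_spec h0 s hs
  set n' := Nat.add n (Nat.mul 88 s) with hn'
  have k7 : CmpOK (cof 7) := F.F2.n2 ▸ F.F2.hr.k2
  obtain ⟨e1, e2, e3⟩ := ste_en k7 F.a7 F.st7 S hd (by decide)
  have n7 : (cof 7).n = 7 := rfl
  rw [n7] at e1 e2 e3
  have h3 : s7a G par (LQ par w) (xT G.RX G.C88 V2 (rs 11 ((v * t + be : ℕ) : ℤ)) N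
      (Nat.add (Nat.mul 1073757952 V11) (Nat.mul 134218736 V8))) (Nat.add (Nat.mul 1008 N) 984)
      V11 V8 n' (lin 7 u m0 n') (ste 7 G.ST7 (lin 7 v be n') (lin 7 u m0 n'))
      (dfs par (LQ par w) v u be m0 ls) = true := h2
  obtain ⟨e, he⟩ := en_succ (cof 7) ((v * t + be : ℕ) : ℤ) ((u * t + m0 : ℕ) : ℤ)
  rw [e3, e2, he] at h3
  have h4 : br (pck (xT G.RX G.C88 V2 (rs 11 ((v * t + be : ℕ) : ℤ)) N
      (Nat.add (Nat.mul 1073757952 V11) (Nat.mul 134218736 V8))) (yS 7 G.NP7 V2 S2 T2 G.C7 20 par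
      (LQ par w) (rs 7 ((u * t + m0 : ℕ) : ℤ)) (e + 1)) (Nat.add (Nat.mul 1008 N) 984))
      (dfs par (LQ par w) v u be m0 ls (orbV 7 G.NP7 par (LQ par w)
        (rs 7 ((u * t + m0 : ℕ) : ℤ)) (e + 1) :: V11 :: V8 :: 0 :: []) n' 616) = true := h3
  rw [← he] at h4
  have hb : ((rs 11 ((v * t + be : ℕ) : ℤ) : ℕ) : ZMod r2.l) = (((v * t + be : ℕ) : ℤ) : ZMod r2.l) := by
    rw [F.F2.l, rs_cast]
  have h5 := br_of (stage2 F.F2 S hb F.np7 V2_eq S2_eq T2_eq hN h11 h8) h4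
  have h6 : orbV 7 G.NP7 par (LQ par w) (rs 7 ((u * t + m0 : ℕ) : ℤ))
      (en (cof 7) ((v * t + be : ℕ) : ℤ) ((u * t + m0 : ℕ) : ℤ)) =
      VV (cof 7) (JF par w v u be m0 t) := orbV_spec k7 (by decide) S.W.dok F.np7 par w S.disc
  rw [h6, h11, h8, ← VV_one (JF par w v u be m0 t)] at h5
  exact dfs_sound hc S hd h5

/-- **soundness of the elimination** -/
theorem elimG_sound (F : FTOK G r1 r2) {ls : List Lv}
    (hc : Chn [cof 7, cof 11, cof 8, cof 1] ls) : Elim (elimG G ls) := by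
  intro par w v u be m0 t D hw h W
  have hl : w.length ≤ 17 := by
    by_contra hcon
    have e : Nat.ble w.length 17 = false := by
      cases hh : Nat.ble w.length 17 with
      | false => rfl
      | true => exact absurd (Nat.le_of_ble_eq_true hh) hcon
    have e2 : elimG G ls par w.length (pk w) v u be m0 = @Bool.rec (fun _ => Bool) false
      (ltr par w.length (pk w) (elimL G ls par (@Bool.rec (fun _ => ℕ) (Nat.succ w.length)
        w.length par) v u be m0)) (Nat.ble w.length 17) := rfl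
    rw [e2, e] at h
    exact Bool.false_ne_true h
  have S : Sit par w v u be m0 t D := ⟨hl, W⟩
  have hN : @Bool.rec (fun _ => ℕ) (Nat.succ w.length) w.length par = nf par w.length := by
    unfold nf
    cases par <;> rfl
  have h1 : ltr par w.length (pk w) (elimL G ls par (nf par w.length) v u be m0) = true := by
    rw [← hN]
    have e : Nat.ble w.length 17 = true := Nat.ble_eq_true_of_le hl
    have e2 : elimG G ls par w.length (pk w) v u be m0 = @Bool.rec (fun _ => Bool) false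
      (ltr par w.length (pk w) (elimL G ls par (@Bool.rec (fun _ => ℕ) (Nat.succ w.length)
        w.length par) v u be m0)) (Nat.ble w.length 17) := rfl
    rw [e2, e] at h
    exact h
  rw [ltr_eq par w hw] at h1
  set N := nf par w.length with hNd
  unfold elimL at h1
  rw [cls8_eq] at h1
  have k11 : CmpOK (cof 11) := F.F1.n1 ▸ F.F1.hr.k1
  have k8 : CmpOK (cof 8) := F.F1.n2 ▸ F.F1.hr.k2
  have n11 : (cof 11).n = 11 := rfl
  have n8 : (cof 8).n = 8 := rfl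
  -- the class modulo 11
  have d11 := dvd_self_mod t 11
  have h2 := allR_spec h1 (t % 11) (Nat.mod_lt _ (by norm_num))
  obtain ⟨a1, a2, a3⟩ := ste_en k11 F.a11 F.st11 S d11 (by decide)
  rw [n11] at a1 a2 a3
  have h3 : c11b G par (LQ par w) v u be m0 N (Nat.add (Nat.mul 768 N) 744)
      (cl8 G par (LQ par w) v u be m0 V1 S1 T1 8) (t % 11) (lin 11 v be (t % 11))
      (lin 11 u m0 (t % 11)) (ste 11 G.ST11 (lin 11 v be (t % 11)) (lin 11 u m0 (t % 11)))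
      (dfs par (LQ par w) v u be m0 ls) = true := h2
  obtain ⟨e, he⟩ := en_succ (cof 11) ((v * t + be : ℕ) : ℤ) ((u * t + m0 : ℕ) : ℤ)
  rw [a3, a1, a2, he] at h3
  have h4 : allL (c11a G par (LQ par w) v u be m0 N (Nat.add (Nat.mul 768 N) 744) (t % 11)
      (rs 11 ((v * t + be : ℕ) : ℤ)) (rs 11 ((u * t + m0 : ℕ) : ℤ)) (e + 1)
      (xS 11 G.NP11 V1 768 G.RW G.C11 (rs 11 ((v * t + be : ℕ) : ℤ)) par (LQ par w)
        (rs 11 ((u * t + m0 : ℕ) : ℤ)) (e + 1)) (dfs par (LQ par w) v u be m0 ls))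
      (cl8 G par (LQ par w) v u be m0 V1 S1 T1 8) = true := h3
  rw [← he] at h4
  -- the class modulo 8
  have d8 := dvd_self_mod t 8
  obtain ⟨b1, b2, b3⟩ := ste_en k8 F.a8 F.st8 S d8 (by decide)
  rw [n8] at b1 b2 b3
  obtain ⟨e', he'⟩ := en_succ (cof 8) ((v * t + be : ℕ) : ℤ) ((u * t + m0 : ℕ) : ℤ)
  have hm := cl8_mem (G := G) (par := par) (v := v) (u := u) (be := be) (m0 := m0) V1 S1 T1
    (LQ par w) (s := t % 8) (q := 8) (Nat.mod_lt _ (by norm_num)) (b3.trans he')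
  have h5 := allL_spec h4 _ hm
  rw [b2, ← he'] at h5
  have h6 : br (pck (xS 11 G.NP11 V1 768 G.RW G.C11 (rs 11 ((v * t + be : ℕ) : ℤ)) par (LQ par w)
      (rs 11 ((u * t + m0 : ℕ) : ℤ)) (en (cof 11) ((v * t + be : ℕ) : ℤ) ((u * t + m0 : ℕ) : ℤ)))
      (yS 8 G.NP8 V1 S1 T1 G.C8 15 par (LQ par w) (rs 8 ((u * t + m0 : ℕ) : ℤ))
        (en (cof 8) ((v * t + be : ℕ) : ℤ) ((u * t + m0 : ℕ) : ℤ))) (Nat.add (Nat.mul 768 N) 744))
      (s7f G par (LQ par w) v u be m0 N ((33 * (t % 8) + 56 * (t % 11)) % 88)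
        (rs 11 ((v * t + be : ℕ) : ℤ)) (orbV 11 G.NP11 par (LQ par w)
          (rs 11 ((u * t + m0 : ℕ) : ℤ)) (en (cof 11) ((v * t + be : ℕ) : ℤ)
            ((u * t + m0 : ℕ) : ℤ))) (orbV 8 G.NP8 par (LQ par w)
          (rs 8 ((u * t + m0 : ℕ) : ℤ)) (en (cof 8) ((v * t + be : ℕ) : ℤ)
            ((u * t + m0 : ℕ) : ℤ))) (dfs par (LQ par w) v u be m0 ls)) = true := h5
  have hb : ((rs 11 ((v * t + be : ℕ) : ℤ) : ℕ) : ZMod r1.l) = (((v * t + be : ℕ) : ℤ) : ZMod r1.l) := by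
    rw [F.F1.l, rs_cast]
  have h7 := br_of (stage1 F.F1 S hb F.np11 F.np8 V1_eq S1_eq T1_eq hNd) h6
  refine s7_sound F hc S (n := (33 * (t % 8) + 56 * (t % 11)) % 88) ?_ hNd
    (orbV_spec k11 (by decide) S.W.dok F.np11 par w S.disc)
    (orbV_spec k8 (by decide) S.W.dok F.np8 par w S.disc) h7
  omega

end

end Pool.Agent.SU.EL
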