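import Pool.Agent.SU.ECode

/-!
Real quadratic fields with small units: folds along the orbits.
-/

namespace Pool.Agent.SU.EL

open Finset Pool.Agent.Lib_helper5 Pool.Agent.Lib_helper5.LK Pool.Agent.LibH4.Ker
  Pool.Agent.LibH4.KF Pool.Agent.LibH4.T6 Pool.Agent.Lib_helper5.TB Pool.Agent.LibH4.S7
  Pool.Agent.LibH4 Pool.Agent.LibH4.CW

/-- letters and coefficients -/
def LQ (par : Bool) : List ℕ → List (ℕ × ℕ)
  | [] => []
  | a :: w => (a, (bif par && w.isEmpty then 1 else 2) * a) :: LQ par w

lemma ltr_eq (par : Bool) (w : List ℕ) (hw : ∀ a ∈ w, a < 2 ^ 20) (k : List (ℕ × ℕ) → Bool) :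
    ltr par w.length (pk w) k = k (LQ par w) := by
  induction w generalizing k with
  | nil => rfl
  | cons a w ih =>
    have ha : a < 2 ^ 20 := hw a (by simp)
    have e1 : pk (a :: w) = a + 2 ^ 20 * pk w := rfl
    have e2 : Nat.mod (pk (a :: w)) (nat_lit 1048576) = a := by
      rw [e1]
      change (a + 2 ^ 20 * pk w) % 2 ^ 20 = a
      exact CW.add_mod _ _ _ ha
    have e3 : Nat.shiftRight (pk (a :: w)) (nat_lit 20) = pk w := by
      rw [e1]
      exact CW.add_shr 20 _ _ ha
    have e4 : ltr par (a :: w).length (pk (a :: w)) k =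
      lt1 (ltr par w.length) (pk (a :: w)) k (Nat.mod (pk (a :: w)) (nat_lit 1048576))
        (lt2 par w.length (Nat.mod (pk (a :: w)) (nat_lit 1048576))) := rfl
    rw [e4, e2]
    have e5 : lt2 par w.length a = (bif par && w.isEmpty then 1 else 2) * a := by
      cases par with
      | false =>
        change 2 * a = _
        simp
      | true =>
        cases w with
        | nil =>
          change a = _
          simp
        | cons b w =>
          change 2 * a = _
          simp
    unfold lt1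
    rw [e3, e5, ih (fun b hb => hw b (by simp [hb]))]
    rfl

/-- properties of the forms of an orbit -/
lemma JT_cons (par : Bool) (f : ℤ × ℤ × ℤ) (a : ℕ) (w : List ℕ) :
    JT par f (a :: w) = ⟨f.1, f.2.1, -f.2.2, 6, -((bif par && w.isEmpty then 1 else 2) * (a : ℤ))⟩ ::
      JT par (LO.st a f) w := rfl

/-- number of the forms -/
def nf (par : Bool) (h : ℕ) : ℕ := bif par then h else h + 1

lemma JT_length (par : Bool) (f : ℤ × ℤ × ℤ) (w : List ℕ) :
    (JT par f w).length = nf par w.length := by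
  induction w generalizing f with
  | nil => cases par <;> rfl
  | cons a w ih =>
    rw [JT_cons, List.length_cons, ih, List.length_cons]
    cases par <;> rfl

/-- the coefficient as a natural number -/
def al (j : Fm) : ℕ := (-j.α).toNat

section

variable {c : Cmp} {D : ℤ} {NP : ℕ}

/-- **packing along an orbit** -/
lemma orbP_spec (hc : CmpOK c) (hD : DOK D) (h : npCk c.n c.ex c.PT c.F NP = true)
    (em : ℕ → ℕ → ℕ) (V : ℕ) (par : Bool) (w : List ℕ) (e : ℤ × ℤ × ℤ) (he : LO.dis e = D) :
    orbP em V c.n NP par (LQ par w) (pz c e) (wz c e) =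
      packL V (fun j => em (pj c j) (wj c j)) (JT par e w) := by
  induction w generalizing e with
  | nil =>
    cases par with
    | false =>
      change em (pz c e) (wz c e) = em (pz c e) (wz c e) + V * 0
      rw [mul_zero, add_zero]
    | true => rfl
  | cons a w ih =>
    obtain ⟨h1, h2⟩ := npe_spec hc hD he h a
    have h3 := ih (LO.st a e) (by rw [LO.dis_st, he])
    rw [JT_cons, packL_cons]
    have e1 : orbP em V c.n NP par (LQ par (a :: w)) (pz c e) (wz c e) =
      em (pz c e) (wz c e) + V * orbP em V c.n NP par (LQ par w)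
        (npe c.n NP (pz c e) a % 256) (wz c e * (npe c.n NP (pz c e) a >>> 8) % c.n) := rfl
    rw [e1, h1, h2, h3]
    rfl

/-- **reverse packing along an orbit** -/
lemma orbA_spec (hc : CmpOK c) (hD : DOK D) (h : npCk c.n c.ex c.PT c.F NP = true)
    (em : ℕ → ℕ → ℕ → ℕ) (V m3 : ℕ) (mu : ℕ → ℕ) (g : ℕ → ℕ → ℕ) (hg6 : ∀ b, mu b = g 6 b)
    (hg3 : m3 = g 3 0) (par : Bool) (w : List ℕ) (e : ℤ × ℤ × ℤ) (he : LO.dis e = D) (acc : ℕ) :
    orbA em V c.n NP m3 mu par (LQ par w) (pz c e) (wz c e) acc =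
      acc * V ^ (JT par e w).length +
        rp V (fun j => em (g j.κ (al j)) (pj c j) (wj c j)) (JT par e w) := by
  induction w generalizing e acc with
  | nil =>
    cases par with
    | false =>
      have e1 : orbA em V c.n NP m3 mu false (LQ false []) (pz c e) (wz c e) acc =
        acc * V + em m3 (pz c e) (wz c e) := rfl
      rw [e1, hg3]
      change acc * V + em (g 3 0) (pz c e) (wz c e) = acc * V ^ 1 +
        (em (g 3 0) (pz c e) (wz c e) * V ^ 0 + 0)
      rw [pow_one, pow_zero, mul_one, add_zero]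
    | true =>
      change acc = acc * V ^ 0 + 0
      rw [pow_zero, mul_one, add_zero]
  | cons a w ih =>
    obtain ⟨h1, h2⟩ := npe_spec hc hD he h a
    have h3 := ih (LO.st a e) (by rw [LO.dis_st, he])
    rw [JT_cons, rp_cons]
    have e1 : orbA em V c.n NP m3 mu par (LQ par (a :: w)) (pz c e) (wz c e) acc =
      orbA em V c.n NP m3 mu par (LQ par w) (npe c.n NP (pz c e) a % 256)
        (wz c e * (npe c.n NP (pz c e) a >>> 8) % c.n)
        (acc * V + em (mu ((bif par && w.isEmpty then 1 else 2) * a)) (pz c e) (wz c e)) := rfl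
    rw [e1, h1, h2, h3, List.length_cons, hg6]
    have e2 : al ⟨e.1, e.2.1, -e.2.2, 6, -((bif par && w.isEmpty then 1 else 2) * (a : ℤ))⟩ =
        (bif par && w.isEmpty then 1 else 2) * a := by
      unfold al
      simp only [neg_neg]
      cases (par && w.isEmpty) with
      | false => simp only [cond_false]; omega
      | true => simp only [cond_true]; omega
    rw [e2]
    change _ = _ + (em (g 6 _) (pz c e) (wz c e) * V ^ _ + _)
    ring

/-- the code of a form -/
def cj (c : Cmp) (j : Fm) : ℕ := pj c j + 2 ^ 48 * wj c j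

/-- the packed codes of the forms -/
def VV (c : Cmp) (J : List Fm) : ℕ := packL (2 ^ 96) (cj c) J

lemma cdp_eq (p P : ℕ) : cdp p P = p + 2 ^ 48 * P := rfl

/-- the codes of all forms -/
lemma orbV_spec (hc : CmpOK c) (h1 : 1 < c.n) (hD : DOK D)
    (h : npCk c.n c.ex c.PT c.F NP = true) (par : Bool) (w : List ℕ) {B m : ℤ}
    (he : B ^ 2 + 4 * m = D) :
    orbV c.n NP par (LQ par w) (rs c.n m) (pz c (m, B, 1) + (256 * pz c (1, B, m) + 65536)) =
      VV c (JH par B m w) := by
  have : NeZero c.n := ⟨by omega⟩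
  have a0 := pz_lt c (m, B, 1)
  have a1 := pz_lt c (1, B, m)
  have e0 : ep0 (pz c (m, B, 1) + (256 * pz c (1, B, m) + 65536)) = pz c (m, B, 1) := by
    change (pz c (m, B, 1) + (256 * pz c (1, B, m) + 65536)) % 256 = _
    omega
  have e1 : ep1 (pz c (m, B, 1) + (256 * pz c (1, B, m) + 65536)) = pz c (1, B, m) := by
    change ((pz c (m, B, 1) + (256 * pz c (1, B, m) + 65536)) >>> 8) % 256 = _
    rw [Nat.shiftRight_eq_div_pow]
    omega
  have e2 : wz c (1, B, m) = 1 := by
    have : (1 : ℕ) % c.n = rs c.n 1 := rs_of (by push_cast; rfl)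
    rw [Nat.mod_eq_of_lt h1] at this
    exact this.symm
  have h3 := orbP_spec hc hD h cdp (2 ^ 96) par w (1, B, m) (by
    unfold LO.dis; simp only; linear_combination he)
  rw [e2] at h3
  unfold orbV
  rw [e0, e1]
  have e3 : (nat_lit 79228162514264337593543950336 : ℕ) = 2 ^ 96 := by norm_num
  have e4 : ∀ x, Nat.add (cdp (pz c (m, B, 1)) (rs c.n m)) (Nat.mul x
      (orbP cdp x c.n NP par (LQ par w) (pz c (1, B, m)) (nat_lit 1))) =
      cdp (pz c (m, B, 1)) (rs c.n m) + x *
        orbP cdp x c.n NP par (LQ par w) (pz c (1, B, m)) 1 := fun _ => rfl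
  rw [e4, e3, h3]
  unfold VV JH
  rw [packL_cons]
  rfl

end

/-! ### values -/

lemma zz_add (T c X : ℕ) : zz T (c + 2 ^ 96 * X) = zz T c := by
  have e : ∀ U, zz T U = (T >>> (U % 2 ^ 24)) % 2 ^ 24 := fun _ => rfl
  rw [e, e, show c + 2 ^ 96 * X = c + 2 ^ 24 * (2 ^ 72 * X) by ring, Nat.add_mul_mod_self_left]

lemma ww_add (C c X : ℕ) : ww C (c + 2 ^ 96 * X) = ww C c := by
  have e : ∀ U, ww C U = (C >>> ((U >>> 72) % 2 ^ 24)) % 2 ^ 8 := fun _ => rfl
  have h : (c + 2 ^ 96 * X) >>> 72 = c >>> 72 + 2 ^ 24 * X := by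
    rw [Nat.shiftRight_eq_div_pow, Nat.shiftRight_eq_div_pow,
      show c + 2 ^ 96 * X = c + 2 ^ 72 * (2 ^ 24 * X) by ring,
      Nat.add_mul_div_left _ _ (by positivity)]
  rw [e, e, h, Nat.add_mul_mod_self_left]

/-- the value of a form in a sum -/
def vf (l T C : ℕ) (κ a cd : ℕ) : ℕ := (a % l + 2 ^ 19 * κ) * (zz T cd * ww C cd)

lemma fold_spec (l T C : ℕ) (par : Bool) (w : List ℕ) (e : ℤ × ℤ × ℤ) (cd : Fm → ℕ)
    (hcd : ∀ j ∈ JT par e w, cd j < 2 ^ 96) :
    fold l T C par (LQ par w) (packL (2 ^ 96) cd (JT par e w)) =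
      ((JT par e w).map fun j => vf l T C j.κ (al j) (cd j)).sum := by
  induction w generalizing e with
  | nil =>
    cases par with
    | false =>
      have e1 : ∀ U, fold l T C false (LQ false []) U = 1572864 * (zz T U * ww C U) := fun _ => rfl
      have e2 : packL (2 ^ 96) cd (JT false e []) =
        cd ⟨e.1, e.2.1, -e.2.2, 3, 0⟩ + 2 ^ 96 * 0 := rfl
      rw [e1, e2, zz_add, ww_add]
      change _ = vf l T C 3 0 _ + 0
      unfold vf
      rw [Nat.zero_mod, zero_add, add_zero]
      norm_num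
    | true => rfl
  | cons a w ih =>
    rw [JT_cons] at hcd ⊢
    have h1 := hcd _ List.mem_cons_self
    rw [packL_cons]
    set c0 := cd ⟨e.1, e.2.1, -e.2.2, 6, -((bif par && w.isEmpty then 1 else 2) * (a : ℤ))⟩ with hc0
    have e1 : ∀ U, fold l T C par (LQ par (a :: w)) U =
      (((bif par && w.isEmpty then 1 else 2) * a) % l + 3145728) * (zz T U * ww C U) +
        fold l T C par (LQ par w) (U >>> 96) := fun _ => rfl
    have e3 : (c0 + 2 ^ 96 * packL (2 ^ 96) cd (JT par (LO.st a e) w)) >>> 96 =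
        packL (2 ^ 96) cd (JT par (LO.st a e) w) := CW.add_shr _ _ _ h1
    rw [e1, zz_add, ww_add, e3, ih _ (fun j hj => hcd j (by simp [hj])), List.map_cons,
      List.sum_cons]
    congr 1
    have e2 : al ⟨e.1, e.2.1, -e.2.2, 6, -((bif par && w.isEmpty then 1 else 2) * (a : ℤ))⟩ =
        (bif par && w.isEmpty then 1 else 2) * a := by
      unfold al
      simp only [neg_neg]
      cases (par && w.isEmpty) with
      | false => simp only [cond_false]; omega
      | true => simp only [cond_true]; omega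
    rw [e2, ← hc0]
    rfl

end Pool.Agent.SU.EL
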