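import Pool.Agent.SU.EDfs

/-!
Real quadratic fields with small units: the first stages of the elimination.
-/

namespace Pool.Agent.SU.EL

open Pool.Agent.LibH4.Ker Pool.Agent.LibH4.CW Pool.Agent.Lib_helper5.TB

/-- constant -/
def V1 : ℕ := nat_lit 1552518092300708935148979488462502555256886017116696611139052038026050952686376886330878408828646477950487730697131073206171580044114814391444287275041181139204454976020849905550265285631598444825262999193716468750892846853816057856
/-- constant -/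
def V2 : ℕ := nat_lit 2743062034396844341627968125593604635037196317966166035056000994228098690879836473582587849768181396806642362668936055872479091931372323951612051859122835149807249350355003132267795098895967012320756270631179897595796976964454084495146379250195728106130226298287754794921070036903071843030324651025760256
/-- constant -/
def S1 : ℕ := nat_lit 236412037178366875273674240600861682830478435622792680007689760425474330628983263668485597529309493844839767941840896
/-- constant -/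
def T1 : ℕ := nat_lit 118206018589183437636837120300430841415239217811396340003844880212737165314491631834242798764654746922419883970920448
/-- constant -/
def S2 : ℕ := nat_lit 314245498358029619521266210895449518612797636420134219790395971337228844454848757268793928863286799086485121676245766816884856628404997733119538648580096
/-- constant -/
def T2 : ℕ := nat_lit 157122749179014809760633105447724759306398818210067109895197985668614422227424378634396964431643399543242560838122883408442428314202498866559769324290048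

/-- tables of the first stages -/
structure FT where
  /-- table -/
  NP7 : ℕ
  /-- table -/
  ST7 : ℕ
  /-- table -/
  NP8 : ℕ
  /-- table -/
  ST8 : ℕ
  /-- table -/
  NP11 : ℕ
  /-- table -/
  ST11 : ℕ
  /-- table -/
  RW : ℕ
  /-- table -/
  RX : ℕ
  /-- table -/
  C11 : ℕ
  /-- table -/
  C8 : ℕ
  /-- table -/
  C88 : ℕ
  /-- table -/
  C7 : ℕ

/-- coefficient -/
def mus (h6 b : ℕ) : ℕ := Nat.add (Nat.mod b (nat_lit 11)) h6

/-- the second factor -/
def yS (n NP V h6 h3 C j : ℕ) (par : Bool) (L : List (ℕ × ℕ)) (m e : ℕ) : ℕ :=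
  orbA (hot C j) V n NP h3 (mus h6) par L (ep1 e) (nat_lit 1) (hot C j (nat_lit 1) (ep0 e) m)

/-- emission of the first factor -/
def emW (R C wd V p P : ℕ) : ℕ := Nat.mul (wgt C P) (rwt R wd V p)

/-- the first factor -/
def xS (n NP V wd R C B : ℕ) (par : Bool) (L : List (ℕ × ℕ)) (m e : ℕ) : ℕ :=
  Nat.add (Nat.mul (Nat.mod (Nat.mul B (wgt C m)) (nat_lit 11)) (rwt R wd V (ep0 e)))
    (Nat.mul V (orbP (emW R C wd V) V n NP par L (ep1 e) (nat_lit 1)))

/-- row of the table of the second stage -/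
def blr (R V U : ℕ) : ℕ := Nat.mod (Nat.shiftRight R (Nat.mod U (nat_lit 16777216))) V

/-- blocks -/
def blk (R C V U : ℕ) : ℕ := Nat.mul (ww C U) (blr R V U)

/-- blocks -/
def blks (R C V N : ℕ) : ℕ → ℕ :=
  @Nat.rec (fun _ => ℕ → ℕ) (fun _ => (nat_lit 0)) (fun _ ih U => Nat.add (blk R C V U)
    (Nat.mul V (ih (Nat.shiftRight U (nat_lit 96))))) N

/-- the first factor of the second stage -/
def xT (R C V B N U : ℕ) : ℕ :=
  Nat.add (Nat.mul (Nat.mod (Nat.mul B (ww C U)) (nat_lit 11)) (blr R V U))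
    (Nat.mul V (blks R C V N (Nat.shiftRight U (nat_lit 96))))

/-- third stage -/
def s7a (G : FT) (par : Bool) (L : List (ℕ × ℕ)) (X sh V11 V8 n' m e : ℕ)
    (tl : List ℕ → ℕ → ℕ → Bool) : Bool :=
  @Nat.rec (fun _ => Bool) true (fun _ _ => br (pck X (yS (nat_lit 7) G.NP7 V2 S2 T2
    G.C7 (nat_lit 20) par L m e) sh)
    (tl (orbV (nat_lit 7) G.NP7 par L m e :: V11 :: V8 :: (nat_lit 0) :: []) n' (nat_lit 616))) e
/-- third stage -/
def s7b (G : FT) (par : Bool) (L : List (ℕ × ℕ)) (X sh V11 V8 n' B m : ℕ)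
    (tl : List ℕ → ℕ → ℕ → Bool) : Bool :=
  s7a G par L X sh V11 V8 n' m (ste (nat_lit 7) G.ST7 B m) tl
/-- third stage -/
def s7c (G : FT) (par : Bool) (L : List (ℕ × ℕ)) (v u be m0 X sh V11 V8 n' : ℕ)
    (tl : List ℕ → ℕ → ℕ → Bool) : Bool :=
  s7b G par L X sh V11 V8 n' (lin (nat_lit 7) v be n') (lin (nat_lit 7) u m0 n') tl
/-- third stage -/
def s7d (G : FT) (par : Bool) (L : List (ℕ × ℕ)) (v u be m0 n X sh V11 V8 : ℕ)
    (tl : List ℕ → ℕ → ℕ → Bool) : Bool :=
  allR (fun t => s7c G par L v u be m0 X sh V11 V8 (Nat.add n (Nat.mul (nat_lit 88) t)) tl)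
    (nat_lit 7)
/-- third stage -/
def s7e (G : FT) (par : Bool) (L : List (ℕ × ℕ)) (v u be m0 N n B V11 V8 U : ℕ)
    (tl : List ℕ → ℕ → ℕ → Bool) : Bool :=
  s7d G par L v u be m0 n (xT G.RX G.C88 V2 B N U)
    (Nat.add (Nat.mul (nat_lit 1008) N) (nat_lit 984)) V11 V8 tl
/-- third stage -/
def s7f (G : FT) (par : Bool) (L : List (ℕ × ℕ)) (v u be m0 N n B V11 V8 : ℕ)
    (tl : List ℕ → ℕ → ℕ → Bool) : Bool :=
  s7e G par L v u be m0 N n B V11 V8
    (Nat.add (Nat.mul (nat_lit 1073757952) V11) (Nat.mul (nat_lit 134218736) V8)) tl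

/-- classes modulo 8 -/
def c8a (G : FT) (par : Bool) (L : List (ℕ × ℕ)) (t m e : ℕ)
    (ih : (List (ℕ × ℕ × ℕ × ℕ) → Bool) → Bool) (k : List (ℕ × ℕ × ℕ × ℕ) → Bool) : Bool :=
  @Nat.rec (fun _ => Bool) (ih k) (fun _ _ => ih fun r => k ((t, m, e, yS (nat_lit 8) G.NP8 V1 S1 T1
    G.C8 (nat_lit 15) par L m e) :: r)) e
/-- classes modulo 8 -/
def c8b (G : FT) (par : Bool) (L : List (ℕ × ℕ)) (t B m : ℕ)
    (ih : (List (ℕ × ℕ × ℕ × ℕ) → Bool) → Bool) (k : List (ℕ × ℕ × ℕ × ℕ) → Bool) : Bool :=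
  c8a G par L t m (ste (nat_lit 8) G.ST8 B m) ih k
/-- classes modulo 8 -/
def cls8 (G : FT) (par : Bool) (L : List (ℕ × ℕ)) (v u be m0 q : ℕ) :
    (List (ℕ × ℕ × ℕ × ℕ) → Bool) → Bool :=
  @Nat.rec (fun _ => (List (ℕ × ℕ × ℕ × ℕ) → Bool) → Bool) (fun k => k [])
    (fun t ih k => c8b G par L t (lin (nat_lit 8) v be t) (lin (nat_lit 8) u m0 t) ih k) q

/-- classes modulo 11 -/
def c11a (G : FT) (par : Bool) (L : List (ℕ × ℕ)) (v u be m0 N sh t B m e X : ℕ)
    (tl : List ℕ → ℕ → ℕ → Bool) (x : ℕ × ℕ × ℕ × ℕ) : Bool :=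
  br (pck X x.2.2.2 sh) (s7f G par L v u be m0 N
    (Nat.mod (Nat.add (Nat.mul (nat_lit 33) x.1) (Nat.mul (nat_lit 56) t)) (nat_lit 88)) B
    (orbV (nat_lit 11) G.NP11 par L m e) (orbV (nat_lit 8) G.NP8 par L x.2.1 x.2.2.1) tl)
/-- classes modulo 11 -/
def c11b (G : FT) (par : Bool) (L : List (ℕ × ℕ)) (v u be m0 N sh : ℕ)
    (L8 : List (ℕ × ℕ × ℕ × ℕ)) (t B m e : ℕ) (tl : List ℕ → ℕ → ℕ → Bool) : Bool :=
  @Nat.rec (fun _ => Bool) true (fun _ _ => allL (c11a G par L v u be m0 N sh t B m e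
    (xS (nat_lit 11) G.NP11 V1 (nat_lit 768) G.RW G.C11 B par L m e) tl) L8) e
/-- classes modulo 11 -/
def c11c (G : FT) (par : Bool) (L : List (ℕ × ℕ)) (v u be m0 N sh : ℕ)
    (L8 : List (ℕ × ℕ × ℕ × ℕ)) (t B m : ℕ) (tl : List ℕ → ℕ → ℕ → Bool) : Bool :=
  c11b G par L v u be m0 N sh L8 t B m (ste (nat_lit 11) G.ST11 B m) tl
/-- classes modulo 11 -/
def c11 (G : FT) (par : Bool) (L : List (ℕ × ℕ)) (v u be m0 N sh : ℕ)
    (tl : List ℕ → ℕ → ℕ → Bool) (L8 : List (ℕ × ℕ × ℕ × ℕ)) : Bool :=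
  allR (fun t => c11c G par L v u be m0 N sh L8 t (lin (nat_lit 11) v be t)
    (lin (nat_lit 11) u m0 t) tl) (nat_lit 11)

/-- the elimination of a list of letters -/
noncomputable def elimL (G : FT) (ls : List Lv) (par : Bool) (N v u be m0 : ℕ)
    (L : List (ℕ × ℕ)) : Bool :=
  cls8 G par L v u be m0 (nat_lit 8) (c11 G par L v u be m0 N
    (Nat.add (Nat.mul (nat_lit 768) N) (nat_lit 744)) (dfs par L v u be m0 ls))

/-- the elimination of a half word -/
noncomputable def elimG (G : FT) (ls : List Lv) (par : Bool) (h W v u be m0 : ℕ) : Bool :=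
  @Bool.rec (fun _ => Bool) false (ltr par h W (elimL G ls par
    (@Bool.rec (fun _ => ℕ) (Nat.succ h) h par) v u be m0)) (Nat.ble h (nat_lit 17))

end Pool.Agent.SU.EL
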