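import Pool.Agent.SU.Defs

/-!
Real quadratic fields with small units: kernel functions of the elimination.
-/

namespace Pool.Agent.SU.EL

open Pool.Agent.LibH4.Ker Pool.Agent.LibH4.CW Pool.Agent.Lib_helper5.TB

/-! ### codes -/

/-- code of a form: position and first coefficient -/
def cdp (p P : ℕ) : ℕ := Nat.add p (Nat.mul (nat_lit 281474976710656) P)

/-- entry of the transition table -/
def npe (n NP p a : ℕ) : ℕ := Nat.mod (Nat.shiftRight NP (Nat.mul (nat_lit 16)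
      (Nat.add (Nat.mul p n) (Nat.mod a n)))) (nat_lit 65536)

/-- entry of the start table -/
def ste (n ST B m : ℕ) : ℕ :=
  Nat.mod (Nat.shiftRight ST (Nat.mul (nat_lit 24) (Nat.add (Nat.mul B n) m))) (nat_lit 16777216)

/-- linear function modulo `n` -/
def lin (n v b t : ℕ) : ℕ := Nat.mod (Nat.add (Nat.mul v t) b) n

/-- first position of a start entry -/
def ep0 (e : ℕ) : ℕ := Nat.mod e (nat_lit 256)
/-- second position of a start entry -/
def ep1 (e : ℕ) : ℕ := Nat.mod (Nat.shiftRight e (nat_lit 8)) (nat_lit 256)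

/-- one step -/
def orbS (em : ℕ → ℕ → ℕ) (V n : ℕ) (ih : ℕ → ℕ → ℕ) (p P e : ℕ) : ℕ :=
  Nat.add (em p P) (Nat.mul V
    (ih (Nat.mod e (nat_lit 256)) (Nat.mod (Nat.mul P (Nat.shiftRight e (nat_lit 8))) n)))

/-- packing along an orbit -/
def orbP (em : ℕ → ℕ → ℕ) (V n NP : ℕ) (par : Bool) (L : List (ℕ × ℕ)) : ℕ → ℕ → ℕ :=
  @List.rec _ (fun _ => ℕ → ℕ → ℕ)
    (fun p P => @Bool.rec (fun _ => ℕ) (em p P) (nat_lit 0) par)
    (fun x _ ih p P => orbS em V n ih p P (npe n NP p x.1)) L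

/-- one step -/
def orbT (n : ℕ) (ih : ℕ → ℕ → ℕ → ℕ) (P acc e : ℕ) : ℕ :=
  ih (Nat.mod e (nat_lit 256)) (Nat.mod (Nat.mul P (Nat.shiftRight e (nat_lit 8))) n) acc

/-- reverse packing along an orbit -/
def orbA (em : ℕ → ℕ → ℕ → ℕ) (V n NP m3 : ℕ) (mu : ℕ → ℕ) (par : Bool) (L : List (ℕ × ℕ)) :
    ℕ → ℕ → ℕ → ℕ :=
  @List.rec _ (fun _ => ℕ → ℕ → ℕ → ℕ)
    (fun p P acc => @Bool.rec (fun _ => ℕ) (Nat.add (Nat.mul acc V) (em m3 p P)) acc par)
    (fun x _ ih p P acc => orbT n ih P (Nat.add (Nat.mul acc V) (em (mu x.2) p P))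
      (npe n NP p x.1)) L

/-- codes of all forms from the entry of the start table -/
def orbV (n NP : ℕ) (par : Bool) (L : List (ℕ × ℕ)) (m e : ℕ) : ℕ :=
  Nat.add (cdp (ep0 e) m) (Nat.mul (nat_lit 79228162514264337593543950336)
    (orbP cdp (nat_lit 79228162514264337593543950336) n NP par L (ep1 e) (nat_lit 1)))

/-! ### values -/

/-- entry of a table -/
def zz (T U : ℕ) : ℕ := Nat.mod (Nat.shiftRight T (Nat.mod U (nat_lit 16777216))) (nat_lit 16777216)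
/-- entry of a table of weights -/
def ww (C U : ℕ) : ℕ := Nat.mod (Nat.shiftRight C (Nat.mod (Nat.shiftRight U (nat_lit 72))
  (nat_lit 16777216))) (nat_lit 256)

/-- sum of the values -/
def fold (l T C : ℕ) (par : Bool) (L : List (ℕ × ℕ)) : ℕ → ℕ :=
  @List.rec _ (fun _ => ℕ → ℕ) (fun U => @Bool.rec (fun _ => ℕ)
    (Nat.mul (nat_lit 1572864) (Nat.mul (zz T U) (ww C U))) (nat_lit 0) par)
   (fun x _ ih U => Nat.add (Nat.mul (Nat.add (Nat.mod x.2 l) (nat_lit 3145728))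
      (Nat.mul (zz T U) (ww C U))) (ih (Nat.shiftRight U (nat_lit 96)))) L

/-! ### letters -/

/-- the coefficient of a letter -/
def lt2 (par : Bool) (h' a : ℕ) : ℕ :=
  @Bool.rec (fun _ => ℕ) (Nat.mul (nat_lit 2) a)
    (@Nat.rec (fun _ => ℕ) a (fun _ _ => Nat.mul (nat_lit 2) a) h') par
/-- one letter -/
def lt1 (ih : ℕ → (List (ℕ × ℕ) → Bool) → Bool) (W : ℕ) (k : List (ℕ × ℕ) → Bool)
    (a b : ℕ) : Bool :=
  ih (Nat.shiftRight W (nat_lit 20)) fun r => k ((a, b) :: r)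
/-- the list of the letters -/
def ltr (par : Bool) (h : ℕ) : ℕ → (List (ℕ × ℕ) → Bool) → Bool :=
  @Nat.rec (fun _ => ℕ → (List (ℕ × ℕ) → Bool) → Bool) (fun _ k => k [])
    (fun h' ih W k => lt1 ih W k (Nat.mod W (nat_lit 1048576))
      (lt2 par h' (Nat.mod W (nat_lit 1048576)))) h

/-! ### the search -/

/-- levels -/
inductive Lv where
  /-- component -/
  | M (n NP ST : ℕ)
  /-- relation -/
  | R (l j1 j2 j3 m1 m2 m3 T C : ℕ)
  /-- inert prime -/
  | I (n : ℕ)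

/-- entry of a list -/
def nthV (L : List ℕ) : ℕ → ℕ :=
  @List.rec ℕ (fun _ => ℕ → ℕ) (fun _ => (nat_lit 0))
    (fun x _ ih i => @Nat.rec (fun _ => ℕ) x (fun j _ => ih j) i) L

/-- the prime is inert -/
def inr (n D : ℕ) : Bool :=
  Nat.beq (Nat.mod (Nat.pow D (Nat.div n (nat_lit 2))) n) (Nat.sub n (nat_lit 1))

/-- relation level -/
def lR1 (l q K A c v be n' : ℕ) (ih : ℕ → ℕ → Bool) : Bool :=
  br (Nat.beq (Nat.mod (Nat.add A (Nat.mul (lin l v be n') c)) l) (nat_lit 0))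
    (ih n' (Nat.mul K q))
/-- relation level -/
def lR2 (l v be n K q A c : ℕ) (ih : ℕ → ℕ → Bool) : Bool :=
  allR (fun t => lR1 l q K A c v be (Nat.add n (Nat.mul K t)) ih) q
/-- relation level -/
def lR3 (l T C : ℕ) (par : Bool) (L : List (ℕ × ℕ)) (v be n K q U : ℕ) (ih : ℕ → ℕ → Bool) :
    Bool :=
  lR2 l v be n K q (Nat.mod (Nat.shiftRight (fold l T C par L (Nat.shiftRight U (nat_lit 96)))
    (nat_lit 19)) (nat_lit 524288)) (Nat.mul (Nat.shiftRight (zz T U) (nat_lit 19)) (ww C U)) ih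
/-- relation level -/
def lR (l m1 m2 m3 T C V1 V2 V3 : ℕ) (par : Bool) (L : List (ℕ × ℕ)) (v be n K : ℕ)
    (ih : ℕ → ℕ → Bool) : Bool :=
  lR3 l T C par L v be n K (Nat.div l (Nat.gcd K l))
    (Nat.add (Nat.mul m1 V1) (Nat.add (Nat.mul m2 V2) (Nat.mul m3 V3))) ih
/-- component level -/
def lM1 (c NP : ℕ) (par : Bool) (L : List (ℕ × ℕ)) (K q n' m e : ℕ)
    (ih : ℕ → ℕ → ℕ → Bool) : Bool :=
  @Nat.rec (fun _ => Bool) true (fun _ _ => ih (orbV c NP par L m e) n' (Nat.mul K q)) e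
/-- component level -/
def lM2 (c NP ST : ℕ) (par : Bool) (L : List (ℕ × ℕ)) (K q n' B m : ℕ)
    (ih : ℕ → ℕ → ℕ → Bool) : Bool :=
  lM1 c NP par L K q n' m (ste c ST B m) ih
/-- component level -/
def lM3 (c NP ST : ℕ) (par : Bool) (L : List (ℕ × ℕ)) (v u be m0 K q n' : ℕ)
    (ih : ℕ → ℕ → ℕ → Bool) : Bool :=
  lM2 c NP ST par L K q n' (lin c v be n') (lin c u m0 n') ih
/-- component level -/
def lM4 (c NP ST : ℕ) (par : Bool) (L : List (ℕ × ℕ)) (v u be m0 n K q : ℕ)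
    (ih : ℕ → ℕ → ℕ → Bool) : Bool :=
  allR (fun t => lM3 c NP ST par L v u be m0 K q (Nat.add n (Nat.mul K t)) ih) q
/-- inert level -/
def lI1 (c : ℕ) (v u be m0 K q n' : ℕ) (ih : ℕ → ℕ → Bool) : Bool :=
  br (inr c (Nat.add (Nat.pow (lin c v be n') (nat_lit 2))
    (Nat.mul (nat_lit 4) (lin c u m0 n')))) (ih n' (Nat.mul K q))
/-- inert level -/
def lI (c : ℕ) (v u be m0 n K q : ℕ) (ih : ℕ → ℕ → Bool) : Bool :=
  allR (fun t => lI1 c v u be m0 K q (Nat.add n (Nat.mul K t)) ih) q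

/-- the search -/
noncomputable def dfs (par : Bool) (L : List (ℕ × ℕ)) (v u be m0 : ℕ) (ls : List Lv) :
    List ℕ → ℕ → ℕ → Bool :=
  @List.rec Lv (fun _ => List ℕ → ℕ → ℕ → Bool) (fun _ _ _ => false) (fun lv _ ih env n K =>
    @Lv.rec (fun _ => Bool)
      (fun c NP ST => lM4 c NP ST par L v u be m0 n K (Nat.div c (Nat.gcd K c))
        (fun V => ih (V :: env)))
      (fun l j1 j2 j3 m1 m2 m3 T C => lR l m1 m2 m3 T C (nthV env j1) (nthV env j2)
        (nthV env j3) par L v be n K (ih env))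
      (fun c => lI c v u be m0 n K (Nat.div c (Nat.gcd K c)) (ih env))
      lv) ls

/-! ### products -/

/-- product check: `d` is the position of the digit -/
def pck (X Y sh : ℕ) : Bool :=
  Nat.beq (Nat.mod (Nat.mod (Nat.shiftRight (Nat.mul X Y) sh) (nat_lit 16777216)) (nat_lit 11))
    (nat_lit 0)

/-- weight of a coefficient -/
def wgt (C P : ℕ) : ℕ := Nat.mod (Nat.shiftRight C (Nat.mul (nat_lit 8) P)) (nat_lit 256)

/-- row of a table -/
def rwt (R w V p : ℕ) : ℕ := Nat.mod (Nat.shiftRight R (Nat.mul w p)) V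

/-- one hot vector -/
def hot (C j mu p P : ℕ) : ℕ :=
  Nat.shiftLeft (Nat.mul (wgt C P) mu) (Nat.mul (nat_lit 24) (Nat.sub j p))

end Pool.Agent.SU.EL
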