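import Pool.Agent.SU.ERel
import Pool.Agent.Lib_helper4.CW.Rds0
import Pool.Agent.Lib_helper4.CW.Rds1
import Pool.Agent.Lib_helper4.CW.Rds2
import Pool.Agent.Lib_helper4.CW.Rds3
import Pool.Agent.Lib_helper5.P7.T_51N5
import Pool.Agent.Lib_helper5.P7.T_105N13
import Pool.Agent.Lib_helper5.P7.T_715N29

/-! generated: relations for the lists of forms -/

namespace Pool.Agent.SU.EL

open Pool.Agent.LibH4.Ker Pool.Agent.Lib_helper5.TB Pool.Agent.LibH4.S7 Pool.Agent.LibH4.CW

theorem rj_119N13 : RJOK r_119N13 :=
  rdj_of (h := 1) tok_119N13 comp17 comp7 comp1 ok17 ok7 ok1 rfl rfl rfl (by norm_num) (by norm_num)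
    (by norm_num) (by norm_num) (by norm_num) (by decide +kernel) (by decide +kernel)
    (by decide +kernel)
    tab1_119N13 tab2_119N13 tab3_119N13 red1_119N13 red2_119N13
    red3_119N13 rok_119N13
    (ad_prime (by norm_num) (by norm_num) (by decide))
    (ad_prime (by norm_num) (by norm_num) (by decide))
    ad_one

theorem rj_119N5 : RJOK r_119N5 :=
  rdj_of (h := 1) tok_119N5 comp17 comp7 comp1 ok17 ok7 ok1 rfl rfl rfl (by norm_num) (by norm_num)
    (by norm_num) (by norm_num) (by norm_num) (by decide +kernel) (by decide +kernel)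
    (by decide +kernel)
    tab1_119N5 tab2_119N5 tab3_119N5 red1_119N5 red2_119N5
    red3_119N5 rok_119N5
    (ad_prime (by norm_num) (by norm_num) (by decide))
    (ad_prime (by norm_num) (by norm_num) (by decide))
    ad_one

theorem rj_133N13 : RJOK r_133N13 :=
  rdj_of (h := 1) tok_133N13 comp19 comp7 comp1 ok19 ok7 ok1 rfl rfl rfl (by norm_num) (by norm_num)
    (by norm_num) (by norm_num) (by norm_num) (by decide +kernel) (by decide +kernel)
    (by decide +kernel)
    tab1_133N13 tab2_133N13 tab3_133N13 red1_133N13 red2_133N13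
    red3_133N13 rok_133N13
    (ad_prime (by norm_num) (by norm_num) (by decide))
    (ad_prime (by norm_num) (by norm_num) (by decide))
    ad_one

theorem rj_143N5 : RJOK r_143N5 :=
  rdj_of (h := 1) tok_143N5 comp11 comp13 comp1 ok11 ok13 ok1 rfl rfl rfl (by norm_num) (by norm_num)
    (by norm_num) (by norm_num) (by norm_num) (by decide +kernel) (by decide +kernel)
    (by decide +kernel)
    tab1_143N5 tab2_143N5 tab3_143N5 red1_143N5 red2_143N5
    red3_143N5 rok_143N5
    (ad_prime (by norm_num) (by norm_num) (by decide))
    (ad_prime (by norm_num) (by norm_num) (by decide))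
    ad_one

theorem rj_143N7 : RJOK r_143N7 :=
  rdj_of (h := 1) tok_143N7 comp11 comp13 comp1 ok11 ok13 ok1 rfl rfl rfl (by norm_num) (by norm_num)
    (by norm_num) (by norm_num) (by norm_num) (by decide +kernel) (by decide +kernel)
    (by decide +kernel)
    tab1_143N7 tab2_143N7 tab3_143N7 red1_143N7 red2_143N7
    red3_143N7 rok_143N7
    (ad_prime (by norm_num) (by norm_num) (by decide))
    (ad_prime (by norm_num) (by norm_num) (by decide))
    ad_one

theorem rj_152F19a : RJOK r_152F19a :=
  rdj_of (h := 361) tok_152F19a comp19 comp8 comp1 ok19 ok8 ok1 rfl rfl rfl (by norm_num) (by norm_num)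
    (by norm_num) (by norm_num) (by norm_num) (by decide +kernel) (by decide +kernel)
    (by decide +kernel)
    tab1_152F19a tab2_152F19a tab3_152F19a red1_152F19a red2_152F19a
    red3_152F19a rok_152F19a
    (ad_prime (by norm_num) (by norm_num) (by decide))
    (ad_two (by norm_num))
    ad_one

theorem rj_152F19b : RJOK r_152F19b :=
  rdj_of (h := 361) tok_152F19b comp19 comp8 comp1 ok19 ok8 ok1 rfl rfl rfl (by norm_num) (by norm_num)
    (by norm_num) (by norm_num) (by norm_num) (by decide +kernel) (by decide +kernel)
    (by decide +kernel)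
    tab1_152F19b tab2_152F19b tab3_152F19b red1_152F19b red2_152F19b
    red3_152F19b rok_152F19b
    (ad_prime (by norm_num) (by norm_num) (by decide))
    (ad_two (by norm_num))
    ad_one

theorem rj_187F17a : RJOK r_187F17a :=
  rdj_of (h := 289) tok_187F17a comp17 comp11 comp1 ok17 ok11 ok1 rfl rfl rfl (by norm_num) (by norm_num)
    (by norm_num) (by norm_num) (by norm_num) (by decide +kernel) (by decide +kernel)
    (by decide +kernel)
    tab1_187F17a tab2_187F17a tab3_187F17a red1_187F17a red2_187F17a
    red3_187F17a rok_187F17a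
    (ad_prime (by norm_num) (by norm_num) (by decide))
    (ad_prime (by norm_num) (by norm_num) (by decide))
    ad_one

theorem rj_187F17b : RJOK r_187F17b :=
  rdj_of (h := 289) tok_187F17b comp17 comp11 comp1 ok17 ok11 ok1 rfl rfl rfl (by norm_num) (by norm_num)
    (by norm_num) (by norm_num) (by norm_num) (by decide +kernel) (by decide +kernel)
    (by decide +kernel)
    tab1_187F17b tab2_187F17b tab3_187F17b red1_187F17b red2_187F17b
    red3_187F17b rok_187F17b
    (ad_prime (by norm_num) (by norm_num) (by decide))
    (ad_prime (by norm_num) (by norm_num) (by decide))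
    ad_one

theorem rj_221N5 : RJOK r_221N5 :=
  rdj_of (h := 1) tok_221N5 comp17 comp13 comp1 ok17 ok13 ok1 rfl rfl rfl (by norm_num) (by norm_num)
    (by norm_num) (by norm_num) (by norm_num) (by decide +kernel) (by decide +kernel)
    (by decide +kernel)
    tab1_221N5 tab2_221N5 tab3_221N5 red1_221N5 red2_221N5
    red3_221N5 rok_221N5
    (ad_prime (by norm_num) (by norm_num) (by decide))
    (ad_prime (by norm_num) (by norm_num) (by decide))
    ad_one

theorem rj_247F19a : RJOK r_247F19a :=
  rdj_of (h := 361) tok_247F19a comp19 comp13 comp1 ok19 ok13 ok1 rfl rfl rfl (by norm_num) (by norm_num)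
    (by norm_num) (by norm_num) (by norm_num) (by decide +kernel) (by decide +kernel)
    (by decide +kernel)
    tab1_247F19a tab2_247F19a tab3_247F19a red1_247F19a red2_247F19a
    red3_247F19a rok_247F19a
    (ad_prime (by norm_num) (by norm_num) (by decide))
    (ad_prime (by norm_num) (by norm_num) (by decide))
    ad_one

theorem rj_280F7 : RJOK r_280F7 :=
  rdj_of (h := 49) tok_280F7 comp7 comp5 comp8 ok7 ok5 ok8 rfl rfl rfl (by norm_num) (by norm_num)
    (by norm_num) (by norm_num) (by norm_num) (by decide +kernel) (by decide +kernel)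
    (by decide +kernel)
    tab1_280F7 tab2_280F7 tab3_280F7 red1_280F7 red2_280F7
    red3_280F7 rok_280F7
    (ad_prime (by norm_num) (by norm_num) (by decide))
    (ad_prime (by norm_num) (by norm_num) (by decide))
    (ad_two (by norm_num))

theorem rj_399F7 : RJOK r_399F7 :=
  rdj_of (h := 49) tok_399F7 comp19 comp7 comp3 ok19 ok7 ok3 rfl rfl rfl (by norm_num) (by norm_num)
    (by norm_num) (by norm_num) (by norm_num) (by decide +kernel) (by decide +kernel)
    (by decide +kernel)
    tab1_399F7 tab2_399F7 tab3_399F7 red1_399F7 red2_399F7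
    red3_399F7 rok_399F7
    (ad_prime (by norm_num) (by norm_num) (by decide))
    (ad_prime (by norm_num) (by norm_num) (by decide))
    (ad_prime (by norm_num) (by norm_num) (by decide))

theorem rj_455F13a : RJOK r_455F13a :=
  rdj_of (h := 169) tok_455F13a comp13 comp7 comp5 ok13 ok7 ok5 rfl rfl rfl (by norm_num) (by norm_num)
    (by norm_num) (by norm_num) (by norm_num) (by decide +kernel) (by decide +kernel)
    (by decide +kernel)
    tab1_455F13a tab2_455F13a tab3_455F13a red1_455F13a red2_455F13a
    red3_455F13a rok_455F13a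
    (ad_prime (by norm_num) (by norm_num) (by decide))
    (ad_prime (by norm_num) (by norm_num) (by decide))
    (ad_prime (by norm_num) (by norm_num) (by decide))

theorem rj_455F13b : RJOK r_455F13b :=
  rdj_of (h := 169) tok_455F13b comp13 comp7 comp5 ok13 ok7 ok5 rfl rfl rfl (by norm_num) (by norm_num)
    (by norm_num) (by norm_num) (by norm_num) (by decide +kernel) (by decide +kernel)
    (by decide +kernel)
    tab1_455F13b tab2_455F13b tab3_455F13b red1_455F13b red2_455F13b
    red3_455F13b rok_455F13b
    (ad_prime (by norm_num) (by norm_num) (by decide))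
    (ad_prime (by norm_num) (by norm_num) (by decide))
    (ad_prime (by norm_num) (by norm_num) (by decide))

theorem rj_455F13c : RJOK r_455F13c :=
  rdj_of (h := 169) tok_455F13c comp13 comp7 comp5 ok13 ok7 ok5 rfl rfl rfl (by norm_num) (by norm_num)
    (by norm_num) (by norm_num) (by norm_num) (by decide +kernel) (by decide +kernel)
    (by decide +kernel)
    tab1_455F13c tab2_455F13c tab3_455F13c red1_455F13c red2_455F13c
    red3_455F13c rok_455F13c
    (ad_prime (by norm_num) (by norm_num) (by decide))
    (ad_prime (by norm_num) (by norm_num) (by decide))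
    (ad_prime (by norm_num) (by norm_num) (by decide))

theorem rj_455F13d : RJOK r_455F13d :=
  rdj_of (h := 169) tok_455F13d comp13 comp7 comp5 ok13 ok7 ok5 rfl rfl rfl (by norm_num) (by norm_num)
    (by norm_num) (by norm_num) (by norm_num) (by decide +kernel) (by decide +kernel)
    (by decide +kernel)
    tab1_455F13d tab2_455F13d tab3_455F13d red1_455F13d red2_455F13d
    red3_455F13d rok_455F13d
    (ad_prime (by norm_num) (by norm_num) (by decide))
    (ad_prime (by norm_num) (by norm_num) (by decide))
    (ad_prime (by norm_num) (by norm_num) (by decide))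

theorem rj_455F13e : RJOK r_455F13e :=
  rdj_of (h := 169) tok_455F13e comp13 comp7 comp5 ok13 ok7 ok5 rfl rfl rfl (by norm_num) (by norm_num)
    (by norm_num) (by norm_num) (by norm_num) (by decide +kernel) (by decide +kernel)
    (by decide +kernel)
    tab1_455F13e tab2_455F13e tab3_455F13e red1_455F13e red2_455F13e
    red3_455F13e rok_455F13e
    (ad_prime (by norm_num) (by norm_num) (by decide))
    (ad_prime (by norm_num) (by norm_num) (by decide))
    (ad_prime (by norm_num) (by norm_num) (by decide))

theorem rj_455F5 : RJOK r_455F5 :=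
  rdj_of (h := 25) tok_455F5 comp13 comp7 comp5 ok13 ok7 ok5 rfl rfl rfl (by norm_num) (by norm_num)
    (by norm_num) (by norm_num) (by norm_num) (by decide +kernel) (by decide +kernel)
    (by decide +kernel)
    tab1_455F5 tab2_455F5 tab3_455F5 red1_455F5 red2_455F5
    red3_455F5 rok_455F5
    (ad_prime (by norm_num) (by norm_num) (by decide))
    (ad_prime (by norm_num) (by norm_num) (by decide))
    (ad_prime (by norm_num) (by norm_num) (by decide))

theorem rj_520F5 : RJOK r_520F5 :=
  rdj_of (h := 25) tok_520F5 comp13 comp5 comp8 ok13 ok5 ok8 rfl rfl rfl (by norm_num) (by norm_num)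
    (by norm_num) (by norm_num) (by norm_num) (by decide +kernel) (by decide +kernel)
    (by decide +kernel)
    tab1_520F5 tab2_520F5 tab3_520F5 red1_520F5 red2_520F5
    red3_520F5 rok_520F5
    (ad_prime (by norm_num) (by norm_num) (by decide))
    (ad_prime (by norm_num) (by norm_num) (by decide))
    (ad_two (by norm_num))

theorem rj_520N17 : RJOK r_520N17 :=
  rdj_of (h := 1) tok_520N17 comp13 comp5 comp8 ok13 ok5 ok8 rfl rfl rfl (by norm_num) (by norm_num)
    (by norm_num) (by norm_num) (by norm_num) (by decide +kernel) (by decide +kernel)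
    (by decide +kernel)
    tab1_520N17 tab2_520N17 tab3_520N17 red1_520N17 red2_520N17
    red3_520N17 rok_520N17
    (ad_prime (by norm_num) (by norm_num) (by decide))
    (ad_prime (by norm_num) (by norm_num) (by decide))
    (ad_two (by norm_num))

theorem rj_520N7 : RJOK r_520N7 :=
  rdj_of (h := 1) tok_520N7 comp13 comp5 comp8 ok13 ok5 ok8 rfl rfl rfl (by norm_num) (by norm_num)
    (by norm_num) (by norm_num) (by norm_num) (by decide +kernel) (by decide +kernel)
    (by decide +kernel)
    tab1_520N7 tab2_520N7 tab3_520N7 red1_520N7 red2_520N7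
    red3_520N7 rok_520N7
    (ad_prime (by norm_num) (by norm_num) (by decide))
    (ad_prime (by norm_num) (by norm_num) (by decide))
    (ad_two (by norm_num))

theorem rj_595N13a : RJOK r_595N13a :=
  rdj_of (h := 1) tok_595N13a comp17 comp7 comp5 ok17 ok7 ok5 rfl rfl rfl (by norm_num) (by norm_num)
    (by norm_num) (by norm_num) (by norm_num) (by decide +kernel) (by decide +kernel)
    (by decide +kernel)
    tab1_595N13a tab2_595N13a tab3_595N13a red1_595N13a red2_595N13a
    red3_595N13a rok_595N13a
    (ad_prime (by norm_num) (by norm_num) (by decide))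
    (ad_prime (by norm_num) (by norm_num) (by decide))
    (ad_prime (by norm_num) (by norm_num) (by decide))

theorem rj_595N13b : RJOK r_595N13b :=
  rdj_of (h := 1) tok_595N13b comp17 comp7 comp5 ok17 ok7 ok5 rfl rfl rfl (by norm_num) (by norm_num)
    (by norm_num) (by norm_num) (by norm_num) (by decide +kernel) (by decide +kernel)
    (by decide +kernel)
    tab1_595N13b tab2_595N13b tab3_595N13b red1_595N13b red2_595N13b
    red3_595N13b rok_595N13b
    (ad_prime (by norm_num) (by norm_num) (by decide))
    (ad_prime (by norm_num) (by norm_num) (by decide))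
    (ad_prime (by norm_num) (by norm_num) (by decide))

theorem rj_616F11 : RJOK r_616F11 :=
  rdj_of (h := 121) tok_616F11 comp11 comp7 comp8 ok11 ok7 ok8 rfl rfl rfl (by norm_num) (by norm_num)
    (by norm_num) (by norm_num) (by norm_num) (by decide +kernel) (by decide +kernel)
    (by decide +kernel)
    tab1_616F11 tab2_616F11 tab3_616F11 red1_616F11 red2_616F11
    red3_616F11 rok_616F11
    (ad_prime (by norm_num) (by norm_num) (by decide))
    (ad_prime (by norm_num) (by norm_num) (by decide))
    (ad_two (by norm_num))

theorem rj_616N13 : RJOK r_616N13 :=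
  rdj_of (h := 1) tok_616N13 comp11 comp7 comp8 ok11 ok7 ok8 rfl rfl rfl (by norm_num) (by norm_num)
    (by norm_num) (by norm_num) (by norm_num) (by decide +kernel) (by decide +kernel)
    (by decide +kernel)
    tab1_616N13 tab2_616N13 tab3_616N13 red1_616N13 red2_616N13
    red3_616N13 rok_616N13
    (ad_prime (by norm_num) (by norm_num) (by decide))
    (ad_prime (by norm_num) (by norm_num) (by decide))
    (ad_two (by norm_num))

theorem rj_680F17a : RJOK r_680F17a :=
  rdj_of (h := 289) tok_680F17a comp17 comp5 comp8 ok17 ok5 ok8 rfl rfl rfl (by norm_num) (by norm_num)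
    (by norm_num) (by norm_num) (by norm_num) (by decide +kernel) (by decide +kernel)
    (by decide +kernel)
    tab1_680F17a tab2_680F17a tab3_680F17a red1_680F17a red2_680F17a
    red3_680F17a rok_680F17a
    (ad_prime (by norm_num) (by norm_num) (by decide))
    (ad_prime (by norm_num) (by norm_num) (by decide))
    (ad_two (by norm_num))

theorem rj_680F17b : RJOK r_680F17b :=
  rdj_of (h := 289) tok_680F17b comp17 comp5 comp8 ok17 ok5 ok8 rfl rfl rfl (by norm_num) (by norm_num)
    (by norm_num) (by norm_num) (by norm_num) (by decide +kernel) (by decide +kernel)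
    (by decide +kernel)
    tab1_680F17b tab2_680F17b tab3_680F17b red1_680F17b red2_680F17b
    red3_680F17b rok_680F17b
    (ad_prime (by norm_num) (by norm_num) (by decide))
    (ad_prime (by norm_num) (by norm_num) (by decide))
    (ad_two (by norm_num))

theorem rj_680N13 : RJOK r_680N13 :=
  rdj_of (h := 1) tok_680N13 comp17 comp5 comp8 ok17 ok5 ok8 rfl rfl rfl (by norm_num) (by norm_num)
    (by norm_num) (by norm_num) (by norm_num) (by decide +kernel) (by decide +kernel)
    (by decide +kernel)
    tab1_680N13 tab2_680N13 tab3_680N13 red1_680N13 red2_680N13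
    red3_680N13 rok_680N13
    (ad_prime (by norm_num) (by norm_num) (by decide))
    (ad_prime (by norm_num) (by norm_num) (by decide))
    (ad_two (by norm_num))

theorem rj_715N7 : RJOK r_715N7 :=
  rdj_of (h := 1) tok_715N7 comp11 comp13 comp5 ok11 ok13 ok5 rfl rfl rfl (by norm_num) (by norm_num)
    (by norm_num) (by norm_num) (by norm_num) (by decide +kernel) (by decide +kernel)
    (by decide +kernel)
    tab1_715N7 tab2_715N7 tab3_715N7 red1_715N7 red2_715N7
    red3_715N7 rok_715N7
    (ad_prime (by norm_num) (by norm_num) (by decide))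
    (ad_prime (by norm_num) (by norm_num) (by decide))
    (ad_prime (by norm_num) (by norm_num) (by decide))

theorem rj_728F13 : RJOK r_728F13 :=
  rdj_of (h := 169) tok_728F13 comp13 comp7 comp8 ok13 ok7 ok8 rfl rfl rfl (by norm_num) (by norm_num)
    (by norm_num) (by norm_num) (by norm_num) (by decide +kernel) (by decide +kernel)
    (by decide +kernel)
    tab1_728F13 tab2_728F13 tab3_728F13 red1_728F13 red2_728F13
    red3_728F13 rok_728F13
    (ad_prime (by norm_num) (by norm_num) (by decide))
    (ad_prime (by norm_num) (by norm_num) (by decide))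
    (ad_two (by norm_num))

theorem rj_728F7 : RJOK r_728F7 :=
  rdj_of (h := 49) tok_728F7 comp13 comp7 comp8 ok13 ok7 ok8 rfl rfl rfl (by norm_num) (by norm_num)
    (by norm_num) (by norm_num) (by norm_num) (by decide +kernel) (by decide +kernel)
    (by decide +kernel)
    tab1_728F7 tab2_728F7 tab3_728F7 red1_728F7 red2_728F7
    red3_728F7 rok_728F7
    (ad_prime (by norm_num) (by norm_num) (by decide))
    (ad_prime (by norm_num) (by norm_num) (by decide))
    (ad_two (by norm_num))

theorem rj_728N19 : RJOK r_728N19 :=
  rdj_of (h := 1) tok_728N19 comp13 comp7 comp8 ok13 ok7 ok8 rfl rfl rfl (by norm_num) (by norm_num)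
    (by norm_num) (by norm_num) (by norm_num) (by decide +kernel) (by decide +kernel)
    (by decide +kernel)
    tab1_728N19 tab2_728N19 tab3_728N19 red1_728N19 red2_728N19
    red3_728N19 rok_728N19
    (ad_prime (by norm_num) (by norm_num) (by decide))
    (ad_prime (by norm_num) (by norm_num) (by decide))
    (ad_two (by norm_num))

theorem rj_728N5 : RJOK r_728N5 :=
  rdj_of (h := 1) tok_728N5 comp13 comp7 comp8 ok13 ok7 ok8 rfl rfl rfl (by norm_num) (by norm_num)
    (by norm_num) (by norm_num) (by norm_num) (by decide +kernel) (by decide +kernel)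
    (by decide +kernel)
    tab1_728N5 tab2_728N5 tab3_728N5 red1_728N5 red2_728N5
    red3_728N5 rok_728N5
    (ad_prime (by norm_num) (by norm_num) (by decide))
    (ad_prime (by norm_num) (by norm_num) (by decide))
    (ad_two (by norm_num))

theorem rj_88F11 : RJOK r_88F11 :=
  rdj_of (h := 121) tok_88F11 comp11 comp8 comp1 ok11 ok8 ok1 rfl rfl rfl (by norm_num) (by norm_num)
    (by norm_num) (by norm_num) (by norm_num) (by decide +kernel) (by decide +kernel)
    (by decide +kernel)
    tab1_88F11 tab2_88F11 tab3_88F11 red1_88F11 red2_88F11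
    red3_88F11 rok_88F11
    (ad_prime (by norm_num) (by norm_num) (by decide))
    (ad_two (by norm_num))
    ad_one

theorem rj_91F13 : RJOK r_91F13 :=
  rdj_of (h := 169) tok_91F13 comp13 comp7 comp1 ok13 ok7 ok1 rfl rfl rfl (by norm_num) (by norm_num)
    (by norm_num) (by norm_num) (by norm_num) (by decide +kernel) (by decide +kernel)
    (by decide +kernel)
    tab1_91F13 tab2_91F13 tab3_91F13 red1_91F13 red2_91F13
    red3_91F13 rok_91F13
    (ad_prime (by norm_num) (by norm_num) (by decide))
    (ad_prime (by norm_num) (by norm_num) (by decide))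
    ad_one

theorem rj_935N7 : RJOK r_935N7 :=
  rdj_of (h := 1) tok_935N7 comp17 comp11 comp5 ok17 ok11 ok5 rfl rfl rfl (by norm_num) (by norm_num)
    (by norm_num) (by norm_num) (by norm_num) (by decide +kernel) (by decide +kernel)
    (by decide +kernel)
    tab1_935N7 tab2_935N7 tab3_935N7 red1_935N7 red2_935N7
    red3_935N7 rok_935N7
    (ad_prime (by norm_num) (by norm_num) (by decide))
    (ad_prime (by norm_num) (by norm_num) (by decide))
    (ad_prime (by norm_num) (by norm_num) (by decide))

theorem rj_95F19 : RJOK r_95F19 :=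
  rdj_of (h := 361) tok_95F19 comp19 comp5 comp1 ok19 ok5 ok1 rfl rfl rfl (by norm_num) (by norm_num)
    (by norm_num) (by norm_num) (by norm_num) (by decide +kernel) (by decide +kernel)
    (by decide +kernel)
    tab1_95F19 tab2_95F19 tab3_95F19 red1_95F19 red2_95F19
    red3_95F19 rok_95F19
    (ad_prime (by norm_num) (by norm_num) (by decide))
    (ad_prime (by norm_num) (by norm_num) (by decide))
    ad_one

theorem rj_95N13 : RJOK r_95N13 :=
  rdj_of (h := 1) tok_95N13 comp19 comp5 comp1 ok19 ok5 ok1 rfl rfl rfl (by norm_num) (by norm_num)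
    (by norm_num) (by norm_num) (by norm_num) (by decide +kernel) (by decide +kernel)
    (by decide +kernel)
    tab1_95N13 tab2_95N13 tab3_95N13 red1_95N13 red2_95N13
    red3_95N13 rok_95N13
    (ad_prime (by norm_num) (by norm_num) (by decide))
    (ad_prime (by norm_num) (by norm_num) (by decide))
    ad_one

/-- relation -/
def r_51N5 : RD := ⟨nat_lit 17, nat_lit 3, nat_lit 1, nat_lit 5, t1_51N5, t2_51N5, t3_51N5,
  rows_51N5, nat_lit 3, nat_lit 1⟩

theorem rj_51N5 : RJOK r_51N5 :=
  rdj_of (h := 1) tok_51N5 comp17 comp3 comp1 ok17 ok3 ok1 rfl rfl rfl (by norm_num) (by norm_num)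
    (by norm_num) (by norm_num) (by norm_num) (by decide +kernel) (by decide +kernel)
    (by decide +kernel)
    tab1_51N5 tab2_51N5 tab3_51N5 red1_51N5 red2_51N5
    red3_51N5 rok_51N5
    (ad_prime (by norm_num) (by norm_num) (by decide))
    (ad_prime (by norm_num) (by norm_num) (by decide))
    ad_one

/-- relation -/
def r_105N13 : RD := ⟨nat_lit 7, nat_lit 5, nat_lit 3, nat_lit 13, t1_105N13, t2_105N13, t3_105N13,
  rows_105N13, nat_lit 10, nat_lit 3⟩

theorem rj_105N13 : RJOK r_105N13 :=
  rdj_of (h := 1) tok_105N13 comp7 comp5 comp3 ok7 ok5 ok3 rfl rfl rfl (by norm_num) (by norm_num)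
    (by norm_num) (by norm_num) (by norm_num) (by decide +kernel) (by decide +kernel)
    (by decide +kernel)
    tab1_105N13 tab2_105N13 tab3_105N13 red1_105N13 red2_105N13
    red3_105N13 rok_105N13
    (ad_prime (by norm_num) (by norm_num) (by decide))
    (ad_prime (by norm_num) (by norm_num) (by decide))
    (ad_prime (by norm_num) (by norm_num) (by decide))

/-- relation -/
def r_715N29 : RD := ⟨nat_lit 11, nat_lit 13, nat_lit 5, nat_lit 29, t1_715N29, t2_715N29, t3_715N29,
  rows_715N29, nat_lit 78, nat_lit 10⟩

theorem rj_715N29 : RJOK r_715N29 :=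
  rdj_of (h := 1) tok_715N29 comp11 comp13 comp5 ok11 ok13 ok5 rfl rfl rfl (by norm_num) (by norm_num)
    (by norm_num) (by norm_num) (by norm_num) (by decide +kernel) (by decide +kernel)
    (by decide +kernel)
    tab1_715N29 tab2_715N29 tab3_715N29 red1_715N29 red2_715N29
    red3_715N29 rok_715N29
    (ad_prime (by norm_num) (by norm_num) (by decide))
    (ad_prime (by norm_num) (by norm_num) (by decide))
    (ad_prime (by norm_num) (by norm_num) (by decide))

end Pool.Agent.SU.EL
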