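import Pool.Agent.SU.EFold

/-!
Real quadratic fields with small units: relations for the lists of forms.
-/

namespace Pool.Agent.SU.EL

open Finset Pool.Agent.Lib_helper5 Pool.Agent.Lib_helper5.LK Pool.Agent.LibH4.Ker
  Pool.Agent.LibH4.KF Pool.Agent.LibH4.T6 Pool.Agent.Lib_helper5.TB Pool.Agent.LibH4.S7
  Pool.Agent.LibH4 Pool.Agent.LibH4.CW

/-- a relation -/
structure RJOK (r : RD) : Prop where
  k1 : CmpOK (cof r.n1)
  k2 : CmpOK (cof r.n2)
  k3 : CmpOK (cof r.n3)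
  m1 : (cof r.n1).n = r.n1
  m2 : (cof r.n2).n = r.n2
  m3 : (cof r.n3).n = r.n3
  l2 : r.len2 = (cof r.n2).F.length
  l3 : r.len3 = (cof r.n3).F.length
  l0 : 0 < r.l
  l29 : r.l ≤ 29
  rel : ∀ {D : ℤ} {J : List Fm}, RelJ D J →
    (J.map (fval r.n1 r.n2 r.n3 r.l (cof r.n1).ex (cof r.n2).ex (cof r.n3).ex
      (cof r.n1).PT (cof r.n2).PT (cof r.n3).PT r.t1 r.t2 r.t3 r.rows r.len3)).sum % r.l = 0

/-- **relation of a table** -/
theorem rdj_of {n1 n2 n3 l t1 t2 t3 len2 len3 M h T1 T2 T3 : ℕ} {rows : List (ℕ × ℕ)}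
    {A1 A2 A3 : ℕ → ℕ → ℕ → Bool} [NeZero n1] [NeZero n2] [NeZero n3] [NeZero (n1 * n2)]
    [NeZero (n1 * n2 * n3)]
    (H : TabOK n1 n2 n3 M h T1 T2 T3 (cof n1).F (cof n2).F (cof n3).F rows)
    (C1 : CompOK n1 (cof n1).ex (cof n1).PT (cof n1).F A1)
    (C2 : CompOK n2 (cof n2).ex (cof n2).PT (cof n2).F A2)
    (C3 : CompOK n3 (cof n3).ex (cof n3).PT (cof n3).F A3)
    (k1 : CmpOK (cof n1)) (k2 : CmpOK (cof n2)) (k3 : CmpOK (cof n3))
    (m1 : (cof n1).n = n1) (m2 : (cof n2).n = n2) (m3 : (cof n3).n = n3)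
    (hN : M = h * l) (h0 : 0 < h) (hl : 0 < l) (hl2 : l ≤ 29) (hM : M % 2 = 1)
    (hQ : (n1 * n2 * n3 * M) ∣ QB ^ 6) (l2 : len2 = (cof n2).F.length)
    (l3 : len3 = (cof n3).F.length)
    (ht1 : tabCk n1 M T1 = true) (ht2 : tabCk n2 M T2 = true) (ht3 : tabCk n3 M T3 = true)
    (r1 : redCk n1 T1 t1 l = true) (r2 : redCk n2 T2 t2 l = true) (r3 : redCk n3 T3 t3 l = true)
    (rok : relOk n1 n2 n3 M T1 T2 T3 = true) (a1 : AD n1 A1) (a2 : AD n2 A2) (a3 : AD n3 A3) :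
    RJOK ⟨n1, n2, n3, l, t1, t2, t3, rows, len2, len3⟩ where
  k1 := k1
  k2 := k2
  k3 := k3
  m1 := m1
  m2 := m2
  m3 := m3
  l2 := l2
  l3 := l3
  l0 := hl
  l29 := hl2
  rel := by
    intro D J W
    have hd : ∀ j ∈ J, j.R ^ 2 + 4 * j.P * (-j.S) = D := by
      intro j hj
      rw [← W.disc j hj]; ring
    have := H.rel hN h0 hl ht1 ht2 ht3 C1 C2 C3 r1 r2 r3 (J := J) (by
      intro j hj
      have := a1 D W.dok _ _ _ (hd j hj)
      rwa [neg_neg] at this) (by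
      intro j hj
      have := a2 D W.dok _ _ _ (hd j hj)
      rwa [neg_neg] at this) (by
      intro j hj
      have := a3 D W.dok _ _ _ (hd j hj)
      rwa [neg_neg] at this)
      (W.rel n1 n2 n3 M T1 T2 T3 rok ht1 ht2 ht3 hM hQ)
    rw [← l3] at this
    exact this

/-- multipliers -/
def mul1 (r : RD) : ℕ := 24 * (r.len2 * r.len3) + 2 ^ 24 * (8 * (r.n2 * r.n3))
/-- multipliers -/
def mul2 (r : RD) : ℕ := 24 * r.len3 + 2 ^ 24 * (8 * r.n3)
/-- multipliers -/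
def mul3 : ℕ := 24 + 2 ^ 24 * 8

/-- the tables of a relation -/
structure TJOK (r : RD) (T C : ℕ) : Prop where
  T : ∀ i1 i2 i3, i1 < (cof r.n1).F.length → i2 < r.len2 → i3 < r.len3 →
    (T >>> (24 * ((i1 * r.len2 + i2) * r.len3 + i3))) % 2 ^ 24 =
      tX r.rows r.len3 i1 i2 i3 + 2 ^ 19 * ((r.l - tY r.rows r.len3 i1 i2 i3) % r.l) ∧
    tX r.rows r.len3 i1 i2 i3 < r.l ∧ tY r.rows r.len3 i1 i2 i3 ≤ r.l
  C : ∀ i1 i2 i3, i1 < r.n1 → i2 < r.n2 → i3 < r.n3 →
    (C >>> (8 * ((i1 * r.n2 + i2) * r.n3 + i3))) % 2 ^ 8 =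
      dig r.t1 i1 * dig r.t2 i2 * dig r.t3 i3 % r.l
  b1 : 24 * (r.len2 * r.len3) + 24 * r.len3 + 24 ≤ 2 ^ 16
  b2 : 8 * (r.n2 * r.n3) + 8 * r.n3 + 8 ≤ 2 ^ 16

/-- the code of a form in a relation -/
def cd (r : RD) (j : Fm) : ℕ :=
  mul1 r * cj (cof r.n1) j + (mul2 r * cj (cof r.n2) j + mul3 * cj (cof r.n3) j)

lemma packL_lin (V a b d : ℕ) (f g h : Fm → ℕ) (J : List Fm) :
    a * packL V f J + (b * packL V g J + d * packL V h J) =
      packL V (fun j => a * f j + (b * g j + d * h j)) J := by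
  induction J with
  | nil => rfl
  | cons x J ih =>
    rw [packL_cons, packL_cons, packL_cons, packL_cons, ← ih]
    ring

/-- the value of the first sum -/
def xv (r : RD) (j : Fm) : ℕ :=
  tX r.rows r.len3 (pj (cof r.n1) j) (pj (cof r.n2) j) (pj (cof r.n3) j)
/-- the value of the second sum -/
def yv (r : RD) (j : Fm) : ℕ :=
  tY r.rows r.len3 (pj (cof r.n1) j) (pj (cof r.n2) j) (pj (cof r.n3) j)
/-- the weight -/
def wv (r : RD) (j : Fm) : ℕ :=
  dig r.t1 (wj (cof r.n1) j) * dig r.t2 (wj (cof r.n2) j) * dig r.t3 (wj (cof r.n3) j) % r.l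

section

variable {r : RD} {T C : ℕ} {D : ℤ} {J : List Fm}

lemma pj_len {c : Cmp} (hc : CmpOK c) (W : RelJ D J) {j : Fm} (hj : j ∈ J) :
    pj c j < c.F.length := by
  obtain ⟨v1, v2⟩ := hc.cp D W.dok j.P j.R (-j.S) (by rw [← W.disc j hj]; ring)
  rw [neg_neg] at v2
  exact (List.getElem?_eq_some_iff.1 v2).1

lemma wj_lt {c : Cmp} (hc : CmpOK c) (j : Fm) : wj c j < c.n := by
  have : NeZero c.n := ⟨hc.pos.ne'⟩
  exact rs_lt _

/-- **the code of a form** -/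
lemma cd_spec (hr : RJOK r) (hT : TJOK r T C) (W : RelJ D J) {j : Fm} (hj : j ∈ J) :
    cd r j < 2 ^ 96 ∧ zz T (cd r j) = xv r j + 2 ^ 19 * ((r.l - yv r j) % r.l) ∧
      ww C (cd r j) = wv r j ∧ xv r j < r.l ∧ yv r j ≤ r.l := by
  have p1 := pj_len hr.k1 W hj
  have p2 := pj_len hr.k2 W hj
  have p3 := pj_len hr.k3 W hj
  rw [← hr.l2] at p2
  rw [← hr.l3] at p3
  have q1 := wj_lt hr.k1 j
  have q2 := wj_lt hr.k2 j
  have q3 := wj_lt hr.k3 j
  rw [hr.m1] at q1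
  rw [hr.m2] at q2
  rw [hr.m3] at q3
  have b1 := pj_lt (cof r.n1) j
  have b2 := pj_lt (cof r.n2) j
  have b3 := pj_lt (cof r.n3) j
  have c1 : wj (cof r.n1) j < 256 := by
    have := hr.k1.le; rw [hr.m1] at this; omega
  have c2 : wj (cof r.n2) j < 256 := by
    have := hr.k2.le; rw [hr.m2] at this; omega
  have c3 : wj (cof r.n3) j < 256 := by
    have := hr.k3.le; rw [hr.m3] at this; omega
  obtain ⟨t1, t2, t3⟩ := hT.T _ _ _ p1 p2 p3
  have u1 := hT.C _ _ _ q1 q2 q3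
  have v1 := hT.b1
  have v2 := hT.b2
  set a1 := pj (cof r.n1) j
  set a2 := pj (cof r.n2) j
  set a3 := pj (cof r.n3) j
  set w1 := wj (cof r.n1) j
  set w2 := wj (cof r.n2) j
  set w3 := wj (cof r.n3) j
  set A := 24 * (r.len2 * r.len3)
  set B := 24 * r.len3
  set A' := 8 * (r.n2 * r.n3)
  set B' := 8 * r.n3
  -- the four fields
  have e : cd r j = (A * a1 + B * a2 + 24 * a3) + 2 ^ 24 * ((A' * a1 + B' * a2 + 8 * a3) +
      2 ^ 24 * ((A * w1 + B * w2 + 24 * w3) + 2 ^ 24 * (A' * w1 + B' * w2 + 8 * w3))) := by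
    change (A + 2 ^ 24 * A') * (a1 + 2 ^ 48 * w1) + ((B + 2 ^ 24 * B') * (a2 + 2 ^ 48 * w2) +
      (24 + 2 ^ 24 * 8) * (a3 + 2 ^ 48 * w3)) = _
    ring
  have hb : ∀ x y z : ℕ, x < 256 → y < 256 → z < 256 → A * x + B * y + 24 * z < 2 ^ 24 := by
    intro x y z hx hy hz
    calc _ ≤ A * 255 + B * 255 + 24 * 255 := by gcongr <;> omega
      _ < 2 ^ 24 := by omega
  have hb' : ∀ x y z : ℕ, x < 256 → y < 256 → z < 256 → A' * x + B' * y + 8 * z < 2 ^ 24 := by
    intro x y z hx hy hz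
    calc _ ≤ A' * 255 + B' * 255 + 8 * 255 := by gcongr <;> omega
      _ < 2 ^ 24 := by omega
  have f0 := hb a1 a2 a3 b1 b2 b3
  have f1 := hb' a1 a2 a3 b1 b2 b3
  have f2 := hb w1 w2 w3 c1 c2 c3
  have f3 := hb' w1 w2 w3 c1 c2 c3
  generalize hF0 : A * a1 + B * a2 + 24 * a3 = F0 at e f0
  generalize hF1 : A' * a1 + B' * a2 + 8 * a3 = F1 at e f1
  generalize hF2 : A * w1 + B * w2 + 24 * w3 = F2 at e f2
  generalize hF3 : A' * w1 + B' * w2 + 8 * w3 = F3 at e f3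
  have g1 : cd r j % 2 ^ 24 = F0 := by rw [e]; exact CW.add_mod _ _ _ f0
  have g2 : (cd r j >>> 72) % 2 ^ 24 = F3 := by
    rw [e, show (72 : ℕ) = 24 + (24 + 24) by rfl, Nat.shiftRight_add, Nat.shiftRight_add,
      CW.add_shr _ _ _ f0, CW.add_shr _ _ _ f1, CW.add_shr _ _ _ f2, Nat.mod_eq_of_lt f3]
  refine ⟨by rw [e]; omega, ?_, ?_, t2, t3⟩
  · change (T >>> (cd r j % 2 ^ 24)) % 2 ^ 24 = _
    rw [g1, ← hF0, show A * a1 + B * a2 + 24 * a3 = 24 * ((a1 * r.len2 + a2) * r.len3 + a3) by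
      change 24 * (r.len2 * r.len3) * a1 + 24 * r.len3 * a2 + 24 * a3 = _
      ring, t1]
    rfl
  · change (C >>> ((cd r j >>> 72) % 2 ^ 24)) % 2 ^ 8 = _
    rw [g2, ← hF3, show A' * w1 + B' * w2 + 8 * w3 = 8 * ((w1 * r.n2 + w2) * r.n3 + w3) by
      change 8 * (r.n2 * r.n3) * w1 + 8 * r.n3 * w2 + 8 * w3 = _
      ring, u1]
    rfl

/-- the middle field of a sum -/
lemma mid_sum {L : List Fm} {F lo mi hi : Fm → ℕ} (h : ∀ j ∈ L, F j = lo j + 2 ^ 19 * (mi j +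
    2 ^ 19 * hi j)) (hlo : (L.map lo).sum < 2 ^ 19) (hmi : (L.map mi).sum < 2 ^ 19) :
    ((L.map F).sum >>> 19) % 2 ^ 19 = (L.map mi).sum := by
  have e : (L.map F).sum = (L.map lo).sum + 2 ^ 19 * ((L.map mi).sum + 2 ^ 19 * (L.map hi).sum) := by
    clear hlo hmi
    induction L with
    | nil => rfl
    | cons x L ih =>
      simp only [List.map_cons, List.sum_cons]
      rw [ih (fun j hj => h j (by simp [hj])), h x (by simp)]
      ring
  rw [e, CW.add_shr _ _ _ hlo, CW.add_mod _ _ _ hmi]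

lemma sum_bd {L : List Fm} {f : Fm → ℕ} {M : ℕ} (h : ∀ j ∈ L, f j ≤ M) :
    (L.map f).sum ≤ L.length * M := by
  induction L with
  | nil => simp
  | cons x L ih =>
    rw [List.map_cons, List.sum_cons, List.length_cons]
    have h1 := h x (by simp)
    have h2 := ih (fun j hj => h j (by simp [hj]))
    calc _ ≤ M + L.length * M := by omega
      _ = _ := by ring

/-- the value of a form modulo `l` -/
lemma fval_cast (hr : RJOK r) (j : Fm) :
    ((fval r.n1 r.n2 r.n3 r.l (cof r.n1).ex (cof r.n2).ex (cof r.n3).ex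
      (cof r.n1).PT (cof r.n2).PT (cof r.n3).PT r.t1 r.t2 r.t3 r.rows r.len3 j : ℕ) : ZMod r.l) =
    (wv r j : ZMod r.l) * ((j.κ : ZMod r.l) * xv r j + (j.α : ZMod r.l) * yv r j) := by
  have : NeZero r.l := ⟨hr.l0.ne'⟩
  unfold fval wv xv yv pj wj
  rw [hr.m1, hr.m2, hr.m3, ZMod.natCast_mod]
  push_cast
  rw [rs_cast]

lemma JT_kappa (par : Bool) (w : List ℕ) (f : ℤ × ℤ × ℤ) : ∀ j ∈ JT par f w, j.κ ≤ 6 := by
  induction w generalizing f with
  | nil =>
    cases par with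
    | false => intro j hj; simp only [JT, cond_false, List.mem_singleton] at hj; subst hj; simp
    | true => intro j hj; simp [JT] at hj
  | cons a w ih =>
    intro j hj
    rw [JT_cons] at hj
    rcases List.mem_cons.1 hj with rfl | hj
    · exact le_rfl
    · exact ih _ _ hj

lemma JT_al (par : Bool) (w : List ℕ) (f : ℤ × ℤ × ℤ) :
    ∀ j ∈ JT par f w, ((al j : ℕ) : ℤ) = -j.α := by
  induction w generalizing f with
  | nil =>
    cases par with
    | false =>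
      intro j hj; simp only [JT, cond_false, List.mem_singleton] at hj; subst hj; simp [al]
    | true => intro j hj; simp [JT] at hj
  | cons a w ih =>
    intro j hj
    rw [JT_cons] at hj
    rcases List.mem_cons.1 hj with rfl | hj
    · unfold al
      rw [Int.toNat_of_nonneg]
      simp only [neg_neg]
      cases (par && w.isEmpty) <;> simp
    · exact ih _ _ hj

/-- **the relation level** -/
theorem rel_level (hr : RJOK r) (hT : TJOK r T C) {par : Bool} {B m : ℤ} {w : List ℕ}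
    (hw : w.length ≤ 17) (W : RelJ D (JH par B m w)) {b : ℕ} (hb : ((b : ℕ) : ZMod r.l) = B)
    {V1 V2 V3 : ℕ} (h1 : V1 = VV (cof r.n1) (JH par B m w)) (h2 : V2 = VV (cof r.n2) (JH par B m w))
    (h3 : V3 = VV (cof r.n3) (JH par B m w)) {U : ℕ}
    (hU : U = mul1 r * V1 + (mul2 r * V2 + mul3 * V3)) :
    (((fold r.l T C par (LQ par w) (U >>> 96)) >>> 19) % 524288 +
      b * ((zz T U >>> 19) * ww C U)) % r.l = 0 := by
  have : NeZero r.l := ⟨hr.l0.ne'⟩
  have hl0 := hr.l0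
  have hl29 := hr.l29
  have e0 : U = packL (2 ^ 96) (cd r) (JH par B m w) := by
    rw [hU, h1, h2, h3]
    exact packL_lin _ _ _ _ _ _ _ _
  have hJ : JH par B m w = ⟨m, B, -1, 0, -B⟩ :: JT par (1, B, m) w := rfl
  rw [hJ] at W e0
  rw [packL_cons] at e0
  have s0 := cd_spec hr hT W (List.mem_cons_self)
  have sj : ∀ j ∈ JT par (1, B, m) w, _ := fun j hj => cd_spec hr hT W (List.mem_cons_of_mem _ hj)
  have e1 : U >>> 96 = packL (2 ^ 96) (cd r) (JT par (1, B, m) w) := by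
    rw [e0]; exact CW.add_shr _ _ _ s0.1
  rw [e1, fold_spec _ _ _ _ _ _ _ (fun j hj => (sj j hj).1)]
  have e2 : zz T U = xv r ⟨m, B, -1, 0, -B⟩ + 2 ^ 19 * ((r.l - yv r ⟨m, B, -1, 0, -B⟩) % r.l) := by
    rw [e0, zz_add, s0.2.1]
  have e3 : ww C U = wv r ⟨m, B, -1, 0, -B⟩ := by rw [e0, ww_add, s0.2.2.1]
  have hx0 : xv r ⟨m, B, -1, 0, -B⟩ < 2 ^ 19 := by have := s0.2.2.2.1; omega
  rw [e2, e3, CW.add_shr _ _ _ hx0]
  -- the middle field
  have hlen : (JT par (1, B, m) w).length ≤ 18 := by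
    rw [JT_length]; unfold nf; cases par <;> simp <;> omega
  have hκ := JT_kappa par w (1, B, m)
  have hal : ∀ j ∈ JT par (1, B, m) w, ((al j : ℕ) : ZMod r.l) = -((j.α : ℤ) : ZMod r.l) := by
    intro j hj
    have h6 := congrArg (fun x : ℤ => (x : ZMod r.l)) (JT_al par w _ j hj)
    push_cast at h6
    exact h6
  have hwv : ∀ j, wv r j < r.l := fun j => Nat.mod_lt _ hl0
  have hmid := mid_sum (L := JT par (1, B, m) w) (F := fun j => vf r.l T C j.κ (al j) (cd r j))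
    (lo := fun j => wv r j * ((al j % r.l) * xv r j))
    (mi := fun j => wv r j * (j.κ * xv r j + (al j % r.l) * ((r.l - yv r j) % r.l)))
    (hi := fun j => wv r j * (j.κ * ((r.l - yv r j) % r.l)))
    (by
      intro j hj
      obtain ⟨-, z1, z2, -, -⟩ := sj j hj
      unfold vf
      rw [z1, z2]
      ring)
    (by
      refine lt_of_le_of_lt (sum_bd (M := 28 * (28 * 28)) ?_) ?_
      · intro j hj
        obtain ⟨-, -, -, z3, -⟩ := sj j hj
        have z4 := hwv j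
        have z5 : al j % r.l < r.l := Nat.mod_lt _ hl0
        exact Nat.mul_le_mul (by omega) (Nat.mul_le_mul (by omega) (by omega))
      · have : (JT par (1, B, m) w).length * (28 * (28 * 28)) ≤ 18 * (28 * (28 * 28)) :=
          Nat.mul_le_mul_right _ hlen
        omega)
    (by
      refine lt_of_le_of_lt (sum_bd (M := 28 * (6 * 28 + 28 * 28)) ?_) ?_
      · intro j hj
        obtain ⟨-, -, -, z3, -⟩ := sj j hj
        have z4 := hwv j
        have z5 : al j % r.l < r.l := Nat.mod_lt _ hl0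
        have z6 : (r.l - yv r j) % r.l < r.l := Nat.mod_lt _ hl0
        have z7 := hκ j hj
        exact Nat.mul_le_mul (by omega) (Nat.add_le_add (Nat.mul_le_mul (by omega) (by omega))
          (Nat.mul_le_mul (by omega) (by omega)))
      · have : (JT par (1, B, m) w).length * (28 * (6 * 28 + 28 * 28)) ≤
            18 * (28 * (6 * 28 + 28 * 28)) := Nat.mul_le_mul_right _ hlen
        omega)
  rw [show (524288 : ℕ) = 2 ^ 19 by norm_num, hmid]
  -- congruence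
  have hrel := hr.rel W
  rw [← Nat.dvd_iff_mod_eq_zero, ← ZMod.natCast_eq_zero_iff, cast_lsum, List.map_cons,
    List.sum_cons] at hrel
  rw [← Nat.dvd_iff_mod_eq_zero, ← ZMod.natCast_eq_zero_iff]
  simp only [fval_cast hr] at hrel
  rw [Nat.cast_add, cast_lsum]
  have hneg : ∀ j, yv r j ≤ r.l → (((r.l - yv r j) % r.l : ℕ) : ZMod r.l) = -(yv r j : ZMod r.l) := by
    intro j hj
    rw [ZMod.natCast_mod, Nat.cast_sub hj, ZMod.natCast_self, zero_sub]
  have e5 : (List.map (fun x => ((wv r x * (x.κ * xv r x + (al x % r.l) *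
      ((r.l - yv r x) % r.l)) : ℕ) : ZMod r.l)) (JT par (1, B, m) w)).sum =
      (List.map (fun j => (wv r j : ZMod r.l) * ((j.κ : ZMod r.l) * xv r j +
        (j.α : ZMod r.l) * yv r j)) (JT par (1, B, m) w)).sum := by
    apply lsum_congr
    intro j hj
    obtain ⟨-, -, -, -, z5⟩ := sj j hj
    rw [Nat.cast_mul, Nat.cast_add, Nat.cast_mul, Nat.cast_mul, hneg j z5, ZMod.natCast_mod,
      hal j hj]
    ring
  rw [e5, Nat.cast_mul, Nat.cast_mul, hneg _ s0.2.2.2.2, hb]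
  push_cast at hrel ⊢
  linear_combination hrel

end

end Pool.Agent.SU.EL
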