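import Pool.Agent.SU.EFront

/-!
Real quadratic fields with small units: soundness of the first stages of the elimination.
-/

namespace Pool.Agent.SU.EL

open Finset Pool.Agent.Lib_helper5 Pool.Agent.Lib_helper5.LK Pool.Agent.LibH4.Ker
  Pool.Agent.LibH4.KF Pool.Agent.LibH4.T6 Pool.Agent.Lib_helper5.TB Pool.Agent.LibH4.S7
  Pool.Agent.LibH4 Pool.Agent.LibH4.CW

/-- digit -/
def dg24 (X k : ℕ) : ℕ := (X >>> (24 * k)) % 2 ^ 24

/-- check of one row: `len3` and `i3` describe the position in the table -/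
def rowck (P l len3 i3 X Y row : ℕ) : Bool :=
  allR (fun k => @Bool.rec (fun _ => Bool) false (@Bool.rec (fun _ => Bool) false
    (@Bool.rec (fun _ => Bool) false (Nat.ble (dig Y (Nat.add (Nat.mul k len3) i3)) l)
      (Nat.ble (Nat.succ (dig X (Nat.add (Nat.mul k len3) i3))) l))
      (Nat.beq (Nat.mod (Nat.shiftRight row (Nat.mul (nat_lit 24) (Nat.add P k)))
        (nat_lit 16777216)) (Nat.mod (Nat.sub l (dig Y (Nat.add (Nat.mul k len3) i3))) l)))
    (Nat.beq (Nat.mod (Nat.shiftRight row (Nat.mul (nat_lit 24) k)) (nat_lit 16777216))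
      (dig X (Nat.add (Nat.mul k len3) i3)))) P

lemma rowck_spec {P l len3 i3 X Y row : ℕ} (h : rowck P l len3 i3 X Y row = true) {k : ℕ}
    (hk : k < P) : dg24 row k = dig X (k * len3 + i3) ∧
      dg24 row (P + k) = (l - dig Y (k * len3 + i3)) % l ∧ dig X (k * len3 + i3) < l ∧
      dig Y (k * len3 + i3) ≤ l := by
  have h1 := allR_spec h k hk
  have key : ∀ a b c d : Bool, @Bool.rec (fun _ => Bool) false (@Bool.rec (fun _ => Bool) false
      (@Bool.rec (fun _ => Bool) false d c) b) a = true →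
      a = true ∧ b = true ∧ c = true ∧ d = true := by decide
  obtain ⟨a1, a2, a3, a4⟩ := key _ _ _ _ h1
  exact ⟨Nat.eq_of_beq_eq_true a1, Nat.eq_of_beq_eq_true a2, Nat.le_of_ble_eq_true a3,
    Nat.le_of_ble_eq_true a4⟩

section

variable {par : Bool} {w : List ℕ} {v u be m0 t : ℕ} {D : ℤ}

/-- the first coefficient of the first factor -/
def Aj (b : ℕ) (f : Fm → ℕ) (j : Fm) : ℕ := if j.κ = 0 then (b * f j) % 11 else f j

lemma ep0_eq {a b : ℕ} (ha : a < 256) : ep0 (a + (256 * b + 65536)) = a := by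
  change (a + (256 * b + 65536)) % 256 = _
  omega

lemma ep1_eq {a b : ℕ} (ha : a < 256) (hb : b < 256) : ep1 (a + (256 * b + 65536)) = b := by
  change ((a + (256 * b + 65536)) >>> 8) % 256 = _
  rw [Nat.shiftRight_eq_div_pow]
  omega

lemma wz_one {c : Cmp} (h1 : 1 < c.n) (B m : ℤ) : wz c (1, B, m) = 1 := by
  have : NeZero c.n := ⟨by omega⟩
  have : (1 : ℕ) % c.n = rs c.n 1 := rs_of (by push_cast; rfl)
  rw [Nat.mod_eq_of_lt h1] at this
  exact this.symm

/-- the second factor -/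
lemma yS_eq {c : Cmp} (hc : CmpOK c) (h1 : 1 < c.n) (hD : DOK D) {NP : ℕ}
    (np : npCk c.n c.ex c.PT c.F NP = true) {B m : ℤ} (he : B ^ 2 + 4 * m = D) (par : Bool)
    (w : List ℕ) {P C V h6 h3 : ℕ} (e6 : h6 = 6 * 2 ^ (24 * P)) (e3 : h3 = 3 * 2 ^ (24 * P)) :
    yS c.n NP V h6 h3 C (P - 1) par (LQ par w) (rs c.n m)
      (pz c (m, B, 1) + (256 * pz c (1, B, m) + 65536)) =
    rp V (fun j => (wgt C (wj c j) * (Ej 11 j + j.κ * 2 ^ (24 * P))) <<<
      (24 * (P - 1 - pj c j))) (JH par B m w) := by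
  have a0 := pz_lt c (m, B, 1)
  have a1 := pz_lt c (1, B, m)
  unfold yS
  rw [ep0_eq a0, ep1_eq a0 a1]
  have h := orbA_spec hc hD np (hot C (P - 1)) V h3 (mus h6)
    (fun κ a => a % 11 + κ * 2 ^ (24 * P)) (by intro b; rw [e6]; rfl) (by rw [e3]; simp) par w
    (1, B, m) (by unfold LO.dis; simp only; linear_combination he)
    (hot C (P - 1) (nat_lit 1) (pz c (m, B, 1)) (rs c.n m))
  rw [wz_one h1] at h
  rw [h]
  have hJ : JH par B m w = ⟨m, B, -1, 0, -B⟩ :: JT par (1, B, m) w := rfl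
  rw [hJ, rp_cons]
  congr 1
  · congr 1
    change (wgt C (rs c.n m) * 1) <<< (24 * (P - 1 - pz c (m, B, 1))) = _
    have e1 : Ej 11 (⟨m, B, -1, 0, -B⟩ : Fm) + 0 * 2 ^ (24 * P) = 1 := by
      unfold Ej
      simp
    change _ = (wgt C (rs c.n m) * (Ej 11 (⟨m, B, -1, 0, -B⟩ : Fm) + 0 * 2 ^ (24 * P))) <<<
      (24 * (P - 1 - pz c (m, B, 1)))
    rw [e1]
  · apply rp_congr
    intro j hj
    have h0 := JT_kappa0 _ _ _ j hj
    have e1 : Ej 11 j = al j % 11 := by
      unfold Ej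
      rw [if_neg h0]
    rw [e1]
    rfl

/-- the first factor of the first stage -/
lemma xS_eq {c : Cmp} (hc : CmpOK c) (h1 : 1 < c.n) (hD : DOK D) {NP : ℕ}
    (np : npCk c.n c.ex c.PT c.F NP = true) {B m : ℤ} (he : B ^ 2 + 4 * m = D) (par : Bool)
    (w : List ℕ) (R C wd V b : ℕ) :
    xS c.n NP V wd R C b par (LQ par w) (rs c.n m)
      (pz c (m, B, 1) + (256 * pz c (1, B, m) + 65536)) =
    packL V (fun j => Aj b (fun j => wgt C (wj c j)) j * rwt R wd V (pj c j)) (JH par B m w) := by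
  have a0 := pz_lt c (m, B, 1)
  have a1 := pz_lt c (1, B, m)
  unfold xS
  rw [ep0_eq a0, ep1_eq a0 a1]
  have h := orbP_spec hc hD np (emW R C wd V) V par w (1, B, m)
    (by unfold LO.dis; simp only; linear_combination he)
  rw [wz_one h1] at h
  rw [h]
  have hJ : JH par B m w = ⟨m, B, -1, 0, -B⟩ :: JT par (1, B, m) w := rfl
  rw [hJ, packL_cons]
  have e1 : packL V (fun j => emW R C wd V (pj c j) (wj c j)) (JT par (1, B, m) w) =
      packL V (fun j => Aj b (fun j => wgt C (wj c j)) j * rwt R wd V (pj c j))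
        (JT par (1, B, m) w) := by
    apply packL_congr
    intro j hj
    have h0 := JT_kappa0 _ _ _ j hj
    unfold Aj
    rw [if_neg h0]
    rfl
  rw [e1]
  have e2 : Aj b (fun j => wgt C (wj c j)) (⟨m, B, -1, 0, -B⟩ : Fm) =
      (b * wgt C (wj c ⟨m, B, -1, 0, -B⟩)) % 11 := by
    unfold Aj
    simp
  rw [e2]
  rfl

lemma blr_add (R V c X : ℕ) : blr R V (c + 2 ^ 96 * X) = blr R V c := by
  have e : ∀ U, blr R V U = (R >>> (U % 2 ^ 24)) % V := fun _ => rfl
  rw [e, e, show c + 2 ^ 96 * X = c + 2 ^ 24 * (2 ^ 72 * X) by ring, Nat.add_mul_mod_self_left]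

lemma blks_eq (R C V : ℕ) (f : Fm → ℕ) (L : List Fm) (hf : ∀ j ∈ L, f j < 2 ^ 96) :
    blks R C V L.length (packL (2 ^ 96) f L) =
      packL V (fun j => ww C (f j) * blr R V (f j)) L := by
  induction L with
  | nil => rfl
  | cons j L ih =>
    have e1 : blks R C V (j :: L).length (packL (2 ^ 96) f (j :: L)) =
      ww C (packL (2 ^ 96) f (j :: L)) * blr R V (packL (2 ^ 96) f (j :: L)) +
        V * blks R C V L.length (packL (2 ^ 96) f (j :: L) >>> 96) := rfl
    rw [e1, packL_cons, packL_cons, ww_add, blr_add, CW.add_shr 96 _ _ (hf j (by simp)),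
      ih (fun x hx => hf x (by simp [hx]))]

/-- the first factor of the second stage -/
lemma xT_eq (R C V b : ℕ) (f : Fm → ℕ) {B m : ℤ} (par : Bool) (w : List ℕ) {N : ℕ}
    (hN : N = (JT par (1, B, m) w).length) (hf : ∀ j ∈ JH par B m w, f j < 2 ^ 96) :
    xT R C V b N (packL (2 ^ 96) f (JH par B m w)) =
      packL V (fun j => Aj b (fun j => ww C (f j)) j * blr R V (f j)) (JH par B m w) := by
  have hJ : JH par B m w = ⟨m, B, -1, 0, -B⟩ :: JT par (1, B, m) w := rfl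
  rw [hJ] at hf ⊢
  unfold xT
  have e0 : Nat.shiftRight (packL (2 ^ 96) f ((⟨m, B, -1, 0, -B⟩ : Fm) :: JT par (1, B, m) w)) 96 =
      packL (2 ^ 96) f (JT par (1, B, m) w) := by
    rw [packL_cons]
    exact CW.add_shr 96 _ _ (hf _ (by simp))
  rw [e0, hN, blks_eq _ _ _ _ _ (fun j hj => hf j (by simp [hj])), packL_cons, packL_cons,
    ww_add, blr_add]
  have e1 : packL V (fun j => ww C (f j) * blr R V (f j)) (JT par (1, B, m) w) =
      packL V (fun j => Aj b (fun j => ww C (f j)) j * blr R V (f j)) (JT par (1, B, m) w) := by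
    apply packL_congr
    intro j hj
    have h0 := JT_kappa0 _ _ _ j hj
    unfold Aj
    rw [if_neg h0]
  rw [e1]
  have e2 : Aj b (fun j => ww C (f j)) (⟨m, B, -1, 0, -B⟩ : Fm) =
      (b * ww C (f ⟨m, B, -1, 0, -B⟩)) % 11 := by
    unfold Aj
    simp
  rw [e2]
  rfl

/-- digits of a row -/
lemma row_digits {X V P : ℕ} (hV : V = 2 ^ (48 * P)) (hX : X < V) :
    X = packL (2 ^ 24) (dg24 X) (List.range (2 * P)) := by
  have h := digits_eq (2 * P) X
  rw [← pow_mul, show 24 * (2 * P) = 48 * P by ring, ← hV, Nat.mod_eq_of_lt hX] at h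
  exact h

lemma mod_lt_of {a V P : ℕ} (hV : V = 2 ^ (48 * P)) : a % V < V :=
  Nat.mod_lt _ (by rw [hV]; positivity)

end

end Pool.Agent.SU.EL
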