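import Pool.Agent.SU.EStage

/-!
Real quadratic fields with small units: the two stages.
-/

namespace Pool.Agent.SU.EL

open Finset Pool.Agent.Lib_helper5 Pool.Agent.Lib_helper5.LK Pool.Agent.LibH4.Ker
  Pool.Agent.LibH4.KF Pool.Agent.LibH4.T6 Pool.Agent.Lib_helper5.TB Pool.Agent.LibH4.S7
  Pool.Agent.LibH4 Pool.Agent.LibH4.CW

/-- tables of the first stage -/
structure FT1 (G : FT) (r : RD) : Prop where
  hr : RJOK r
  n1 : cof r.n1 = cof 11
  n2 : cof r.n2 = cof 8
  n3 : cof r.n3 = cof 1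
  l : r.l = 11
  len3 : r.len3 = 1
  rl : r.rows.length = (cof 11).F.length
  row : ∀ V, V = 2 ^ (48 * 16) → ∀ (i : ℕ) (x : ℕ × ℕ), r.rows[i]? = some x →
    rowck 16 11 1 0 x.1 x.2 (rwt G.RW 768 V i) = true
  w1 : ∀ x < 11, wgt G.C11 x = dig r.t1 x ∧ dig r.t1 x ≤ 10
  w2 : ∀ x < 8, wgt G.C8 x = dig r.t2 x ∧ dig r.t2 x ≤ 10
  w3 : dig r.t3 0 = 1

/-- tables of the second stage -/
structure FT2 (G : FT) (r : RD) : Prop where
  hr : RJOK r
  n1 : cof r.n1 = cof 11
  n2 : cof r.n2 = cof 7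
  n3 : cof r.n3 = cof 8
  l : r.l = 11
  len3 : r.len3 = 16
  rl : r.rows.length = (cof 11).F.length
  row : ∀ V, V = 2 ^ (48 * 21) → ∀ (i : ℕ) (x : ℕ × ℕ), r.rows[i]? = some x → ∀ y < 16,
    rowck 21 11 16 y x.1 x.2 (rwt G.RX 1008 V (16 * i + y)) = true
  w1 : ∀ x < 11, ∀ y < 8, wgt G.C88 (8 * x + y) = dig r.t1 x * dig r.t3 y % 11
  w2 : ∀ x < 7, wgt G.C7 x = dig r.t2 x ∧ dig r.t2 x ≤ 10

section

variable {par : Bool} {w : List ℕ} {v u be m0 t : ℕ} {D : ℤ} {G : FT} {r : RD}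

lemma cast_Aj {l : ℕ} (hl : l = 11) (b y : ℕ) (f : Fm → ℕ) (j : Fm) :
    ((Aj b f j * y : ℕ) : ZMod l) =
      (if j.κ = 0 then (b : ZMod l) else 1) * ((f j * y : ℕ) : ZMod l) := by
  subst hl
  unfold Aj
  split_ifs
  · rw [Nat.cast_mul, ZMod.natCast_mod]
    push_cast
    ring
  · push_cast
    ring

lemma pj_one (j : Fm) : pj (cof 1) j = 0 ∧ wj (cof 1) j = 0 := by
  have e1 : rs 1 j.P = 0 := by
    have := rs_lt (p := 1) j.P
    omega
  have e2 : rs 1 j.R = 0 := by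
    have := rs_lt (p := 1) j.R
    omega
  have e3 : rs 1 j.S = 0 := by
    have := rs_lt (p := 1) j.S
    omega
  have hp : pj (cof 1) j = pos 1 0 PT1 (rs 1 j.P) (rs 1 j.R) (rs 1 j.S) := rfl
  have hw : wj (cof 1) j = rs 1 j.P := rfl
  rw [hp, hw, e1, e2, e3]
  exact ⟨by decide +kernel, rfl⟩

lemma len_JH (par : Bool) (B m : ℤ) (w : List ℕ) :
    (JH par B m w).length = nf par w.length + 1 := by
  have hJ : JH par B m w = ⟨m, B, -1, 0, -B⟩ :: JT par (1, B, m) w := rfl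
  rw [hJ, List.length_cons, JT_length]

lemma nf_le (par : Bool) {h : ℕ} (hh : h ≤ 17) : nf par h ≤ 18 := by
  unfold nf
  cases par <;> simp <;> omega

lemma pck_of {X Y sh : ℕ} (h : ((X * Y) >>> sh) % 2 ^ 24 % 11 = 0) : pck X Y sh = true := by
  have e : pck X Y sh = Nat.beq (((X * Y) >>> sh) % 2 ^ 24 % 11) 0 := rfl
  rw [e, h]
  rfl

/-- **first stage** -/
theorem stage1 (F : FT1 G r) (S : Sit par w v u be m0 t D) {b : ℕ}
    (hb : ((b : ℕ) : ZMod r.l) = ((v * t + be : ℕ) : ℤ))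
    (np11 : npCk (cof 11).n (cof 11).ex (cof 11).PT (cof 11).F G.NP11 = true)
    (np8 : npCk (cof 8).n (cof 8).ex (cof 8).PT (cof 8).F G.NP8 = true)
    {V h6 h3 N : ℕ} (hV : V = 2 ^ (48 * 16)) (e6 : h6 = 6 * 2 ^ (24 * 16))
    (e3 : h3 = 3 * 2 ^ (24 * 16))
    (hN : N = nf par w.length) :
    pck (xS 11 G.NP11 V 768 G.RW G.C11 b par (LQ par w) (rs 11 ((u * t + m0 : ℕ) : ℤ))
        (pz (cof 11) (((u * t + m0 : ℕ) : ℤ), ((v * t + be : ℕ) : ℤ), 1) +
          (256 * pz (cof 11) (1, ((v * t + be : ℕ) : ℤ), ((u * t + m0 : ℕ) : ℤ)) + 65536)))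
      (yS 8 G.NP8 V h6 h3 G.C8 15 par (LQ par w) (rs 8 ((u * t + m0 : ℕ) : ℤ))
        (pz (cof 8) (((u * t + m0 : ℕ) : ℤ), ((v * t + be : ℕ) : ℤ), 1) +
          (256 * pz (cof 8) (1, ((v * t + be : ℕ) : ℤ), ((u * t + m0 : ℕ) : ℤ)) + 65536)))
      (Nat.add (Nat.mul 768 N) 744) = true := by
  have hD := S.W.dok
  have hdisc := S.disc
  set B : ℤ := ((v * t + be : ℕ) : ℤ) with hB
  set m : ℤ := ((u * t + m0 : ℕ) : ℤ) with hm
  have k1 : CmpOK (cof 11) := F.n1 ▸ F.hr.k1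
  have k2 : CmpOK (cof 8) := F.n2 ▸ F.hr.k2
  have hx := xS_eq k1 (by decide) hD np11 hdisc par w G.RW G.C11 768 V b
  have hy := yS_eq k2 (by decide) hD np8 hdisc par w (P := 16) (C := G.C8) (V := V) (h6 := h6)
    (h3 := h3) e6 e3
  have n11 : (cof 11).n = 11 := rfl
  have n8 : (cof 8).n = 8 := rfl
  rw [n11] at hx
  rw [n8] at hy
  rw [hx, show (15 : ℕ) = 16 - 1 by rfl, hy]
  apply pck_of
  have W := S.W
  have p1 : ∀ j ∈ JH par B m w, pj (cof 11) j < (cof 11).F.length := fun j hj => pj_len k1 W hj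
  have p2 : ∀ j ∈ JH par B m w, pj (cof 8) j < 16 := by
    intro j hj
    have h := pj_len k2 W hj
    have e : (cof 8).F.length = 16 := by decide +kernel
    omega
  have rowp : ∀ j ∈ JH par B m w, ∃ x : ℕ × ℕ, r.rows[pj (cof 11) j]? = some x := by
    intro j hj
    have h := p1 j hj
    rw [← F.rl] at h
    exact ⟨_, List.getElem?_eq_getElem h⟩
  have xvj : ∀ j, ∀ x : ℕ × ℕ, r.rows[pj (cof 11) j]? = some x →
      xv r j = dig x.1 (pj (cof 8) j * 1 + 0) ∧ yv r j = dig x.2 (pj (cof 8) j * 1 + 0) := by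
    intro j x hx
    unfold xv yv tX tY
    rw [F.n1, F.n2, F.n3, F.len3, (pj_one j).1, List.getD_eq_getElem?_getD, hx]
    exact ⟨rfl, rfl⟩
  have wq1 : ∀ j, wj (cof 11) j < 11 := fun j => wj_lt k1 j
  have wq2 : ∀ j, wj (cof 8) j < 8 := fun j => wj_lt k2 j
  have lenJ := len_JH par B m w
  have nfl := nf_le par S.len
  have main := dot_level F.hr W hb (by rw [F.l]) (P := 16) (by norm_num)
    (A := fun j => Aj b (fun j => wgt G.C11 (wj (cof 11) j)) j)
    (Wt := fun j => wgt G.C8 (wj (cof 8) j)) (p := fun j => pj (cof 8) j)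
    (rd := fun j k => dg24 (rwt G.RW 768 V (pj (cof 11) j)) k) p2 (by
      intro j hj k hk
      obtain ⟨x, hx⟩ := rowp j hj
      have hrow := F.row V hV _ x hx
      by_cases h : k < 16
      · obtain ⟨q1, -, q3, -⟩ := rowck_spec hrow h
        rw [q1]; omega
      · obtain ⟨i, rfl⟩ : ∃ i, k = 16 + i := ⟨k - 16, by omega⟩
        obtain ⟨-, q2, -, -⟩ := rowck_spec hrow (show i < 16 by omega)
        rw [q2]
        have := Nat.mod_lt (11 - dig x.2 (i * 1 + 0)) (show 0 < 11 by norm_num)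
        omega) (by
      intro j hj
      have h5 := F.w1 _ (wq1 j)
      unfold Aj
      split_ifs
      · exact Nat.le_of_lt_succ (Nat.mod_lt (b * wgt G.C11 (wj (cof 11) j)) (by norm_num))
      · change wgt G.C11 (wj (cof 11) j) ≤ 10
        rw [h5.1]
        exact h5.2) (by
      intro j hj
      have h5 := F.w2 _ (wq2 j)
      change wgt G.C8 (wj (cof 8) j) ≤ 10
      rw [h5.1]
      exact h5.2) (by
      rw [lenJ]
      calc (nf par w.length + 1) * (2 * 16) * 10000 ≤ (18 + 1) * (2 * 16) * 10000 := by gcongr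
        _ < 2 ^ 24 := by norm_num) (by
      intro j hj
      obtain ⟨x, hx⟩ := rowp j hj
      have hrow := F.row V hV _ x hx
      obtain ⟨q1, -, -, -⟩ := rowck_spec hrow (p2 j hj)
      rw [(xvj j x hx).1]
      exact q1) (by
      intro j hj
      obtain ⟨x, hx⟩ := rowp j hj
      have hrow := F.row V hV _ x hx
      obtain ⟨-, q2, -, -⟩ := rowck_spec hrow (p2 j hj)
      rw [(xvj j x hx).2, F.l]
      exact q2) (by
      intro j hj
      obtain ⟨x, hx⟩ := rowp j hj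
      have hrow := F.row V hV _ x hx
      obtain ⟨-, -, -, q4⟩ := rowck_spec hrow (p2 j hj)
      rw [(xvj j x hx).2, F.l]
      exact q4) (by
      intro j hj
      rw [cast_Aj F.l]
      congr 1
      unfold wv
      rw [F.n1, F.n2, F.n3, (pj_one j).2, F.w3, (F.w1 _ (wq1 j)).1, (F.w2 _ (wq2 j)).1,
        ZMod.natCast_mod, mul_one]) rfl rfl rfl
  rw [F.l, ← hV] at main
  have e1 : packL V (fun j => Aj b (fun j => wgt G.C11 (wj (cof 11) j)) j *
      packL (2 ^ 24) (fun k => dg24 (rwt G.RW 768 V (pj (cof 11) j)) k) (List.range (2 * 16)))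
      (JH par B m w) = packL V (fun j => Aj b (fun j => wgt G.C11 (wj (cof 11) j)) j *
        rwt G.RW 768 V (pj (cof 11) j)) (JH par B m w) := by
    apply packL_congr
    intro j hj
    have h9 : rwt G.RW 768 V (pj (cof 11) j) < V := mod_lt_of hV
    have h10 := row_digits hV h9
    exact congrArg (fun z => Aj b (fun j => wgt G.C11 (wj (cof 11) j)) j * z) h10.symm
  rw [e1] at main
  have e2 : Nat.add (Nat.mul 768 N) 744 =
      48 * 16 * ((JH par B m w).length - 1) + 24 * (2 * 16 - 1) := by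
    change 768 * N + 744 = _
    rw [lenJ, hN]
    omega
  rw [e2]
  exact main

/-- the multipliers of the blocks -/
lemma blk_code {c d : Cmp} (hc : CmpOK c) (hd : CmpOK d) (hcl : c.F.length ≤ 55)
    (hdl : d.F.length ≤ 16) (hcn : c.n ≤ 11) (hdn : d.n ≤ 8) {J : List Fm} (W : RelJ D J) {j : Fm}
    (hj : j ∈ J) :
    1073757952 * cj c j + 134218736 * cj d j < 2 ^ 96 ∧
      (1073757952 * cj c j + 134218736 * cj d j) % 2 ^ 24 = 1008 * (16 * pj c j + pj d j) ∧
      ((1073757952 * cj c j + 134218736 * cj d j) >>> 72) % 2 ^ 24 =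
        8 * (8 * wj c j + wj d j) := by
  have p1 := pj_len hc W hj
  have p2 := pj_len hd W hj
  have w1 := wj_lt hc j
  have w2 := wj_lt hd j
  unfold cj
  generalize pj c j = a at p1
  generalize pj d j = b at p2
  generalize wj c j = x at w1
  generalize wj d j = y at w2
  have e : 1073757952 * (a + 2 ^ 48 * x) + 134218736 * (b + 2 ^ 48 * y) =
      1008 * (16 * a + b) + 2 ^ 24 * (8 * (8 * a + b) +
        2 ^ 24 * (1008 * (16 * x + y) + 2 ^ 24 * (8 * (8 * x + y)))) := by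
    ring
  have f0 : 1008 * (16 * a + b) < 2 ^ 24 := by omega
  have f1 : 8 * (8 * a + b) < 2 ^ 24 := by omega
  have f2 : 1008 * (16 * x + y) < 2 ^ 24 := by omega
  have f3 : 8 * (8 * x + y) < 2 ^ 24 := by omega
  rw [e]
  generalize 1008 * (16 * a + b) = F0 at f0 ⊢
  generalize 8 * (8 * a + b) = F1 at f1 ⊢
  generalize 1008 * (16 * x + y) = F2 at f2 ⊢
  generalize 8 * (8 * x + y) = F3 at f3 ⊢
  refine ⟨by omega, CW.add_mod _ _ _ f0, ?_⟩
  rw [show (72 : ℕ) = 24 + (24 + 24) by rfl, Nat.shiftRight_add, Nat.shiftRight_add,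
    CW.add_shr _ _ _ f0, CW.add_shr _ _ _ f1, CW.add_shr _ _ _ f2, Nat.mod_eq_of_lt f3]

/-- the code of a block -/
def uj (j : Fm) : ℕ := 1073757952 * cj (cof 11) j + 134218736 * cj (cof 8) j

/-- **second stage** -/
theorem stage2 (F : FT2 G r) (S : Sit par w v u be m0 t D) {b : ℕ}
    (hb : ((b : ℕ) : ZMod r.l) = ((v * t + be : ℕ) : ℤ))
    (np7 : npCk (cof 7).n (cof 7).ex (cof 7).PT (cof 7).F G.NP7 = true)
    {V h6 h3 N V11 V8 : ℕ} (hV : V = 2 ^ (48 * 21)) (e6 : h6 = 6 * 2 ^ (24 * 21))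
    (e3 : h3 = 3 * 2 ^ (24 * 21)) (hN : N = nf par w.length)
    (h11 : V11 = VV (cof 11) (JF par w v u be m0 t))
    (h8 : V8 = VV (cof 8) (JF par w v u be m0 t)) :
    pck (xT G.RX G.C88 V b N (Nat.add (Nat.mul 1073757952 V11) (Nat.mul 134218736 V8)))
      (yS 7 G.NP7 V h6 h3 G.C7 20 par (LQ par w) (rs 7 ((u * t + m0 : ℕ) : ℤ))
        (pz (cof 7) (((u * t + m0 : ℕ) : ℤ), ((v * t + be : ℕ) : ℤ), 1) +
          (256 * pz (cof 7) (1, ((v * t + be : ℕ) : ℤ), ((u * t + m0 : ℕ) : ℤ)) + 65536)))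
      (Nat.add (Nat.mul 1008 N) 984) = true := by
  have hD := S.W.dok
  have hdisc := S.disc
  have W := S.W
  unfold JF at h11 h8
  set B : ℤ := ((v * t + be : ℕ) : ℤ) with hB
  set m : ℤ := ((u * t + m0 : ℕ) : ℤ) with hm
  have k1 : CmpOK (cof 11) := F.n1 ▸ F.hr.k1
  have k2 : CmpOK (cof 7) := F.n2 ▸ F.hr.k2
  have k3 : CmpOK (cof 8) := F.n3 ▸ F.hr.k3
  have l1 : (cof 11).F.length = 55 := by decide +kernel
  have l3 : (cof 8).F.length = 16 := by decide +kernel
  have hU : Nat.add (Nat.mul 1073757952 V11) (Nat.mul 134218736 V8) =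
      packL (2 ^ 96) uj (JH par B m w) := by
    change 1073757952 * V11 + 134218736 * V8 = _
    rw [h11, h8]
    have h := packL_lin (2 ^ 96) 1073757952 134218736 0 (cj (cof 11)) (cj (cof 8))
      (cj (cof 8)) (JH par B m w)
    have e1 : (fun j => 1073757952 * cj (cof 11) j + (134218736 * cj (cof 8) j +
        0 * cj (cof 8) j)) = uj := by
      funext j
      unfold uj
      rw [zero_mul, add_zero]
    rw [e1, zero_mul, add_zero] at h
    exact h
  have hbl : ∀ j ∈ JH par B m w, uj j < 2 ^ 96 ∧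
      uj j % 2 ^ 24 = 1008 * (16 * pj (cof 11) j + pj (cof 8) j) ∧
      ((uj j) >>> 72) % 2 ^ 24 = 8 * (8 * wj (cof 11) j + wj (cof 8) j) := fun j hj =>
    blk_code k1 k3 l1.le l3.le le_rfl le_rfl W hj
  have hx := xT_eq G.RX G.C88 V b uj par w (B := B) (m := m) (N := N) (by rw [hN, JT_length])
    (fun j hj => (hbl j hj).1)
  have hy := yS_eq k2 (by decide) hD np7 hdisc par w (P := 21) (C := G.C7) (V := V) (h6 := h6)
    (h3 := h3) e6 e3
  have n7 : (cof 7).n = 7 := rfl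
  rw [n7] at hy
  rw [hU, hx, show (20 : ℕ) = 21 - 1 by rfl, hy]
  apply pck_of
  have wwj : ∀ j ∈ JH par B m w, ww G.C88 (uj j) =
      dig r.t1 (wj (cof 11) j) * dig r.t3 (wj (cof 8) j) % 11 := by
    intro j hj
    have h1 := (hbl j hj).2.2
    have e : ww G.C88 (uj j) = (G.C88 >>> ((uj j >>> 72) % 2 ^ 24)) % 256 := rfl
    rw [e, h1]
    exact F.w1 _ (wj_lt k1 j) _ (wj_lt k3 j)
  have blj : ∀ j ∈ JH par B m w, blr G.RX V (uj j) =
      rwt G.RX 1008 V (16 * pj (cof 11) j + pj (cof 8) j) := by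
    intro j hj
    have h1 := (hbl j hj).2.1
    have e : blr G.RX V (uj j) = (G.RX >>> (uj j % 2 ^ 24)) % V := rfl
    rw [e, h1]
    rfl
  have p1 : ∀ j ∈ JH par B m w, pj (cof 11) j < (cof 11).F.length := fun j hj => pj_len k1 W hj
  have p2 : ∀ j ∈ JH par B m w, pj (cof 7) j < 21 := by
    intro j hj
    have h := pj_len k2 W hj
    have e : (cof 7).F.length = 21 := by decide +kernel
    omega
  have p3 : ∀ j ∈ JH par B m w, pj (cof 8) j < 16 := by
    intro j hj
    have h := pj_len k3 W hj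
    omega
  have rowp : ∀ j ∈ JH par B m w, ∃ x : ℕ × ℕ, r.rows[pj (cof 11) j]? = some x := by
    intro j hj
    have h := p1 j hj
    rw [← F.rl] at h
    exact ⟨_, List.getElem?_eq_getElem h⟩
  have xvj : ∀ j, ∀ x : ℕ × ℕ, r.rows[pj (cof 11) j]? = some x →
      xv r j = dig x.1 (pj (cof 7) j * 16 + pj (cof 8) j) ∧
        yv r j = dig x.2 (pj (cof 7) j * 16 + pj (cof 8) j) := by
    intro j x hx
    unfold xv yv tX tY
    rw [F.n1, F.n2, F.n3, F.len3, List.getD_eq_getElem?_getD, hx]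
    exact ⟨rfl, rfl⟩
  have wq2 : ∀ j, wj (cof 7) j < 7 := fun j => wj_lt k2 j
  have lenJ := len_JH par B m w
  have nfl := nf_le par S.len
  have main := dot_level F.hr W hb (by rw [F.l]) (P := 21) (by norm_num)
    (A := fun j => Aj b (fun j => ww G.C88 (uj j)) j)
    (Wt := fun j => wgt G.C7 (wj (cof 7) j)) (p := fun j => pj (cof 7) j)
    (rd := fun j k => dg24 (blr G.RX V (uj j)) k) p2 (by
      intro j hj k hk
      obtain ⟨x, hx⟩ := rowp j hj
      have hrow := F.row V hV _ x hx _ (p3 j hj)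
      change dg24 (blr G.RX V (uj j)) k ≤ 10
      rw [blj j hj]
      by_cases h : k < 21
      · obtain ⟨q1, -, q3, -⟩ := rowck_spec hrow h
        rw [q1]; omega
      · obtain ⟨i, rfl⟩ : ∃ i, k = 21 + i := ⟨k - 21, by omega⟩
        obtain ⟨-, q2, -, -⟩ := rowck_spec hrow (show i < 21 by omega)
        rw [q2]
        have := Nat.mod_lt (11 - dig x.2 (i * 16 + pj (cof 8) j)) (show 0 < 11 by norm_num)
        omega) (by
      intro j hj
      have h5 := wwj j hj
      unfold Aj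
      split_ifs
      · exact Nat.le_of_lt_succ (Nat.mod_lt (b * ww G.C88 (uj j)) (by norm_num))
      · change ww G.C88 (uj j) ≤ 10
        rw [h5]
        exact Nat.le_of_lt_succ (Nat.mod_lt _ (by norm_num))) (by
      intro j hj
      have h5 := F.w2 _ (wq2 j)
      change wgt G.C7 (wj (cof 7) j) ≤ 10
      rw [h5.1]
      exact h5.2) (by
      rw [lenJ]
      calc (nf par w.length + 1) * (2 * 21) * 10000 ≤ (18 + 1) * (2 * 21) * 10000 := by gcongr
        _ < 2 ^ 24 := by norm_num) (by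
      intro j hj
      obtain ⟨x, hx⟩ := rowp j hj
      have hrow := F.row V hV _ x hx _ (p3 j hj)
      obtain ⟨q1, -, -, -⟩ := rowck_spec hrow (p2 j hj)
      rw [(xvj j x hx).1]
      change dg24 (blr G.RX V (uj j)) (pj (cof 7) j) = _
      rw [blj j hj]
      exact q1) (by
      intro j hj
      obtain ⟨x, hx⟩ := rowp j hj
      have hrow := F.row V hV _ x hx _ (p3 j hj)
      obtain ⟨-, q2, -, -⟩ := rowck_spec hrow (p2 j hj)
      rw [(xvj j x hx).2, F.l]
      change dg24 (blr G.RX V (uj j)) (21 + pj (cof 7) j) = _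
      rw [blj j hj]
      exact q2) (by
      intro j hj
      obtain ⟨x, hx⟩ := rowp j hj
      have hrow := F.row V hV _ x hx _ (p3 j hj)
      obtain ⟨-, -, -, q4⟩ := rowck_spec hrow (p2 j hj)
      rw [(xvj j x hx).2, F.l]
      exact q4) (by
      intro j hj
      rw [cast_Aj F.l]
      congr 1
      unfold wv
      rw [F.n1, F.n2, F.n3, wwj j hj, (F.w2 _ (wq2 j)).1, F.l, ZMod.natCast_mod, Nat.cast_mul,
        ZMod.natCast_mod]
      push_cast
      ring) rfl rfl rfl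
  rw [F.l, ← hV] at main
  have e1 : packL V (fun j => Aj b (fun j => ww G.C88 (uj j)) j *
      packL (2 ^ 24) (fun k => dg24 (blr G.RX V (uj j)) k) (List.range (2 * 21)))
      (JH par B m w) = packL V (fun j => Aj b (fun j => ww G.C88 (uj j)) j *
        blr G.RX V (uj j)) (JH par B m w) := by
    apply packL_congr
    intro j hj
    have h9 : blr G.RX V (uj j) < V := mod_lt_of hV
    have h10 := row_digits hV h9
    exact congrArg (fun z => Aj b (fun j => ww G.C88 (uj j)) j * z) h10.symm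
  rw [e1] at main
  have e2 : Nat.add (Nat.mul 1008 N) 984 =
      48 * 21 * ((JH par B m w).length - 1) + 24 * (2 * 21 - 1) := by
    change 1008 * N + 984 = _
    rw [lenJ, hN]
    omega
  rw [e2]
  exact main

end

end Pool.Agent.SU.EL
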