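import Pool.Agent.SU.ERel

/-!
Real quadratic fields with small units: checks of the tables of the relations.
-/

namespace Pool.Agent.SU.EL

open Finset Pool.Agent.Lib_helper5 Pool.Agent.Lib_helper5.LK Pool.Agent.LibH4.Ker
  Pool.Agent.LibH4.KF Pool.Agent.LibH4.T6 Pool.Agent.Lib_helper5.TB Pool.Agent.LibH4.S7
  Pool.Agent.LibH4 Pool.Agent.LibH4.CW

/-- check of one row -/
def tjRow (l X Y row n : ℕ) : Bool :=
  allR (fun k => @Bool.rec (fun _ => Bool) false
    (@Bool.rec (fun _ => Bool) false (Nat.ble (dig Y k) l) (Nat.ble (Nat.succ (dig X k)) l))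
    (Nat.beq (Nat.mod (Nat.shiftRight row (Nat.mul (nat_lit 24) k)) (nat_lit 16777216))
      (Nat.add (dig X k) (Nat.mul (nat_lit 524288) (Nat.mod (Nat.sub l (dig Y k)) l))))) n

lemma tjRow_spec {l X Y row n : ℕ} (h : tjRow l X Y row n = true) {k : ℕ} (hk : k < n) :
    (row >>> (24 * k)) % 2 ^ 24 = dig X k + 2 ^ 19 * ((l - dig Y k) % l) ∧ dig X k < l ∧
      dig Y k ≤ l := by
  have h1 := allR_spec h k hk
  have key : ∀ a b c : Bool, @Bool.rec (fun _ => Bool) false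
      (@Bool.rec (fun _ => Bool) false c b) a = true → a = true ∧ b = true ∧ c = true := by decide
  obtain ⟨a1, a2, a3⟩ := key _ _ _ h1
  exact ⟨Nat.eq_of_beq_eq_true a1, Nat.le_of_ble_eq_true a2, Nat.le_of_ble_eq_true a3⟩

/-- check of all rows -/
def tjck (l n : ℕ) (L : List ℕ) (rows : List (ℕ × ℕ)) : Bool :=
  allZ (fun row x => tjRow l x.1 x.2 row n) L rows

/-- check of the weights -/
def cjck (n1 n2 n3 l t1 t2 t3 C : ℕ) : Bool :=
  allR (fun i1 => allR (fun i2 => allR (fun i3 =>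
    Nat.beq (Nat.mod (Nat.shiftRight C (Nat.mul (nat_lit 8) (Nat.add (Nat.mul (Nat.add
      (Nat.mul i1 n2) i2) n3) i3))) (nat_lit 256))
      (Nat.mod (Nat.mul (Nat.mul (dig t1 i1) (dig t2 i2)) (dig t3 i3)) l)) n3) n2) n1

/-- concatenation of the rows -/
def catS (W V : ℕ) (L : List ℕ) : ℕ :=
  @List.rec ℕ (fun _ => ℕ) (nat_lit 0) (fun x _ ih => Nat.add (Nat.mod x V) (Nat.shiftLeft ih W)) L

lemma catS_eq (W : ℕ) (L : List ℕ) : catS W (Nat.pow 2 W) L = cat (2 ^ W) (fun x => x) L := by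
  induction L with
  | nil => rfl
  | cons x L ih =>
    have e1 : catS W (Nat.pow 2 W) (x :: L) = x % 2 ^ W + (catS W (Nat.pow 2 W) L) <<< W := rfl
    have e2 : cat (2 ^ W) (fun x => x) (x :: L) = x % 2 ^ W + 2 ^ W * cat (2 ^ W) (fun x => x) L :=
      rfl
    rw [e1, e2, ih, Nat.shiftLeft_eq, mul_comm]

/-- **tables of a relation** -/
theorem tj_of {n1 n2 n3 l t1 t2 t3 len2 len3 : ℕ} {rows : List (ℕ × ℕ)} {L : List ℕ} {C W : ℕ}
    (hr : rows.length = (cof n1).F.length) (hW : W = 24 * (len2 * len3))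
    (h : tjck l (Nat.mul len2 len3) L rows = true) (hC : cjck n1 n2 n3 l t1 t2 t3 C = true)
    (b1 : 24 * (len2 * len3) + 24 * len3 + 24 ≤ 2 ^ 16) (b2 : 8 * (n2 * n3) + 8 * n3 + 8 ≤ 2 ^ 16) :
    TJOK ⟨n1, n2, n3, l, t1, t2, t3, rows, len2, len3⟩ (catS W (Nat.pow 2 W) L) C where
  T := by
    intro i1 i2 i3 h1 h2 h3
    simp only at h1 h2 h3
    obtain ⟨hl, hz⟩ := allZ_spec h
    rw [← hr] at h1
    have e1 := List.getElem?_eq_getElem h1
    have e2 := List.getElem?_eq_getElem (show i1 < L.length by rw [hl]; exact h1)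
    have h4 := hz i1 _ _ e2 e1
    have hk : i2 * len3 + i3 < len2 * len3 := by
      calc i2 * len3 + i3 < i2 * len3 + len3 := by omega
        _ = (i2 + 1) * len3 := by ring
        _ ≤ len2 * len3 := Nat.mul_le_mul_right _ (by omega)
    obtain ⟨q1, q2, q3⟩ := tjRow_spec h4 hk
    have e3 : tX rows len3 i1 i2 i3 = dig (rows[i1]).1 (i2 * len3 + i3) := by
      unfold tX
      rw [List.getD_eq_getElem?_getD, e1]
      rfl
    have e4 : tY rows len3 i1 i2 i3 = dig (rows[i1]).2 (i2 * len3 + i3) := by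
      unfold tY
      rw [List.getD_eq_getElem?_getD, e1]
      rfl
    simp only
    rw [e3, e4]
    refine ⟨?_, q2, q3⟩
    have e5 : 24 * ((i1 * len2 + i2) * len3 + i3) = W * i1 + 24 * (i2 * len3 + i3) := by
      rw [hW]; ring
    have e6 := cat_part W (24 * (i2 * len3 + i3)) 24 (by rw [hW]; omega) (fun x => x) L i1 _ e2
    rw [e5, catS_eq, e6]
    exact q1
  C := by
    intro i1 i2 i3 h1 h2 h3
    have h4 := allR_spec (allR_spec (allR_spec hC i1 h1) i2 h2) i3 h3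
    exact Nat.eq_of_beq_eq_true h4
  b1 := b1
  b2 := b2

end Pool.Agent.SU.EL
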