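import Pool.Agent.SU.Parts
import Pool.Agent.SU.Data
import Pool.Agent.SU.EAll

/-! The test of one family used for the list. -/

namespace Pool.Agent.SU

/-- the test of one family: small fundamental units `y ≤ 10000` -/
noncomputable def FF : Bool → ℕ → ℕ → ℕ → ℕ → ℕ → Bool := famF EL.elim PLs DLs 10000

end Pool.Agent.SU
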