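import Pool.Agent.SU.Small

/-!
Real quadratic fields with small units: one family of periods.
-/

namespace Pool.Agent.SU

open Function Pool.Agent.Lib_helper5 Pool.Agent.LibH4 Pool.Agent.LibH4.CFO Pool.Agent.LibH4.LO
open Pool.Agent.LibH4.Ker Pool.Agent.LibH4.CW

/-! ### the primes -/

/-- the inert residues of a prime -/
def okb (x : ℕ × ℕ × ℕ × ℕ) : Bool :=
  decide (x = (2, 8, 32, 17)) || (decide (x.1 % 2 = 1) && decide (x.2.1 = x.1) &&
    decide (x.1 ≤ 127) && decide (2 ≤ x.1) && decide (x.2.2.2 = 4 * (x.1 * x.1) + 1) &&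
    (List.range x.1).all (fun k => decide (k < 2) || decide (x.1 % k ≠ 0)) &&
    (List.range x.1).all fun r => decide (bit x.2.2.1 r = 1) ||
      (List.range x.1).any fun y => decide (y * y % x.1 = r))

lemma prime_of_all {q : ℕ} (h2 : 2 ≤ q)
    (h : ∀ k, k < q → k < 2 ∨ q % k ≠ 0) : q.Prime := by
  rw [Nat.prime_def_lt']
  refine ⟨h2, fun k hk hkq hdvd => ?_⟩
  rcases h k hkq with h3 | h3
  · omega
  · exact h3 (Nat.mod_eq_zero_of_dvd hdvd)

lemma bit_lt (A i : ℕ) : bit A i = 0 ∨ bit A i = 1 := by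
  have : bit A i < 2 := Nat.mod_lt _ (by norm_num)
  omega

/-- a prime which is not inert has a root -/
lemma okb_root {x : ℕ × ℕ × ℕ × ℕ} (hx : okb x = true) : x.1.Prime ∧ x.1 ≤ 127 ∧
    x.2.2.2 = 4 * (x.1 * x.1) + 1 ∧
    ∀ B m : ℕ, bit x.2.2.1 ((B * B + 4 * m) % x.2.1) = 0 →
      ∃ X : ℤ, (x.1 : ℤ) ∣ X ^ 2 + B * X - m := by
  unfold okb at hx
  rw [Bool.or_eq_true] at hx
  rcases hx with hx | hx
  · rw [decide_eq_true_eq] at hx
    subst hx
    refine ⟨Nat.prime_two, by norm_num, rfl, ?_⟩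
    intro B m h
    have h5 : (B * B + 4 * m) % 8 ≠ 5 := by
      intro h5
      rw [show ((2, 8, 32, 17) : ℕ × ℕ × ℕ × ℕ).2.1 = 8 by rfl, h5] at h
      exact absurd h (by decide)
    change ∃ X : ℤ, ((2 : ℕ) : ℤ) ∣ X ^ 2 + B * X - m
    rcases Nat.even_or_odd' m with ⟨k, hk | hk⟩
    · refine ⟨0, -k, ?_⟩
      rw [hk]; push_cast; ring
    · rcases Nat.even_or_odd' B with ⟨b, hb | hb⟩
      · refine ⟨1, b - k, ?_⟩
        rw [hk, hb]; push_cast; ring
      · exfalso
        apply h5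
        subst hk hb
        obtain ⟨e, he⟩ : ∃ e, b * (b + 1) = 2 * e := by
          obtain ⟨e, he⟩ := Nat.even_mul_succ_self b
          exact ⟨e, by omega⟩
        have : (2 * b + 1) * (2 * b + 1) + 4 * (2 * k + 1) = 4 * (b * (b + 1)) + 8 * k + 5 := by
          ring
        rw [this, he]
        omega
  · simp only [Bool.and_eq_true, decide_eq_true_eq, List.all_eq_true, Bool.or_eq_true,
      List.any_eq_true, List.mem_range] at hx
    obtain ⟨⟨⟨⟨⟨⟨h1, h2⟩, h3⟩, h4⟩, h7⟩, h5⟩, h6⟩ := hx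
    have hp : x.1.Prime := prime_of_all h4 h5
    refine ⟨hp, h3, h7, ?_⟩
    intro B m h
    rw [h2] at h
    rcases h6 _ (Nat.mod_lt (B * B + 4 * m) hp.pos) with h7 | ⟨y, -, h7⟩
    · rw [h] at h7
      exact absurd h7 (by norm_num)
    · set q := x.1
      have hd : (q : ℤ) ∣ (y : ℤ) ^ 2 - (B ^ 2 + 4 * m) := by
        have h8 : ((B * B + 4 * m) : ℕ) ≡ y * y [MOD q] := by
          unfold Nat.ModEq
          rw [h7]
        have h9 := h8.dvd
        push_cast at h9
        have e : (y : ℤ) ^ 2 - (B ^ 2 + 4 * m) = y * y - (B * B + 4 * m) := by ring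
        rw [e]
        exact h9
      obtain ⟨k, hk⟩ : ∃ k, q = 2 * k + 1 := ⟨q / 2, by omega⟩
      refine ⟨(y - B) * (k + 1), ?_⟩
      have h10 : (q : ℤ) ∣ 4 * (((y - B) * (k + 1) : ℤ) ^ 2 + B * ((y - B) * (k + 1)) - m) := by
        have e : (4 * (((y - B) * (k + 1) : ℤ) ^ 2 + B * ((y - B) * (k + 1)) - m) : ℤ) =
            ((y : ℤ) ^ 2 - (B ^ 2 + 4 * m)) + q * ((y - B) ^ 2 * (2 * k + 3) +
              2 * B * (y - B)) := by
          rw [hk]; push_cast; ring
        rw [e]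
        exact dvd_add hd (Dvd.intro _ rfl)
      have hcop : IsCoprime (q : ℤ) 4 := by
        rw [show (4 : ℤ) = ((4 : ℕ) : ℤ) by rfl, Nat.isCoprime_iff_coprime]
        have h2 : Nat.Coprime q 2 := by
          rw [Nat.coprime_comm, Nat.Prime.coprime_iff_not_dvd Nat.prime_two]
          omega
        exact Nat.Coprime.mul_right h2 h2
      exact hcop.dvd_of_dvd_mul_left h10

/-! ### half of the period -/

variable {m B : ℤ} {s : ℝ} {x : ℕ → ℝ} {c : ℕ → ℕ}

/-- a coefficient different from one occurs in the first half -/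
lemma half_even (h : Data m B s x c) {J : ℕ} (hJ : 0 < J)
    (hL : minimalPeriod gsh (x 1) = 2 * J) {j : ℕ}
    (hj : QS m B c j ≠ 1) : ∃ i, 1 ≤ i ∧ i ≤ J ∧ QS m B c i = QS m B c j := by
  have hper := per_of h hL
  have e1 : QS m B c j = QS m B c (j % (2 * J)) := by
    have h1 := per_mul h hL (j % (2 * J)) (j / (2 * J))
    rw [Nat.mod_add_div'] at h1
    exact (state_eq h h1).2.2
  set j0 := j % (2 * J) with hj0
  have hlt : j0 < 2 * J := Nat.mod_lt _ (by omega)
  have hne : j0 ≠ 0 := by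
    intro h0
    rw [e1, h0] at hj
    exact hj rfl
  by_cases hI : j0 ≤ J
  · exact ⟨j0, by omega, hI, e1.symm⟩
  · obtain ⟨p1, -, -, -⟩ := palin h hper (2 * J - j0) j0 (by omega)
    exact ⟨2 * J - j0, by omega, by omega, by rw [e1, p1]⟩

lemma wn_take (c : ℕ → ℕ) (k n i : ℕ) (hi : i ≤ n) : (wn c k n).take i = wn c k i := by
  unfold wn
  rw [← List.map_take, List.take_range, Nat.min_eq_left hi]

/-- the smallest parameter -/
lemma bet0_mod {par : Bool} {v u z : ℕ} (hv : 0 < v) {B m : ℤ} (h1 : m * v = B * u + z)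
    (h2 : (z : ℤ) * v = (u : ℤ) ^ 2 - (if par then 1 else -1)) :
    bet0 par v u z < v ∧ (v : ℤ) ∣ B - bet0 par v u z := by
  cases par with
  | false =>
    refine ⟨Nat.mod_lt _ hv, ?_⟩
    change (v : ℤ) ∣ B - ((z * u % v : ℕ) : ℤ)
    simp only [Bool.false_eq_true, if_false] at h2
    have h3 : ((z * u % v : ℕ) : ℤ) = (z : ℤ) * u - v * ((z * u / v : ℕ) : ℤ) := by
      have := Nat.mod_add_div (z * u) v
      have h4 : ((z * u % v + v * (z * u / v) : ℕ) : ℤ) = ((z * u : ℕ) : ℤ) := by rw [this]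
      push_cast at h4 ⊢
      linarith
    rw [h3]
    refine ⟨z * B + ((z * u / v : ℕ) : ℤ) - m * u, ?_⟩
    linear_combination -B * h2 + u * h1
  | true =>
    refine ⟨Nat.mod_lt _ hv, ?_⟩
    change (v : ℤ) ∣ B - (((v - z * u % v) % v : ℕ) : ℤ)
    simp only [if_true] at h2
    have h3 : ((z * u % v : ℕ) : ℤ) = (z : ℤ) * u - v * ((z * u / v : ℕ) : ℤ) := by
      have := Nat.mod_add_div (z * u) v
      have h4 : ((z * u % v + v * (z * u / v) : ℕ) : ℤ) = ((z * u : ℕ) : ℤ) := by rw [this]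
      push_cast at h4 ⊢
      linarith
    have h5 : (((v - z * u % v) % v : ℕ) : ℤ) = v - (z * u % v : ℕ) -
        v * (((v - z * u % v) / v : ℕ) : ℤ) := by
      have := Nat.mod_add_div (v - z * u % v) v
      have h4 : (((v - z * u % v) % v + v * ((v - z * u % v) / v) : ℕ) : ℤ) =
          ((v - z * u % v : ℕ) : ℤ) := by rw [this]
      have h6 : z * u % v ≤ v := (Nat.mod_lt _ hv).le
      rw [Nat.cast_sub h6] at h4
      rw [Nat.cast_add, Nat.cast_mul] at h4
      linarith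
    rw [h5, h3]
    refine ⟨m * u - z * B - 1 + (((v - z * u % v) / v : ℕ) : ℤ) - ((z * u / v : ℕ) : ℤ), ?_⟩
    linear_combination B * h2 - u * h1

/-- **one family** -/
theorem fam_core {pl : PLt} {dl : List ℕ} {X : ℕ}
    {el : Bool → ℕ → ℕ → ℕ → ℕ → ℕ → ℕ → Bool} (hpl : ∀ x ∈ toL pl, okb x = true)
    (h : Data m B s x c) (hm : 0 < m) (hB : 1 ≤ B)
    [IsDomain (QuadraticAlgebra ℤ m B)] [UniqueFactorizationMonoid (QuadraticAlgebra ℤ m B)]
    {L H v u z : ℕ} (hL0 : 0 < L) (hL : minimalPeriod gsh (x 1) = L) (hHL : H ≤ L - 1)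
    (hM : mat (wn c 1 (L - 1)) = (v, u, u, z))
    (half : ∀ p : ℕ, p.Prime → ∀ j, QS m B c j = p → ∃ i, 1 ≤ i ∧ i ≤ H ∧ QS m B c i = p)
    (hsm : SmW (wn c 1 H)) {par : Bool} (hpar : ((-1 : ℤ)) ^ L = if par then 1 else -1)
    (hF : famF el pl dl X par H (pk (wn c 1 H)) v u z = true)
    (hsk : skp par H (pk (wn c 1 H)) v = true → 3365 ≤ B ^ 2 + 4 * m ∧
      ∀ p : ℕ, p.Prime → p ≤ 29 → ∀ j, 1 ≤ j → j ≤ H → QS m B c j ≠ p)
    (hel : ∀ β m0 t : ℕ, B = v * t + β → m = u * t + m0 →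
      el par H (pk (wn c 1 H)) v u β m0 = true →
      (∀ p : ℕ, p.Prime → p ≤ 29 → ∀ X : ℤ, ¬ (p : ℤ) ∣ X ^ 2 + B * X - m) → False) :
    (∃ D ∈ dl, B ^ 2 + 4 * m = (D : ℤ)) ∨ (2 ∣ B ^ 2 + 4 * m ∧ X < 2 * v) := by
  obtain ⟨h1, h2⟩ := closing_eq h hL0 hL hM
  rw [hpar] at h2
  have hv : 0 < v := by
    have := (mat_pos (wn_pos h 1 (L - 1))).1
    rw [hM] at this
    exact this
  obtain ⟨hβ, hβ2⟩ := bet0_mod hv h1 h2
  unfold famF at hF
  change famG el pl dl X par H (pk (wn c 1 H)) v u (bet0 par v u z)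
    ((bet0 par v u z * u + z) / v) = true at hF
  set β := bet0 par v u z with hβd
  clear_value β
  obtain ⟨t', ht'⟩ := hβ2
  have ht0 : 0 ≤ t' := by
    by_contra hneg
    have h3 : t' ≤ -1 := by omega
    have h4 : (v : ℤ) * t' ≤ v * (-1) := mul_le_mul_of_nonneg_left h3 (by positivity)
    have h5 : (β : ℤ) < v := by exact_mod_cast hβ
    linarith
  obtain ⟨t, rfl⟩ : ∃ t : ℕ, t' = t := ⟨t'.toNat, by omega⟩
  have hBt : B = v * t + β := by linarith
  -- the parameter `m`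
  have hdvd : (v : ℤ) * (m - u * t) = β * u + z := by
    rw [hBt] at h1
    linear_combination h1
  have hm0 : m = u * t + ((β * u + z) / v : ℕ) := by
    have hdn : (v : ℤ) ∣ ((β * u + z : ℕ) : ℤ) := ⟨m - u * t, by push_cast; linarith⟩
    have hdn' : v ∣ β * u + z := by exact_mod_cast hdn
    obtain ⟨w, hw⟩ := hdn'
    rw [hw, Nat.mul_div_cancel_left _ hv]
    have h3 : (v : ℤ) * (m - u * t) = v * w := by
      rw [hdvd]
      exact_mod_cast hw
    have hv' : (v : ℤ) ≠ 0 := by exact_mod_cast hv.ne'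
    have := mul_left_cancel₀ hv' h3
    linarith
  set m0 := (β * u + z) / v with hm0d
  clear_value m0
  obtain ⟨hel1, hsmall⟩ := andB_true hF
  replace hsmall : @Bool.rec (fun _ => Bool) (small pl dl X H (pk (wn c 1 H)) v u 64 β m0) true
    (skp par H (pk (wn c 1 H)) v) = true := hsmall
  have hB1 : 1 ≤ β + t * v := by
    have : (1 : ℤ) ≤ ((β + t * v : ℕ) : ℤ) := by push_cast; linarith
    exact_mod_cast this
  have hBn : B = ((β + t * v : ℕ) : ℤ) := by push_cast; linarith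
  have hmn : m = ((m0 + t * u : ℕ) : ℤ) := by push_cast; linarith
  -- the small primes are inert if they are not represented
  have hinert : 3365 ≤ B ^ 2 + 4 * m → (∀ p : ℕ, p.Prime → p ≤ 29 → ∀ j, 1 ≤ j → j ≤ H →
      QS m B c j ≠ p) → False := by
    intro hD hrep
    refine hel β m0 t hBt hm0 hel1 ?_
    intro p hp hp29 Y hY
    have hp' : (p : ℤ) ≤ 29 := by exact_mod_cast hp29
    have hp0 : (0 : ℤ) < p := by exact_mod_cast hp.pos
    obtain ⟨j, hj⟩ := prime_QS h hm hB hp hY (by nlinarith)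
    obtain ⟨k, hk1, hk2, hk3⟩ := half p hp j hj
    exact hrep p hp hp29 k hk1 hk2 hk3
  -- a bit of the mask
  have hmask : ∀ q, q ≤ 127 →
      (runU H (pk (wn c 1 H)) 1 (β + t * v) (m0 + t * u) 0).testBit q = false →
      ∀ j, 1 ≤ j → j ≤ H → QS m B c j ≠ q := by
    intro q hq hbit j hj1 hj2
    exact (run_real h hq H 0 hsm (P := 1) (R := β + t * v) (S := m0 + t * u)
        (by rw [QP_succ]; rfl) (by rw [zero_add, QR_one h, hBn]) (by rw [zero_add, QS_one h, hmn])
        0 hbit).2 j (by omega) (by omega)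
  cases hskp : skp par H (pk (wn c 1 H)) v with
  | true =>
    exfalso
    obtain ⟨k1, k2⟩ := hsk hskp
    exact hinert k1 k2
  | false =>
  rw [hskp] at hsmall
  rcases smallB_spec 64 β m0 hsmall t hB1 with hbig | ⟨i, hi, hBi, s2, s1'⟩ | hfr | hce
  · exfalso
    have hlen : (wn c 1 H).length = H := wn_length 1 H
    have hmx := (mxd_le (wn c 1 H) hsm 1).2
    have hmx1 := (mxd_le (wn c 1 H) hsm 1).1
    rw [hlen] at hmx hmx1
    have hbig' : 60 * ((mxd H (pk (wn c 1 H)) 1 : ℤ) + 1) ≤ B := by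
      rw [hBn]
      exact_mod_cast hbig
    refine hinert ?_ fun p _ hp29 j hj1 hj2 hj3 => ?_
    · have h3 : (1 : ℤ) ≤ mxd H (pk (wn c 1 H)) 1 := by exact_mod_cast hmx1
      nlinarith
    · have hcj : c j ∈ wn c 1 H := by
        unfold wn
        exact List.mem_map.2 ⟨j - 1, List.mem_range.2 (by omega), by congr 1; omega⟩
      have := big_B h hj1 (hmx _ hcj) hbig'
      omega
  · exfalso
    have hbits : ∀ q, q < 30 →
        (runM H (pk (wn c 1 H)) 1 (β + i * v) (m0 + i * u) 0).testBit q = false := by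
      intro q hq
      have h3 := Nat.testBit_mod_two_pow (runM H (pk (wn c 1 H)) 1 (β + i * v) (m0 + i * u) 0) 30 q
      rw [s1'] at h3
      simpa [hq] using h3.symm
    have hlen : (wn c 1 H).length = H := wn_length 1 H
    -- the last coefficients are large
    have hbig : ∀ j, 1 ≤ j → j ≤ H → 30 ≤ QS m B c j := by
      intro j hj1 hj2
      obtain ⟨k, rfl⟩ : ∃ k, j = k + 1 := ⟨j - 1, by omega⟩
      have hq := fun q (hq : q < 30) => (run_int (q := q) (by omega) (wn c 1 H) hsm 1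
        (β + i * v) (m0 + i * u) 0 (by rw [hlen]; exact hbits 0 (by norm_num))
        (by rw [hlen]; exact hbits q hq)).2 k (by rw [hlen]; omega)
      obtain ⟨T, -, hT⟩ := hq 0 (by norm_num)
      have hT30 : 30 ≤ T := by
        by_contra hcon
        obtain ⟨T', hT1, hT2⟩ := hq T (by omega)
        rw [hT] at hT2
        exact hT1 (by exact_mod_cast hT2.symm)
      have e1 : QS m B c (k + 1) =
          (en (1, B, m) ((wn c 1 k).map fun a : ℕ => (a : ℤ))).2.2 := by
        rw [← qst_wn h k]; rfl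
      rw [wn_take c 1 H k (by omega)] at hT
      obtain ⟨n, hn⟩ : ∃ n, L - 1 = k + n := ⟨L - 1 - k, by omega⟩
      have hM' := hM
      rw [hn, wn_add] at hM'
      have hmono := en_mono (w := wn c 1 k) (w' := wn c (1 + k) n) (v := v) (u := u)
        (by rw [hM']) (by rw [hM']) ((β + i * v : ℕ) : ℤ) ((m0 + i * u : ℕ) : ℤ) (t - i)
      have e2 : ((β + i * v : ℕ) : ℤ) + ((t - i : ℕ) : ℤ) * v = B := by
        rw [hBn]; push_cast [hi]; ring
      have e3 : ((m0 + i * u : ℕ) : ℤ) + ((t - i : ℕ) : ℤ) * u = m := by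
        rw [hmn]; push_cast [hi]; ring
      rw [e2, e3, ← e1] at hmono
      have e4 : ((1 : ℕ) : ℤ) = 1 := rfl
      rw [e4] at hT
      rw [hT] at hmono
      have : (30 : ℤ) ≤ T := by exact_mod_cast hT30
      linarith
    have hD : (3365 : ℤ) ≤ B ^ 2 + 4 * m := by
      have s3 : ((3365 : ℕ) : ℤ) ≤ (((β + i * v) * (β + i * v) + 4 * (m0 + i * u) : ℕ) : ℤ) := by
        exact_mod_cast s2
      have h3 : ((β + i * v : ℕ) : ℤ) ≤ B := by
        rw [hBn]
        exact_mod_cast Nat.add_le_add_left (Nat.mul_le_mul_right _ hi) _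
      have h4 : ((m0 + i * u : ℕ) : ℤ) ≤ m := by
        rw [hmn]
        exact_mod_cast Nat.add_le_add_left (Nat.mul_le_mul_right _ hi) _
      have h5 : (0 : ℤ) ≤ ((β + i * v : ℕ) : ℤ) := by positivity
      push_cast at s3 h3 h4 h5
      nlinarith
    refine hinert hD fun p _ hp29 j hj1 hj2 hj3 => ?_
    have := hbig j hj1 hj2
    omega
  · exfalso
    obtain ⟨f1, f2⟩ := andB_true hfr
    rw [Nat.beq_eq] at f1
    rw [Nat.ble_eq] at f2
    have f3 : runU H (pk (wn c 1 H)) 1 (β + t * v) (m0 + t * u) 0 &&& 545925292 = 0 := f1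
    have hD : (3365 : ℤ) ≤ B ^ 2 + 4 * m := by
      have s3 : ((3365 : ℕ) : ℤ) ≤ (((β + t * v) * (β + t * v) + 4 * (m0 + t * u) : ℕ) : ℤ) := by
        exact_mod_cast f2
      rw [hBn, hmn]
      push_cast at s3 ⊢
      linarith
    refine hinert hD fun p hp hp29 j hj1 hj2 => hmask p (by omega) ?_ j hj1 hj2
    have f4 : (545925292 : ℕ).testBit p = true := by
      interval_cases p <;> first | decide | (exfalso; revert hp; norm_num)
    have f5 := Nat.testBit_and (runU H (pk (wn c 1 H)) 1 (β + t * v) (m0 + t * u) 0) 545925292 p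
    rw [f3, f4, Nat.zero_testBit, Bool.and_true] at f5
    exact f5.symm
  · rcases cert_true hce with ⟨y, hy, c1, c2, c3⟩ | hD | ⟨hev, hX⟩
    · exfalso
      obtain ⟨hp, hp127, hF4, hroot⟩ := okb_root (hpl y hy)
      rw [hF4] at c3
      obtain ⟨Y, hY⟩ := hroot _ _ c1
      rw [← hBn, ← hmn] at hY
      have h4 : 4 * (y.1 : ℤ) ^ 2 < B ^ 2 + 4 * m := by
        have c3' : 4 * (y.1 * y.1) < (β + t * v) * (β + t * v) + 4 * (m0 + t * u) := c3
        have c4 : ((4 * (y.1 * y.1) : ℕ) : ℤ) <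
            (((β + t * v) * (β + t * v) + 4 * (m0 + t * u) : ℕ) : ℤ) := by exact_mod_cast c3'
        rw [hBn, hmn]
        push_cast at c4 ⊢
        linarith
      obtain ⟨j, hj⟩ := prime_QS h hm hB hp hY h4
      obtain ⟨k, hk1, hk2, hk3⟩ := half y.1 hp j hj
      have hbit : (runU H (pk (wn c 1 H)) 1 (β + t * v) (m0 + t * u) 0).testBit y.1 = false := by
        rw [Nat.testBit_eq_decide_div_mod_eq, decide_eq_false_iff_not]
        have c2' : (runU H (pk (wn c 1 H)) 1 (β + t * v) (m0 + t * u) 0) >>> y.1 % 2 = 0 := c2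
        rw [Nat.shiftRight_eq_div_pow] at c2'
        omega
      exact hmask y.1 hp127 hbit k hk1 hk2 hk3
    · left
      refine ⟨_, hD, ?_⟩
      rw [hBn, hmn]
      push_cast
      ring
    · right
      refine ⟨?_, hX⟩
      have h3 : (2 : ℤ) ∣ (((β + t * v) * (β + t * v) + 4 * (m0 + t * u) : ℕ) : ℤ) := by
        exact_mod_cast Nat.dvd_of_mod_eq_zero hev
      have e : B ^ 2 + 4 * m = (((β + t * v) * (β + t * v) + 4 * (m0 + t * u) : ℕ) : ℤ) := by
        rw [hBn, hmn]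
        push_cast
        ring
      rw [e]
      exact h3

end Pool.Agent.SU
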