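import Pool.Agent.SU.WAll

/-!
Real quadratic fields with a small unit and class number one: the list.
-/

namespace Pool.Agent.SU

open scoped NumberField
open Pool.Agent.LibH4

/-- the squarefree `d > 1` with a solution of `x² − d y² = ±4`, `0 < y ≤ 10000`, and unique
factorisation -/
theorem small_units : {d : ℕ | 1 < d ∧ Squarefree d ∧
    (∃ x y : ℤ, 0 < y ∧ y ≤ 10000 ∧ (x ^ 2 - d * y ^ 2 = 4 ∨ x ^ 2 - d * y ^ 2 = -4)) ∧
    UniqueFactorizationMonoid (𝓞 (KQ d))} = {d | d ∈ lU} :=
  small_units_of EL.elim_spec ab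

end Pool.Agent.SU
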