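import Pool.Agent.SU.Defs

/-!
Real quadratic fields with small units: kernel functions of the tree of the half words and of the
check of the small parameters.
-/

namespace Pool.Agent.SU

open Pool.Agent.LibH4.Ker Pool.Agent.LibH4.CW

noncomputable section

/-! ### the states of a half word -/

/-- the mask with the bit of a small number -/
def msk (S mask : ℕ) : ℕ :=
  @Bool.rec (fun _ => ℕ) mask (Nat.lor mask (Nat.shiftLeft (nat_lit 1) S)) (Nat.ble S (nat_lit 127))

/-- one step, `1` if the next state is not positive -/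
def stS (ih : ℕ → ℕ → ℕ → ℕ → ℕ → ℕ) (c cS A W R S mask : ℕ) : ℕ :=
  @Bool.rec (fun _ => ℕ) (nat_lit 1)
    (@Bool.rec (fun _ => ℕ) (nat_lit 1)
      (ih (Nat.shiftRight W (nat_lit 20)) S (Nat.sub (Nat.mul (nat_lit 2) cS) R)
        (Nat.sub A (Nat.mul c cS)) (msk S mask))
      (Nat.ble (Nat.succ (Nat.mul c cS)) A))
    (Nat.ble (Nat.succ R) (Nat.mul (nat_lit 2) cS))

/-- the mask of the small last coefficients along a half word, `1` if they are not positive -/
def runM (n : ℕ) : ℕ → ℕ → ℕ → ℕ → ℕ → ℕ :=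
  @Nat.rec (fun _ => ℕ → ℕ → ℕ → ℕ → ℕ → ℕ) (fun _ _ _ _ mask => mask)
    (fun _ ih W P R S mask => stS ih (Nat.mod W (nat_lit 1048576))
      (Nat.mul (Nat.mod W (nat_lit 1048576)) S)
      (Nat.add P (Nat.mul R (Nat.mod W (nat_lit 1048576)))) W R S mask) n

/-- one step without a check -/
def stU (ih : ℕ → ℕ → ℕ → ℕ → ℕ → ℕ) (c cS W P R S mask : ℕ) : ℕ :=
  ih (Nat.shiftRight W (nat_lit 20)) S (Nat.sub (Nat.mul (nat_lit 2) cS) R)
    (Nat.sub (Nat.add P (Nat.mul R c)) (Nat.mul c cS)) (msk S mask)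

/-- the mask of the small last coefficients along a half word, without checks -/
def runU (n : ℕ) : ℕ → ℕ → ℕ → ℕ → ℕ → ℕ :=
  @Nat.rec (fun _ => ℕ → ℕ → ℕ → ℕ → ℕ → ℕ) (fun _ _ _ _ mask => mask)
    (fun _ ih W P R S mask => stU ih (Nat.mod W (nat_lit 1048576))
      (Nat.mul (Nat.mod W (nat_lit 1048576)) S) W P R S mask) n

/-! ### certificates -/

/-- bit of a number -/
def bit (A i : ℕ) : ℕ := Nat.mod (Nat.shiftRight A i) (nat_lit 2)

/-- the primes of the certificates: prime, modulus, mask of the inert residues, lower bound of the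
discriminant -/
inductive PLt : Type
  | nil : PLt
  | cons (q M T F : ℕ) (l : PLt) : PLt

/-- a prime which is not inert and not represented -/
def cert1 (D mask q M T F : ℕ) (ih : Bool) : Bool :=
  @Nat.rec (fun _ => Bool) (@Nat.rec (fun _ => Bool)
    (@Bool.rec (fun _ => Bool) ih true (Nat.ble F D)) (fun _ _ => ih) (bit mask q))
    (fun _ _ => ih) (bit T (Nat.mod D M))

/-- existence of such a prime -/
def certP (D mask : ℕ) (pl : PLt) : Bool :=
  @PLt.rec (fun _ => Bool) false (fun q M T F _ ih => cert1 D mask q M T F ih) pl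

/-- existence in a list -/
def anyL {α : Type} (p : α → Bool) (L : List α) : Bool :=
  @List.rec α (fun _ => Bool) false (fun x _ ih => @Bool.rec (fun _ => Bool) ih true (p x)) L

/-- the check of a field: `pl` is the list of primes, `dl` the list of discriminants -/
def cert (pl : PLt) (dl : List ℕ) (X v D mask : ℕ) : Bool :=
  @Bool.rec (fun _ => Bool)
    (@Bool.rec (fun _ => Bool)
      (andB (Nat.beq (Nat.mod D (nat_lit 2)) (nat_lit 0))
        (Nat.ble (Nat.succ X) (Nat.mul (nat_lit 2) v)))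
      true (anyL (Nat.beq D) dl))
    true (certP D mask pl)

/-- no prime below thirty is represented -/
def free (D mask : ℕ) : Bool :=
  andB (Nat.beq (Nat.land mask (nat_lit 545925292)) (nat_lit 0)) (Nat.ble (nat_lit 3365) D)

/-- no number below thirty is represented -/
def stop (mU mC : ℕ) : Bool :=
  andB (Nat.beq (Nat.mod mU (nat_lit 1073741824)) (nat_lit 0))
    (Nat.beq (Nat.mod mC (nat_lit 1073741824)) (nat_lit 0))

/-- the check of a parameter -/
def smallD (pl : PLt) (dl : List ℕ) (X v : ℕ) (nx g : Bool) (D mU mC : ℕ) : Bool :=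
  @Bool.rec (fun _ => Bool) (andB (cert pl dl X v D mU) nx)
    (@Bool.rec (fun _ => Bool) (@Bool.rec (fun _ => Bool) nx true (stop mU mC)) nx g) (free D mU)

/-- the larger number -/
def mx (a q : ℕ) : ℕ := @Bool.rec (fun _ => ℕ) a q (Nat.ble a q)

/-- the largest letter of a word, at least `q` -/
def mxd (n : ℕ) : ℕ → ℕ → ℕ :=
  @Nat.rec (fun _ => ℕ → ℕ → ℕ) (fun _ q => q)
    (fun _ ih W q => ih (Nat.shiftRight W (nat_lit 20)) (mx (Nat.mod W (nat_lit 1048576)) q)) n

/-- the check of the parameters below the bound `b` of `B` -/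
def smallB (pl : PLt) (dl : List ℕ) (X h W v u b fuel : ℕ) : ℕ → ℕ → Bool :=
  @Nat.rec (fun _ => ℕ → ℕ → Bool) (fun _ _ => false)
    (fun _ ih B m => @Bool.rec (fun _ => Bool)
      (@Bool.rec (fun _ => Bool) (ih (Nat.add B v) (Nat.add m u))
        (smallD pl dl X v (ih (Nat.add B v) (Nat.add m u)) (Nat.ble b (Nat.add B v))
          (Nat.add (Nat.mul B B) (Nat.mul (nat_lit 4) m))
          (runU h W (nat_lit 1) B m (nat_lit 0)) (runM h W (nat_lit 1) B m (nat_lit 0)))
        (Nat.ble (nat_lit 1) B)) true (Nat.ble b B)) fuel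

/-- the check of the parameters -/
def small (pl : PLt) (dl : List ℕ) (X h W v u fuel B m : ℕ) : Bool :=
  smallB pl dl X h W v u (Nat.mul (nat_lit 60) (Nat.succ (mxd h W (nat_lit 1)))) fuel B m

/-! ### families -/

/-- the smallest value of the parameter `B` -/
def bet0 (par : Bool) (v u z : ℕ) : ℕ :=
  @Bool.rec (fun _ => ℕ) (Nat.mod (Nat.mul z u) v)
    (Nat.mod (Nat.sub v (Nat.mod (Nat.mul z u) v)) v) par

/-- the families of the words `a` and `1 a` of even periods with a large continuant -/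
def skp (par : Bool) (h W v : ℕ) : Bool :=
  andB (Nat.ble h (nat_lit 2)) (andB par (andB (Nat.ble (nat_lit 320) v)
    (@Bool.rec (fun _ => Bool) (andB (Nat.beq h (nat_lit 2))
      (Nat.beq (Nat.mod W (nat_lit 1048576)) (nat_lit 1))) true (Nat.beq h (nat_lit 1)))))

/-- the check of a family with the smallest parameters -/
def famG (el : Bool → ℕ → ℕ → ℕ → ℕ → ℕ → ℕ → Bool) (pl : PLt) (dl : List ℕ)
    (X : ℕ) (par : Bool) (h W v u β m0 : ℕ) : Bool :=
  andB (el par h W v u β m0)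
    (@Bool.rec (fun _ => Bool) (small pl dl X h W v u (nat_lit 64) β m0) true (skp par h W v))

/-- the check of a family -/
def famF (el : Bool → ℕ → ℕ → ℕ → ℕ → ℕ → ℕ → Bool) (pl : PLt) (dl : List ℕ)
    (X : ℕ) (par : Bool) (h W v u z : ℕ) : Bool :=
  famG el pl dl X par h W v u (bet0 par v u z) (Nat.div (Nat.add (Nat.mul (bet0 par v u z) u) z) v)

/-- the check of the family of a half word of an odd period -/
def oddC (F : Bool → ℕ → ℕ → ℕ → ℕ → ℕ → Bool) (h W k k' r r' : ℕ) : Bool :=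
  F false h W (Nat.add (Nat.mul k k) (Nat.mul k' k')) (Nat.add (Nat.mul k r) (Nat.mul k' r'))
    (Nat.add (Nat.mul r r) (Nat.mul r' r'))

/-- one letter: the family of the half word of an even period, and the words below -/
def stepB (F : Bool → ℕ → ℕ → ℕ → ℕ → ℕ → Bool) (X : ℕ) (ih : ℕ → ℕ → ℕ → ℕ → ℕ → ℕ → Bool)
    (h k k' r r' K R W : ℕ) : Bool :=
  andB (F true (Nat.succ h) W (Nat.mul k (Nat.add K k')) (Nat.add (Nat.mul K r) (Nat.mul k r'))
      (Nat.mul r (Nat.add R r')))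
    (br (Nat.ble (Nat.add (Nat.mul K K) (Nat.mul k k)) X) (ih (Nat.succ h) W K k R r))

/-- one letter -/
def stepA (F : Bool → ℕ → ℕ → ℕ → ℕ → ℕ → Bool) (X : ℕ) (ih : ℕ → ℕ → ℕ → ℕ → ℕ → ℕ → Bool)
    (h W k k' r r' a : ℕ) : Bool :=
  stepB F X ih h k k' r r' (Nat.add (Nat.mul a k) k') (Nat.add (Nat.mul a r) r')
    (Nat.add W (Nat.mul a (Nat.pow (nat_lit 2) (Nat.mul (nat_lit 20) h))))

/-- the letters `lo, …, lo + n - 1` -/
def rangeW (F : Bool → ℕ → ℕ → ℕ → ℕ → ℕ → Bool) (X : ℕ) (ih : ℕ → ℕ → ℕ → ℕ → ℕ → ℕ → Bool)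
    (h W k k' r r' lo n : ℕ) : Bool :=
  allR (fun i => stepA F X ih h W k k' r r' (Nat.add lo i)) n

/-- the tree of the half words -/
def walk (F : Bool → ℕ → ℕ → ℕ → ℕ → ℕ → Bool) (X fuel : ℕ) : ℕ → ℕ → ℕ → ℕ → ℕ → ℕ → Bool :=
  @Nat.rec (fun _ => ℕ → ℕ → ℕ → ℕ → ℕ → ℕ → Bool) (fun _ _ _ _ _ _ => false)
    (fun _ ih h W k k' r r' => andB (oddC F h W k k' r r')
      (rangeW F X ih h W k k' r r' (nat_lit 1)
        (Nat.div (Nat.sub (Nat.div X k) (Nat.mul (nat_lit 2) k')) k))) fuel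

/-- the nodes of the words `w a` with `a = lo, …, lo + n - 1` -/
def nodes (ih : ℕ → ℕ → ℕ → ℕ → ℕ → ℕ → Bool) (h W k k' r r' lo n : ℕ) : Bool :=
  allR (fun i => ih (Nat.succ h)
    (Nat.add W (Nat.mul (Nat.add lo i) (Nat.pow (nat_lit 2) (Nat.mul (nat_lit 20) h))))
    (Nat.add (Nat.mul (Nat.add lo i) k) k') k (Nat.add (Nat.mul (Nat.add lo i) r) r') r) n

end

end Pool.Agent.SU
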