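import Pool.Agent.SU.RelJ

/-!
Real quadratic fields with small units: matrices of words and the closing of the period.
-/

namespace Pool.Agent.SU

open Finset Function Pool.Agent.Lib_helper5 Pool.Agent.LibH4 Pool.Agent.LibH4.CFO
  Pool.Agent.LibH4.LO

/-- product of matrices -/
def mulM (M N : ℕ × ℕ × ℕ × ℕ) : ℕ × ℕ × ℕ × ℕ :=
  (M.1 * N.1 + M.2.1 * N.2.2.1, M.1 * N.2.1 + M.2.1 * N.2.2.2,
    M.2.2.1 * N.1 + M.2.2.2 * N.2.2.1, M.2.2.1 * N.2.1 + M.2.2.2 * N.2.2.2)

/-- transposed matrix -/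
def trM (M : ℕ × ℕ × ℕ × ℕ) : ℕ × ℕ × ℕ × ℕ := (M.1, M.2.2.1, M.2.1, M.2.2.2)

lemma stepM_eq (M : ℕ × ℕ × ℕ × ℕ) (a : ℕ) : stepM M a = mulM M (a, 1, 1, 0) := by
  unfold stepM mulM
  ext <;> simp <;> ring

lemma mulM_assoc (A B C : ℕ × ℕ × ℕ × ℕ) : mulM (mulM A B) C = mulM A (mulM B C) := by
  unfold mulM
  ext <;> simp <;> ring

lemma mulM_one (A : ℕ × ℕ × ℕ × ℕ) : mulM A (1, 0, 0, 1) = A := by
  unfold mulM
  ext <;> simp

lemma one_mulM (A : ℕ × ℕ × ℕ × ℕ) : mulM (1, 0, 0, 1) A = A := by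
  unfold mulM
  ext <;> simp

lemma foldl_stepM (M : ℕ × ℕ × ℕ × ℕ) (w : List ℕ) : w.foldl stepM M = mulM M (mat w) := by
  induction w generalizing M with
  | nil => exact (mulM_one M).symm
  | cons a w ih =>
    rw [List.foldl_cons, ih]
    unfold mat
    rw [List.foldl_cons, ih (stepM (1, 0, 0, 1) a), ← mulM_assoc, stepM_eq, stepM_eq, one_mulM]
    rfl

lemma mat_append (w w' : List ℕ) : mat (w ++ w') = mulM (mat w) (mat w') := by
  have : mat (w ++ w') = (w ++ w').foldl stepM (1, 0, 0, 1) := rfl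
  rw [this, List.foldl_append, foldl_stepM]
  rfl

lemma mat_concat (w : List ℕ) (a : ℕ) : mat (w ++ [a]) = stepM (mat w) a := by
  have : mat (w ++ [a]) = (w ++ [a]).foldl stepM (1, 0, 0, 1) := rfl
  rw [this, List.foldl_append]
  rfl

lemma mat_single (a : ℕ) : mat [a] = (a, 1, 1, 0) := by
  unfold mat stepM
  simp

lemma trM_mulM (A B : ℕ × ℕ × ℕ × ℕ) : trM (mulM A B) = mulM (trM B) (trM A) := by
  unfold mulM trM
  ext <;> simp <;> ring

lemma mat_reverse (w : List ℕ) : mat w.reverse = trM (mat w) := by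
  induction w with
  | nil => rfl
  | cons a w ih =>
    rw [List.reverse_cons, mat_append, ih, show a :: w = [a] ++ w by rfl, mat_append, trM_mulM,
      mat_single]
    rfl

/-- determinant -/
def detM (M : ℕ × ℕ × ℕ × ℕ) : ℤ := (M.1 : ℤ) * M.2.2.2 - M.2.1 * M.2.2.1

lemma det_mat (w : List ℕ) : detM (mat w) = (-1) ^ w.length := by
  induction w using List.reverseRecOn with
  | nil => simp [mat, detM]
  | append_singleton w a ih =>
    rw [mat_concat, List.length_append, List.length_singleton, pow_succ, ← ih]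
    unfold detM stepM
    push_cast
    ring

/-- the value of the quadratic form -/
def qw (B m X Y : ℤ) : ℤ := X ^ 2 + B * X * Y - m * Y ^ 2

/-- the form after a word -/
lemma en_mat (B m : ℤ) (w : List ℕ) :
    en (1, B, m) (w.map fun a : ℕ => (a : ℤ)) =
      ((-1) ^ w.length * qw B m (mat w).2.2.2 (mat w).2.1,
        (-1) ^ w.length * (2 * (mat w).2.2.1 * (mat w).2.2.2 +
          B * ((mat w).2.2.2 * (mat w).1 + (mat w).2.1 * (mat w).2.2.1) -
          2 * m * (mat w).1 * (mat w).2.1),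
        (-1) ^ (w.length + 1) * qw B m (mat w).2.2.1 (mat w).1) := by
  induction w using List.reverseRecOn with
  | nil => simp [mat, qw, en]
  | append_singleton w a ih =>
    have e1 : ∀ (L : List ℤ) (f : ℤ × ℤ × ℤ) (x : ℤ), en f (L ++ [x]) = st x (en f L) := by
      intro L
      induction L with
      | nil => intro f x; rfl
      | cons y L ih => intro f x; exact ih _ _
    rw [List.map_append, List.map_cons, List.map_nil, e1, ih, mat_concat, List.length_append,
      List.length_singleton]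
    unfold st stepM qw
    simp only
    push_cast
    refine Prod.ext ?_ (Prod.ext ?_ ?_)
    · simp only
    · simp only
      ring
    · simp only
      ring

/-- positive letters -/
def PosW (w : List ℕ) : Prop := ∀ a ∈ w, 1 ≤ a

lemma mat_pos {w : List ℕ} (hw : PosW w) : 1 ≤ (mat w).1 ∧ (mat w).2.1 ≤ (mat w).1 := by
  induction w using List.reverseRecOn with
  | nil => simp [mat]
  | append_singleton w a ih =>
    have hw' : PosW w := fun b hb => hw b (List.mem_append_left _ hb)
    have ha : 1 ≤ a := hw a (by simp)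
    obtain ⟨h1, h2⟩ := ih hw'
    rw [mat_concat]
    unfold stepM
    simp only
    have h3 : 1 * (mat w).1 ≤ a * (mat w).1 := Nat.mul_le_mul_right _ ha
    constructor <;> omega

variable {m B : ℤ} {s : ℝ} {x : ℕ → ℝ} {c : ℕ → ℕ}

lemma wn_pos (h : Data m B s x c) (k n : ℕ) : PosW (wn c k n) := by
  intro a ha
  unfold wn at ha
  obtain ⟨i, -, rfl⟩ := List.mem_map.1 ha
  exact (inv_of h (k + i)).cpos

lemma wn_length (k n : ℕ) : (wn c k n).length = n := by simp [wn]

lemma wn_add (k n n' : ℕ) : wn c k (n + n') = wn c k n ++ wn c (k + n) n' := by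
  unfold wn
  rw [List.range_add, List.map_append, List.map_map]
  congr 1
  apply List.map_congr_left
  intro i _
  simp [add_assoc]

lemma qst_wn (h : Data m B s x c) (n : ℕ) : qst m B c (n + 1) =
    en (1, B, m) ((wn c 1 n).map fun a : ℕ => (a : ℤ)) := by
  have e1 : ((1, B, m) : ℤ × ℤ × ℤ) = qst m B c 1 := by
    rw [qst_eta, QR_one h, QS_one h]; rfl
  rw [wn_map, e1, en_wd, add_comm]

/-- **the closing equation** -/
theorem closing_eq (h : Data m B s x c) {L : ℕ} (hL0 : 0 < L)
    (hL : minimalPeriod gsh (x 1) = L) {v u z : ℕ} (hM : mat (wn c 1 (L - 1)) = (v, u, u, z)) :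
    m * v = B * u + z ∧ (z : ℤ) * v = (u : ℤ) ^ 2 - (-1) ^ L := by
  obtain ⟨n, rfl⟩ : ∃ n, L = n + 1 := ⟨L - 1, by omega⟩
  rw [Nat.add_sub_cancel] at hM
  have hz : x (n + 1) = x 0 := by have := per_of h hL 0; rwa [zero_add] at this
  have hS := (state_eq h hz).2.2
  have hS0 : QS m B c 0 = 1 := rfl
  have hS1 : QS m B c (n + 1) = (en (1, B, m) ((wn c 1 n).map fun a : ℕ => (a : ℤ))).2.2 := by
    rw [← qst_wn h n]; rfl
  rw [hS0, hS1, en_mat, hM, wn_length] at hS
  simp only at hS
  have hdet := det_mat (wn c 1 n)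
  rw [hM, wn_length] at hdet
  unfold detM at hdet
  simp only at hdet
  have hv := (mat_pos (wn_pos h 1 n)).1
  rw [hM] at hv
  simp only at hv
  have hsg : ((-1 : ℤ) ^ (n + 1)) * (-1) ^ (n + 1) = 1 := by
    rw [← mul_pow]; norm_num
  have hq : qw B m u v = (-1) ^ (n + 1) := by
    linear_combination (-1) ^ (n + 1) * hS - qw B m u v * hsg
  have e2 : (z : ℤ) * v = (u : ℤ) ^ 2 - (-1) ^ (n + 1) := by
    rw [pow_succ]
    linear_combination hdet
  refine ⟨?_, e2⟩
  have hv' : (v : ℤ) ≠ 0 := by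
    have : (1 : ℤ) ≤ v := by exact_mod_cast hv
    omega
  apply mul_left_cancel₀ hv'
  unfold qw at hq
  linear_combination -hq - e2

/-- palindromic words -/
lemma wn_reverse (h : Data m B s x c) {L : ℕ} (hL : minimalPeriod gsh (x 1) = L) {k n : ℕ}
    (hk : 1 ≤ k) (hkn : k + n ≤ L) : wn c (L + 1 - k - n) n = (wn c k n).reverse := by
  have hper := per_of h hL
  apply List.ext_getElem
  · simp [wn]
  · intro i h1 h2
    rw [wn_length] at h1
    rw [List.getElem_reverse]
    simp only [wn, List.getElem_map, List.getElem_range, List.length_map, List.length_range]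
    exact (palin h hper (k + (n - 1 - i)) (L + 1 - k - n + i) (by omega)).2.2.2

/-- the matrix of an odd period -/
theorem mat_odd (h : Data m B s x c) {I : ℕ} (hL : minimalPeriod gsh (x 1) = 2 * I + 1)
    {k k' r r' : ℕ} (hM : mat (wn c 1 I) = (k, k', r, r')) :
    mat (wn c 1 (2 * I + 1 - 1)) =
      (k * k + k' * k', k * r + k' * r', k * r + k' * r', r * r + r' * r') := by
  have e : wn c 1 (2 * I + 1 - 1) = wn c 1 I ++ (wn c 1 I).reverse := by
    rw [Nat.add_sub_cancel, two_mul, wn_add]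
    congr 1
    have := wn_reverse h hL (k := 1) (n := I) le_rfl (by omega)
    rw [← this]
    congr 1
    omega
  rw [e, mat_append, mat_reverse, hM]
  unfold mulM trM
  simp only
  ext <;> simp <;> ring

/-- the matrix of an even period -/
theorem mat_even (h : Data m B s x c) {J : ℕ} (hL : minimalPeriod gsh (x 1) = 2 * (J + 1))
    {k k' r r' : ℕ} (hM : mat (wn c 1 J) = (k, k', r, r')) :
    mat (wn c 1 (2 * (J + 1) - 1)) =
      (k * (c (J + 1) * k + 2 * k'), c (J + 1) * k * r + k * r' + k' * r,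
        c (J + 1) * k * r + k * r' + k' * r, r * (c (J + 1) * r + 2 * r')) := by
  have e : wn c 1 (2 * (J + 1) - 1) = wn c 1 (J + 1) ++ (wn c 1 J).reverse := by
    rw [show 2 * (J + 1) - 1 = (J + 1) + J by omega, wn_add]
    congr 1
    have := wn_reverse h hL (k := 1) (n := J) le_rfl (by omega)
    rw [← this]
    congr 1
    omega
  rw [e, mat_append, mat_reverse, wn_succ, mat_concat, hM, add_comm 1 J]
  unfold mulM trM stepM
  simp only
  ext <;> simp <;> ring

end Pool.Agent.SU
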