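import Pool.Agent.SU.Tree

/-!
Real quadratic fields with small units: the parts of the tree of the half words.
-/

namespace Pool.Agent.SU

open Pool.Agent.LibH4.Ker Pool.Agent.LibH4.CW

variable {F : Bool → ℕ → ℕ → ℕ → ℕ → ℕ → Bool} {X : ℕ}

/-- the words `w a ⋯` with `lo ≤ a < lo + n` -/
noncomputable def pc (F : Bool → ℕ → ℕ → ℕ → ℕ → ℕ → Bool) (X : ℕ) (w : List ℕ) (lo n : ℕ) : Bool :=
  rangeW F X (walk F X (nat_lit 20)) w.length (pk w) (mat w).1 (mat w).2.1 (mat w).2.2.1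
    (mat w).2.2.2 lo n

/-- the odd family of the word `w` -/
noncomputable def oc (F : Bool → ℕ → ℕ → ℕ → ℕ → ℕ → Bool) (w : List ℕ) : Bool :=
  oddC F w.length (pk w) (mat w).1 (mat w).2.1 (mat w).2.2.1 (mat w).2.2.2

/-- the even family of the word `w a` -/
noncomputable def ec (F : Bool → ℕ → ℕ → ℕ → ℕ → ℕ → Bool) (w : List ℕ) (a : ℕ) : Bool :=
  F true (w ++ [a]).length (pk (w ++ [a])) (eM (mat w) a).1 (eM (mat w) a).2.1
    (eM (mat w) a).2.2.2

/-- the even family of `w a` and all words which start with `w a` -/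
def Pt (F : Bool → ℕ → ℕ → ℕ → ℕ → ℕ → Bool) (X : ℕ) (w : List ℕ) (a : ℕ) : Prop :=
  Fw F true (w ++ [a]) (eM (mat w) a) ∧ (nn (w ++ [a]) ≤ X → AB F X (w ++ [a]))

lemma pc_spec {w : List ℕ} {lo n : ℕ} (h : pc F X w lo n = true) (hw : PosW w) (hlo : 1 ≤ lo)
    (a : ℕ) (h1 : lo ≤ a) (h2 : a < lo + n) : Pt F X w a :=
  rangeW_spec (walk_spec 20) hw hlo h a h1 h2

lemma ec_spec {w : List ℕ} {a : ℕ} (h : ec F w a = true) (h2 : AB F X (w ++ [a])) :
    Pt F X w a := ⟨h, fun _ => h2⟩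

/-- all parts between `lo` and `hi` -/
def PtI (F : Bool → ℕ → ℕ → ℕ → ℕ → ℕ → Bool) (X : ℕ) (w : List ℕ) (lo hi : ℕ) : Prop :=
  ∀ a, lo ≤ a → a < hi → Pt F X w a

lemma PtI.trans {w : List ℕ} {x y z : ℕ} (h1 : PtI F X w x y) (h2 : PtI F X w y z) :
    PtI F X w x z := by
  intro a ha hz
  rcases Nat.lt_or_ge a y with h | h
  · exact h1 a ha h
  · exact h2 a h hz

lemma PosW_of {w : List ℕ} (h : (w.all fun a => Nat.ble 1 a) = true) : PosW w := by
  intro a ha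
  have := List.all_eq_true.1 h a ha
  rwa [Nat.ble_eq] at this

lemma pcI {w : List ℕ} {lo n : ℕ} (hw : (w.all fun a => Nat.ble 1 a) = true)
    (hlo : Nat.ble 1 lo = true) (h : pc F X w lo n = true) : PtI F X w lo (lo + n) :=
  fun a h1 h2 => pc_spec h (PosW_of hw) (by rwa [Nat.ble_eq] at hlo) a h1 h2

lemma ecI {w : List ℕ} {a : ℕ} (h : ec F w a = true) (h2 : AB F X (w ++ [a])) :
    PtI F X w a (a + 1) := by
  intro b h3 h4
  have : b = a := by omega
  rw [this]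
  exact ec_spec h h2

/-- **a node** -/
lemma AB_node {w : List ℕ} {n : ℕ} (hw : (w.all fun a => Nat.ble 1 a) = true)
    (h0 : oc F w = true) (h1 : PtI F X w 1 n)
    (hn : Nat.ble ((X / (mat w).1 - 2 * (mat w).2.1) / (mat w).1 + 1) n = true) : AB F X w := by
  refine AB_of (PosW_of hw) (fun _ => h0) fun a ha hev => h1 a ha ?_
  have h2 := ev_bound (PosW_of hw) hev
  rw [Nat.ble_eq] at hn
  omega

end Pool.Agent.SU
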