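import Pool.Agent.SU.Small

/-!
Real quadratic fields with small units: a sieve for the discriminants `n² b² + s`.
-/

namespace Pool.Agent.SU

open Pool.Agent.LibH4.Ker Pool.Agent.LibH4.CW

noncomputable section

/-- the mask of the residues `b` with `n² b² + s` inert -/
def inM (T n s q k : ℕ) : ℕ :=
  @Nat.rec (fun _ => ℕ) (nat_lit 0) (fun b ih => Nat.add (Nat.mul (Nat.pow (nat_lit 2) b)
    (bit T (Nat.mod (Nat.add (Nat.mul (Nat.mul n n) (Nat.mul b b)) s) q))) ih) k

/-- periodic continuation by doubling -/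
def dbl (q M j : ℕ) : ℕ :=
  @Nat.rec (fun _ => ℕ) M (fun i ih => Nat.add (Nat.mul
    (Nat.pow (nat_lit 2) (Nat.mul q (Nat.pow (nat_lit 2) i))) ih) ih) j

/-- `4 n` or `-4 n` modulo `q` -/
def sg (par : Bool) (n q : ℕ) : ℕ :=
  @Bool.rec (fun _ => ℕ) (Nat.mod (Nat.mul (nat_lit 4) n) q)
    (Nat.sub q (Nat.mod (Nat.mul (nat_lit 4) n) q)) par

/-- one prime of the sieve -/
def sv1 (par : Bool) (n j q T acc : ℕ) : ℕ :=
  @Bool.rec (fun _ => ℕ) (@Bool.rec (fun _ => ℕ)
    (Nat.land acc (dbl q (inM T n (sg par n q) q q) j)) acc (Nat.beq q n))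
    acc (Nat.beq q (nat_lit 2))

/-- the sieve -/
def svP (par : Bool) (n j : ℕ) (pl : PLt) : ℕ → ℕ :=
  @PLt.rec (fun _ => ℕ → ℕ) (fun acc => acc) (fun q _ T _ _ ih acc => ih (sv1 par n j q T acc)) pl

/-- nothing is left between `a` and `A` -/
def svOK (par : Bool) (n j A a : ℕ) (pl : PLt) : Bool :=
  Nat.beq (Nat.shiftRight (svP par n j pl (Nat.sub (Nat.pow (nat_lit 2) A) (nat_lit 1))) a)
    (nat_lit 0)

/-- the sieve for all primes below thirty -/
def svAll (j A a : ℕ) (pl : PLt) : Bool :=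
  allL (fun n => andB (svOK false n j A a pl) (svOK true n j A a pl))
    [nat_lit 2, nat_lit 3, nat_lit 5, nat_lit 7, nat_lit 11, nat_lit 13, nat_lit 17, nat_lit 19,
      nat_lit 23, nat_lit 29]

end

lemma inM_spec (T n s q k : ℕ) : inM T n s q k < 2 ^ k ∧
    ∀ r < k, (inM T n s q k).testBit r = decide (bit T ((n * n * (r * r) + s) % q) = 1) := by
  induction k with
  | zero => exact ⟨Nat.one_pos, fun r hr => absurd hr (Nat.not_lt_zero _)⟩
  | succ k ih =>
    obtain ⟨i1, i2⟩ := ih
    have e : inM T n s q (k + 1) = 2 ^ k * bit T ((n * n * (k * k) + s) % q) + inM T n s q k := rfl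
    have hb : bit T ((n * n * (k * k) + s) % q) < 2 := Nat.mod_lt _ (by norm_num)
    rw [e]
    constructor
    · rw [pow_succ]
      have : 2 ^ k * bit T ((n * n * (k * k) + s) % q) ≤ 2 ^ k * 1 :=
        Nat.mul_le_mul_left _ (by omega)
      omega
    · intro r hr
      rw [Nat.testBit_two_pow_mul_add _ i1]
      split_ifs with h
      · exact i2 r h
      · have hrk : r = k := by omega
        subst hrk
        rw [Nat.sub_self]
        generalize bit T ((n * n * (r * r) + s) % q) = b at hb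
        interval_cases b <;> decide

lemma dbl_spec {q M : ℕ} (hM : M < 2 ^ q) (j : ℕ) : dbl q M j < 2 ^ (q * 2 ^ j) ∧
    ∀ b < q * 2 ^ j, (dbl q M j).testBit b = M.testBit (b % q) := by
  induction j with
  | zero =>
    rw [pow_zero, mul_one]
    exact ⟨hM, fun b hb => by rw [Nat.mod_eq_of_lt hb]; rfl⟩
  | succ j ih =>
    obtain ⟨i1, i2⟩ := ih
    have e : dbl q M (j + 1) = 2 ^ (q * 2 ^ j) * dbl q M j + dbl q M j := rfl
    have e2 : q * 2 ^ (j + 1) = q * 2 ^ j + q * 2 ^ j := by ring
    rw [e, e2]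
    constructor
    · rw [pow_add]
      nlinarith
    · intro b hb
      rw [Nat.testBit_two_pow_mul_add _ i1]
      split_ifs with h
      · exact i2 b h
      · rw [i2 _ (by omega)]
        obtain ⟨w, hw⟩ : ∃ w, b = w + q * 2 ^ j := ⟨b - q * 2 ^ j, by omega⟩
        rw [hw, Nat.add_sub_cancel, Nat.add_mul_mod_self_left]

/-- a prime of the sieve kills `b` -/
def Kill (par : Bool) (n b : ℕ) (y : ℕ × ℕ × ℕ × ℕ) : Prop :=
  y.1 ≠ 2 ∧ y.1 ≠ n ∧ bit y.2.2.1 ((n * n * (b * b) + sg par n y.1) % y.1) = 0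

lemma sv1_spec {par : Bool} {n j q T acc b : ℕ} (hb : b < 2 ^ j) (hq : 0 < q)
    (h : (sv1 par n j q T acc).testBit b = false) :
    acc.testBit b = false ∨
      (q ≠ 2 ∧ q ≠ n ∧ bit T ((n * n * (b * b) + sg par n q) % q) = 0) := by
  unfold sv1 at h
  cases h1 : Nat.beq q 2 with
  | true =>
    rw [show Nat.beq q (nat_lit 2) = true from h1] at h
    exact Or.inl h
  | false =>
    rw [show Nat.beq q (nat_lit 2) = false from h1] at h
    cases h2 : Nat.beq q n with
    | true =>
      rw [h2] at h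
      exact Or.inl h
    | false =>
      rw [h2] at h
      have h3 : (acc &&& dbl q (inM T n (sg par n q) q q) j).testBit b = false := h
      rw [Nat.testBit_and, Bool.and_eq_false_iff] at h3
      rcases h3 with h3 | h3
      · exact Or.inl h3
      · right
        have hn2 : q ≠ 2 := Nat.ne_of_beq_eq_false h1
        have hnn : q ≠ n := Nat.ne_of_beq_eq_false h2
        refine ⟨hn2, hnn, ?_⟩
        obtain ⟨i1, i2⟩ := inM_spec T n (sg par n q) q q
        rw [(dbl_spec i1 j).2 b (lt_of_lt_of_le hb (Nat.le_mul_of_pos_left _ hq)),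
          i2 _ (Nat.mod_lt _ hq), decide_eq_false_iff_not] at h3
        have h4 : (n * n * (b % q * (b % q)) + sg par n q) % q =
            (n * n * (b * b) + sg par n q) % q := by
          conv_rhs => rw [Nat.add_mod, Nat.mul_mod, Nat.mul_mod b b]
          conv_lhs => rw [Nat.add_mod, Nat.mul_mod]
        rw [h4] at h3
        have h5 : bit T ((n * n * (b * b) + sg par n q) % q) < 2 := Nat.mod_lt _ (by norm_num)
        omega

lemma svP_spec {par : Bool} {n j b : ℕ} (hb : b < 2 ^ j) (pl : PLt) (acc : ℕ)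
    (hpl : ∀ y ∈ toL pl, 0 < y.1)
    (h : (svP par n j pl acc).testBit b = false) :
    acc.testBit b = false ∨ ∃ y ∈ toL pl, Kill par n b y := by
  induction pl generalizing acc with
  | nil => exact Or.inl h
  | cons q M T F l ih =>
    have h2 : (svP par n j l (sv1 par n j q T acc)).testBit b = false := h
    rcases ih _ (fun y hy => hpl y (List.mem_cons_of_mem _ hy)) h2 with h3 | ⟨y, hy, h3⟩
    · rcases sv1_spec hb (hpl (q, M, T, F) List.mem_cons_self) h3 with h4 | h4
      · exact Or.inl h4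
      · exact Or.inr ⟨(q, M, T, F), List.mem_cons_self, h4⟩
    · exact Or.inr ⟨y, List.mem_cons_of_mem _ hy, h3⟩

lemma svOK_spec {par : Bool} {n j A a : ℕ} {pl : PLt} (hpl : ∀ y ∈ toL pl, 0 < y.1)
    (hA : A ≤ 2 ^ j) (h : svOK par n j A a pl = true) (b : ℕ) (h1 : a ≤ b) (h2 : b < A) :
    ∃ y ∈ toL pl, Kill par n b y := by
  unfold svOK at h
  have h3 : (svP par n j pl (2 ^ A - 1)) >>> a = 0 := Nat.eq_of_beq_eq_true h
  have h4 : (svP par n j pl (2 ^ A - 1)).testBit b = false := by
    have h5 : ((svP par n j pl (2 ^ A - 1)) >>> a).testBit (b - a) = false := by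
      rw [h3, Nat.zero_testBit]
    rw [Nat.testBit_shiftRight] at h5
    rwa [show a + (b - a) = b by omega] at h5
  rcases svP_spec (by omega) pl _ hpl h4 with h5 | h5
  · exfalso
    rw [Nat.testBit_two_pow_sub_one, decide_eq_false_iff_not] at h5
    exact h5 h2
  · exact h5

lemma allL_true {α : Type} {p : α → Bool} {L : List α} (h : allL p L = true) :
    ∀ x ∈ L, p x = true := by
  induction L with
  | nil => intro x hx; exact absurd hx (by simp)
  | cons y L ih =>
    have h2 : @Bool.rec (fun _ => Bool) false (allL p L) (p y) = true := h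
    intro x hx
    cases hp : p y with
    | false => rw [hp] at h2; exact absurd (show false = true from h2) (by decide)
    | true =>
      rw [hp] at h2
      rcases List.mem_cons.1 hx with rfl | hx
      · exact hp
      · exact ih h2 x hx

/-- **the sieve** -/
theorem sieve {j A a : ℕ} {pl : PLt} (hpl : ∀ y ∈ toL pl, 0 < y.1) (hA : A ≤ 2 ^ j)
    (h : svAll j A a pl = true) (par : Bool) {n : ℕ} (hn : n.Prime) (hn29 : n ≤ 29) (b : ℕ)
    (h1 : a ≤ b) (h2 : b < A) : ∃ y ∈ toL pl, Kill par n b y := by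
  have hmem : n ∈ [2, 3, 5, 7, 11, 13, 17, 19, 23, 29] := by
    interval_cases n <;> first | decide | (exfalso; revert hn; norm_num)
  obtain ⟨h3, h4⟩ := andB_true (allL_true h n hmem)
  cases par with
  | false => exact svOK_spec hpl hA h3 b h1 h2
  | true => exact svOK_spec hpl hA h4 b h1 h2

end Pool.Agent.SU
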