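import Pool.Agent.SU.Fam
import Pool.Agent.SU.Sieve

/-!
Real quadratic fields with small units: the periods `B a` and `B 1 a 1`.
-/

namespace Pool.Agent.SU

open Function Pool.Agent.Lib_helper5 Pool.Agent.LibH4 Pool.Agent.LibH4.CFO Pool.Agent.LibH4.LO
open Pool.Agent.LibH4.Ker Pool.Agent.LibH4.CW

lemma okb_M {x : ℕ × ℕ × ℕ × ℕ} (hx : okb x = true) (h2 : x.1 ≠ 2) : x.2.1 = x.1 := by
  unfold okb at hx
  rw [Bool.or_eq_true] at hx
  rcases hx with hx | hx
  · rw [decide_eq_true_eq] at hx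
    subst hx
    exact absurd rfl h2
  · simp only [Bool.and_eq_true, decide_eq_true_eq] at hx
    exact hx.1.1.1.1.1.2

variable {m B : ℤ} {s : ℝ} {x : ℕ → ℝ} {c : ℕ → ℕ}

/-- a killed discriminant -/
lemma kill_false {pl : PLt} (hpl : ∀ y ∈ toL pl, okb y = true)
    (h : Data m B s x c) (hm : 0 < m) (hB : 1 ≤ B)
    [IsDomain (QuadraticAlgebra ℤ m B)] [UniqueFactorizationMonoid (QuadraticAlgebra ℤ m B)]
    {H : ℕ} (half : ∀ p : ℕ, p.Prime → ∀ j, QS m B c j = p → ∃ i, 1 ≤ i ∧ i ≤ H ∧ QS m B c i = p)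
    {par : Bool} {n v : ℕ} (hD : 64516 < B ^ 2 + 4 * m)
    (hBm : B ^ 2 + 4 * m = (n : ℤ) ^ 2 * v ^ 2 + (if par then -1 else 1) * (4 * n))
    (hne : ∀ q : ℕ, q ≤ 127 → q ≠ n → ∀ i, 1 ≤ i → i ≤ H → QS m B c i ≠ q)
    (hk : ∃ y ∈ toL pl, Kill par n v y) : False := by
  obtain ⟨y, hy, k1, k2, k3⟩ := hk
  obtain ⟨hp, hp127, -, hroot⟩ := okb_root (hpl y hy)
  have hM := okb_M (hpl y hy) k1
  obtain ⟨Bn, hBn⟩ : ∃ Bn : ℕ, B = Bn := ⟨B.toNat, by omega⟩
  obtain ⟨mn, hmn⟩ : ∃ mn : ℕ, m = mn := ⟨m.toNat, by omega⟩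
  have hmod : (Bn * Bn + 4 * mn) % y.1 = (n * n * (v * v) + sg par n y.1) % y.1 := by
    rw [hBn, hmn] at hBm
    have h4 := Nat.mod_add_div (4 * n) y.1
    have hlt := Nat.mod_lt (4 * n) hp.pos
    cases par with
    | false =>
      simp only [Bool.false_eq_true, if_false, one_mul] at hBm
      have e1 : Bn * Bn + 4 * mn = n * n * (v * v) + 4 * n := by
        have : ((Bn * Bn + 4 * mn : ℕ) : ℤ) = ((n * n * (v * v) + 4 * n : ℕ) : ℤ) := by
          push_cast
          linear_combination hBm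
        exact_mod_cast this
      rw [e1]
      change _ = (n * n * (v * v) + 4 * n % y.1) % y.1
      rw [Nat.add_mod_mod]
    | true =>
      simp only [if_true] at hBm
      have e1 : n * n * (v * v) = Bn * Bn + 4 * mn + 4 * n := by
        have : ((n * n * (v * v) : ℕ) : ℤ) = ((Bn * Bn + 4 * mn + 4 * n : ℕ) : ℤ) := by
          push_cast
          linear_combination -hBm
        exact_mod_cast this
      change _ = (n * n * (v * v) + (y.1 - 4 * n % y.1)) % y.1
      have e2 : n * n * (v * v) + (y.1 - 4 * n % y.1) =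
          Bn * Bn + 4 * mn + y.1 * (4 * n / y.1 + 1) := by
        rw [e1, mul_add, mul_one]
        omega
      rw [e2, Nat.add_mul_mod_self_left]
  rw [← hmod, ← hM] at k3
  obtain ⟨Y, hY⟩ := hroot _ _ k3
  rw [← hBn, ← hmn] at hY
  have hp2 : (y.1 : ℤ) ≤ 127 := by exact_mod_cast hp127
  have hp0 : (0 : ℤ) < y.1 := by exact_mod_cast hp.pos
  obtain ⟨j, hj⟩ := prime_QS h hm hB hp hY (by nlinarith)
  obtain ⟨i, hi1, hi2, hi3⟩ := half y.1 hp j hj
  exact hne y.1 hp127 k2 i hi1 hi2 hi3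

/-- **the skipped families** -/
theorem skip_spec {pl : PLt} (hpl : ∀ y ∈ toL pl, okb y = true) {X jj : ℕ} (hX : X < 2 ^ jj)
    (hsv : svAll jj (X + 1) 320 pl = true)
    (h : Data m B s x c) (hm : 0 < m) (hB : 1 ≤ B)
    [IsDomain (QuadraticAlgebra ℤ m B)] [UniqueFactorizationMonoid (QuadraticAlgebra ℤ m B)]
    {J : ℕ} (hL : minimalPeriod gsh (x 1) = 2 * (J + 1)) {v u z : ℕ}
    (hM : mat (wn c 1 (2 * (J + 1) - 1)) = (v, u, u, z)) (hv : v ≤ X)
    (hsm : SmW (wn c 1 (J + 1)))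
    (hs : skp true (J + 1) (pk (wn c 1 (J + 1))) v = true) :
    3365 ≤ B ^ 2 + 4 * m ∧
      ∀ p : ℕ, p.Prime → p ≤ 29 → ∀ j, 1 ≤ j → j ≤ J + 1 → QS m B c j ≠ p := by
  have hpos : ∀ y ∈ toL pl, 0 < y.1 := fun y hy => (okb_root (hpl y hy)).1.pos
  obtain ⟨s1, s2⟩ := andB_true hs
  obtain ⟨-, s2⟩ := andB_true s2
  obtain ⟨s3, s4⟩ := andB_true s2
  rw [Nat.ble_eq] at s1 s3
  replace s1 : J + 1 ≤ 2 := s1
  replace s3 : 320 ≤ v := s3
  have hv320 : (320 : ℤ) ≤ v := by exact_mod_cast s3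
  have half : ∀ p : ℕ, p.Prime → ∀ j, QS m B c j = p →
      ∃ i, 1 ≤ i ∧ i ≤ J + 1 ∧ QS m B c i = p := by
    intro p hp j hj
    obtain ⟨i, h1, h2, h3⟩ := half_even h (Nat.succ_pos J) hL (j := j) (by
      rw [hj]; exact_mod_cast hp.one_lt.ne')
    exact ⟨i, h1, h2, by rw [h3, hj]⟩
  have hcl := (closing_eq h (by omega) hL hM).1
  have hQ1 : QS m B c 1 = m := QS_one h
  rcases (show J = 0 ∨ J = 1 by omega) with rfl | rfl
  · -- the word `a`
    have e1 : mat (wn c 1 (2 * (0 + 1) - 1)) = (c 1, 1, 1, 0) := by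
      rw [← mat_single (c 1)]
      rfl
    rw [e1, Prod.mk.injEq, Prod.mk.injEq, Prod.mk.injEq] at hM
    obtain ⟨hv1, hu1, -, hz1⟩ := hM
    rw [← hu1, ← hz1] at hcl
    have hBe : B = m * v := by push_cast at hcl; linarith
    have hB1 : 320 ≤ B := by rw [hBe]; nlinarith
    refine ⟨by nlinarith, ?_⟩
    intro p hp hp29 j hj1 hj2 hj3
    have hj : j = 1 := by omega
    rw [hj, hQ1] at hj3
    have hp2 : (2 : ℤ) ≤ p := by exact_mod_cast hp.two_le
    refine kill_false hpl h hm hB half (par := false) (n := p) (v := v) ?_ ?_ ?_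
      (sieve hpos hX hsv false hp hp29 v s3 (by omega))
    · have : 640 ≤ B := by rw [hBe, hj3]; nlinarith
      nlinarith
    · rw [hBe, hj3]
      simp only [Bool.false_eq_true, if_false]
      ring
    · intro q _ hqn i hi1 hi2 hi3
      have hi : i = 1 := by omega
      rw [hi, hQ1, hj3] at hi3
      exact hqn (by exact_mod_cast hi3.symm)
  · -- the word `1 a`
    have hW : Nat.beq (pk (wn c 1 (1 + 1)) % 1048576) 1 = true := by
      have s5 : andB (Nat.beq 2 2) (Nat.beq (pk (wn c 1 (1 + 1)) % 1048576) 1) = true := s4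
      exact (andB_true s5).2
    have hc1 : c 1 = 1 := by
      have e3 : wn c 1 (1 + 1) = c 1 :: wn c 2 1 := rfl
      rw [e3] at hW hsm
      rw [pk_mod _ (hsm _ List.mem_cons_self)] at hW
      exact Nat.eq_of_beq_eq_true hW
    have e1 : mat (wn c 1 1) = (1, 1, 1, 0) := by
      have : mat (wn c 1 1) = (c 1, 1, 1, 0) := by
        rw [← mat_single (c 1)]
        rfl
      rw [this, hc1]
    have e2 := mat_even h hL e1
    rw [e2, Prod.mk.injEq, Prod.mk.injEq, Prod.mk.injEq] at hM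
    obtain ⟨hv1, hu1, -, hz1⟩ := hM
    have hv2 : (v : ℤ) = c (1 + 1) + 2 := by rw [← hv1]; push_cast; ring
    have hu2 : (u : ℤ) = c (1 + 1) + 1 := by rw [← hu1]; push_cast; ring
    have hz2 : (z : ℤ) = c (1 + 1) := by rw [← hz1]; push_cast; ring
    have hQ2 : QS m B c 2 = B - m + 1 := by
      rw [show (2 : ℕ) = 1 + 1 by rfl, QS_succ, QR_one h, hQ1, hc1]
      have : QP m B c 1 = 1 := rfl
      rw [this]
      push_cast
      ring
    have hn0 : 0 < B - m + 1 := by rw [← hQ2]; exact (inv_of h 2).Spos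
    have hnv : (B - m + 1) * v = B + 2 := by
      rw [hu2, hz2] at hcl
      rw [hv2] at hcl ⊢
      linear_combination -hcl
    have hB1 : 318 ≤ B := by nlinarith
    have hmn : m = (B - m + 1) * (v - 1) - 1 := by linear_combination -hnv
    have hm1 : 318 ≤ m := by nlinarith
    refine ⟨by nlinarith, ?_⟩
    intro p hp hp29 j hj1 hj2 hj3
    have hp29' : (p : ℤ) ≤ 29 := by exact_mod_cast hp29
    rcases (show j = 1 ∨ j = 2 by omega) with hj | hj
    · rw [hj, hQ1] at hj3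
      omega
    · rw [hj, hQ2] at hj3
      have hp2 : (2 : ℤ) ≤ p := by exact_mod_cast hp.two_le
      rw [hj3] at hnv
      refine kill_false hpl h hm hB half (par := true) (n := p) (v := v) ?_ ?_ ?_
        (sieve hpos hX hsv true hp hp29 v s3 (by omega))
      · have : 638 ≤ B := by nlinarith
        nlinarith
      · simp only [if_true]
        have hmB : m = B + 1 - p := by linarith
        have : (p : ℤ) ^ 2 * v ^ 2 = (B + 2) ^ 2 := by rw [← hnv]; ring
        rw [this, hmB]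
        ring
      · intro q hq127 hqn i hi1 hi2 hi3
        have hq' : (q : ℤ) ≤ 127 := by exact_mod_cast hq127
        rcases (show i = 1 ∨ i = 2 by omega) with hi | hi
        · rw [hi, hQ1] at hi3
          omega
        · rw [hi, hQ2, hj3] at hi3
          exact hqn (by exact_mod_cast hi3.symm)

end Pool.Agent.SU
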