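import Pool.Agent.SU.Defs
import Pool.Agent.Lib_helper4.CW.Wd

/-!
Real quadratic fields with small units: the folded relations of a period.
-/

namespace Pool.Agent.SU

open Finset Function Pool.Agent.Lib_helper5 Pool.Agent.Lib_helper5.LK Pool.Agent.LibH4
  Pool.Agent.LibH4.CW Pool.Agent.LibH4.S7 Pool.Agent.Lib_helper5.TB Pool.Agent.LibH4.T6
  Pool.Agent.LibH4.KF Pool.Agent.LibH4.CFO Pool.Agent.LibH4.LO

section Lists

variable {q N : ℕ} [NeZero q] {χ : ZMod q → ZMod N}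

/-- the sum over a list of forms -/
def sumJ (χ : ZMod q → ZMod N) (J : List Fm) : ZMod N :=
  (J.map fun j => (j.κ : ZMod N) * KF.XX χ j.P j.R j.S + (j.α : ZMod N) * KF.YX χ j.P j.R j.S).sum

lemma sumJ_cons (j : Fm) (J : List Fm) : sumJ χ (j :: J) =
    ((j.κ : ZMod N) * KF.XX χ j.P j.R j.S + (j.α : ZMod N) * KF.YX χ j.P j.R j.S) + sumJ χ J := by
  unfold sumJ
  rw [List.map_cons, List.sum_cons]

lemma sumJ_nil : sumJ χ [] = 0 := rfl

lemma sum_JT_false (f : ℤ × ℤ × ℤ) (w : List ℕ) :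
    sumJ χ (JT false f w) = W χ f (w.map fun a : ℕ => (a : ℤ)) := by
  induction w generalizing f with
  | nil =>
    simp only [JT, cond_false, sumJ_cons, sumJ_nil, List.map_nil, W, XS]
    push_cast
    ring
  | cons a w ih =>
    simp only [JT, sumJ_cons, List.map_cons, W, Bool.false_and, cond_false]
    rw [ih]
    unfold XS YS
    push_cast
    ring

lemma JT_true_cons (f : ℤ × ℤ × ℤ) (a b : ℕ) (w : List ℕ) :
    JT true f (a :: b :: w) = ⟨f.1, f.2.1, -f.2.2, 6, -(2 * (a : ℤ))⟩ ::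
      JT true (LO.st a f) (b :: w) := by
  simp [JT]

lemma sum_JT_true (f : ℤ × ℤ × ℤ) (w : List ℕ) (b : ℕ) :
    sumJ χ (JT true f (w ++ [b])) = W χ f ((w ++ [b]).map fun a : ℕ => (a : ℤ)) -
      3 * XS χ (en f ((w ++ [b]).map fun a : ℕ => (a : ℤ))) +
      (b : ZMod N) * YS χ (en f (w.map fun a : ℕ => (a : ℤ))) := by
  induction w generalizing f with
  | nil =>
    simp only [JT, List.nil_append, cond_true, sumJ_cons, sumJ_nil, List.map_nil, List.map_cons, W,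
      en, Bool.true_and, List.isEmpty_nil]
    unfold XS YS
    push_cast
    ring
  | cons a w ih =>
    have e : JT true f (a :: w ++ [b]) = ⟨f.1, f.2.1, -f.2.2, 6, -(2 * (a : ℤ))⟩ ::
        JT true (LO.st a f) (w ++ [b]) := by
      rw [List.cons_append]
      cases w with
      | nil => exact JT_true_cons f a b []
      | cons a' w' => exact JT_true_cons f a a' (w' ++ [b])
    rw [e, sumJ_cons, ih]
    simp only [List.cons_append, List.map_cons, W, en]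
    unfold XS YS
    push_cast
    ring

end Lists

lemma disc_JT (par : Bool) (D : ℤ) (f : ℤ × ℤ × ℤ) (hf : dis f = D) (w : List ℕ) :
    ∀ j ∈ JT par f w, j.R ^ 2 - 4 * j.P * j.S = D := by
  have key : ∀ g : ℤ × ℤ × ℤ, dis g = D → g.2.1 ^ 2 - 4 * g.1 * (-g.2.2) = D := by
    intro g hg
    rw [← hg]
    unfold dis
    ring
  induction w generalizing f with
  | nil =>
    intro j hj
    cases par with
    | true => simp [JT] at hj
    | false =>
      simp only [JT, cond_false, List.mem_singleton] at hj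
      subst hj
      exact key f hf
  | cons a w ih =>
    intro j hj
    simp only [JT, List.mem_cons] at hj
    rcases hj with rfl | hj
    · exact key f hf
    · exact ih _ ((dis_st _ _).trans hf) j hj

lemma disc_JH (par : Bool) (B m : ℤ) (w : List ℕ) :
    ∀ j ∈ JH par B m w, j.R ^ 2 - 4 * j.P * j.S = B ^ 2 + 4 * m := by
  intro j hj
  unfold JH at hj
  rcases List.mem_cons.1 hj with rfl | hj
  · change B ^ 2 - 4 * m * (-1) = _
    ring
  · apply disc_JT par _ (1, B, m) _ w j hj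
    unfold dis
    ring

variable {m B : ℤ} {s : ℝ} {x : ℕ → ℝ} {c : ℕ → ℕ}

lemma wn_map (c : ℕ → ℕ) (k n : ℕ) : (wn c k n).map (fun a : ℕ => (a : ℤ)) = wd c k n := by
  rw [LO.wd_eq]
  unfold wn
  rw [List.map_map]
  rfl

lemma wn_succ (c : ℕ → ℕ) (k n : ℕ) : wn c k (n + 1) = wn c k n ++ [c (k + n)] := by
  unfold wn
  rw [List.range_succ, List.map_append]
  rfl

/-- **consequences of inert small primes** -/
lemma basicsB {d : ℕ} (hd : (d : ℤ) = B ^ 2 + 4 * m)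
    (hin : ∀ p : ℕ, p.Prime → p ≤ 29 → ∀ X : ℤ, ¬ (p : ℤ) ∣ X ^ 2 + B * X - m) :
    m % 2 = 1 ∧ B % 2 = 1 ∧ d % 8 = 5 ∧ DOK (B ^ 2 + 4 * m) ∧ K5.In 29 (B ^ 2 + 4 * m) ∧
      Nat.Coprime d (QB ^ 6) := by
  obtain ⟨h1, h2, h3, h4, h5⟩ := basics hd (fun p hp hle => hin p hp (by omega))
  have hj := in_of_root hd (p := 29) (by norm_num) (by norm_num)
    (hin 29 (by norm_num) le_rfl)
  rw [← hd]
  refine ⟨h1, h2, h3, h4, In_of_jac (by norm_num) (by simp) hj, ?_⟩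
  unfold QB
  rw [mul_pow]
  apply Nat.Coprime.mul_right h5
  apply Nat.Coprime.pow_right
  rw [Nat.coprime_comm, Nat.Prime.coprime_iff_not_dvd (by norm_num)]
  intro hdvd
  have hne : jacobiSym (d : ℤ) 29 ≠ 0 := by rw [hj]; norm_num
  apply hne
  have : Fact (Nat.Prime 29) := ⟨by norm_num⟩
  rw [← jacobiSym.legendreSym.to_jacobiSym, legendreSym.eq_zero_iff]
  have : ((d : ℕ) : ZMod 29) = 0 := by rw [ZMod.natCast_eq_zero_iff]; exact hdvd
  exact_mod_cast this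

/-- the conditions on the characters -/
lemma cond_charB {d : ℕ} (hcopP : Nat.Coprime d (QB ^ 6))
    (n1 n2 n3 M T1 T2 T3 : ℕ) [NeZero n1] [NeZero n2] [NeZero n3] [NeZero (n1 * n2)]
    [NeZero (n1 * n2 * n3)] (h1 : relOk n1 n2 n3 M T1 T2 T3 = true) (h2 : tabCk n1 M T1 = true)
    (h3 : tabCk n2 M T2 = true) (h4 : tabCk n3 M T3 = true) (hM : M % 2 = 1)
    (h5 : (n1 * n2 * n3 * M) ∣ QB ^ 6) :
    Nat.Coprime (n1 * n2 * n3) d ∧ Nat.Coprime d M ∧
    (∀ x, tri (tabc n1 M T1) (tabc n2 M T2) (tabc n3 M T3) (-x) =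
      - tri (tabc n1 M T1) (tabc n2 M T2) (tabc n3 M T3) x) ∧
    (∀ x y, tri (tabc n1 M T1) (tabc n2 M T2) (tabc n3 M T3) (x * y) =
      tri (tabc n1 M T1) (tabc n2 M T2) (tabc n3 M T3) x *
        tri (tabc n1 M T1) (tabc n2 M T2) (tabc n3 M T3) y) ∧
    (∑ u ∈ range (n1 * n2 * n3), (u : ZMod M) *
      tri (tabc n1 M T1) (tabc n2 M T2) (tabc n3 M T3) (u : ZMod (n1 * n2 * n3))) *
      ((n1 * n2 * n3 : ℕ) : ZMod M) = 0 := by
  have hN : 0 < M := by omega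
  obtain ⟨ho, hs⟩ := K4.relOk_spec hN h1 h2 h3 h4
  exact ⟨(Nat.Coprime.coprime_dvd_right ((Dvd.intro _ rfl).trans h5) hcopP).symm,
    Nat.Coprime.coprime_dvd_right ((Dvd.intro_left _ rfl).trans h5) hcopP, ho,
    (tri_char (n1 := n1) (n2 := n2) (n3 := n3) (tabCk_char h2) (tabCk_char h3)
      (tabCk_char h4)).mul, hs⟩

/-- **odd periods** -/
theorem relJ_odd (h : Data m B s x c) (hm : 0 < m) {I : ℕ}
    (hL : minimalPeriod gsh (x 1) = 2 * I + 1)
    [IsDomain (QuadraticAlgebra ℤ m B)] [UniqueFactorizationMonoid (QuadraticAlgebra ℤ m B)]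
    {d : ℕ} (hd : (d : ℤ) = B ^ 2 + 4 * m)
    (hin : ∀ p : ℕ, p.Prime → p ≤ 29 → ∀ X : ℤ, ¬ (p : ℤ) ∣ X ^ 2 + B * X - m) :
    RelJ (B ^ 2 + 4 * m) (JH false B m (wn c 1 I)) := by
  obtain ⟨hm2, hB2, h8, hD, h29, hcop⟩ := basicsB hd hin
  refine ⟨hD, h29, disc_JH _ _ _ _, ?_⟩
  intro n1 n2 n3 M T1 T2 T3 _ _ _ _ _ h1 h2 h3 h4 hM h5
  obtain ⟨c1, c2, c3, c4, c5⟩ := cond_charB hcop n1 n2 n3 M T1 T2 T3 h1 h2 h3 h4 hM h5
  have key := V_eq_zero h hm hm2 hB2 hL hd h8 c1 hM c2 _ c3 c4 c5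
  unfold V at key
  change sumJ _ (JH false B m (wn c 1 I)) = 0
  unfold JH
  rw [sumJ_cons, sum_JT_false, wn_map]
  rw [← key]
  unfold YS
  push_cast
  ring

/-- **even periods** -/
theorem relJ_even (h : Data m B s x c) (hm : 0 < m) {J : ℕ} (hJ : 0 < J)
    (hL : minimalPeriod gsh (x 1) = 2 * J)
    [IsDomain (QuadraticAlgebra ℤ m B)] [UniqueFactorizationMonoid (QuadraticAlgebra ℤ m B)]
    {d : ℕ} (hd : (d : ℤ) = B ^ 2 + 4 * m)
    (hin : ∀ p : ℕ, p.Prime → p ≤ 29 → ∀ X : ℤ, ¬ (p : ℤ) ∣ X ^ 2 + B * X - m) :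
    RelJ (B ^ 2 + 4 * m) (JH true B m (wn c 1 J)) := by
  obtain ⟨hm2, hB2, h8, hD, h29, hcop⟩ := basicsB hd hin
  refine ⟨hD, h29, disc_JH _ _ _ _, ?_⟩
  intro n1 n2 n3 M T1 T2 T3 _ _ _ _ _ h1 h2 h3 h4 hM h5
  obtain ⟨c1, c2, c3, c4, c5⟩ := cond_charB hcop n1 n2 n3 M T1 T2 T3 h1 h2 h3 h4 hM h5
  have key := even_rel h hm hm2 hB2 hJ hL hd h8 c1 hM c2 _ c3 c4 c5
  rw [fold_even h hJ hL c3] at key
  unfold V at key
  obtain ⟨n, rfl⟩ : ∃ n, J = n + 1 := ⟨J - 1, by omega⟩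
  change sumJ _ (JH true B m (wn c 1 (n + 1))) = 0
  unfold JH
  have e1 : ((1, B, m) : ℤ × ℤ × ℤ) = qst m B c 1 := by
    rw [qst_eta, QR_one h, QS_one h]; rfl
  rw [sumJ_cons, wn_succ, sum_JT_true, ← wn_succ, wn_map, wn_map, e1, en_wd, en_wd, ← e1]
  rw [show n + 1 + 1 = 1 + (n + 1) by ring, show n + 1 = 1 + n by ring] at key
  rw [show 1 + (n + 1) = 1 + (1 + n) by ring, show n + 1 = 1 + n by ring]
  rw [← key]
  unfold YS
  push_cast
  ring

end Pool.Agent.SU
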