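import Pool.Agent.SU.Tree
import Pool.Agent.Lib_helper4.CW.Sml

/-!
Real quadratic fields with small units: the check of the small parameters.
-/

namespace Pool.Agent.SU

open Function Pool.Agent.Lib_helper5 Pool.Agent.LibH4 Pool.Agent.LibH4.CFO Pool.Agent.LibH4.LO
open Pool.Agent.LibH4.Ker Pool.Agent.LibH4.CW

/-- all letters are small -/
def SmW (w : List ℕ) : Prop := ∀ a ∈ w, a < 2 ^ 20

lemma pk_mod {a : ℕ} (w : List ℕ) (ha : a < 2 ^ 20) : pk (a :: w) % 1048576 = a := by
  change (a + 2 ^ 20 * pk w) % 1048576 = a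
  norm_num at ha ⊢
  omega

lemma pk_shift {a : ℕ} (w : List ℕ) (ha : a < 2 ^ 20) : pk (a :: w) >>> 20 = pk w := by
  rw [Nat.shiftRight_eq_div_pow]
  change (a + 2 ^ 20 * pk w) / 2 ^ 20 = pk w
  norm_num at ha ⊢
  omega

lemma msk_bit {S mask q : ℕ} (hq : q ≤ 127) (h : (msk S mask).testBit q = false) :
    S ≠ q ∧ mask.testBit q = false := by
  unfold msk at h
  cases hb : Nat.ble S 127 with
  | false =>
    rw [show Nat.ble S (nat_lit 127) = false from hb] at h
    refine ⟨?_, h⟩
    rintro rfl
    rw [← Bool.not_eq_true, Nat.ble_eq] at hb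
    exact hb hq
  | true =>
    rw [show Nat.ble S (nat_lit 127) = true from hb] at h
    have h2 : (mask ||| (1 <<< S)).testBit q = false := h
    rw [Nat.testBit_lor, Bool.or_eq_false_iff] at h2
    refine ⟨?_, h2.1⟩
    rintro rfl
    have := h2.2
    rw [Nat.testBit_shiftLeft] at this
    simp at this

/-- one step of the mask -/
lemma runM_succ (n W P R S mask : ℕ) : runM (n + 1) W P R S mask =
    stS (runM n) (W % 1048576) (W % 1048576 * S) (P + R * (W % 1048576)) W R S mask := rfl

lemma stS_cases (ih : ℕ → ℕ → ℕ → ℕ → ℕ → ℕ) (c cS A W R S mask : ℕ) :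
    (stS ih c cS A W R S mask = 1) ∨ (R < 2 * cS ∧ c * cS < A ∧
      stS ih c cS A W R S mask = ih (W >>> 20) S (2 * cS - R) (A - c * cS) (msk S mask)) := by
  unfold stS
  cases h1 : Nat.ble (Nat.succ R) (Nat.mul (nat_lit 2) cS) with
  | false => left; rfl
  | true =>
    cases h2 : Nat.ble (Nat.succ (Nat.mul c cS)) A with
    | false => left; rfl
    | true =>
      right
      rw [Nat.ble_eq] at h1 h2
      exact ⟨h1, h2, rfl⟩

/-- the states are positive -/
lemma stS_pos (ih : ℕ → ℕ → ℕ → ℕ → ℕ → ℕ) {c cS A R : ℕ} (W S mask : ℕ) (h1 : R < 2 * cS)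
    (h2 : c * cS < A) :
    stS ih c cS A W R S mask = ih (W >>> 20) S (2 * cS - R) (A - c * cS) (msk S mask) := by
  unfold stS
  have h1' : Nat.ble (Nat.succ R) (Nat.mul (nat_lit 2) cS) = true := by
    rw [Nat.ble_eq]; exact h1
  have h2' : Nat.ble (Nat.succ (Nat.mul c cS)) A = true := by
    rw [Nat.ble_eq]; exact h2
  rw [h1', h2']
  rfl

/-- the last coefficients of the states along a word: natural numbers different from `q` -/
lemma run_int {q : ℕ} (hq : q ≤ 127) (w : List ℕ) (hw : SmW w) (P R S mask : ℕ)
    (h0 : (runM w.length (pk w) P R S mask).testBit 0 = false)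
    (h1 : (runM w.length (pk w) P R S mask).testBit q = false) :
    mask.testBit q = false ∧ ∀ i < w.length, ∃ T : ℕ, T ≠ q ∧
      (en ((P : ℤ), (R : ℤ), (S : ℤ)) ((w.take i).map fun a : ℕ => (a : ℤ))).2.2 = T := by
  induction w generalizing P R S mask with
  | nil => exact ⟨h1, fun i hi => absurd hi (Nat.not_lt_zero _)⟩
  | cons a w ih =>
    have ha : a < 2 ^ 20 := hw a List.mem_cons_self
    rw [List.length_cons, runM_succ, pk_mod w ha] at h0 h1
    rcases stS_cases (runM w.length) a (a * S) (P + R * a) (pk (a :: w)) R S mask with h | h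
    · rw [h] at h0
      exact absurd h0 (by decide)
    · obtain ⟨c1, c2, h⟩ := h
      rw [h, pk_shift w ha] at h0 h1
      obtain ⟨i1, i2⟩ := ih (fun b hb => hw b (List.mem_cons_of_mem _ hb)) _ _ _ _ h0 h1
      obtain ⟨j1, j2⟩ := msk_bit hq i1
      refine ⟨j2, fun i hi => ?_⟩
      cases i with
      | zero => exact ⟨S, j1, rfl⟩
      | succ i =>
        rw [List.length_cons, Nat.add_lt_add_iff_right] at hi
        obtain ⟨T, t1, t2⟩ := i2 i hi
        refine ⟨T, t1, ?_⟩
        rw [← t2, List.take_succ_cons, List.map_cons]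
        change (en (st (a : ℤ) ((P : ℤ), (R : ℤ), (S : ℤ))) _).2.2 = _
        congr 3
        unfold st
        simp only
        rw [Nat.cast_sub c1.le, Nat.cast_sub c2.le]
        push_cast
        refine Prod.ext rfl (Prod.ext ?_ ?_)
        · simp only
          ring
        · simp only
          ring

variable {m B : ℤ} {s : ℝ} {x : ℕ → ℝ} {c : ℕ → ℕ}

lemma runU_succ (n W P R S mask : ℕ) : runU (n + 1) W P R S mask =
    runU n (W >>> 20) S (2 * (W % 1048576 * S) - R)
      (P + R * (W % 1048576) - W % 1048576 * (W % 1048576 * S)) (msk S mask) := rfl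

/-- the last coefficients of the cycle -/
lemma run_real (h : Data m B s x c) {q : ℕ} (hq : q ≤ 127) (n k : ℕ)
    (hw : SmW (wn c (k + 1) n)) {P R S : ℕ} (hP : QP m B c (k + 1) = P)
    (hR : QR m B c (k + 1) = R) (hS : QS m B c (k + 1) = S) (mask : ℕ)
    (h1 : (runU n (pk (wn c (k + 1) n)) P R S mask).testBit q = false) :
    mask.testBit q = false ∧ ∀ j, k < j → j < k + 1 + n → QS m B c j ≠ q := by
  induction n generalizing k P R S mask with
  | zero =>
    refine ⟨h1, ?_⟩
    intro j h2 h3
    omega
  | succ n ih =>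
    have hcons : wn c (k + 1) (n + 1) = c (k + 1) :: wn c (k + 1 + 1) n := by
      unfold wn
      rw [List.range_succ_eq_map, List.map_cons, List.map_map, add_zero]
      congr 1
      apply List.map_congr_left
      intro i _
      simp only [Function.comp_apply]
      congr 1
      omega
    rw [hcons] at hw h1
    have ha : c (k + 1) < 2 ^ 20 := hw _ List.mem_cons_self
    rw [runU_succ, pk_mod _ ha] at h1
    have hR' := QR_succ (m := m) (B := B) (c := c) (k + 1)
    have hS' := QS_succ (m := m) (B := B) (c := c) (k + 1)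
    rw [hS, hR] at hR'
    rw [hP, hR, hS] at hS'
    have p1 := QR_pos h (k + 1)
    have p2 := (inv_of h (k + 1 + 1)).Spos
    rw [hR'] at p1
    rw [hS'] at p2
    have q1 : R < 2 * (c (k + 1) * S) := by
      have : (R : ℤ) < ((2 * (c (k + 1) * S) : ℕ) : ℤ) := by push_cast; linarith
      exact_mod_cast this
    have q2 : c (k + 1) * (c (k + 1) * S) < P + R * c (k + 1) := by
      have : ((c (k + 1) * (c (k + 1) * S) : ℕ) : ℤ) < ((P + R * c (k + 1) : ℕ) : ℤ) := by
        push_cast; linarith
      exact_mod_cast this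
    rw [pk_shift _ ha] at h1
    obtain ⟨i1, i2⟩ := ih (k + 1) (fun b hb => hw b (List.mem_cons_of_mem _ hb))
      (by rw [QP_succ, hS])
      (by rw [hR', Nat.cast_sub q1.le]; push_cast; ring)
      (by rw [hS', Nat.cast_sub q2.le]; push_cast; ring) _ h1
    obtain ⟨j1, j2⟩ := msk_bit hq i1
    refine ⟨j2, fun j h2 h3 => ?_⟩
    rcases Nat.lt_or_ge (k + 1) j with h4 | h4
    · exact i2 j h4 (by omega)
    · have : j = k + 1 := by omega
      rw [this, hS]
      exact_mod_cast j1

/-! ### monotonicity in the parameter -/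

lemma en_mono {w w' : List ℕ} {v u : ℕ} (hv : (mat (w ++ w')).1 = v)
    (hu : (mat (w ++ w')).2.2.1 = u) (B m : ℤ) (n : ℕ) :
    (en (1, B, m) (w.map fun a : ℕ => (a : ℤ))).2.2 ≤
      (en (1, B + n * v, m + n * u) (w.map fun a : ℕ => (a : ℤ))).2.2 := by
  rw [en_mat, en_mat]
  simp only
  rw [mat_append] at hv hu
  have hdet := det_mat w
  unfold detM at hdet
  unfold mulM at hv hu
  simp only at hv hu
  subst hv hu
  have hsg : ((-1 : ℤ) ^ w.length) * (-1) ^ w.length = 1 := by
    rw [← mul_pow]; norm_num
  have key : (-1) ^ (w.length + 1) * qw (B + n * ((mat w).1 * (mat w').1 + (mat w).2.1 *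
      (mat w').2.2.1 : ℕ)) (m + n * ((mat w).2.2.1 * (mat w').1 + (mat w).2.2.2 *
      (mat w').2.2.1 : ℕ)) (mat w).2.2.1 (mat w).1 =
      (-1) ^ (w.length + 1) * qw B m (mat w).2.2.1 (mat w).1 +
        n * ((mat w).1 * (mat w').2.2.1) := by
    unfold qw
    push_cast
    rw [pow_succ]
    linear_combination (n * ((mat w).1 * (mat w').2.2.1) : ℤ) * hsg +
      (-1) ^ w.length * (n * ((mat w).1 * (mat w').2.2.1)) * hdet
  rw [key]
  have : (0 : ℤ) ≤ n * ((mat w).1 * (mat w').2.2.1) := by positivity
  linarith

/-! ### the check of the parameters -/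

lemma anyL_true {α : Type} {p : α → Bool} {L : List α} (h : anyL p L = true) :
    ∃ x ∈ L, p x = true := by
  induction L with
  | nil => exact absurd (show false = true from h) (by decide)
  | cons x L ih =>
    have h2 : @Bool.rec (fun _ => Bool) (anyL p L) true (p x) = true := h
    cases hp : p x with
    | true => exact ⟨x, List.mem_cons_self, hp⟩
    | false =>
      rw [hp] at h2
      obtain ⟨y, h3, h4⟩ := ih h2
      exact ⟨y, List.mem_cons_of_mem _ h3, h4⟩

/-- the entries of the list of primes -/
def toL : PLt → List (ℕ × ℕ × ℕ × ℕ)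
  | .nil => []
  | .cons q M T F l => (q, M, T, F) :: toL l

lemma certP_true {D mask : ℕ} {pl : PLt} (h : certP D mask pl = true) :
    ∃ y ∈ toL pl, bit y.2.2.1 (D % y.2.1) = 0 ∧ bit mask y.1 = 0 ∧ y.2.2.2 ≤ D := by
  induction pl with
  | nil => exact absurd (show false = true from h) (by decide)
  | cons q M T F l ih =>
    have h2 : cert1 D mask q M T F (certP D mask l) = true := h
    have next : certP D mask l = true → ∃ y ∈ toL (.cons q M T F l),
        bit y.2.2.1 (D % y.2.1) = 0 ∧ bit mask y.1 = 0 ∧ y.2.2.2 ≤ D := by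
      intro h3
      obtain ⟨y, hy, h4⟩ := ih h3
      exact ⟨y, List.mem_cons_of_mem _ hy, h4⟩
    unfold cert1 at h2
    cases h5 : bit T (Nat.mod D M) with
    | succ n =>
      rw [h5] at h2
      exact next h2
    | zero =>
      rw [h5] at h2
      cases h6 : bit mask q with
      | succ n =>
        rw [h6] at h2
        exact next h2
      | zero =>
        rw [h6] at h2
        cases h7 : Nat.ble F D with
        | false =>
          rw [h7] at h2
          exact next h2
        | true =>
          exact ⟨(q, M, T, F), List.mem_cons_self, h5, h6, by rw [Nat.ble_eq] at h7; exact h7⟩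

lemma cert_true {pl : PLt} {dl : List ℕ} {X v D mask : ℕ}
    (h : cert pl dl X v D mask = true) :
    (∃ y ∈ toL pl, bit y.2.2.1 (D % y.2.1) = 0 ∧ bit mask y.1 = 0 ∧ y.2.2.2 ≤ D) ∨ D ∈ dl ∨
      (D % 2 = 0 ∧ X < 2 * v) := by
  unfold cert at h
  cases h1 : certP D mask pl with
  | true => exact Or.inl (certP_true h1)
  | false =>
    rw [h1] at h
    cases h2 : anyL (Nat.beq D) dl with
    | true =>
      obtain ⟨y, h3, h4⟩ := anyL_true h2
      rw [Nat.beq_eq] at h4
      exact Or.inr (Or.inl (h4 ▸ h3))
    | false =>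
      rw [h2] at h
      obtain ⟨h3, h4⟩ := andB_true h
      rw [Nat.beq_eq] at h3
      rw [Nat.ble_eq] at h4
      exact Or.inr (Or.inr ⟨h3, h4⟩)

lemma mx_le (a q : ℕ) : a ≤ mx a q ∧ q ≤ mx a q := by
  unfold mx
  cases h : Nat.ble a q with
  | false =>
    rw [← Bool.not_eq_true, Nat.ble_eq] at h
    change a ≤ a ∧ q ≤ a
    omega
  | true =>
    rw [Nat.ble_eq] at h
    change a ≤ q ∧ q ≤ q
    omega

lemma mxd_succ (n W q : ℕ) : mxd (n + 1) W q = mxd n (W >>> 20) (mx (W % 1048576) q) := rfl

lemma mxd_le (w : List ℕ) (hw : SmW w) (q : ℕ) :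
    q ≤ mxd w.length (pk w) q ∧ ∀ a ∈ w, a ≤ mxd w.length (pk w) q := by
  induction w generalizing q with
  | nil => exact ⟨le_rfl, fun a ha => absurd ha (by simp)⟩
  | cons a w ih =>
    have ha : a < 2 ^ 20 := hw a List.mem_cons_self
    rw [List.length_cons, mxd_succ, pk_mod w ha, pk_shift w ha]
    obtain ⟨i1, i2⟩ := ih (fun b hb => hw b (List.mem_cons_of_mem _ hb)) (mx a q)
    obtain ⟨j1, j2⟩ := mx_le a q
    refine ⟨j2.trans i1, fun b hb => ?_⟩
    rcases List.mem_cons.1 hb with rfl | hb
    · exact j1.trans i1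
    · exact i2 b hb

/-- the last coefficients are large if `B` is large -/
lemma big_B (h : Data m B s x c) {j q : ℕ} (hj : 1 ≤ j) (hq : c j ≤ q)
    (hB : 60 * ((q : ℤ) + 1) ≤ B) : 30 ≤ QS m B c j := by
  obtain ⟨k, rfl⟩ : ∃ k, j = k + 1 := ⟨j - 1, by omega⟩
  have hR := QR_pos h k
  have inv := inv_of h (k + 1)
  have hfl := Int.lt_floor_add_one (x (k + 1))
  rw [← h.fl (k + 1), inv.xe] at hfl
  have hS : (0 : ℝ) < QS m B c (k + 1) := by exact_mod_cast inv.Spos
  rw [div_lt_iff₀ (by positivity)] at hfl
  have hRr : (0 : ℝ) < QR m B c (k + 1) := by exact_mod_cast hR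
  have hqr : (c (k + 1) : ℝ) ≤ q := by exact_mod_cast hq
  have hBr : (60 : ℝ) * (q + 1) ≤ B := by exact_mod_cast hB
  have hBs := h.Bs
  by_contra hcon
  have h1 : QS m B c (k + 1) ≤ 29 := by omega
  have h2 : (QS m B c (k + 1) : ℝ) ≤ 29 := by exact_mod_cast h1
  have hq0 : (0 : ℝ) ≤ q := by positivity
  have h3 : ((c (k + 1) : ℤ) : ℝ) + 1 ≤ q + 1 := by push_cast; linarith
  have h4 : (((c (k + 1) : ℤ) : ℝ) + 1) * (2 * QS m B c (k + 1)) ≤ (q + 1) * (2 * 29) :=
    mul_le_mul h3 (by linarith) (by positivity) (by positivity)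
  nlinarith

/-- the result of the check of the parameters -/
lemma smallB_spec {pl : PLt} {dl : List ℕ} {X h W v u b : ℕ} (fuel : ℕ) (B m : ℕ)
    (hs : smallB pl dl X h W v u b fuel B m = true) (n : ℕ) (hB : 1 ≤ B + n * v) :
    (b ≤ B + n * v) ∨
    (∃ i, i ≤ n ∧ 1 ≤ B + i * v ∧ 3365 ≤ (B + i * v) * (B + i * v) + 4 * (m + i * u) ∧
      runM h W 1 (B + i * v) (m + i * u) 0 % 2 ^ 30 = 0) ∨
    free ((B + n * v) * (B + n * v) + 4 * (m + n * u))
      (runU h W 1 (B + n * v) (m + n * u) 0) = true ∨
    cert pl dl X v ((B + n * v) * (B + n * v) + 4 * (m + n * u))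
      (runU h W 1 (B + n * v) (m + n * u) 0) = true := by
  induction fuel generalizing B m n with
  | zero => exact absurd (show false = true from hs) (by decide)
  | succ fuel ih =>
    have h2 : @Bool.rec (fun _ => Bool)
      (@Bool.rec (fun _ => Bool) (smallB pl dl X h W v u b fuel (B + v) (m + u))
        (smallD pl dl X v (smallB pl dl X h W v u b fuel (B + v) (m + u)) (Nat.ble b (B + v))
          (B * B + 4 * m) (runU h W 1 B m 0) (runM h W 1 B m 0)) (Nat.ble 1 B)) true
      (Nat.ble b B) = true := hs
    have next : smallB pl dl X h W v u b fuel (B + v) (m + u) = true → 1 ≤ n →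
        (b ≤ B + n * v) ∨
        (∃ i, i ≤ n ∧ 1 ≤ B + i * v ∧ 3365 ≤ (B + i * v) * (B + i * v) + 4 * (m + i * u) ∧
          runM h W 1 (B + i * v) (m + i * u) 0 % 2 ^ 30 = 0) ∨
        free ((B + n * v) * (B + n * v) + 4 * (m + n * u))
          (runU h W 1 (B + n * v) (m + n * u) 0) = true ∨
        cert pl dl X v ((B + n * v) * (B + n * v) + 4 * (m + n * u))
          (runU h W 1 (B + n * v) (m + n * u) 0) = true := by
      intro h3 hn
      obtain ⟨n, rfl⟩ : ∃ k, n = k + 1 := ⟨n - 1, by omega⟩
      have e1 : ∀ (i b a : ℕ), b + (i + 1) * a = b + a + i * a := fun i b a => by ring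
      rcases ih (B + v) (m + u) h3 n (by rw [← e1]; exact hB) with h4 | ⟨i, i1, i2, i3, i4⟩ | h4
      · left
        rw [e1]
        exact h4
      · right
        left
        refine ⟨i + 1, by omega, ?_, ?_, ?_⟩
        · rw [e1]; exact i2
        · rw [e1 i B v, e1 i m u]; exact i3
        · rw [e1 i B v, e1 i m u]; exact i4
      · right
        right
        rw [e1 n B v, e1 n m u]
        exact h4
    cases hbB : Nat.ble b B with
    | true =>
      left
      rw [Nat.ble_eq] at hbB
      exact hbB.trans (Nat.le_add_right _ _)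
    | false =>
      rw [hbB] at h2
      cases hb : Nat.ble 1 B with
      | false =>
        rw [hb] at h2
        refine next h2 ?_
        rw [← Bool.not_eq_true, Nat.ble_eq] at hb
        rcases Nat.eq_zero_or_pos n with rfl | hn
        · omega
        · exact hn
      | true =>
        rw [hb] at h2
        rw [Nat.ble_eq] at hb
        have h3 : @Bool.rec (fun _ => Bool) (andB (cert pl dl X v (B * B + 4 * m)
          (runU h W 1 B m 0)) (smallB pl dl X h W v u b fuel (B + v) (m + u)))
          (@Bool.rec (fun _ => Bool)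
            (@Bool.rec (fun _ => Bool) (smallB pl dl X h W v u b fuel (B + v) (m + u)) true
              (stop (runU h W 1 B m 0) (runM h W 1 B m 0)))
            (smallB pl dl X h W v u b fuel (B + v) (m + u)) (Nat.ble b (B + v)))
          (free (B * B + 4 * m) (runU h W 1 B m 0)) = true := h2
        cases hf : free (B * B + 4 * m) (runU h W 1 B m 0) with
        | true =>
          rw [hf] at h3
          have hfree : smallB pl dl X h W v u b fuel (B + v) (m + u) = true →
              (b ≤ B + n * v) ∨
              (∃ i, i ≤ n ∧ 1 ≤ B + i * v ∧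
                3365 ≤ (B + i * v) * (B + i * v) + 4 * (m + i * u) ∧
                runM h W 1 (B + i * v) (m + i * u) 0 % 2 ^ 30 = 0) ∨
              free ((B + n * v) * (B + n * v) + 4 * (m + n * u))
                (runU h W 1 (B + n * v) (m + n * u) 0) = true ∨
              cert pl dl X v ((B + n * v) * (B + n * v) + 4 * (m + n * u))
                (runU h W 1 (B + n * v) (m + n * u) 0) = true := by
            intro h5
            rcases Nat.eq_zero_or_pos n with rfl | hn
            · right
              right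
              left
              rw [zero_mul, zero_mul, add_zero, add_zero]
              exact hf
            · exact next h5 hn
          cases hg : Nat.ble b (B + v) with
          | true =>
            rw [hg] at h3
            exact hfree h3
          | false =>
            rw [hg] at h3
            cases hst : stop (runU h W 1 B m 0) (runM h W 1 B m 0) with
            | true =>
              right
              left
              obtain ⟨-, s1⟩ := andB_true hst
              obtain ⟨-, s2⟩ := andB_true hf
              rw [Nat.beq_eq] at s1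
              rw [Nat.ble_eq] at s2
              refine ⟨0, Nat.zero_le _, by omega, ?_, ?_⟩
              · rw [zero_mul, zero_mul, add_zero, add_zero]
                exact s2
              · rw [zero_mul, zero_mul, add_zero, add_zero]
                exact s1
            | false =>
              rw [hst] at h3
              exact hfree h3
        | false =>
          rw [hf] at h3
          obtain ⟨h4, h5⟩ := andB_true h3
          rcases Nat.eq_zero_or_pos n with rfl | hn
          · right
            right
            right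
            rw [zero_mul, zero_mul, add_zero, add_zero]
            exact h4
          · exact next h5 hn

end Pool.Agent.SU
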