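import Pool.Agent.SU.Mat
import Pool.Agent.SU.Ker

/-!
Real quadratic fields with small units: the tree of the half words.
-/

namespace Pool.Agent.SU

open Pool.Agent.LibH4.Ker Pool.Agent.LibH4.CW

/-! ### kernel functions -/

lemma andB_true {p q : Bool} (h : andB p q = true) : p = true ∧ q = true := by
  unfold andB at h
  cases p
  · exact absurd (show false = true from h) (by decide)
  · exact ⟨rfl, h⟩

lemma br_true {p r : Bool} (h : br p r = true) (hp : p = true) : r = true := by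
  unfold br at h
  subst hp
  exact h

lemma allR_true {p : ℕ → Bool} {n : ℕ} (h : allR p n = true) (i : ℕ) (hi : i < n) :
    p i = true := by
  induction n with
  | zero => omega
  | succ n ih =>
    have h2 : @Bool.rec (fun _ => Bool) false (allR p n) (p n) = true := h
    cases hp : p n with
    | false => rw [hp] at h2; exact absurd (show false = true from h2) (by decide)
    | true =>
      rw [hp] at h2
      rcases Nat.lt_or_eq_of_le (Nat.lt_succ_iff.1 hi) with h3 | h3
      · exact ih h2 h3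
      · rw [h3]; exact hp

/-! ### words -/

lemma pk_concat (w : List ℕ) (a : ℕ) : pk (w ++ [a]) = pk w + a * 2 ^ (20 * w.length) := by
  induction w with
  | nil => simp [pk]
  | cons b w ih =>
    change b + 2 ^ 20 * pk (w ++ [a]) = b + 2 ^ 20 * pk w + _
    rw [ih, List.length_cons, show 20 * (w.length + 1) = 20 + 20 * w.length by ring, pow_add]
    ring

/-- the size of a word -/
def nn (w : List ℕ) : ℕ := (mat w).1 ^ 2 + (mat w).2.1 ^ 2

lemma nn_concat (w : List ℕ) (a : ℕ) :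
    nn (w ++ [a]) = (a * (mat w).1 + (mat w).2.1) ^ 2 + (mat w).1 ^ 2 := by
  unfold nn
  rw [mat_concat]
  rfl

lemma nn_le {w : List ℕ} (hw : PosW w) (w' : List ℕ) (hw' : PosW w') : nn w ≤ nn (w ++ w') := by
  induction w' using List.reverseRecOn with
  | nil => rw [List.append_nil]
  | append_singleton w' a ih =>
    have h1 : PosW w' := fun b hb => hw' b (List.mem_append_left _ hb)
    have ha : 1 ≤ a := hw' a (by simp)
    refine (ih h1).trans ?_
    rw [← List.append_assoc, nn_concat]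
    have h2 := mat_pos (w := w ++ w') (fun b hb => by
      rcases List.mem_append.1 hb with hb | hb
      · exact hw b hb
      · exact h1 b hb)
    unfold nn
    set K := (mat (w ++ w')).1
    set K' := (mat (w ++ w')).2.1
    have h3 : K ≤ a * K + K' := by
      have : 1 * K ≤ a * K := Nat.mul_le_mul_right _ ha
      omega
    have h4 : K ^ 2 ≤ (a * K + K') ^ 2 := Nat.pow_le_pow_left h3 2
    have h5 : K' ^ 2 ≤ K ^ 2 := Nat.pow_le_pow_left h2.2 2
    omega

/-- the continuant of an even period -/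
def ev (w : List ℕ) (a : ℕ) : ℕ := (mat w).1 * (a * (mat w).1 + 2 * (mat w).2.1)

lemma ev_le (w : List ℕ) {a : ℕ} (ha : 1 ≤ a) : ev w a ≤ nn (w ++ [a]) := by
  rw [nn_concat]
  unfold ev
  set K := (mat w).1
  set K' := (mat w).2.1
  obtain ⟨b, rfl⟩ : ∃ b, a = b + 1 := ⟨a - 1, by omega⟩
  have e : ((b + 1) * K + K') ^ 2 + K ^ 2 = K * ((b + 1) * K + 2 * K') +
      (b * (b + 1) * K ^ 2 + 2 * b * K * K' + K' ^ 2 + K ^ 2) := by ring
  rw [e]
  exact Nat.le_add_right _ _

lemma nn_le_ev {w : List ℕ} (hw : PosW w) {a : ℕ} (ha : 1 ≤ a) : nn w ≤ ev w a := by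
  unfold nn ev
  have h := (mat_pos hw).2
  set K := (mat w).1
  set K' := (mat w).2.1
  have h1 : 1 * K ≤ a * K := Nat.mul_le_mul_right _ ha
  have h2 : K * (K + 2 * K') ≤ K * (a * K + 2 * K') := Nat.mul_le_mul_left _ (by omega)
  have h3 : K' * K' ≤ K * K' := Nat.mul_le_mul_right _ h
  nlinarith

/-! ### families -/

/-- the check of a family with the matrix of the period -/
def Fw (F : Bool → ℕ → ℕ → ℕ → ℕ → ℕ → Bool) (par : Bool) (w : List ℕ)
    (M : ℕ × ℕ × ℕ × ℕ) : Prop := F par w.length (pk w) M.1 M.2.1 M.2.2.2 = true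

/-- the matrix of an odd period from the matrix of the half word -/
def oM (M : ℕ × ℕ × ℕ × ℕ) : ℕ × ℕ × ℕ × ℕ :=
  (M.1 * M.1 + M.2.1 * M.2.1, M.1 * M.2.2.1 + M.2.1 * M.2.2.2,
    M.1 * M.2.2.1 + M.2.1 * M.2.2.2, M.2.2.1 * M.2.2.1 + M.2.2.2 * M.2.2.2)

/-- the matrix of an even period from the matrix of the half word and the middle letter -/
def eM (M : ℕ × ℕ × ℕ × ℕ) (a : ℕ) : ℕ × ℕ × ℕ × ℕ :=
  (M.1 * (a * M.1 + 2 * M.2.1), a * M.1 * M.2.2.1 + M.1 * M.2.2.2 + M.2.1 * M.2.2.1,
    a * M.1 * M.2.2.1 + M.1 * M.2.2.2 + M.2.1 * M.2.2.1,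
    M.2.2.1 * (a * M.2.2.1 + 2 * M.2.2.2))

/-- all families of the words which start with `w` are checked -/
def AB (F : Bool → ℕ → ℕ → ℕ → ℕ → ℕ → Bool) (X : ℕ) (w : List ℕ) : Prop :=
  (∀ w', PosW w' → nn (w ++ w') ≤ X → Fw F false (w ++ w') (oM (mat (w ++ w')))) ∧
  ∀ w' a, PosW w' → 1 ≤ a → ev (w ++ w') a ≤ X →
    Fw F true (w ++ w' ++ [a]) (eM (mat (w ++ w')) a)

variable {F : Bool → ℕ → ℕ → ℕ → ℕ → ℕ → Bool} {X : ℕ}

lemma AB_of {w : List ℕ} (hw : PosW w) (h0 : nn w ≤ X → Fw F false w (oM (mat w)))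
    (h1 : ∀ a, 1 ≤ a → ev w a ≤ X → Fw F true (w ++ [a]) (eM (mat w) a) ∧
      (nn (w ++ [a]) ≤ X → AB F X (w ++ [a]))) : AB F X w := by
  have hcc : ∀ (a : ℕ) (w' : List ℕ), PosW (a :: w') → 1 ≤ a ∧ PosW w' ∧ PosW (w ++ [a]) := by
    intro a w' h
    have ha : 1 ≤ a := h a List.mem_cons_self
    refine ⟨ha, fun b hb => h b (List.mem_cons_of_mem _ hb), fun b hb => ?_⟩
    rcases List.mem_append.1 hb with hb | hb
    · exact hw b hb
    · rw [List.mem_singleton.1 hb]; exact ha
  have happ : ∀ (a : ℕ) (w' : List ℕ), w ++ a :: w' = w ++ [a] ++ w' := by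
    intro a w'
    rw [List.append_assoc]
    rfl
  constructor
  · intro w' hw' hn
    cases w' with
    | nil =>
      rw [List.append_nil] at hn ⊢
      exact h0 hn
    | cons a w' =>
      obtain ⟨ha, hw1, hw2⟩ := hcc a w' hw'
      rw [happ] at hn ⊢
      have h2 : nn (w ++ [a]) ≤ X := (nn_le hw2 w' hw1).trans hn
      exact ((h1 a ha ((ev_le w ha).trans h2)).2 h2).1 w' hw1 hn
  · intro w' b hw' hb hn
    cases w' with
    | nil =>
      rw [List.append_nil] at hn ⊢
      exact (h1 b hb hn).1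
    | cons a w' =>
      obtain ⟨ha, hw1, hw2⟩ := hcc a w' hw'
      rw [happ] at hn ⊢
      have h3 : PosW (w ++ [a] ++ w') := by
        intro e he
        rcases List.mem_append.1 he with he | he
        · exact hw2 e he
        · exact hw1 e he
      have h2 : nn (w ++ [a]) ≤ X := ((nn_le hw2 w' hw1).trans (nn_le_ev h3 hb)).trans hn
      exact ((h1 a ha ((ev_le w ha).trans h2)).2 h2).2 w' b hw1 hb hn

/-- specification of the function for the words below -/
def IH (F : Bool → ℕ → ℕ → ℕ → ℕ → ℕ → Bool) (X : ℕ) (ih : ℕ → ℕ → ℕ → ℕ → ℕ → ℕ → Bool) : Prop :=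
  ∀ w, PosW w → ih w.length (pk w) (mat w).1 (mat w).2.1 (mat w).2.2.1 (mat w).2.2.2 = true →
    AB F X w

lemma stepA_spec {ih : ℕ → ℕ → ℕ → ℕ → ℕ → ℕ → Bool} (hih : IH F X ih) {w : List ℕ}
    (hw : PosW w) {a : ℕ} (ha : 1 ≤ a)
    (h : stepA F X ih w.length (pk w) (mat w).1 (mat w).2.1 (mat w).2.2.1 (mat w).2.2.2 a = true) :
    Fw F true (w ++ [a]) (eM (mat w) a) ∧ (nn (w ++ [a]) ≤ X → AB F X (w ++ [a])) := by
  obtain ⟨h1, h2⟩ := andB_true h
  have hpk : Nat.add (pk w) (Nat.mul a (Nat.pow 2 (Nat.mul 20 w.length))) = pk (w ++ [a]) :=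
    (pk_concat w a).symm
  have hlen : Nat.succ w.length = (w ++ [a]).length := by simp
  have hm := mat_concat w a
  constructor
  · unfold Fw
    have e1 : (eM (mat w) a).1 = Nat.mul (mat w).1 (Nat.add (Nat.add (Nat.mul a (mat w).1)
        (mat w).2.1) (mat w).2.1) := by
      change (mat w).1 * (a * (mat w).1 + 2 * (mat w).2.1) =
        (mat w).1 * (a * (mat w).1 + (mat w).2.1 + (mat w).2.1)
      ring
    have e2 : (eM (mat w) a).2.1 = Nat.add (Nat.mul (Nat.add (Nat.mul a (mat w).1) (mat w).2.1)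
        (mat w).2.2.1) (Nat.mul (mat w).1 (mat w).2.2.2) := by
      change a * (mat w).1 * (mat w).2.2.1 + (mat w).1 * (mat w).2.2.2 +
        (mat w).2.1 * (mat w).2.2.1 = (a * (mat w).1 + (mat w).2.1) * (mat w).2.2.1 +
          (mat w).1 * (mat w).2.2.2
      ring
    have e3 : (eM (mat w) a).2.2.2 = Nat.mul (mat w).2.2.1 (Nat.add (Nat.add (Nat.mul a
        (mat w).2.2.1) (mat w).2.2.2) (mat w).2.2.2) := by
      change (mat w).2.2.1 * (a * (mat w).2.2.1 + 2 * (mat w).2.2.2) =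
        (mat w).2.2.1 * (a * (mat w).2.2.1 + (mat w).2.2.2 + (mat w).2.2.2)
      ring
    rw [e1, e2, e3, ← hlen, ← hpk]
    exact h1
  · intro hn
    apply hih
    · intro b hb
      rcases List.mem_append.1 hb with hb | hb
      · exact hw b hb
      · rw [List.mem_singleton.1 hb]; exact ha
    · rw [hm, ← hlen, ← hpk]
      apply br_true h2
      rw [Nat.ble_eq]
      rw [nn_concat] at hn
      have e : Nat.add (Nat.mul (Nat.add (Nat.mul a (mat w).1) (mat w).2.1)
          (Nat.add (Nat.mul a (mat w).1) (mat w).2.1)) (Nat.mul (mat w).1 (mat w).1) =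
          (a * (mat w).1 + (mat w).2.1) ^ 2 + (mat w).1 ^ 2 := by
        change (a * (mat w).1 + (mat w).2.1) * (a * (mat w).1 + (mat w).2.1) +
          (mat w).1 * (mat w).1 = _
        ring
      rw [e]
      exact hn

lemma rangeW_spec {ih : ℕ → ℕ → ℕ → ℕ → ℕ → ℕ → Bool} (hih : IH F X ih) {w : List ℕ}
    (hw : PosW w) {lo n : ℕ} (hlo : 1 ≤ lo)
    (h : rangeW F X ih w.length (pk w) (mat w).1 (mat w).2.1 (mat w).2.2.1 (mat w).2.2.2 lo n =
      true) (a : ℕ) (h1 : lo ≤ a) (h2 : a < lo + n) :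
    Fw F true (w ++ [a]) (eM (mat w) a) ∧ (nn (w ++ [a]) ≤ X → AB F X (w ++ [a])) := by
  have h3 := allR_true h (a - lo) (by omega)
  have e : Nat.add lo (a - lo) = a := by
    change lo + (a - lo) = a
    omega
  rw [e] at h3
  exact stepA_spec hih hw (by omega) h3

/-- the largest letter -/
lemma ev_bound {w : List ℕ} (hw : PosW w) {a : ℕ} (h : ev w a ≤ X) :
    a ≤ (X / (mat w).1 - 2 * (mat w).2.1) / (mat w).1 := by
  have hK := (mat_pos hw).1
  rw [Nat.le_div_iff_mul_le hK]
  unfold ev at h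
  have h1 : a * (mat w).1 + 2 * (mat w).2.1 ≤ X / (mat w).1 := by
    rw [Nat.le_div_iff_mul_le hK, mul_comm]
    exact h
  omega

theorem walk_spec (fuel : ℕ) : IH F X (walk F X fuel) := by
  induction fuel with
  | zero =>
    intro w hw h
    exact absurd (show false = true from h) (by decide)
  | succ fuel ih =>
    intro w hw h
    obtain ⟨h1, h2⟩ := andB_true (show andB (oddC F w.length (pk w) (mat w).1 (mat w).2.1
      (mat w).2.2.1 (mat w).2.2.2) (rangeW F X (walk F X fuel) w.length (pk w) (mat w).1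
        (mat w).2.1 (mat w).2.2.1 (mat w).2.2.2 1
        ((X / (mat w).1 - 2 * (mat w).2.1) / (mat w).1)) = true from h)
    refine AB_of hw (fun _ => h1) fun a ha hev => ?_
    exact rangeW_spec ih hw le_rfl h2 a ha (by have := ev_bound hw hev; omega)

/-- nodes -/
lemma nodes_spec {ih : ℕ → ℕ → ℕ → ℕ → ℕ → ℕ → Bool} (hih : IH F X ih) {w : List ℕ}
    (hw : PosW w) {lo n : ℕ} (hlo : 1 ≤ lo)
    (h : nodes ih w.length (pk w) (mat w).1 (mat w).2.1 (mat w).2.2.1 (mat w).2.2.2 lo n =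
      true) (a : ℕ) (h1 : lo ≤ a) (h2 : a < lo + n) : AB F X (w ++ [a]) := by
  have h3 := allR_true h (a - lo) (by omega)
  have e : Nat.add lo (a - lo) = a := by
    change lo + (a - lo) = a
    omega
  rw [e] at h3
  apply hih
  · intro b hb
    rcases List.mem_append.1 hb with hb | hb
    · exact hw b hb
    · rw [List.mem_singleton.1 hb]; omega
  · rw [mat_concat, ← show Nat.succ w.length = (w ++ [a]).length by simp, pk_concat]
    exact h3

end Pool.Agent.SU
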