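import Pool.Agent.SU.FDef

/-! generated: parts of the tree -/

namespace Pool.Agent.SU

set_option maxRecDepth 100000

def w61 : PLift (pc FF 10000 [] 2218 80 = true) := ⟨by decide +kernel⟩
def w62 : PLift (pc FF 10000 [] 2298 80 = true) := ⟨by decide +kernel⟩
def w63 : PLift (pc FF 10000 [] 2378 80 = true) := ⟨by decide +kernel⟩
def w64 : PLift (pc FF 10000 [] 2458 80 = true) := ⟨by decide +kernel⟩
def w65 : PLift (pc FF 10000 [] 2538 80 = true) := ⟨by decide +kernel⟩
def w66 : PLift (pc FF 10000 [] 2618 80 = true) := ⟨by decide +kernel⟩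
def w67 : PLift (pc FF 10000 [] 2698 80 = true) := ⟨by decide +kernel⟩
def w68 : PLift (pc FF 10000 [] 2778 80 = true) := ⟨by decide +kernel⟩
def w69 : PLift (pc FF 10000 [] 2858 80 = true) := ⟨by decide +kernel⟩
def w70 : PLift (pc FF 10000 [] 2938 80 = true) := ⟨by decide +kernel⟩
def w71 : PLift (pc FF 10000 [] 3018 80 = true) := ⟨by decide +kernel⟩
def w72 : PLift (pc FF 10000 [] 3098 80 = true) := ⟨by decide +kernel⟩
def w73 : PLift (pc FF 10000 [] 3178 80 = true) := ⟨by decide +kernel⟩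
def w74 : PLift (pc FF 10000 [] 3258 80 = true) := ⟨by decide +kernel⟩
def w75 : PLift (pc FF 10000 [] 3338 80 = true) := ⟨by decide +kernel⟩
def w76 : PLift (pc FF 10000 [] 3418 80 = true) := ⟨by decide +kernel⟩
def w77 : PLift (pc FF 10000 [] 3498 80 = true) := ⟨by decide +kernel⟩
def w78 : PLift (pc FF 10000 [] 3578 80 = true) := ⟨by decide +kernel⟩
def w79 : PLift (pc FF 10000 [] 3658 80 = true) := ⟨by decide +kernel⟩
def w80 : PLift (pc FF 10000 [] 3738 80 = true) := ⟨by decide +kernel⟩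
def w81 : PLift (pc FF 10000 [] 3818 80 = true) := ⟨by decide +kernel⟩
def w82 : PLift (pc FF 10000 [] 3898 80 = true) := ⟨by decide +kernel⟩
def w83 : PLift (pc FF 10000 [] 3978 80 = true) := ⟨by decide +kernel⟩
def w84 : PLift (pc FF 10000 [] 4058 80 = true) := ⟨by decide +kernel⟩
def w85 : PLift (pc FF 10000 [] 4138 80 = true) := ⟨by decide +kernel⟩
def w86 : PLift (pc FF 10000 [] 4218 80 = true) := ⟨by decide +kernel⟩
def w87 : PLift (pc FF 10000 [] 4298 80 = true) := ⟨by decide +kernel⟩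
def w88 : PLift (pc FF 10000 [] 4378 80 = true) := ⟨by decide +kernel⟩
def w89 : PLift (pc FF 10000 [] 4458 80 = true) := ⟨by decide +kernel⟩
def w90 : PLift (pc FF 10000 [] 4538 80 = true) := ⟨by decide +kernel⟩
def w91 : PLift (pc FF 10000 [] 4618 80 = true) := ⟨by decide +kernel⟩
def w92 : PLift (pc FF 10000 [] 4698 80 = true) := ⟨by decide +kernel⟩
def w93 : PLift (pc FF 10000 [] 4778 80 = true) := ⟨by decide +kernel⟩
def w94 : PLift (pc FF 10000 [] 4858 80 = true) := ⟨by decide +kernel⟩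
def w95 : PLift (pc FF 10000 [] 4938 80 = true) := ⟨by decide +kernel⟩
def w96 : PLift (pc FF 10000 [] 5018 80 = true) := ⟨by decide +kernel⟩
def w97 : PLift (pc FF 10000 [] 5098 80 = true) := ⟨by decide +kernel⟩
def w98 : PLift (pc FF 10000 [] 5178 80 = true) := ⟨by decide +kernel⟩
def w99 : PLift (pc FF 10000 [] 5258 80 = true) := ⟨by decide +kernel⟩
def w100 : PLift (pc FF 10000 [] 5338 80 = true) := ⟨by decide +kernel⟩
def w101 : PLift (pc FF 10000 [] 5418 80 = true) := ⟨by decide +kernel⟩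
def w102 : PLift (pc FF 10000 [] 5498 80 = true) := ⟨by decide +kernel⟩
def w103 : PLift (pc FF 10000 [] 5578 80 = true) := ⟨by decide +kernel⟩
def w104 : PLift (pc FF 10000 [] 5658 80 = true) := ⟨by decide +kernel⟩
def w105 : PLift (pc FF 10000 [] 5738 80 = true) := ⟨by decide +kernel⟩

end Pool.Agent.SU
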