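import Pool.Agent.SU.FDef

/-! generated: parts of the tree -/

namespace Pool.Agent.SU

set_option maxRecDepth 100000

def w539 : PLift (pc FF 10000 [1, 2, 1] 220 80 = true) := ⟨by decide +kernel⟩
def w540 : PLift (pc FF 10000 [1, 2, 1] 300 80 = true) := ⟨by decide +kernel⟩
def w541 : PLift (pc FF 10000 [1, 2, 1] 380 80 = true) := ⟨by decide +kernel⟩
def w542 : PLift (pc FF 10000 [1, 2, 1] 460 80 = true) := ⟨by decide +kernel⟩
def w543 : PLift (pc FF 10000 [1, 2, 1] 540 80 = true) := ⟨by decide +kernel⟩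
def w544 : PLift (pc FF 10000 [1, 2, 1] 620 4 = true) := ⟨by decide +kernel⟩
def w545 : PLift (oc FF [1, 2, 1, 1] = true) := ⟨by decide +kernel⟩
def w546 : PLift (ec FF [1, 2, 1, 1] 1 = true) := ⟨by decide +kernel⟩
def w547 : PLift (pc FF 10000 [1, 2, 1, 1] 2 1 = true) := ⟨by decide +kernel⟩
def w548 : PLift (pc FF 10000 [1, 2, 1, 1] 3 4 = true) := ⟨by decide +kernel⟩
def w549 : PLift (pc FF 10000 [1, 2, 1, 1] 7 59 = true) := ⟨by decide +kernel⟩
def w550 : PLift (pc FF 10000 [1, 2, 1, 1] 66 80 = true) := ⟨by decide +kernel⟩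
def w551 : PLift (pc FF 10000 [1, 2, 1, 1] 146 57 = true) := ⟨by decide +kernel⟩
def w552 : PLift (oc FF [1, 2, 1, 1, 1] = true) := ⟨by decide +kernel⟩
def w553 : PLift (pc FF 10000 [1, 2, 1, 1, 1] 1 2 = true) := ⟨by decide +kernel⟩
def w554 : PLift (pc FF 10000 [1, 2, 1, 1, 1] 3 56 = true) := ⟨by decide +kernel⟩
def w555 : PLift (pc FF 10000 [1, 2, 1, 1, 1] 59 23 = true) := ⟨by decide +kernel⟩
def w556 : PLift (oc FF [1, 2, 1, 2] = true) := ⟨by decide +kernel⟩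
def w557 : PLift (ec FF [1, 2, 1, 2] 1 = true) := ⟨by decide +kernel⟩
def w558 : PLift (pc FF 10000 [1, 2, 1, 2] 2 28 = true) := ⟨by decide +kernel⟩
def w559 : PLift (pc FF 10000 [1, 2, 1, 2] 30 52 = true) := ⟨by decide +kernel⟩
def w560 : PLift (oc FF [1, 2, 1, 2, 1] = true) := ⟨by decide +kernel⟩
def w561 : PLift (pc FF 10000 [1, 2, 1, 2, 1] 1 40 = true) := ⟨by decide +kernel⟩
def w562 : PLift (pc FF 10000 [1, 2, 1, 2, 1] 41 2 = true) := ⟨by decide +kernel⟩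
def w563 : PLift (oc FF [1, 2, 1, 3] = true) := ⟨by decide +kernel⟩
def w564 : PLift (pc FF 10000 [1, 2, 1, 3] 1 11 = true) := ⟨by decide +kernel⟩
def w565 : PLift (pc FF 10000 [1, 2, 1, 3] 12 32 = true) := ⟨by decide +kernel⟩
def w566 : PLift (oc FF [1, 2, 2] = true) := ⟨by decide +kernel⟩
def w567 : PLift (ec FF [1, 2, 2] 1 = true) := ⟨by decide +kernel⟩
def w568 : PLift (pc FF 10000 [1, 2, 2] 2 1 = true) := ⟨by decide +kernel⟩
def w569 : PLift (pc FF 10000 [1, 2, 2] 3 4 = true) := ⟨by decide +kernel⟩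
def w570 : PLift (pc FF 10000 [1, 2, 2] 7 59 = true) := ⟨by decide +kernel⟩
def w571 : PLift (pc FF 10000 [1, 2, 2] 66 80 = true) := ⟨by decide +kernel⟩
def w572 : PLift (pc FF 10000 [1, 2, 2] 146 58 = true) := ⟨by decide +kernel⟩
def w573 : PLift (oc FF [1, 2, 2, 1] = true) := ⟨by decide +kernel⟩
def w574 : PLift (pc FF 10000 [1, 2, 2, 1] 1 1 = true) := ⟨by decide +kernel⟩
def w575 : PLift (pc FF 10000 [1, 2, 2, 1] 2 26 = true) := ⟨by decide +kernel⟩
def w576 : PLift (pc FF 10000 [1, 2, 2, 1] 28 71 = true) := ⟨by decide +kernel⟩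
def w577 : PLift (oc FF [1, 2, 3] = true) := ⟨by decide +kernel⟩
def w578 : PLift (ec FF [1, 2, 3] 1 = true) := ⟨by decide +kernel⟩
def w579 : PLift (pc FF 10000 [1, 2, 3] 2 7 = true) := ⟨by decide +kernel⟩
def w580 : PLift (pc FF 10000 [1, 2, 3] 9 79 = true) := ⟨by decide +kernel⟩
def w581 : PLift (pc FF 10000 [1, 2, 3] 88 12 = true) := ⟨by decide +kernel⟩
def w582 : PLift (oc FF [1, 2, 3, 1] = true) := ⟨by decide +kernel⟩
def w583 : PLift (pc FF 10000 [1, 2, 3, 1] 1 24 = true) := ⟨by decide +kernel⟩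
def w584 : PLift (pc FF 10000 [1, 2, 3, 1] 25 33 = true) := ⟨by decide +kernel⟩
def w585 : PLift (oc FF [1, 2, 4] = true) := ⟨by decide +kernel⟩
def w586 : PLift (pc FF 10000 [1, 2, 4] 1 1 = true) := ⟨by decide +kernel⟩
def w587 : PLift (pc FF 10000 [1, 2, 4] 2 44 = true) := ⟨by decide +kernel⟩
def w588 : PLift (pc FF 10000 [1, 2, 4] 46 13 = true) := ⟨by decide +kernel⟩
def w589 : PLift (oc FF [1, 2, 5] = true) := ⟨by decide +kernel⟩
def w590 : PLift (pc FF 10000 [1, 2, 5] 1 12 = true) := ⟨by decide +kernel⟩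
def w591 : PLift (pc FF 10000 [1, 2, 5] 13 26 = true) := ⟨by decide +kernel⟩
def w592 : PLift (oc FF [1, 3] = true) := ⟨by decide +kernel⟩
def w593 : PLift (ec FF [1, 3] 1 = true) := ⟨by decide +kernel⟩
def w594 : PLift (ec FF [1, 3] 2 = true) := ⟨by decide +kernel⟩
def w595 : PLift (ec FF [1, 3] 3 = true) := ⟨by decide +kernel⟩
def w596 : PLift (ec FF [1, 3] 4 = true) := ⟨by decide +kernel⟩
def w597 : PLift (pc FF 10000 [1, 3] 5 1 = true) := ⟨by decide +kernel⟩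
def w598 : PLift (pc FF 10000 [1, 3] 6 2 = true) := ⟨by decide +kernel⟩
def w599 : PLift (pc FF 10000 [1, 3] 8 7 = true) := ⟨by decide +kernel⟩
def w600 : PLift (pc FF 10000 [1, 3] 15 57 = true) := ⟨by decide +kernel⟩
def w601 : PLift (pc FF 10000 [1, 3] 72 80 = true) := ⟨by decide +kernel⟩
def w602 : PLift (pc FF 10000 [1, 3] 152 80 = true) := ⟨by decide +kernel⟩
def w603 : PLift (pc FF 10000 [1, 3] 232 80 = true) := ⟨by decide +kernel⟩

end Pool.Agent.SU
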