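import Pool.Agent.SU.FDef

/-! generated: parts of the tree -/

namespace Pool.Agent.SU

set_option maxRecDepth 100000

def w733 : PLift (pc FF 10000 [1, 8] 4 46 = true) := ⟨by decide +kernel⟩
def w734 : PLift (pc FF 10000 [1, 8] 50 74 = true) := ⟨by decide +kernel⟩
def w735 : PLift (oc FF [1, 8, 1] = true) := ⟨by decide +kernel⟩
def w736 : PLift (pc FF 10000 [1, 8, 1] 1 2 = true) := ⟨by decide +kernel⟩
def w737 : PLift (pc FF 10000 [1, 8, 1] 3 52 = true) := ⟨by decide +kernel⟩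
def w738 : PLift (pc FF 10000 [1, 8, 1] 55 44 = true) := ⟨by decide +kernel⟩
def w739 : PLift (oc FF [1, 9] = true) := ⟨by decide +kernel⟩
def w740 : PLift (ec FF [1, 9] 1 = true) := ⟨by decide +kernel⟩
def w741 : PLift (pc FF 10000 [1, 9] 2 3 = true) := ⟨by decide +kernel⟩
def w742 : PLift (pc FF 10000 [1, 9] 5 65 = true) := ⟨by decide +kernel⟩
def w743 : PLift (pc FF 10000 [1, 9] 70 30 = true) := ⟨by decide +kernel⟩
def w744 : PLift (oc FF [1, 9, 1] = true) := ⟨by decide +kernel⟩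
def w745 : PLift (pc FF 10000 [1, 9, 1] 1 5 = true) := ⟨by decide +kernel⟩
def w746 : PLift (pc FF 10000 [1, 9, 1] 6 75 = true) := ⟨by decide +kernel⟩
def w747 : PLift (oc FF [1, 10] = true) := ⟨by decide +kernel⟩
def w748 : PLift (ec FF [1, 10] 1 = true) := ⟨by decide +kernel⟩
def w749 : PLift (pc FF 10000 [1, 10] 2 14 = true) := ⟨by decide +kernel⟩
def w750 : PLift (pc FF 10000 [1, 10] 16 67 = true) := ⟨by decide +kernel⟩
def w751 : PLift (oc FF [1, 10, 1] = true) := ⟨by decide +kernel⟩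
def w752 : PLift (pc FF 10000 [1, 10, 1] 1 17 = true) := ⟨by decide +kernel⟩
def w753 : PLift (pc FF 10000 [1, 10, 1] 18 50 = true) := ⟨by decide +kernel⟩
def w754 : PLift (oc FF [1, 11] = true) := ⟨by decide +kernel⟩
def w755 : PLift (ec FF [1, 11] 1 = true) := ⟨by decide +kernel⟩
def w756 : PLift (pc FF 10000 [1, 11] 2 26 = true) := ⟨by decide +kernel⟩
def w757 : PLift (pc FF 10000 [1, 11] 28 42 = true) := ⟨by decide +kernel⟩
def w758 : PLift (oc FF [1, 11, 1] = true) := ⟨by decide +kernel⟩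
def w759 : PLift (pc FF 10000 [1, 11, 1] 1 32 = true) := ⟨by decide +kernel⟩
def w760 : PLift (pc FF 10000 [1, 11, 1] 33 25 = true) := ⟨by decide +kernel⟩
def w761 : PLift (oc FF [1, 12] = true) := ⟨by decide +kernel⟩
def w762 : PLift (ec FF [1, 12] 1 = true) := ⟨by decide +kernel⟩
def w763 : PLift (pc FF 10000 [1, 12] 2 38 = true) := ⟨by decide +kernel⟩
def w764 : PLift (pc FF 10000 [1, 12] 40 20 = true) := ⟨by decide +kernel⟩
def w765 : PLift (oc FF [1, 12, 1] = true) := ⟨by decide +kernel⟩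
def w766 : PLift (pc FF 10000 [1, 12, 1] 1 41 = true) := ⟨by decide +kernel⟩
def w767 : PLift (pc FF 10000 [1, 12, 1] 42 8 = true) := ⟨by decide +kernel⟩
def w768 : PLift (oc FF [1, 13] = true) := ⟨by decide +kernel⟩
def w769 : PLift (pc FF 10000 [1, 13] 1 1 = true) := ⟨by decide +kernel⟩
def w770 : PLift (pc FF 10000 [1, 13] 2 45 = true) := ⟨by decide +kernel⟩
def w771 : PLift (pc FF 10000 [1, 13] 47 4 = true) := ⟨by decide +kernel⟩
def w772 : PLift (oc FF [1, 14] = true) := ⟨by decide +kernel⟩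
def w773 : PLift (pc FF 10000 [1, 14] 1 1 = true) := ⟨by decide +kernel⟩
def w774 : PLift (pc FF 10000 [1, 14] 2 43 = true) := ⟨by decide +kernel⟩
def w775 : PLift (oc FF [1, 15] = true) := ⟨by decide +kernel⟩
def w776 : PLift (pc FF 10000 [1, 15] 1 3 = true) := ⟨by decide +kernel⟩
def w777 : PLift (pc FF 10000 [1, 15] 4 35 = true) := ⟨by decide +kernel⟩
def w778 : PLift (oc FF [1, 16] = true) := ⟨by decide +kernel⟩
def w779 : PLift (pc FF 10000 [1, 16] 1 12 = true) := ⟨by decide +kernel⟩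
def w780 : PLift (pc FF 10000 [1, 16] 13 22 = true) := ⟨by decide +kernel⟩
def w781 : PLift (oc FF [1, 17] = true) := ⟨by decide +kernel⟩
def w782 : PLift (pc FF 10000 [1, 17] 1 21 = true) := ⟨by decide +kernel⟩
def w783 : PLift (pc FF 10000 [1, 17] 22 9 = true) := ⟨by decide +kernel⟩
def w784 : PLift (oc FF [1, 18] = true) := ⟨by decide +kernel⟩
def w785 : PLift (pc FF 10000 [1, 18] 1 27 = true) := ⟨by decide +kernel⟩
def w786 : PLift (oc FF [2] = true) := ⟨by decide +kernel⟩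
def w787 : PLift (ec FF [2] 1 = true) := ⟨by decide +kernel⟩
def w788 : PLift (ec FF [2] 2 = true) := ⟨by decide +kernel⟩
def w789 : PLift (ec FF [2] 3 = true) := ⟨by decide +kernel⟩
def w790 : PLift (ec FF [2] 4 = true) := ⟨by decide +kernel⟩
def w791 : PLift (ec FF [2] 5 = true) := ⟨by decide +kernel⟩
def w792 : PLift (ec FF [2] 6 = true) := ⟨by decide +kernel⟩
def w793 : PLift (ec FF [2] 7 = true) := ⟨by decide +kernel⟩
def w794 : PLift (ec FF [2] 8 = true) := ⟨by decide +kernel⟩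
def w795 : PLift (pc FF 10000 [2] 9 1 = true) := ⟨by decide +kernel⟩
def w796 : PLift (pc FF 10000 [2] 10 1 = true) := ⟨by decide +kernel⟩
def w797 : PLift (pc FF 10000 [2] 11 1 = true) := ⟨by decide +kernel⟩
def w798 : PLift (pc FF 10000 [2] 12 2 = true) := ⟨by decide +kernel⟩
def w799 : PLift (pc FF 10000 [2] 14 3 = true) := ⟨by decide +kernel⟩
def w800 : PLift (pc FF 10000 [2] 17 5 = true) := ⟨by decide +kernel⟩
def w801 : PLift (pc FF 10000 [2] 22 12 = true) := ⟨by decide +kernel⟩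
def w802 : PLift (pc FF 10000 [2] 34 47 = true) := ⟨by decide +kernel⟩
def w803 : PLift (pc FF 10000 [2] 81 80 = true) := ⟨by decide +kernel⟩
def w804 : PLift (pc FF 10000 [2] 161 80 = true) := ⟨by decide +kernel⟩

end Pool.Agent.SU
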