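import Pool.Agent.SU.FDef

/-! generated: parts of the tree -/

namespace Pool.Agent.SU

set_option maxRecDepth 100000

def w856 : PLift (pc FF 10000 [2, 1] 915 80 = true) := ⟨by decide +kernel⟩
def w857 : PLift (pc FF 10000 [2, 1] 995 80 = true) := ⟨by decide +kernel⟩
def w858 : PLift (pc FF 10000 [2, 1] 1075 35 = true) := ⟨by decide +kernel⟩
def w859 : PLift (oc FF [2, 1, 1] = true) := ⟨by decide +kernel⟩
def w860 : PLift (ec FF [2, 1, 1] 1 = true) := ⟨by decide +kernel⟩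
def w861 : PLift (ec FF [2, 1, 1] 2 = true) := ⟨by decide +kernel⟩
def w862 : PLift (pc FF 10000 [2, 1, 1] 3 1 = true) := ⟨by decide +kernel⟩
def w863 : PLift (pc FF 10000 [2, 1, 1] 4 2 = true) := ⟨by decide +kernel⟩
def w864 : PLift (pc FF 10000 [2, 1, 1] 6 10 = true) := ⟨by decide +kernel⟩
def w865 : PLift (pc FF 10000 [2, 1, 1] 16 73 = true) := ⟨by decide +kernel⟩
def w866 : PLift (pc FF 10000 [2, 1, 1] 89 80 = true) := ⟨by decide +kernel⟩
def w867 : PLift (pc FF 10000 [2, 1, 1] 169 80 = true) := ⟨by decide +kernel⟩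
def w868 : PLift (pc FF 10000 [2, 1, 1] 249 80 = true) := ⟨by decide +kernel⟩
def w869 : PLift (pc FF 10000 [2, 1, 1] 329 70 = true) := ⟨by decide +kernel⟩
def w870 : PLift (oc FF [2, 1, 1, 1] = true) := ⟨by decide +kernel⟩
def w871 : PLift (ec FF [2, 1, 1, 1] 1 = true) := ⟨by decide +kernel⟩
def w872 : PLift (pc FF 10000 [2, 1, 1, 1] 2 2 = true) := ⟨by decide +kernel⟩
def w873 : PLift (pc FF 10000 [2, 1, 1, 1] 4 44 = true) := ⟨by decide +kernel⟩
def w874 : PLift (pc FF 10000 [2, 1, 1, 1] 48 80 = true) := ⟨by decide +kernel⟩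
def w875 : PLift (pc FF 10000 [2, 1, 1, 1] 128 28 = true) := ⟨by decide +kernel⟩
def w876 : PLift (oc FF [2, 1, 1, 1, 1] = true) := ⟨by decide +kernel⟩
def w877 : PLift (pc FF 10000 [2, 1, 1, 1, 1] 1 10 = true) := ⟨by decide +kernel⟩
def w878 : PLift (pc FF 10000 [2, 1, 1, 1, 1] 11 47 = true) := ⟨by decide +kernel⟩
def w879 : PLift (oc FF [2, 1, 1, 2] = true) := ⟨by decide +kernel⟩
def w880 : PLift (pc FF 10000 [2, 1, 1, 2] 1 3 = true) := ⟨by decide +kernel⟩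
def w881 : PLift (pc FF 10000 [2, 1, 1, 2] 4 55 = true) := ⟨by decide +kernel⟩
def w882 : PLift (oc FF [2, 1, 2] = true) := ⟨by decide +kernel⟩
def w883 : PLift (ec FF [2, 1, 2] 1 = true) := ⟨by decide +kernel⟩
def w884 : PLift (pc FF 10000 [2, 1, 2] 2 1 = true) := ⟨by decide +kernel⟩
def w885 : PLift (pc FF 10000 [2, 1, 2] 3 12 = true) := ⟨by decide +kernel⟩
def w886 : PLift (pc FF 10000 [2, 1, 2] 15 80 = true) := ⟨by decide +kernel⟩
def w887 : PLift (pc FF 10000 [2, 1, 2] 95 61 = true) := ⟨by decide +kernel⟩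
def w888 : PLift (oc FF [2, 1, 2, 1] = true) := ⟨by decide +kernel⟩
def w889 : PLift (pc FF 10000 [2, 1, 2, 1] 1 2 = true) := ⟨by decide +kernel⟩
def w890 : PLift (pc FF 10000 [2, 1, 2, 1] 3 57 = true) := ⟨by decide +kernel⟩
def w891 : PLift (pc FF 10000 [2, 1, 2, 1] 60 22 = true) := ⟨by decide +kernel⟩
def w892 : PLift (oc FF [2, 1, 3] = true) := ⟨by decide +kernel⟩
def w893 : PLift (ec FF [2, 1, 3] 1 = true) := ⟨by decide +kernel⟩
def w894 : PLift (pc FF 10000 [2, 1, 3] 2 23 = true) := ⟨by decide +kernel⟩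
def w895 : PLift (pc FF 10000 [2, 1, 3] 25 58 = true) := ⟨by decide +kernel⟩
def w896 : PLift (oc FF [2, 1, 3, 1] = true) := ⟨by decide +kernel⟩
def w897 : PLift (pc FF 10000 [2, 1, 3, 1] 1 34 = true) := ⟨by decide +kernel⟩
def w898 : PLift (pc FF 10000 [2, 1, 3, 1] 35 15 = true) := ⟨by decide +kernel⟩
def w899 : PLift (oc FF [2, 1, 4] = true) := ⟨by decide +kernel⟩
def w900 : PLift (pc FF 10000 [2, 1, 4] 1 2 = true) := ⟨by decide +kernel⟩
def w901 : PLift (pc FF 10000 [2, 1, 4] 3 48 = true) := ⟨by decide +kernel⟩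
def w902 : PLift (oc FF [2, 1, 5] = true) := ⟨by decide +kernel⟩
def w903 : PLift (pc FF 10000 [2, 1, 5] 1 22 = true) := ⟨by decide +kernel⟩
def w904 : PLift (pc FF 10000 [2, 1, 5] 23 12 = true) := ⟨by decide +kernel⟩
def w905 : PLift (oc FF [2, 2] = true) := ⟨by decide +kernel⟩
def w906 : PLift (ec FF [2, 2] 1 = true) := ⟨by decide +kernel⟩
def w907 : PLift (ec FF [2, 2] 2 = true) := ⟨by decide +kernel⟩
def w908 : PLift (ec FF [2, 2] 3 = true) := ⟨by decide +kernel⟩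
def w909 : PLift (pc FF 10000 [2, 2] 4 2 = true) := ⟨by decide +kernel⟩
def w910 : PLift (pc FF 10000 [2, 2] 6 9 = true) := ⟨by decide +kernel⟩
def w911 : PLift (pc FF 10000 [2, 2] 15 71 = true) := ⟨by decide +kernel⟩
def w912 : PLift (pc FF 10000 [2, 2] 86 80 = true) := ⟨by decide +kernel⟩
def w913 : PLift (pc FF 10000 [2, 2] 166 80 = true) := ⟨by decide +kernel⟩
def w914 : PLift (pc FF 10000 [2, 2] 246 80 = true) := ⟨by decide +kernel⟩
def w915 : PLift (pc FF 10000 [2, 2] 326 74 = true) := ⟨by decide +kernel⟩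
def w916 : PLift (oc FF [2, 2, 1] = true) := ⟨by decide +kernel⟩
def w917 : PLift (ec FF [2, 2, 1] 1 = true) := ⟨by decide +kernel⟩
def w918 : PLift (pc FF 10000 [2, 2, 1] 2 1 = true) := ⟨by decide +kernel⟩
def w919 : PLift (pc FF 10000 [2, 2, 1] 3 6 = true) := ⟨by decide +kernel⟩

end Pool.Agent.SU
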