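import Pool.Agent.SU.FDef

/-! generated: parts of the tree -/

namespace Pool.Agent.SU

set_option maxRecDepth 100000

def w1045 : PLift (pc FF 10000 [3, 2, 1] 28 71 = true) := ⟨by decide +kernel⟩
def w1046 : PLift (oc FF [3, 3] = true) := ⟨by decide +kernel⟩
def w1047 : PLift (ec FF [3, 3] 1 = true) := ⟨by decide +kernel⟩
def w1048 : PLift (pc FF 10000 [3, 3] 2 7 = true) := ⟨by decide +kernel⟩
def w1049 : PLift (pc FF 10000 [3, 3] 9 79 = true) := ⟨by decide +kernel⟩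
def w1050 : PLift (pc FF 10000 [3, 3] 88 12 = true) := ⟨by decide +kernel⟩
def w1051 : PLift (oc FF [3, 3, 1] = true) := ⟨by decide +kernel⟩
def w1052 : PLift (pc FF 10000 [3, 3, 1] 1 24 = true) := ⟨by decide +kernel⟩
def w1053 : PLift (pc FF 10000 [3, 3, 1] 25 33 = true) := ⟨by decide +kernel⟩
def w1054 : PLift (oc FF [3, 4] = true) := ⟨by decide +kernel⟩
def w1055 : PLift (pc FF 10000 [3, 4] 1 1 = true) := ⟨by decide +kernel⟩
def w1056 : PLift (pc FF 10000 [3, 4] 2 44 = true) := ⟨by decide +kernel⟩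
def w1057 : PLift (pc FF 10000 [3, 4] 46 13 = true) := ⟨by decide +kernel⟩
def w1058 : PLift (oc FF [3, 5] = true) := ⟨by decide +kernel⟩
def w1059 : PLift (pc FF 10000 [3, 5] 1 12 = true) := ⟨by decide +kernel⟩
def w1060 : PLift (pc FF 10000 [3, 5] 13 26 = true) := ⟨by decide +kernel⟩
def w1061 : PLift (oc FF [4] = true) := ⟨by decide +kernel⟩
def w1062 : PLift (ec FF [4] 1 = true) := ⟨by decide +kernel⟩
def w1063 : PLift (ec FF [4] 2 = true) := ⟨by decide +kernel⟩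
def w1064 : PLift (ec FF [4] 3 = true) := ⟨by decide +kernel⟩
def w1065 : PLift (ec FF [4] 4 = true) := ⟨by decide +kernel⟩
def w1066 : PLift (pc FF 10000 [4] 5 1 = true) := ⟨by decide +kernel⟩
def w1067 : PLift (pc FF 10000 [4] 6 2 = true) := ⟨by decide +kernel⟩
def w1068 : PLift (pc FF 10000 [4] 8 7 = true) := ⟨by decide +kernel⟩
def w1069 : PLift (pc FF 10000 [4] 15 57 = true) := ⟨by decide +kernel⟩
def w1070 : PLift (pc FF 10000 [4] 72 80 = true) := ⟨by decide +kernel⟩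
def w1071 : PLift (pc FF 10000 [4] 152 80 = true) := ⟨by decide +kernel⟩
def w1072 : PLift (pc FF 10000 [4] 232 80 = true) := ⟨by decide +kernel⟩
def w1073 : PLift (pc FF 10000 [4] 312 80 = true) := ⟨by decide +kernel⟩
def w1074 : PLift (pc FF 10000 [4] 392 80 = true) := ⟨by decide +kernel⟩
def w1075 : PLift (pc FF 10000 [4] 472 80 = true) := ⟨by decide +kernel⟩
def w1076 : PLift (pc FF 10000 [4] 552 73 = true) := ⟨by decide +kernel⟩
def w1077 : PLift (oc FF [4, 1] = true) := ⟨by decide +kernel⟩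
def w1078 : PLift (ec FF [4, 1] 1 = true) := ⟨by decide +kernel⟩
def w1079 : PLift (ec FF [4, 1] 2 = true) := ⟨by decide +kernel⟩
def w1080 : PLift (pc FF 10000 [4, 1] 3 1 = true) := ⟨by decide +kernel⟩
def w1081 : PLift (pc FF 10000 [4, 1] 4 2 = true) := ⟨by decide +kernel⟩
def w1082 : PLift (pc FF 10000 [4, 1] 6 12 = true) := ⟨by decide +kernel⟩
def w1083 : PLift (pc FF 10000 [4, 1] 18 77 = true) := ⟨by decide +kernel⟩
def w1084 : PLift (pc FF 10000 [4, 1] 95 80 = true) := ⟨by decide +kernel⟩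
def w1085 : PLift (pc FF 10000 [4, 1] 175 80 = true) := ⟨by decide +kernel⟩
def w1086 : PLift (pc FF 10000 [4, 1] 255 80 = true) := ⟨by decide +kernel⟩
def w1087 : PLift (pc FF 10000 [4, 1] 335 64 = true) := ⟨by decide +kernel⟩
def w1088 : PLift (oc FF [4, 1, 1] = true) := ⟨by decide +kernel⟩
def w1089 : PLift (ec FF [4, 1, 1] 1 = true) := ⟨by decide +kernel⟩
def w1090 : PLift (pc FF 10000 [4, 1, 1] 2 5 = true) := ⟨by decide +kernel⟩
def w1091 : PLift (pc FF 10000 [4, 1, 1] 7 73 = true) := ⟨by decide +kernel⟩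
def w1092 : PLift (pc FF 10000 [4, 1, 1] 80 43 = true) := ⟨by decide +kernel⟩
def w1093 : PLift (oc FF [4, 1, 1, 1] = true) := ⟨by decide +kernel⟩
def w1094 : PLift (pc FF 10000 [4, 1, 1, 1] 1 28 = true) := ⟨by decide +kernel⟩
def w1095 : PLift (pc FF 10000 [4, 1, 1, 1] 29 21 = true) := ⟨by decide +kernel⟩
def w1096 : PLift (oc FF [4, 1, 2] = true) := ⟨by decide +kernel⟩
def w1097 : PLift (pc FF 10000 [4, 1, 2] 1 5 = true) := ⟨by decide +kernel⟩
def w1098 : PLift (pc FF 10000 [4, 1, 2] 6 45 = true) := ⟨by decide +kernel⟩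
def w1099 : PLift (oc FF [4, 2] = true) := ⟨by decide +kernel⟩
def w1100 : PLift (ec FF [4, 2] 1 = true) := ⟨by decide +kernel⟩
def w1101 : PLift (pc FF 10000 [4, 2] 2 4 = true) := ⟨by decide +kernel⟩
def w1102 : PLift (pc FF 10000 [4, 2] 6 69 = true) := ⟨by decide +kernel⟩
def w1103 : PLift (pc FF 10000 [4, 2] 75 48 = true) := ⟨by decide +kernel⟩
def w1104 : PLift (oc FF [4, 2, 1] = true) := ⟨by decide +kernel⟩
def w1105 : PLift (pc FF 10000 [4, 2, 1] 1 17 = true) := ⟨by decide +kernel⟩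
def w1106 : PLift (pc FF 10000 [4, 2, 1] 18 40 = true) := ⟨by decide +kernel⟩
def w1107 : PLift (oc FF [4, 3] = true) := ⟨by decide +kernel⟩
def w1108 : PLift (pc FF 10000 [4, 3] 1 1 = true) := ⟨by decide +kernel⟩
def w1109 : PLift (pc FF 10000 [4, 3] 2 45 = true) := ⟨by decide +kernel⟩
def w1110 : PLift (pc FF 10000 [4, 3] 47 12 = true) := ⟨by decide +kernel⟩
def w1111 : PLift (oc FF [4, 4] = true) := ⟨by decide +kernel⟩

end Pool.Agent.SU
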