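import Pool.Agent.SU.FDef

/-! generated: parts of the tree -/

namespace Pool.Agent.SU

set_option maxRecDepth 100000

def w1112 : PLift (pc FF 10000 [4, 4] 1 28 = true) := ⟨by decide +kernel⟩
def w1113 : PLift (pc FF 10000 [4, 4] 29 6 = true) := ⟨by decide +kernel⟩
def w1114 : PLift (oc FF [5] = true) := ⟨by decide +kernel⟩
def w1115 : PLift (ec FF [5] 1 = true) := ⟨by decide +kernel⟩
def w1116 : PLift (ec FF [5] 2 = true) := ⟨by decide +kernel⟩
def w1117 : PLift (ec FF [5] 3 = true) := ⟨by decide +kernel⟩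
def w1118 : PLift (pc FF 10000 [5] 4 1 = true) := ⟨by decide +kernel⟩
def w1119 : PLift (pc FF 10000 [5] 5 3 = true) := ⟨by decide +kernel⟩
def w1120 : PLift (pc FF 10000 [5] 8 31 = true) := ⟨by decide +kernel⟩
def w1121 : PLift (pc FF 10000 [5] 39 80 = true) := ⟨by decide +kernel⟩
def w1122 : PLift (pc FF 10000 [5] 119 80 = true) := ⟨by decide +kernel⟩
def w1123 : PLift (pc FF 10000 [5] 199 80 = true) := ⟨by decide +kernel⟩
def w1124 : PLift (pc FF 10000 [5] 279 80 = true) := ⟨by decide +kernel⟩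
def w1125 : PLift (pc FF 10000 [5] 359 41 = true) := ⟨by decide +kernel⟩
def w1126 : PLift (oc FF [5, 1] = true) := ⟨by decide +kernel⟩
def w1127 : PLift (ec FF [5, 1] 1 = true) := ⟨by decide +kernel⟩
def w1128 : PLift (pc FF 10000 [5, 1] 2 1 = true) := ⟨by decide +kernel⟩
def w1129 : PLift (pc FF 10000 [5, 1] 3 2 = true) := ⟨by decide +kernel⟩
def w1130 : PLift (pc FF 10000 [5, 1] 5 24 = true) := ⟨by decide +kernel⟩
def w1131 : PLift (pc FF 10000 [5, 1] 29 80 = true) := ⟨by decide +kernel⟩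
def w1132 : PLift (pc FF 10000 [5, 1] 109 80 = true) := ⟨by decide +kernel⟩
def w1133 : PLift (pc FF 10000 [5, 1] 189 80 = true) := ⟨by decide +kernel⟩
def w1134 : PLift (pc FF 10000 [5, 1] 269 8 = true) := ⟨by decide +kernel⟩
def w1135 : PLift (oc FF [5, 1, 1] = true) := ⟨by decide +kernel⟩
def w1136 : PLift (pc FF 10000 [5, 1, 1] 1 1 = true) := ⟨by decide +kernel⟩
def w1137 : PLift (pc FF 10000 [5, 1, 1] 2 31 = true) := ⟨by decide +kernel⟩
def w1138 : PLift (pc FF 10000 [5, 1, 1] 33 49 = true) := ⟨by decide +kernel⟩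
def w1139 : PLift (oc FF [5, 2] = true) := ⟨by decide +kernel⟩
def w1140 : PLift (pc FF 10000 [5, 2] 1 1 = true) := ⟨by decide +kernel⟩
def w1141 : PLift (pc FF 10000 [5, 2] 2 29 = true) := ⟨by decide +kernel⟩
def w1142 : PLift (pc FF 10000 [5, 2] 31 51 = true) := ⟨by decide +kernel⟩
def w1143 : PLift (oc FF [5, 3] = true) := ⟨by decide +kernel⟩
def w1144 : PLift (pc FF 10000 [5, 3] 1 24 = true) := ⟨by decide +kernel⟩
def w1145 : PLift (pc FF 10000 [5, 3] 25 14 = true) := ⟨by decide +kernel⟩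
def w1146 : PLift (oc FF [6] = true) := ⟨by decide +kernel⟩
def w1147 : PLift (ec FF [6] 1 = true) := ⟨by decide +kernel⟩
def w1148 : PLift (ec FF [6] 2 = true) := ⟨by decide +kernel⟩
def w1149 : PLift (pc FF 10000 [6] 3 1 = true) := ⟨by decide +kernel⟩
def w1150 : PLift (pc FF 10000 [6] 4 3 = true) := ⟨by decide +kernel⟩
def w1151 : PLift (pc FF 10000 [6] 7 43 = true) := ⟨by decide +kernel⟩
def w1152 : PLift (pc FF 10000 [6] 50 80 = true) := ⟨by decide +kernel⟩
def w1153 : PLift (pc FF 10000 [6] 130 80 = true) := ⟨by decide +kernel⟩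
def w1154 : PLift (pc FF 10000 [6] 210 68 = true) := ⟨by decide +kernel⟩
def w1155 : PLift (oc FF [6, 1] = true) := ⟨by decide +kernel⟩
def w1156 : PLift (ec FF [6, 1] 1 = true) := ⟨by decide +kernel⟩
def w1157 : PLift (pc FF 10000 [6, 1] 2 1 = true) := ⟨by decide +kernel⟩
def w1158 : PLift (pc FF 10000 [6, 1] 3 7 = true) := ⟨by decide +kernel⟩
def w1159 : PLift (pc FF 10000 [6, 1] 10 73 = true) := ⟨by decide +kernel⟩
def w1160 : PLift (pc FF 10000 [6, 1] 83 80 = true) := ⟨by decide +kernel⟩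
def w1161 : PLift (pc FF 10000 [6, 1] 163 40 = true) := ⟨by decide +kernel⟩
def w1162 : PLift (oc FF [6, 1, 1] = true) := ⟨by decide +kernel⟩
def w1163 : PLift (pc FF 10000 [6, 1, 1] 1 6 = true) := ⟨by decide +kernel⟩
def w1164 : PLift (pc FF 10000 [6, 1, 1] 7 52 = true) := ⟨by decide +kernel⟩
def w1165 : PLift (oc FF [6, 2] = true) := ⟨by decide +kernel⟩
def w1166 : PLift (pc FF 10000 [6, 2] 1 4 = true) := ⟨by decide +kernel⟩
def w1167 : PLift (pc FF 10000 [6, 2] 5 54 = true) := ⟨by decide +kernel⟩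
def w1168 : PLift (oc FF [7] = true) := ⟨by decide +kernel⟩
def w1169 : PLift (ec FF [7] 1 = true) := ⟨by decide +kernel⟩
def w1170 : PLift (ec FF [7] 2 = true) := ⟨by decide +kernel⟩
def w1171 : PLift (pc FF 10000 [7] 3 2 = true) := ⟨by decide +kernel⟩
def w1172 : PLift (pc FF 10000 [7] 5 34 = true) := ⟨by decide +kernel⟩
def w1173 : PLift (pc FF 10000 [7] 39 80 = true) := ⟨by decide +kernel⟩
def w1174 : PLift (pc FF 10000 [7] 119 80 = true) := ⟨by decide +kernel⟩
def w1175 : PLift (pc FF 10000 [7] 199 5 = true) := ⟨by decide +kernel⟩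
def w1176 : PLift (oc FF [7, 1] = true) := ⟨by decide +kernel⟩
def w1177 : PLift (ec FF [7, 1] 1 = true) := ⟨by decide +kernel⟩

end Pool.Agent.SU
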