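import Pool.Agent.SU.FDef

/-! generated: parts of the tree -/

namespace Pool.Agent.SU

set_option maxRecDepth 100000

def w106 : PLift (pc FF 10000 [] 5818 80 = true) := ⟨by decide +kernel⟩
def w107 : PLift (pc FF 10000 [] 5898 80 = true) := ⟨by decide +kernel⟩
def w108 : PLift (pc FF 10000 [] 5978 80 = true) := ⟨by decide +kernel⟩
def w109 : PLift (pc FF 10000 [] 6058 80 = true) := ⟨by decide +kernel⟩
def w110 : PLift (pc FF 10000 [] 6138 80 = true) := ⟨by decide +kernel⟩
def w111 : PLift (pc FF 10000 [] 6218 80 = true) := ⟨by decide +kernel⟩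
def w112 : PLift (pc FF 10000 [] 6298 80 = true) := ⟨by decide +kernel⟩
def w113 : PLift (pc FF 10000 [] 6378 80 = true) := ⟨by decide +kernel⟩
def w114 : PLift (pc FF 10000 [] 6458 80 = true) := ⟨by decide +kernel⟩
def w115 : PLift (pc FF 10000 [] 6538 80 = true) := ⟨by decide +kernel⟩
def w116 : PLift (pc FF 10000 [] 6618 80 = true) := ⟨by decide +kernel⟩
def w117 : PLift (pc FF 10000 [] 6698 80 = true) := ⟨by decide +kernel⟩
def w118 : PLift (pc FF 10000 [] 6778 80 = true) := ⟨by decide +kernel⟩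
def w119 : PLift (pc FF 10000 [] 6858 80 = true) := ⟨by decide +kernel⟩
def w120 : PLift (pc FF 10000 [] 6938 80 = true) := ⟨by decide +kernel⟩
def w121 : PLift (pc FF 10000 [] 7018 80 = true) := ⟨by decide +kernel⟩
def w122 : PLift (pc FF 10000 [] 7098 80 = true) := ⟨by decide +kernel⟩
def w123 : PLift (pc FF 10000 [] 7178 80 = true) := ⟨by decide +kernel⟩
def w124 : PLift (pc FF 10000 [] 7258 80 = true) := ⟨by decide +kernel⟩
def w125 : PLift (pc FF 10000 [] 7338 80 = true) := ⟨by decide +kernel⟩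
def w126 : PLift (pc FF 10000 [] 7418 80 = true) := ⟨by decide +kernel⟩
def w127 : PLift (pc FF 10000 [] 7498 80 = true) := ⟨by decide +kernel⟩
def w128 : PLift (pc FF 10000 [] 7578 80 = true) := ⟨by decide +kernel⟩
def w129 : PLift (pc FF 10000 [] 7658 80 = true) := ⟨by decide +kernel⟩
def w130 : PLift (pc FF 10000 [] 7738 80 = true) := ⟨by decide +kernel⟩
def w131 : PLift (pc FF 10000 [] 7818 80 = true) := ⟨by decide +kernel⟩
def w132 : PLift (pc FF 10000 [] 7898 80 = true) := ⟨by decide +kernel⟩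
def w133 : PLift (pc FF 10000 [] 7978 80 = true) := ⟨by decide +kernel⟩
def w134 : PLift (pc FF 10000 [] 8058 80 = true) := ⟨by decide +kernel⟩
def w135 : PLift (pc FF 10000 [] 8138 80 = true) := ⟨by decide +kernel⟩
def w136 : PLift (pc FF 10000 [] 8218 80 = true) := ⟨by decide +kernel⟩
def w137 : PLift (pc FF 10000 [] 8298 80 = true) := ⟨by decide +kernel⟩
def w138 : PLift (pc FF 10000 [] 8378 80 = true) := ⟨by decide +kernel⟩
def w139 : PLift (pc FF 10000 [] 8458 80 = true) := ⟨by decide +kernel⟩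
def w140 : PLift (pc FF 10000 [] 8538 80 = true) := ⟨by decide +kernel⟩
def w141 : PLift (pc FF 10000 [] 8618 80 = true) := ⟨by decide +kernel⟩
def w142 : PLift (pc FF 10000 [] 8698 80 = true) := ⟨by decide +kernel⟩
def w143 : PLift (pc FF 10000 [] 8778 80 = true) := ⟨by decide +kernel⟩
def w144 : PLift (pc FF 10000 [] 8858 80 = true) := ⟨by decide +kernel⟩
def w145 : PLift (pc FF 10000 [] 8938 80 = true) := ⟨by decide +kernel⟩
def w146 : PLift (pc FF 10000 [] 9018 80 = true) := ⟨by decide +kernel⟩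
def w147 : PLift (pc FF 10000 [] 9098 80 = true) := ⟨by decide +kernel⟩
def w148 : PLift (pc FF 10000 [] 9178 80 = true) := ⟨by decide +kernel⟩
def w149 : PLift (pc FF 10000 [] 9258 80 = true) := ⟨by decide +kernel⟩
def w150 : PLift (pc FF 10000 [] 9338 80 = true) := ⟨by decide +kernel⟩

end Pool.Agent.SU
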