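import Pool.Agent.SU.FDef

/-! generated: parts of the tree -/

namespace Pool.Agent.SU

set_option maxRecDepth 100000

def w1246 : PLift (pc FF 10000 [16] 4 35 = true) := ⟨by decide +kernel⟩
def w1247 : PLift (oc FF [17] = true) := ⟨by decide +kernel⟩
def w1248 : PLift (pc FF 10000 [17] 1 12 = true) := ⟨by decide +kernel⟩
def w1249 : PLift (pc FF 10000 [17] 13 22 = true) := ⟨by decide +kernel⟩
def w1250 : PLift (oc FF [18] = true) := ⟨by decide +kernel⟩
def w1251 : PLift (pc FF 10000 [18] 1 21 = true) := ⟨by decide +kernel⟩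
def w1252 : PLift (pc FF 10000 [18] 22 9 = true) := ⟨by decide +kernel⟩
def w1253 : PLift (oc FF [19] = true) := ⟨by decide +kernel⟩
def w1254 : PLift (pc FF 10000 [19] 1 27 = true) := ⟨by decide +kernel⟩

end Pool.Agent.SU
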