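import Pool.Agent.SU.FDef

/-! generated: parts of the tree -/

namespace Pool.Agent.SU

set_option maxRecDepth 100000

def w212 : PLift (pc FF 10000 [1] 1657 80 = true) := ⟨by decide +kernel⟩
def w213 : PLift (pc FF 10000 [1] 1737 80 = true) := ⟨by decide +kernel⟩
def w214 : PLift (pc FF 10000 [1] 1817 80 = true) := ⟨by decide +kernel⟩
def w215 : PLift (pc FF 10000 [1] 1897 80 = true) := ⟨by decide +kernel⟩
def w216 : PLift (pc FF 10000 [1] 1977 80 = true) := ⟨by decide +kernel⟩
def w217 : PLift (pc FF 10000 [1] 2057 80 = true) := ⟨by decide +kernel⟩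
def w218 : PLift (pc FF 10000 [1] 2137 80 = true) := ⟨by decide +kernel⟩
def w219 : PLift (pc FF 10000 [1] 2217 80 = true) := ⟨by decide +kernel⟩
def w220 : PLift (pc FF 10000 [1] 2297 80 = true) := ⟨by decide +kernel⟩
def w221 : PLift (pc FF 10000 [1] 2377 80 = true) := ⟨by decide +kernel⟩
def w222 : PLift (pc FF 10000 [1] 2457 80 = true) := ⟨by decide +kernel⟩
def w223 : PLift (pc FF 10000 [1] 2537 80 = true) := ⟨by decide +kernel⟩
def w224 : PLift (pc FF 10000 [1] 2617 80 = true) := ⟨by decide +kernel⟩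
def w225 : PLift (pc FF 10000 [1] 2697 80 = true) := ⟨by decide +kernel⟩
def w226 : PLift (pc FF 10000 [1] 2777 80 = true) := ⟨by decide +kernel⟩
def w227 : PLift (pc FF 10000 [1] 2857 80 = true) := ⟨by decide +kernel⟩
def w228 : PLift (pc FF 10000 [1] 2937 80 = true) := ⟨by decide +kernel⟩
def w229 : PLift (pc FF 10000 [1] 3017 80 = true) := ⟨by decide +kernel⟩
def w230 : PLift (pc FF 10000 [1] 3097 80 = true) := ⟨by decide +kernel⟩
def w231 : PLift (pc FF 10000 [1] 3177 80 = true) := ⟨by decide +kernel⟩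
def w232 : PLift (pc FF 10000 [1] 3257 80 = true) := ⟨by decide +kernel⟩
def w233 : PLift (pc FF 10000 [1] 3337 80 = true) := ⟨by decide +kernel⟩
def w234 : PLift (pc FF 10000 [1] 3417 80 = true) := ⟨by decide +kernel⟩
def w235 : PLift (pc FF 10000 [1] 3497 80 = true) := ⟨by decide +kernel⟩
def w236 : PLift (pc FF 10000 [1] 3577 80 = true) := ⟨by decide +kernel⟩
def w237 : PLift (pc FF 10000 [1] 3657 80 = true) := ⟨by decide +kernel⟩
def w238 : PLift (pc FF 10000 [1] 3737 80 = true) := ⟨by decide +kernel⟩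
def w239 : PLift (pc FF 10000 [1] 3817 80 = true) := ⟨by decide +kernel⟩
def w240 : PLift (pc FF 10000 [1] 3897 80 = true) := ⟨by decide +kernel⟩
def w241 : PLift (pc FF 10000 [1] 3977 80 = true) := ⟨by decide +kernel⟩
def w242 : PLift (pc FF 10000 [1] 4057 80 = true) := ⟨by decide +kernel⟩
def w243 : PLift (pc FF 10000 [1] 4137 80 = true) := ⟨by decide +kernel⟩
def w244 : PLift (pc FF 10000 [1] 4217 80 = true) := ⟨by decide +kernel⟩
def w245 : PLift (pc FF 10000 [1] 4297 80 = true) := ⟨by decide +kernel⟩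
def w246 : PLift (pc FF 10000 [1] 4377 80 = true) := ⟨by decide +kernel⟩
def w247 : PLift (pc FF 10000 [1] 4457 80 = true) := ⟨by decide +kernel⟩
def w248 : PLift (pc FF 10000 [1] 4537 80 = true) := ⟨by decide +kernel⟩
def w249 : PLift (pc FF 10000 [1] 4617 80 = true) := ⟨by decide +kernel⟩
def w250 : PLift (pc FF 10000 [1] 4697 80 = true) := ⟨by decide +kernel⟩
def w251 : PLift (pc FF 10000 [1] 4777 80 = true) := ⟨by decide +kernel⟩
def w252 : PLift (pc FF 10000 [1] 4857 80 = true) := ⟨by decide +kernel⟩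
def w253 : PLift (pc FF 10000 [1] 4937 80 = true) := ⟨by decide +kernel⟩
def w254 : PLift (pc FF 10000 [1] 5017 80 = true) := ⟨by decide +kernel⟩
def w255 : PLift (pc FF 10000 [1] 5097 80 = true) := ⟨by decide +kernel⟩
def w256 : PLift (pc FF 10000 [1] 5177 80 = true) := ⟨by decide +kernel⟩

end Pool.Agent.SU
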