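import Pool.Agent.SU.FDef

/-! generated: parts of the tree -/

namespace Pool.Agent.SU

set_option maxRecDepth 100000

def w257 : PLift (pc FF 10000 [1] 5257 80 = true) := ⟨by decide +kernel⟩
def w258 : PLift (pc FF 10000 [1] 5337 80 = true) := ⟨by decide +kernel⟩
def w259 : PLift (pc FF 10000 [1] 5417 80 = true) := ⟨by decide +kernel⟩
def w260 : PLift (pc FF 10000 [1] 5497 80 = true) := ⟨by decide +kernel⟩
def w261 : PLift (pc FF 10000 [1] 5577 80 = true) := ⟨by decide +kernel⟩
def w262 : PLift (pc FF 10000 [1] 5657 80 = true) := ⟨by decide +kernel⟩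
def w263 : PLift (pc FF 10000 [1] 5737 80 = true) := ⟨by decide +kernel⟩
def w264 : PLift (pc FF 10000 [1] 5817 80 = true) := ⟨by decide +kernel⟩
def w265 : PLift (pc FF 10000 [1] 5897 80 = true) := ⟨by decide +kernel⟩
def w266 : PLift (pc FF 10000 [1] 5977 80 = true) := ⟨by decide +kernel⟩
def w267 : PLift (pc FF 10000 [1] 6057 80 = true) := ⟨by decide +kernel⟩
def w268 : PLift (pc FF 10000 [1] 6137 80 = true) := ⟨by decide +kernel⟩
def w269 : PLift (pc FF 10000 [1] 6217 80 = true) := ⟨by decide +kernel⟩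
def w270 : PLift (pc FF 10000 [1] 6297 80 = true) := ⟨by decide +kernel⟩
def w271 : PLift (pc FF 10000 [1] 6377 80 = true) := ⟨by decide +kernel⟩
def w272 : PLift (pc FF 10000 [1] 6457 80 = true) := ⟨by decide +kernel⟩
def w273 : PLift (pc FF 10000 [1] 6537 80 = true) := ⟨by decide +kernel⟩
def w274 : PLift (pc FF 10000 [1] 6617 80 = true) := ⟨by decide +kernel⟩
def w275 : PLift (pc FF 10000 [1] 6697 80 = true) := ⟨by decide +kernel⟩
def w276 : PLift (pc FF 10000 [1] 6777 80 = true) := ⟨by decide +kernel⟩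
def w277 : PLift (pc FF 10000 [1] 6857 80 = true) := ⟨by decide +kernel⟩
def w278 : PLift (pc FF 10000 [1] 6937 80 = true) := ⟨by decide +kernel⟩
def w279 : PLift (pc FF 10000 [1] 7017 80 = true) := ⟨by decide +kernel⟩
def w280 : PLift (pc FF 10000 [1] 7097 80 = true) := ⟨by decide +kernel⟩
def w281 : PLift (pc FF 10000 [1] 7177 80 = true) := ⟨by decide +kernel⟩
def w282 : PLift (pc FF 10000 [1] 7257 80 = true) := ⟨by decide +kernel⟩
def w283 : PLift (pc FF 10000 [1] 7337 80 = true) := ⟨by decide +kernel⟩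
def w284 : PLift (pc FF 10000 [1] 7417 80 = true) := ⟨by decide +kernel⟩
def w285 : PLift (pc FF 10000 [1] 7497 80 = true) := ⟨by decide +kernel⟩
def w286 : PLift (pc FF 10000 [1] 7577 80 = true) := ⟨by decide +kernel⟩
def w287 : PLift (pc FF 10000 [1] 7657 80 = true) := ⟨by decide +kernel⟩
def w288 : PLift (pc FF 10000 [1] 7737 80 = true) := ⟨by decide +kernel⟩
def w289 : PLift (pc FF 10000 [1] 7817 80 = true) := ⟨by decide +kernel⟩
def w290 : PLift (pc FF 10000 [1] 7897 80 = true) := ⟨by decide +kernel⟩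
def w291 : PLift (pc FF 10000 [1] 7977 80 = true) := ⟨by decide +kernel⟩
def w292 : PLift (pc FF 10000 [1] 8057 80 = true) := ⟨by decide +kernel⟩
def w293 : PLift (pc FF 10000 [1] 8137 80 = true) := ⟨by decide +kernel⟩
def w294 : PLift (pc FF 10000 [1] 8217 80 = true) := ⟨by decide +kernel⟩
def w295 : PLift (pc FF 10000 [1] 8297 80 = true) := ⟨by decide +kernel⟩
def w296 : PLift (pc FF 10000 [1] 8377 80 = true) := ⟨by decide +kernel⟩
def w297 : PLift (pc FF 10000 [1] 8457 80 = true) := ⟨by decide +kernel⟩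
def w298 : PLift (pc FF 10000 [1] 8537 80 = true) := ⟨by decide +kernel⟩
def w299 : PLift (pc FF 10000 [1] 8617 80 = true) := ⟨by decide +kernel⟩
def w300 : PLift (pc FF 10000 [1] 8697 80 = true) := ⟨by decide +kernel⟩
def w301 : PLift (pc FF 10000 [1] 8777 80 = true) := ⟨by decide +kernel⟩

end Pool.Agent.SU
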