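import Pool.Agent.SU.FDef

/-! generated: parts of the tree -/

namespace Pool.Agent.SU

set_option maxRecDepth 100000

def w302 : PLift (pc FF 10000 [1] 8857 80 = true) := ⟨by decide +kernel⟩
def w303 : PLift (pc FF 10000 [1] 8937 80 = true) := ⟨by decide +kernel⟩
def w304 : PLift (pc FF 10000 [1] 9017 80 = true) := ⟨by decide +kernel⟩
def w305 : PLift (pc FF 10000 [1] 9097 80 = true) := ⟨by decide +kernel⟩
def w306 : PLift (pc FF 10000 [1] 9177 80 = true) := ⟨by decide +kernel⟩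
def w307 : PLift (pc FF 10000 [1] 9257 80 = true) := ⟨by decide +kernel⟩
def w308 : PLift (pc FF 10000 [1] 9337 80 = true) := ⟨by decide +kernel⟩
def w309 : PLift (pc FF 10000 [1] 9417 80 = true) := ⟨by decide +kernel⟩
def w310 : PLift (pc FF 10000 [1] 9497 80 = true) := ⟨by decide +kernel⟩
def w311 : PLift (pc FF 10000 [1] 9577 80 = true) := ⟨by decide +kernel⟩
def w312 : PLift (pc FF 10000 [1] 9657 80 = true) := ⟨by decide +kernel⟩
def w313 : PLift (pc FF 10000 [1] 9737 80 = true) := ⟨by decide +kernel⟩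
def w314 : PLift (pc FF 10000 [1] 9817 80 = true) := ⟨by decide +kernel⟩
def w315 : PLift (pc FF 10000 [1] 9897 80 = true) := ⟨by decide +kernel⟩
def w316 : PLift (pc FF 10000 [1] 9977 22 = true) := ⟨by decide +kernel⟩
def w317 : PLift (oc FF [1, 1] = true) := ⟨by decide +kernel⟩
def w318 : PLift (ec FF [1, 1] 1 = true) := ⟨by decide +kernel⟩
def w319 : PLift (ec FF [1, 1] 2 = true) := ⟨by decide +kernel⟩
def w320 : PLift (ec FF [1, 1] 3 = true) := ⟨by decide +kernel⟩
def w321 : PLift (ec FF [1, 1] 4 = true) := ⟨by decide +kernel⟩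
def w322 : PLift (ec FF [1, 1] 5 = true) := ⟨by decide +kernel⟩
def w323 : PLift (ec FF [1, 1] 6 = true) := ⟨by decide +kernel⟩
def w324 : PLift (ec FF [1, 1] 7 = true) := ⟨by decide +kernel⟩
def w325 : PLift (ec FF [1, 1] 8 = true) := ⟨by decide +kernel⟩
def w326 : PLift (pc FF 10000 [1, 1] 9 1 = true) := ⟨by decide +kernel⟩
def w327 : PLift (pc FF 10000 [1, 1] 10 1 = true) := ⟨by decide +kernel⟩
def w328 : PLift (pc FF 10000 [1, 1] 11 1 = true) := ⟨by decide +kernel⟩
def w329 : PLift (pc FF 10000 [1, 1] 12 2 = true) := ⟨by decide +kernel⟩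
def w330 : PLift (pc FF 10000 [1, 1] 14 3 = true) := ⟨by decide +kernel⟩
def w331 : PLift (pc FF 10000 [1, 1] 17 5 = true) := ⟨by decide +kernel⟩
def w332 : PLift (pc FF 10000 [1, 1] 22 12 = true) := ⟨by decide +kernel⟩
def w333 : PLift (pc FF 10000 [1, 1] 34 47 = true) := ⟨by decide +kernel⟩
def w334 : PLift (pc FF 10000 [1, 1] 81 80 = true) := ⟨by decide +kernel⟩
def w335 : PLift (pc FF 10000 [1, 1] 161 80 = true) := ⟨by decide +kernel⟩
def w336 : PLift (pc FF 10000 [1, 1] 241 80 = true) := ⟨by decide +kernel⟩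
def w337 : PLift (pc FF 10000 [1, 1] 321 80 = true) := ⟨by decide +kernel⟩
def w338 : PLift (pc FF 10000 [1, 1] 401 80 = true) := ⟨by decide +kernel⟩
def w339 : PLift (pc FF 10000 [1, 1] 481 80 = true) := ⟨by decide +kernel⟩
def w340 : PLift (pc FF 10000 [1, 1] 561 80 = true) := ⟨by decide +kernel⟩
def w341 : PLift (pc FF 10000 [1, 1] 641 80 = true) := ⟨by decide +kernel⟩
def w342 : PLift (pc FF 10000 [1, 1] 721 80 = true) := ⟨by decide +kernel⟩
def w343 : PLift (pc FF 10000 [1, 1] 801 80 = true) := ⟨by decide +kernel⟩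
def w344 : PLift (pc FF 10000 [1, 1] 881 80 = true) := ⟨by decide +kernel⟩
def w345 : PLift (pc FF 10000 [1, 1] 961 80 = true) := ⟨by decide +kernel⟩
def w346 : PLift (pc FF 10000 [1, 1] 1041 80 = true) := ⟨by decide +kernel⟩
def w347 : PLift (pc FF 10000 [1, 1] 1121 80 = true) := ⟨by decide +kernel⟩
def w348 : PLift (pc FF 10000 [1, 1] 1201 80 = true) := ⟨by decide +kernel⟩
def w349 : PLift (pc FF 10000 [1, 1] 1281 80 = true) := ⟨by decide +kernel⟩
def w350 : PLift (pc FF 10000 [1, 1] 1361 80 = true) := ⟨by decide +kernel⟩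
def w351 : PLift (pc FF 10000 [1, 1] 1441 80 = true) := ⟨by decide +kernel⟩
def w352 : PLift (pc FF 10000 [1, 1] 1521 80 = true) := ⟨by decide +kernel⟩
def w353 : PLift (pc FF 10000 [1, 1] 1601 80 = true) := ⟨by decide +kernel⟩

end Pool.Agent.SU
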