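import Pool.Agent.SU.FDef

/-! generated: parts of the tree -/

namespace Pool.Agent.SU

set_option maxRecDepth 100000

def w354 : PLift (pc FF 10000 [1, 1] 1681 80 = true) := ⟨by decide +kernel⟩
def w355 : PLift (pc FF 10000 [1, 1] 1761 80 = true) := ⟨by decide +kernel⟩
def w356 : PLift (pc FF 10000 [1, 1] 1841 80 = true) := ⟨by decide +kernel⟩
def w357 : PLift (pc FF 10000 [1, 1] 1921 80 = true) := ⟨by decide +kernel⟩
def w358 : PLift (pc FF 10000 [1, 1] 2001 80 = true) := ⟨by decide +kernel⟩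
def w359 : PLift (pc FF 10000 [1, 1] 2081 80 = true) := ⟨by decide +kernel⟩
def w360 : PLift (pc FF 10000 [1, 1] 2161 80 = true) := ⟨by decide +kernel⟩
def w361 : PLift (pc FF 10000 [1, 1] 2241 80 = true) := ⟨by decide +kernel⟩
def w362 : PLift (pc FF 10000 [1, 1] 2321 80 = true) := ⟨by decide +kernel⟩
def w363 : PLift (pc FF 10000 [1, 1] 2401 80 = true) := ⟨by decide +kernel⟩
def w364 : PLift (pc FF 10000 [1, 1] 2481 19 = true) := ⟨by decide +kernel⟩
def w365 : PLift (oc FF [1, 1, 1] = true) := ⟨by decide +kernel⟩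
def w366 : PLift (ec FF [1, 1, 1] 1 = true) := ⟨by decide +kernel⟩
def w367 : PLift (ec FF [1, 1, 1] 2 = true) := ⟨by decide +kernel⟩
def w368 : PLift (ec FF [1, 1, 1] 3 = true) := ⟨by decide +kernel⟩
def w369 : PLift (ec FF [1, 1, 1] 4 = true) := ⟨by decide +kernel⟩
def w370 : PLift (ec FF [1, 1, 1] 5 = true) := ⟨by decide +kernel⟩
def w371 : PLift (pc FF 10000 [1, 1, 1] 6 1 = true) := ⟨by decide +kernel⟩
def w372 : PLift (pc FF 10000 [1, 1, 1] 7 1 = true) := ⟨by decide +kernel⟩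
def w373 : PLift (pc FF 10000 [1, 1, 1] 8 2 = true) := ⟨by decide +kernel⟩
def w374 : PLift (pc FF 10000 [1, 1, 1] 10 5 = true) := ⟨by decide +kernel⟩
def w375 : PLift (pc FF 10000 [1, 1, 1] 15 20 = true) := ⟨by decide +kernel⟩
def w376 : PLift (pc FF 10000 [1, 1, 1] 35 80 = true) := ⟨by decide +kernel⟩
def w377 : PLift (pc FF 10000 [1, 1, 1] 115 80 = true) := ⟨by decide +kernel⟩
def w378 : PLift (pc FF 10000 [1, 1, 1] 195 80 = true) := ⟨by decide +kernel⟩
def w379 : PLift (pc FF 10000 [1, 1, 1] 275 80 = true) := ⟨by decide +kernel⟩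
def w380 : PLift (pc FF 10000 [1, 1, 1] 355 80 = true) := ⟨by decide +kernel⟩
def w381 : PLift (pc FF 10000 [1, 1, 1] 435 80 = true) := ⟨by decide +kernel⟩
def w382 : PLift (pc FF 10000 [1, 1, 1] 515 80 = true) := ⟨by decide +kernel⟩
def w383 : PLift (pc FF 10000 [1, 1, 1] 595 80 = true) := ⟨by decide +kernel⟩
def w384 : PLift (pc FF 10000 [1, 1, 1] 675 80 = true) := ⟨by decide +kernel⟩
def w385 : PLift (pc FF 10000 [1, 1, 1] 755 80 = true) := ⟨by decide +kernel⟩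
def w386 : PLift (pc FF 10000 [1, 1, 1] 835 80 = true) := ⟨by decide +kernel⟩
def w387 : PLift (pc FF 10000 [1, 1, 1] 915 80 = true) := ⟨by decide +kernel⟩
def w388 : PLift (pc FF 10000 [1, 1, 1] 995 80 = true) := ⟨by decide +kernel⟩
def w389 : PLift (pc FF 10000 [1, 1, 1] 1075 35 = true) := ⟨by decide +kernel⟩
def w390 : PLift (oc FF [1, 1, 1, 1] = true) := ⟨by decide +kernel⟩
def w391 : PLift (ec FF [1, 1, 1, 1] 1 = true) := ⟨by decide +kernel⟩
def w392 : PLift (ec FF [1, 1, 1, 1] 2 = true) := ⟨by decide +kernel⟩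
def w393 : PLift (pc FF 10000 [1, 1, 1, 1] 3 1 = true) := ⟨by decide +kernel⟩
def w394 : PLift (pc FF 10000 [1, 1, 1, 1] 4 2 = true) := ⟨by decide +kernel⟩
def w395 : PLift (pc FF 10000 [1, 1, 1, 1] 6 10 = true) := ⟨by decide +kernel⟩
def w396 : PLift (pc FF 10000 [1, 1, 1, 1] 16 73 = true) := ⟨by decide +kernel⟩
def w397 : PLift (pc FF 10000 [1, 1, 1, 1] 89 80 = true) := ⟨by decide +kernel⟩
def w398 : PLift (pc FF 10000 [1, 1, 1, 1] 169 80 = true) := ⟨by decide +kernel⟩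
def w399 : PLift (pc FF 10000 [1, 1, 1, 1] 249 80 = true) := ⟨by decide +kernel⟩
def w400 : PLift (pc FF 10000 [1, 1, 1, 1] 329 70 = true) := ⟨by decide +kernel⟩
def w401 : PLift (oc FF [1, 1, 1, 1, 1] = true) := ⟨by decide +kernel⟩
def w402 : PLift (ec FF [1, 1, 1, 1, 1] 1 = true) := ⟨by decide +kernel⟩
def w403 : PLift (pc FF 10000 [1, 1, 1, 1, 1] 2 2 = true) := ⟨by decide +kernel⟩
def w404 : PLift (pc FF 10000 [1, 1, 1, 1, 1] 4 44 = true) := ⟨by decide +kernel⟩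
def w405 : PLift (pc FF 10000 [1, 1, 1, 1, 1] 48 80 = true) := ⟨by decide +kernel⟩
def w406 : PLift (pc FF 10000 [1, 1, 1, 1, 1] 128 28 = true) := ⟨by decide +kernel⟩
def w407 : PLift (oc FF [1, 1, 1, 1, 1, 1] = true) := ⟨by decide +kernel⟩
def w408 : PLift (pc FF 10000 [1, 1, 1, 1, 1, 1] 1 10 = true) := ⟨by decide +kernel⟩
def w409 : PLift (pc FF 10000 [1, 1, 1, 1, 1, 1] 11 47 = true) := ⟨by decide +kernel⟩
def w410 : PLift (oc FF [1, 1, 1, 1, 2] = true) := ⟨by decide +kernel⟩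

end Pool.Agent.SU
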