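import Pool.Agent.SU.FDef

/-! generated: parts of the tree -/

namespace Pool.Agent.SU

set_option maxRecDepth 100000

def w411 : PLift (pc FF 10000 [1, 1, 1, 1, 2] 1 3 = true) := ⟨by decide +kernel⟩
def w412 : PLift (pc FF 10000 [1, 1, 1, 1, 2] 4 55 = true) := ⟨by decide +kernel⟩
def w413 : PLift (oc FF [1, 1, 1, 2] = true) := ⟨by decide +kernel⟩
def w414 : PLift (ec FF [1, 1, 1, 2] 1 = true) := ⟨by decide +kernel⟩
def w415 : PLift (pc FF 10000 [1, 1, 1, 2] 2 1 = true) := ⟨by decide +kernel⟩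
def w416 : PLift (pc FF 10000 [1, 1, 1, 2] 3 12 = true) := ⟨by decide +kernel⟩
def w417 : PLift (pc FF 10000 [1, 1, 1, 2] 15 80 = true) := ⟨by decide +kernel⟩
def w418 : PLift (pc FF 10000 [1, 1, 1, 2] 95 61 = true) := ⟨by decide +kernel⟩
def w419 : PLift (oc FF [1, 1, 1, 2, 1] = true) := ⟨by decide +kernel⟩
def w420 : PLift (pc FF 10000 [1, 1, 1, 2, 1] 1 2 = true) := ⟨by decide +kernel⟩
def w421 : PLift (pc FF 10000 [1, 1, 1, 2, 1] 3 57 = true) := ⟨by decide +kernel⟩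
def w422 : PLift (pc FF 10000 [1, 1, 1, 2, 1] 60 22 = true) := ⟨by decide +kernel⟩
def w423 : PLift (oc FF [1, 1, 1, 3] = true) := ⟨by decide +kernel⟩
def w424 : PLift (ec FF [1, 1, 1, 3] 1 = true) := ⟨by decide +kernel⟩
def w425 : PLift (pc FF 10000 [1, 1, 1, 3] 2 23 = true) := ⟨by decide +kernel⟩
def w426 : PLift (pc FF 10000 [1, 1, 1, 3] 25 58 = true) := ⟨by decide +kernel⟩
def w427 : PLift (oc FF [1, 1, 1, 3, 1] = true) := ⟨by decide +kernel⟩
def w428 : PLift (pc FF 10000 [1, 1, 1, 3, 1] 1 34 = true) := ⟨by decide +kernel⟩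
def w429 : PLift (pc FF 10000 [1, 1, 1, 3, 1] 35 15 = true) := ⟨by decide +kernel⟩
def w430 : PLift (oc FF [1, 1, 1, 4] = true) := ⟨by decide +kernel⟩
def w431 : PLift (pc FF 10000 [1, 1, 1, 4] 1 2 = true) := ⟨by decide +kernel⟩
def w432 : PLift (pc FF 10000 [1, 1, 1, 4] 3 48 = true) := ⟨by decide +kernel⟩
def w433 : PLift (oc FF [1, 1, 1, 5] = true) := ⟨by decide +kernel⟩
def w434 : PLift (pc FF 10000 [1, 1, 1, 5] 1 22 = true) := ⟨by decide +kernel⟩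
def w435 : PLift (pc FF 10000 [1, 1, 1, 5] 23 12 = true) := ⟨by decide +kernel⟩
def w436 : PLift (oc FF [1, 1, 2] = true) := ⟨by decide +kernel⟩
def w437 : PLift (ec FF [1, 1, 2] 1 = true) := ⟨by decide +kernel⟩
def w438 : PLift (ec FF [1, 1, 2] 2 = true) := ⟨by decide +kernel⟩
def w439 : PLift (ec FF [1, 1, 2] 3 = true) := ⟨by decide +kernel⟩
def w440 : PLift (pc FF 10000 [1, 1, 2] 4 2 = true) := ⟨by decide +kernel⟩
def w441 : PLift (pc FF 10000 [1, 1, 2] 6 9 = true) := ⟨by decide +kernel⟩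
def w442 : PLift (pc FF 10000 [1, 1, 2] 15 71 = true) := ⟨by decide +kernel⟩
def w443 : PLift (pc FF 10000 [1, 1, 2] 86 80 = true) := ⟨by decide +kernel⟩
def w444 : PLift (pc FF 10000 [1, 1, 2] 166 80 = true) := ⟨by decide +kernel⟩
def w445 : PLift (pc FF 10000 [1, 1, 2] 246 80 = true) := ⟨by decide +kernel⟩
def w446 : PLift (pc FF 10000 [1, 1, 2] 326 74 = true) := ⟨by decide +kernel⟩
def w447 : PLift (oc FF [1, 1, 2, 1] = true) := ⟨by decide +kernel⟩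
def w448 : PLift (ec FF [1, 1, 2, 1] 1 = true) := ⟨by decide +kernel⟩
def w449 : PLift (pc FF 10000 [1, 1, 2, 1] 2 1 = true) := ⟨by decide +kernel⟩
def w450 : PLift (pc FF 10000 [1, 1, 2, 1] 3 6 = true) := ⟨by decide +kernel⟩
def w451 : PLift (pc FF 10000 [1, 1, 2, 1] 9 71 = true) := ⟨by decide +kernel⟩
def w452 : PLift (pc FF 10000 [1, 1, 2, 1] 80 80 = true) := ⟨by decide +kernel⟩
def w453 : PLift (pc FF 10000 [1, 1, 2, 1] 160 43 = true) := ⟨by decide +kernel⟩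
def w454 : PLift (oc FF [1, 1, 2, 1, 1] = true) := ⟨by decide +kernel⟩
def w455 : PLift (pc FF 10000 [1, 1, 2, 1, 1] 1 3 = true) := ⟨by decide +kernel⟩
def w456 : PLift (pc FF 10000 [1, 1, 2, 1, 1] 4 65 = true) := ⟨by decide +kernel⟩
def w457 : PLift (oc FF [1, 1, 2, 2] = true) := ⟨by decide +kernel⟩
def w458 : PLift (pc FF 10000 [1, 1, 2, 2] 1 1 = true) := ⟨by decide +kernel⟩
def w459 : PLift (pc FF 10000 [1, 1, 2, 2] 2 41 = true) := ⟨by decide +kernel⟩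
def w460 : PLift (pc FF 10000 [1, 1, 2, 2] 43 26 = true) := ⟨by decide +kernel⟩
def w461 : PLift (oc FF [1, 1, 2, 3] = true) := ⟨by decide +kernel⟩
def w462 : PLift (pc FF 10000 [1, 1, 2, 3] 1 34 = true) := ⟨by decide +kernel⟩
def w463 : PLift (oc FF [1, 1, 3] = true) := ⟨by decide +kernel⟩
def w464 : PLift (ec FF [1, 1, 3] 1 = true) := ⟨by decide +kernel⟩
def w465 : PLift (ec FF [1, 1, 3] 2 = true) := ⟨by decide +kernel⟩
def w466 : PLift (pc FF 10000 [1, 1, 3] 3 3 = true) := ⟨by decide +kernel⟩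
def w467 : PLift (pc FF 10000 [1, 1, 3] 6 50 = true) := ⟨by decide +kernel⟩
def w468 : PLift (pc FF 10000 [1, 1, 3] 56 80 = true) := ⟨by decide +kernel⟩
def w469 : PLift (pc FF 10000 [1, 1, 3] 136 68 = true) := ⟨by decide +kernel⟩
def w470 : PLift (oc FF [1, 1, 3, 1] = true) := ⟨by decide +kernel⟩
def w471 : PLift (pc FF 10000 [1, 1, 3, 1] 1 1 = true) := ⟨by decide +kernel⟩
def w472 : PLift (pc FF 10000 [1, 1, 3, 1] 2 10 = true) := ⟨by decide +kernel⟩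
def w473 : PLift (pc FF 10000 [1, 1, 3, 1] 12 80 = true) := ⟨by decide +kernel⟩
def w474 : PLift (pc FF 10000 [1, 1, 3, 1] 92 30 = true) := ⟨by decide +kernel⟩
def w475 : PLift (oc FF [1, 1, 3, 2] = true) := ⟨by decide +kernel⟩

end Pool.Agent.SU
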